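import Pool.Statements.S15686
-- import your own Pool.Agent.* helpers here

set_option autoImplicit false
open Pool Pool.MP_1f8098_mp

namespace Pool.Agent.S15686

section helpers
open MvPolynomial Finset

variable {N : ℕ}

noncomputable def img (i j : Fin N) (k : Fin N) : MvPolynomial (Fin N) ℂ :=
  if k = i then C (((Real.sqrt 2 : ℝ) : ℂ)⁻¹) * (X i + X j)
  else if k = j then C (((Real.sqrt 2 : ℝ) : ℂ)⁻¹) * (X i - X j)
  else X k

noncomputable def rot (i j : Fin N) : MvPolynomial (Fin N) ℂ →ₐ[ℂ] MvPolynomial (Fin N) ℂ :=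
  aeval (img i j)

noncomputable def sq : ℂ := ((Real.sqrt 2 : ℝ) : ℂ)⁻¹

noncomputable def K (a b : ℕ) : ℂ := (a.choose 2 : ℂ) - a * b + (b.choose 2 : ℂ)

lemma img_left (i j : Fin N) : img i j i = C sq * (X i + X j) := by
  simp [img, sq]

lemma img_right {i j : Fin N} (h : i ≠ j) : img i j j = C sq * (X i - X j) := by
  simp [img, sq, h.symm]

lemma img_other {i j k : Fin N} (hi : k ≠ i) (hj : k ≠ j) : img i j k = X k := by
  simp [img, hi, hj]

lemma rot_monomial {i j : Fin N} (h : i ≠ j) (a b : ℕ) (β : Fin N →₀ ℕ)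
    (hi : β i = 0) (hj : β j = 0) :
    rot i j (monomial (Finsupp.single i a + Finsupp.single j b + β) 1) =
      C (sq ^ (a + b)) * ((X i + X j) ^ a * (X i - X j) ^ b) * monomial β 1 := by
  have e1 : (monomial (Finsupp.single i a + Finsupp.single j b + β) (1 : ℂ) : MvPolynomial (Fin N) ℂ)
      = X i ^ a * X j ^ b * monomial β 1 := by
    rw [X_pow_eq_monomial, X_pow_eq_monomial, monomial_mul, monomial_mul]
    simp
  rw [e1, map_mul, map_mul, map_pow, map_pow]
  have e2 : rot i j (monomial β (1 : ℂ)) = monomial β 1 := by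
    unfold rot
    rw [aeval_monomial, monomial_eq]
    congr 1
    apply Finsupp.prod_congr
    intro k hk
    have hk' : β k ≠ 0 := by simpa using hk
    rw [img_other]
    · rintro rfl; exact hk' hi
    · rintro rfl; exact hk' hj
  rw [e2]
  have e3 : rot i j (X i) = C sq * (X i + X j) := by
    unfold rot; rw [aeval_X, img_left]
  have e4 : rot i j (X j) = C sq * (X i - X j) := by
    unfold rot; rw [aeval_X, img_right h]
  rw [e3, e4, mul_pow, mul_pow, ← C_pow, ← C_pow, pow_add, C_mul]
  ring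

lemma expand (i j : Fin N) (a b : ℕ) :
    ((X i + X j) ^ a * (X i - X j) ^ b : MvPolynomial (Fin N) ℂ) =
      ∑ p ∈ range (a + 1), ∑ q ∈ range (b + 1),
        monomial (Finsupp.single i ((a - p) + (b - q)) + Finsupp.single j (p + q))
          ((a.choose p : ℂ) * (b.choose q : ℂ) * (-1) ^ q) := by
  have e1 : ((X i + X j) ^ a : MvPolynomial (Fin N) ℂ) =
      ∑ p ∈ range (a + 1), monomial (Finsupp.single i (a - p) + Finsupp.single j p)
        ((a.choose p : ℂ)) := by
    rw [add_comm (X i : MvPolynomial (Fin N) ℂ), add_pow]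
    apply Finset.sum_congr rfl
    intro p hp
    rw [X_pow_eq_monomial, X_pow_eq_monomial, monomial_mul]
    rw [show ((a.choose p : ℕ) : MvPolynomial (Fin N) ℂ) = C (a.choose p : ℂ) by simp]
    rw [mul_comm _ (C _), C_mul_monomial, add_comm (Finsupp.single j p)]
    simp
  have e2 : ((X i - X j) ^ b : MvPolynomial (Fin N) ℂ) =
      ∑ q ∈ range (b + 1), monomial (Finsupp.single i (b - q) + Finsupp.single j q)
        ((b.choose q : ℂ) * (-1) ^ q) := by
    rw [sub_eq_neg_add, add_pow]
    apply Finset.sum_congr rfl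
    intro p hp
    rw [neg_pow, X_pow_eq_monomial, X_pow_eq_monomial, mul_assoc ((-1) ^ p), monomial_mul]
    rw [show ((b.choose p : ℕ) : MvPolynomial (Fin N) ℂ) = C (b.choose p : ℂ) by simp]
    rw [show ((-1) ^ p : MvPolynomial (Fin N) ℂ) = C ((-1) ^ p) by simp]
    rw [mul_comm _ (C ((b.choose p : ℕ) : ℂ)), C_mul_monomial, C_mul_monomial,
      add_comm (Finsupp.single j p)]
    simp
  rw [e1, e2, Finset.sum_mul_sum]
  apply Finset.sum_congr rfl
  intro p hp
  apply Finset.sum_congr rfl
  intro q hq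
  rw [monomial_mul]
  have : (Finsupp.single i (a - p) + Finsupp.single j p + (Finsupp.single i (b - q) + Finsupp.single j q) : Fin N →₀ ℕ)
      = Finsupp.single i ((a - p) + (b - q)) + Finsupp.single j (p + q) := by
    rw [Finsupp.single_add, Finsupp.single_add]; abel
  rw [this, mul_assoc]


lemma sum_range_three (a : ℕ) (g : ℕ → ℂ) (h1 : ∀ p, a < p → g p = 0) (h2 : ∀ p, 3 ≤ p → g p = 0) :
    ∑ p ∈ range (a + 1), g p = ∑ p ∈ range 3, g p := by
  have e1 : ∑ p ∈ range (a + 1), g p = ∑ p ∈ range (max (a + 1) 3), g p := by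
    apply Finset.sum_subset
    · intro p hp; simp at hp ⊢; left; omega
    · intro p _ hp2; apply h1; simp at hp2; omega
  have e2 : ∑ p ∈ range 3, g p = ∑ p ∈ range (max (a + 1) 3), g p := by
    apply Finset.sum_subset
    · intro p hp; simp at hp ⊢; right; omega
    · intro p _ hp2; apply h2; simp at hp2; omega
  rw [e1, e2]

lemma sum_K (a b : ℕ) :
    ∑ p ∈ range (a + 1), ∑ q ∈ range (b + 1),
      (if p + q = 2 then ((a.choose p : ℂ) * (b.choose q : ℂ) * (-1) ^ q) else 0) = K a b := by
  rw [sum_range_three a]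
  · have : ∀ p, ∑ q ∈ range (b + 1),
      (if p + q = 2 then ((a.choose p : ℂ) * (b.choose q : ℂ) * (-1) ^ q) else 0)
      = ∑ q ∈ range 3,
      (if p + q = 2 then ((a.choose p : ℂ) * (b.choose q : ℂ) * (-1) ^ q) else 0) := by
      intro p
      apply sum_range_three b
      · intro q hq
        rw [Nat.choose_eq_zero_of_lt hq]; simp
      · intro q hq
        rw [if_neg (by omega)]
    rw [Finset.sum_congr rfl (fun p _ => this p)]
    simp only [Finset.sum_range_succ, Finset.sum_range_zero]
    unfold K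
    simp
    ring
  · intro p hp
    apply Finset.sum_eq_zero
    intro q _
    rw [Nat.choose_eq_zero_of_lt hp]; simp
  · intro p hp
    apply Finset.sum_eq_zero
    intro q _
    rw [if_neg (by omega)]

lemma key_eq_iff {i j : Fin N} (h : i ≠ j) (x y x' y' : ℕ) (β β' : Fin N →₀ ℕ)
    (hi : β i = 0) (hj : β j = 0) (hi' : β' i = 0) (hj' : β' j = 0) :
    (Finsupp.single i x + Finsupp.single j y + β = Finsupp.single i x' + Finsupp.single j y' + β')
      ↔ (x = x' ∧ y = y' ∧ β = β') := by
  constructor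
  · intro e
    have e1 := DFunLike.congr_fun e i
    have e2 := DFunLike.congr_fun e j
    simp [h, h.symm, hi, hi', hj, hj', Finsupp.single_apply] at e1 e2
    refine ⟨e1, e2, ?_⟩
    subst e1; subst e2
    exact add_left_cancel e
  · rintro ⟨rfl, rfl, rfl⟩; rfl

lemma coeff_rot_monomial {i j : Fin N} (h : i ≠ j) (a b u : ℕ) (β β₀ : Fin N →₀ ℕ)
    (hi : β i = 0) (hj : β j = 0) (hi0 : β₀ i = 0) (hj0 : β₀ j = 0) :
    coeff (Finsupp.single i u + Finsupp.single j 2 + β₀)
      (rot i j (monomial (Finsupp.single i a + Finsupp.single j b + β) 1)) =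
      if a + b = u + 2 ∧ β = β₀ then sq ^ (a + b) * K a b else 0 := by
  rw [rot_monomial h a b β hi hj, expand, mul_assoc, coeff_C_mul, Finset.sum_mul, coeff_sum]
  have e1 : ∀ p ∈ range (a + 1), coeff (Finsupp.single i u + Finsupp.single j 2 + β₀)
      ((∑ q ∈ range (b + 1), monomial (Finsupp.single i ((a - p) + (b - q)) + Finsupp.single j (p + q))
          ((a.choose p : ℂ) * (b.choose q : ℂ) * (-1) ^ q)) * monomial β 1 : MvPolynomial (Fin N) ℂ)
      = ∑ q ∈ range (b + 1), (if a + b = u + 2 ∧ β = β₀ then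
          (if p + q = 2 then ((a.choose p : ℂ) * (b.choose q : ℂ) * (-1) ^ q) else 0) else 0) := by
    intro p hp
    rw [Finset.sum_mul, coeff_sum]
    apply Finset.sum_congr rfl
    intro q hq
    rw [monomial_mul, coeff_monomial, mul_one]
    have hp' : p ≤ a := by simp at hp; omega
    have hq' : q ≤ b := by simp at hq; omega
    by_cases hc : a + b = u + 2 ∧ β = β₀
    · rw [if_pos hc]
      by_cases hpq : p + q = 2
      · rw [if_pos hpq, if_pos]
        rw [key_eq_iff h _ _ _ _ _ _ hi hj hi0 hj0]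
        exact ⟨by omega, hpq, hc.2⟩
      · rw [if_neg hpq, if_neg]
        rw [key_eq_iff h _ _ _ _ _ _ hi hj hi0 hj0]
        rintro ⟨_, h2, _⟩; exact hpq h2
    · rw [if_neg hc, if_neg]
      rw [key_eq_iff h _ _ _ _ _ _ hi hj hi0 hj0]
      rintro ⟨h1, h2, h3⟩
      exact hc ⟨by omega, h3⟩
  rw [Finset.sum_congr rfl e1]
  by_cases hc : a + b = u + 2 ∧ β = β₀
  · simp only [if_pos hc]
    rw [sum_K]
  · simp only [if_neg hc]; simp

/-- decomposition of an exponent -/
lemma decomp {i j : Fin N} (h : i ≠ j) (α : Fin N →₀ ℕ) :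
    α = Finsupp.single i (α i) + Finsupp.single j (α j) + (α.erase i).erase j := by
  ext k
  by_cases hi : k = i
  · subst hi; simp [Finsupp.erase, h]
  · by_cases hj : k = j
    · subst hj; simp [Finsupp.erase, h]
    · simp [Finsupp.erase, Finsupp.single_apply, hi, hj, Ne.symm hi, Ne.symm hj]

lemma coeff_rot {i j : Fin N} (h : i ≠ j) (u : ℕ) (β : Fin N →₀ ℕ)
    (hi : β i = 0) (hj : β j = 0) (φ : MvPolynomial (Fin N) ℂ) :
    coeff (Finsupp.single i u + Finsupp.single j 2 + β) (rot i j φ) =
      sq ^ (u + 2) * ∑ ab ∈ Finset.HasAntidiagonal.antidiagonal (u + 2),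
        K ab.1 ab.2 * coeff (Finsupp.single i ab.1 + Finsupp.single j ab.2 + β) φ := by
  -- linear in φ, so check on monomials
  induction φ using MvPolynomial.induction_on' with
  | add p q hp hq =>
    rw [map_add, coeff_add, hp, hq, ← mul_add, ← Finset.sum_add_distrib]
    congr 1
    apply Finset.sum_congr rfl
    intro ab _
    rw [coeff_add]; ring
  | monomial α c =>
    have e0 : (monomial α c : MvPolynomial (Fin N) ℂ) = C c * monomial α 1 := by
      rw [C_mul_monomial, mul_one]
    rw [e0, map_mul]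
    have e1 : rot i j (C c) = C c := by
      unfold rot; simp
    rw [e1, coeff_C_mul]
    simp only [coeff_C_mul]
    have hβ' : ((α.erase i).erase j) i = 0 := by simp [Finsupp.erase, h]
    have hβ'' : ((α.erase i).erase j) j = 0 := by simp [Finsupp.erase]
    have e2 := coeff_rot_monomial h (α i) (α j) u ((α.erase i).erase j) β hβ' hβ'' hi hj
    rw [← decomp h α] at e2
    rw [e2]
    have e3 : ∀ ab ∈ Finset.HasAntidiagonal.antidiagonal (u + 2),
        K ab.1 ab.2 * (c * coeff (Finsupp.single i ab.1 + Finsupp.single j ab.2 + β)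
          (monomial α 1 : MvPolynomial (Fin N) ℂ)) =
        if ab = (α i, α j) then (if (α.erase i).erase j = β then c * K (α i) (α j) else 0) else 0 := by
      intro ab _
      rw [coeff_monomial]
      conv_lhs => rw [decomp h α]
      simp only [key_eq_iff h _ _ _ _ _ _ hβ' hβ'' hi hj]
      by_cases hab : ab = (α i, α j)
      · subst hab
        by_cases hb : (α.erase i).erase j = β
        · simp [hb, mul_comm]
        · simp [hb]
      · rw [if_neg hab, if_neg]
        · simp
        · rintro ⟨h1, h2, _⟩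
          apply hab
          rw [h1, h2]
    rw [Finset.sum_congr rfl e3, Finset.sum_ite_eq']
    by_cases hc : α i + α j = u + 2
    · by_cases hb : (α.erase i).erase j = β
      · rw [if_pos ⟨hc, hb⟩, if_pos (by simpa using hc), if_pos hb, hc]; ring
      · rw [if_neg (fun h => hb h.2), if_pos (by simpa using hc), if_neg hb]; simp
    · rw [if_neg (fun h => hc h.1), if_neg (by simpa using hc)]; simp


/-- the kernel condition for symmetric polynomials -/
def Sym (φ : MvPolynomial (Fin N) ℂ) : Prop := ∀ σ : Equiv.Perm (Fin N), rename (⇑σ) φ = φ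

def Ker (φ : MvPolynomial (Fin N) ℂ) : Prop :=
  ∀ i j : Fin N, i < j → ∀ γ ∈ (rot i j φ).support, γ j ≠ 2

lemma ker_rel {φ : MvPolynomial (Fin N) ℂ} (hk : Ker φ) {i j : Fin N} (h : i < j) (u : ℕ)
    (β : Fin N →₀ ℕ) (hi : β i = 0) (hj : β j = 0) :
    ∑ ab ∈ Finset.HasAntidiagonal.antidiagonal (u + 2),
        K ab.1 ab.2 * coeff (Finsupp.single i ab.1 + Finsupp.single j ab.2 + β) φ = 0 := by
  have h1 := coeff_rot (ne_of_lt h) u β hi hj φ
  have h2 : coeff (Finsupp.single i u + Finsupp.single j 2 + β) (rot i j φ) = 0 := by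
    by_contra hne
    have := hk i j h _ (mem_support_iff.mpr hne)
    apply this
    simp [hj, (ne_of_lt h)]
  rw [h2] at h1
  have h3 : sq ^ (u + 2) ≠ 0 := by
    apply pow_ne_zero
    unfold sq
    simp
  exact (mul_eq_zero.mp h1.symm).resolve_left h3

lemma K_left (k : ℕ) : K k 0 = (k.choose 2 : ℂ) := by simp [K]
lemma K_right (k : ℕ) : K 0 k = (k.choose 2 : ℂ) := by simp [K]

lemma coeff_swap {φ : MvPolynomial (Fin N) ℂ} (hs : Sym φ) (i j : Fin N) (h : i ≠ j) (k : ℕ)
    (β : Fin N →₀ ℕ) (hi : β i = 0) (hj : β j = 0) :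
    coeff (Finsupp.single i k + β) φ = coeff (Finsupp.single j k + β) φ := by
  have h1 := coeff_rename_mapDomain (Equiv.swap i j) (Equiv.injective _) φ (Finsupp.single i k + β)
  rw [hs (Equiv.swap i j)] at h1
  rw [← h1]
  congr 1
  ext x
  rw [Finsupp.mapDomain_equiv_apply]
  by_cases hxi : x = i
  · subst hxi; simp [h, h.symm, hi, hj]
  · by_cases hxj : x = j
    · subst hxj; simp [hi, hj]
    · rw [Equiv.symm_swap, Equiv.swap_apply_of_ne_of_ne hxi hxj]
      simp [Finsupp.single_apply, Ne.symm hxi, Ne.symm hxj]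

lemma ends_zero {k : ℕ} (hk2 : 2 ≤ k) {f : ℕ × ℕ → ℂ} {c : ℂ} (h0 : f (k, 0) = c) (h1 : f (0, k) = c)
    (hmid : ∀ a b, 1 ≤ a → 1 ≤ b → a + b = k → f (a, b) = 0)
    (hsum : ∑ ab ∈ Finset.HasAntidiagonal.antidiagonal k, K ab.1 ab.2 * f ab = 0) : c = 0 := by
  have hsub : ({(k, 0), (0, k)} : Finset (ℕ × ℕ)) ⊆ Finset.HasAntidiagonal.antidiagonal k := by
    intro x hx
    simp at hx
    rcases hx with rfl | rfl <;> simp
  have h2 : ∑ ab ∈ Finset.HasAntidiagonal.antidiagonal k, K ab.1 ab.2 * f ab =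
      ∑ ab ∈ ({(k, 0), (0, k)} : Finset (ℕ × ℕ)), K ab.1 ab.2 * f ab := by
    symm
    apply Finset.sum_subset hsub
    rintro ⟨a, b⟩ hab hnot
    have hab' : a + b = k := by simpa using hab
    simp at hnot
    rw [hmid a b (by omega) (by omega) hab', mul_zero]
  rw [h2, Finset.sum_pair (by simp; omega)] at hsum
  simp only [h0, h1, K_left, K_right] at hsum
  have h3 : (k.choose 2 : ℂ) ≠ 0 := by
    have : 0 < k.choose 2 := Nat.choose_pos hk2
    exact_mod_cast this.ne'
  have h4 : (2 * (k.choose 2 : ℂ)) * c = 0 := by linear_combination hsum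
  rcases mul_eq_zero.mp h4 with h5 | h5
  · exact absurd h5 (mul_ne_zero two_ne_zero h3)
  · exact h5

lemma step {φ : MvPolynomial (Fin N) ℂ} (hs : Sym φ) (hk : Ker φ) (i j : Fin N) (h : i ≠ j)
    (k : ℕ) (hk2 : 2 ≤ k)
    (β : Fin N →₀ ℕ) (hi : β i = 0) (hj : β j = 0)
    (hmid : ∀ a b, 1 ≤ a → 1 ≤ b → a + b = k →
      coeff (Finsupp.single i a + Finsupp.single j b + β) φ = 0) :
    coeff (Finsupp.single i k + β) φ = 0 := by
  obtain ⟨u, hu⟩ : ∃ u, k = u + 2 := ⟨k - 2, by omega⟩
  rcases lt_or_gt_of_ne h with hlt | hgt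
  · have hr := ker_rel hk hlt u β hi hj
    rw [← hu] at hr
    exact ends_zero hk2 (f := fun ab => coeff (Finsupp.single i ab.1 + Finsupp.single j ab.2 + β) φ)
      (by simp) (by simpa using (coeff_swap hs i j h k β hi hj).symm) hmid hr
  · have hr := ker_rel hk hgt u β hj hi
    rw [← hu] at hr
    apply ends_zero hk2 (f := fun ab => coeff (Finsupp.single j ab.1 + Finsupp.single i ab.2 + β) φ)
      (by simpa using (coeff_swap hs i j h k β hi hj).symm) (by simp) _ hr
    intro a b ha hb hab
    have := hmid b a hb ha (by omega)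
    simp only
    rw [add_comm (Finsupp.single j a)]
    exact this

noncomputable def ones : Fin N →₀ ℕ := Finsupp.equivFunOnFinite.symm (fun _ => 1)

lemma vanish {φ : MvPolynomial (Fin N) ℂ} (hs : Sym φ) (hk : Ker φ) (h1 : coeff ones φ = 0) :
    ∀ n : ℕ, ∀ α : Fin N →₀ ℕ, (univ.filter (fun k => α k = 0)).card = n →
      ∑ k, α k = N → coeff α φ = 0 := by
  intro n
  induction n using Nat.strong_induction_on with
  | _ n ih =>
    intro α hn hsum
    by_cases hall : ∀ k, 1 ≤ α k
    · have hα : α = ones := by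
        have hle : ∀ k ∈ (univ : Finset (Fin N)), (1 : ℕ) ≤ α k := fun k _ => hall k
        have hs1 : ∑ k : Fin N, (1 : ℕ) = ∑ k, α k := by rw [hsum]; simp
        have := (Finset.sum_eq_sum_iff_of_le hle).mp hs1
        ext k
        simp only [ones, Finsupp.equivFunOnFinite_symm_apply_apply]
        exact (this k (mem_univ k)).symm
      rw [hα]; exact h1
    · push Not at hall
      obtain ⟨j, hj⟩ := hall
      have hj0 : α j = 0 := by omega
      have hex : ∃ i, 2 ≤ α i := by
        by_contra hcon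
        push Not at hcon
        have hlt : ∑ k, α k < ∑ k : Fin N, 1 := by
          apply Finset.sum_lt_sum
          · intro k _; have := hcon k; omega
          · exact ⟨j, mem_univ j, by omega⟩
        rw [hsum] at hlt
        simp at hlt
      obtain ⟨i, hi⟩ := hex
      have hij : i ≠ j := by rintro rfl; omega
      have hα : α = Finsupp.single i (α i) + α.erase i := (Finsupp.single_add_erase i α).symm
      rw [hα]
      apply step hs hk i j hij (α i) hi (α.erase i) (by simp) (by simp [Finsupp.erase, hij.symm, hj0])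
      intro a b ha hb hab
      set α' := Finsupp.single i a + Finsupp.single j b + α.erase i with hα'
      have hαi : α' i = a := by simp [hα', hij.symm]
      have hαj : α' j = b := by simp [hα', hij, hij.symm, Finsupp.erase, hj0]
      have hαk : ∀ k, k ≠ i → k ≠ j → α' k = α k := by
        intro k hki hkj
        simp [hα', Finsupp.erase, Finsupp.single_apply, hki, Ne.symm hki, Ne.symm hkj]
      have hcard : (univ.filter (fun k => α' k = 0)).card < n := by
        rw [← hn]
        apply Finset.card_lt_card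
        rw [Finset.ssubset_iff_of_subset]
        · exact ⟨j, by simp [hj0], by simp [hαj]; omega⟩
        · intro k hk'
          simp at hk' ⊢
          by_cases hki : k = i
          · subst hki; rw [hαi] at hk'; omega
          · by_cases hkj : k = j
            · subst hkj; exact hj0
            · rw [← hαk k hki hkj]; exact hk'
      have hsum' : ∑ k, α' k = N := by
        refine Eq.trans ?_ hsum
        conv_rhs => rw [hα]
        simp only [hα', Finsupp.add_apply, Finset.sum_add_distrib]
        congr 1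
        have e1 : ∀ (x : Fin N) (c : ℕ), ∑ k, (Finsupp.single x c) k = c := by
          intro x c
          simp [Finsupp.single_apply]
        rw [e1, e1, e1]
        exact hab
      exact ih _ hcard α' rfl hsum'


noncomputable def P (N : ℕ) : MvPolynomial (Fin N) ℂ := (∑ i, X i) ^ N
noncomputable def S (N : ℕ) : MvPolynomial (Fin N) ℂ := ∑ i, X i ^ N
noncomputable def lam (N : ℕ) : ℂ := (N : ℂ) / (N : ℂ) ^ N
noncomputable def psi (N : ℕ) : MvPolynomial (Fin N) ℂ := S N - C (lam N) * P N

lemma coeff_P (α : Fin N →₀ ℕ) :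
    coeff α (P N) = if ∑ k, α k = N then (Nat.multinomial univ α : ℂ) else 0 := by
  unfold P
  rw [Finset.sum_pow_eq_sum_piAntidiag, coeff_sum]
  have e1 : ∀ k : Fin N → ℕ, ((Nat.multinomial univ k : ℕ) : MvPolynomial (Fin N) ℂ) *
      ∏ i, X i ^ k i = monomial (Finsupp.equivFunOnFinite.symm k) (Nat.multinomial univ k : ℂ) := by
    intro k
    rw [monomial_eq, Finsupp.prod_fintype]
    · simp
    · intro i; simp
  simp only [e1, coeff_monomial]
  have e2 : ∀ k : Fin N → ℕ, (Finsupp.equivFunOnFinite.symm k = α) ↔ (k = ⇑α) := by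
    intro k
    constructor
    · rintro rfl; rfl
    · rintro rfl; ext; rfl
  simp only [e2]
  rw [Finset.sum_ite_eq']
  simp [Finset.mem_piAntidiag]

lemma coeff_P_mul (α : Fin N →₀ ℕ) (h : ∑ k, α k = N) :
    coeff α (P N) * ∏ k : Fin N, ((Nat.factorial (α k) : ℕ) : ℂ) = (Nat.factorial N : ℂ) := by
  rw [coeff_P, if_pos h, mul_comm]
  have := Nat.multinomial_spec univ α
  rw [h] at this
  rw [← this]
  push_cast
  ring

lemma sum_single (x : Fin N) (c : ℕ) : ∑ k, (Finsupp.single x c) k = c := by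
  simp [Finsupp.single_apply]

lemma coeff_S (α : Fin N →₀ ℕ) (h : ∑ k, α k ≠ N) : coeff α (S N) = 0 := by
  unfold S
  rw [coeff_sum]
  apply Finset.sum_eq_zero
  intro i _
  rw [X_pow_eq_monomial, coeff_monomial, if_neg]
  rintro rfl
  exact h (sum_single i N)

lemma coeff_psi_ne (α : Fin N →₀ ℕ) (h : ∑ k, α k ≠ N) : coeff α (psi N) = 0 := by
  unfold psi
  rw [coeff_sub, coeff_C_mul, coeff_S α h, coeff_P, if_neg h]; simp

lemma sym_P : Sym (P N) := by
  intro σ
  unfold P
  rw [map_pow, map_sum]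
  simp only [rename_X]
  rw [Equiv.sum_comp σ (fun i => (X i : MvPolynomial (Fin N) ℂ))]

lemma sym_S : Sym (S N) := by
  intro σ
  unfold S
  rw [map_sum]
  simp only [map_pow, rename_X]
  rw [Equiv.sum_comp σ (fun i => (X i ^ N : MvPolynomial (Fin N) ℂ))]

lemma sym_psi : Sym (psi N) := by
  intro σ
  unfold psi
  rw [map_sub, map_mul, sym_S σ, sym_P σ, rename_C]

lemma rot_P_coeff {i j : Fin N} (h : i ≠ j) (α : Fin N →₀ ℕ) (hα : α j ≠ 0) :
    coeff α (rot i j (P N)) = 0 := by
  by_contra hne
  have hmem := mem_support_iff.mpr hne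
  have hdeg : degreeOf j (rot i j (P N)) ≤ 0 := by
    unfold P
    rw [map_pow, map_sum]
    refine le_trans (degreeOf_pow_le _ _ _) ?_
    have : degreeOf j (∑ x, rot i j (X x : MvPolynomial (Fin N) ℂ)) = 0 := by
      have e : ∑ x, rot i j (X x : MvPolynomial (Fin N) ℂ) =
          C (2 * sq) * X i + ∑ x ∈ (univ.erase j).erase i, X x := by
        rw [← Finset.add_sum_erase univ _ (mem_univ j), ← Finset.add_sum_erase (univ.erase j) _ (a := i)
          (by simp [h])]
        have e3 : rot i j (X i) = C sq * (X i + X j) := by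
          unfold rot; rw [aeval_X, img_left]
        have e4 : rot i j (X j) = C sq * (X i - X j) := by
          unfold rot; rw [aeval_X, img_right h]
        rw [e3, e4, ← add_assoc]
        congr 1
        · rw [C_mul]
          have : (C 2 : MvPolynomial (Fin N) ℂ) = 2 := by
            exact map_ofNat C 2
          rw [this]; ring
        · apply Finset.sum_congr rfl
          intro x hx
          simp at hx
          unfold rot
          rw [aeval_X, img_other hx.1 hx.2]
      rw [e]
      apply Nat.le_zero.mp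
      refine le_trans (degreeOf_add_le _ _ _) ?_
      apply max_le
      · refine le_trans (degreeOf_C_mul_le _ _ _) ?_
        rw [degreeOf_X, if_neg h.symm]
      · refine le_trans (degreeOf_sum_le _ _ _) ?_
        apply Finset.sup_le
        intro x hx
        simp at hx
        rw [degreeOf_X, if_neg (Ne.symm hx.2)]
    rw [this]; simp
  have := (degreeOf_le_iff.mp hdeg) α hmem
  omega

lemma ker_P : Ker (P N) := by
  intro i j hij γ hγ hγj
  have := rot_P_coeff (ne_of_lt hij) γ (by omega)
  exact (mem_support_iff.mp hγ) this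


lemma ones_apply (k : Fin N) : (ones : Fin N →₀ ℕ) k = 1 := by
  simp [ones, Finsupp.equivFunOnFinite_symm_apply_apply]

lemma sum_ones : ∑ k, (ones : Fin N →₀ ℕ) k = N := by
  simp [ones_apply]

lemma coeff_ones_P : coeff ones (P N) = (Nat.factorial N : ℂ) := by
  have := coeff_P_mul (N := N) ones sum_ones
  simpa [ones_apply] using this

lemma sym_sub_C_mul {φ χ : MvPolynomial (Fin N) ℂ} (hφ : Sym φ) (hχ : Sym χ) (c : ℂ) :
    Sym (φ - C c * χ) := by
  intro σ
  rw [map_sub, map_mul, hφ σ, hχ σ, rename_C]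

lemma rot_C (i j : Fin N) (c : ℂ) : rot i j (C c) = C c := by
  unfold rot; simp

lemma ker_sub_C_mul {φ χ : MvPolynomial (Fin N) ℂ} (hφ : Ker φ) (hχ : Ker χ) (c : ℂ) :
    Ker (φ - C c * χ) := by
  intro i j hij γ hγ hγj
  rw [mem_support_iff] at hγ
  apply hγ
  rw [map_sub, map_mul, rot_C, coeff_sub, coeff_C_mul]
  have h1 : coeff γ (rot i j φ) = 0 := by
    by_contra hne
    exact hφ i j hij γ (mem_support_iff.mpr hne) hγj
  have h2 : coeff γ (rot i j χ) = 0 := by
    by_contra hne
    exact hχ i j hij γ (mem_support_iff.mpr hne) hγj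
  rw [h1, h2]; simp

lemma coeff_ker {φ : MvPolynomial (Fin N) ℂ} (hs : Sym φ) (hk : Ker φ) (α : Fin N →₀ ℕ)
    (hα : ∑ k, α k = N) :
    coeff α φ * ∏ k : Fin N, ((Nat.factorial (α k) : ℕ) : ℂ) = coeff ones φ := by
  have hf : (Nat.factorial N : ℂ) ≠ 0 := by exact_mod_cast (Nat.factorial_pos N).ne'
  have hs' := sym_sub_C_mul hs (sym_P (N := N)) (coeff ones φ / (Nat.factorial N : ℂ))
  have hk' := ker_sub_C_mul hk (ker_P (N := N)) (coeff ones φ / (Nat.factorial N : ℂ))
  have h1 : coeff ones (φ - C (coeff ones φ / (Nat.factorial N : ℂ)) * P N) = 0 := by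
    rw [coeff_sub, coeff_C_mul, coeff_ones_P]
    field_simp
    ring
  have h2 := vanish hs' hk' h1 _ α rfl hα
  rw [coeff_sub, coeff_C_mul, sub_eq_zero] at h2
  rw [h2, mul_assoc, coeff_P_mul α hα]
  field_simp

lemma eval_psi (hN : N ≠ 0) : eval (fun _ => (1 : ℂ)) (psi N) = 0 := by
  unfold psi S P lam
  simp [hN]

lemma sum_coeff_psi (hN : N ≠ 0) (s : Finset (Fin N →₀ ℕ)) (hs : (psi N).support ⊆ s) :
    ∑ α ∈ s, coeff α (psi N) = 0 := by
  have h1 := eval_eq (fun _ => (1 : ℂ)) (psi N)
  rw [eval_psi hN] at h1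
  simp at h1
  rw [← Finset.sum_subset hs (f := fun α => coeff α (psi N))]
  · exact h1.symm
  · intro α _ hα
    simpa using hα

lemma orth {φ : MvPolynomial (Fin N) ℂ} (hN : N ≠ 0) (hs : Sym φ) (hk : Ker φ) :
    φ.support.sum (fun α => (starRingEnd ℂ) (MvPolynomial.coeff α φ) *
          MvPolynomial.coeff α (psi N) * ∏ k : Fin N, ((Nat.factorial (α k) : ℕ) : ℂ)) = 0 := by
  have h1 : ∀ α ∈ φ.support, (starRingEnd ℂ) (MvPolynomial.coeff α φ) *
          MvPolynomial.coeff α (psi N) * ∏ k : Fin N, ((Nat.factorial (α k) : ℕ) : ℂ) =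
          (starRingEnd ℂ) (coeff ones φ) * coeff α (psi N) := by
    intro α _
    by_cases hα : ∑ k, α k = N
    · rw [← coeff_ker hs hk α hα, map_mul, map_prod]
      simp only [map_natCast]
      ring
    · rw [coeff_psi_ne α hα]; simp
  rw [Finset.sum_congr rfl h1, ← Finset.mul_sum]
  by_cases hb : coeff ones φ = 0
  · rw [hb]; simp
  · rw [sum_coeff_psi hN, mul_zero]
    intro α hα
    have hα' : ∑ k, α k = N := by
      by_contra hne
      rw [mem_support_iff, coeff_psi_ne α hne] at hα
      exact hα rfl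
    rw [mem_support_iff]
    intro h0
    have := coeff_ker hs hk α hα'
    rw [h0, zero_mul] at this
    exact hb this.symm

lemma rot_S_coeff {i j : Fin N} (h : i ≠ j) (u : ℕ) (β : Fin N →₀ ℕ) (hi : β i = 0) (hj : β j = 0) :
    coeff (Finsupp.single i u + Finsupp.single j 2 + β) (rot i j (S N)) =
      if N = u + 2 ∧ β = 0 then sq ^ N * (2 * (N.choose 2 : ℂ)) else 0 := by
  unfold S
  rw [map_sum, ← Finset.add_sum_erase univ _ (mem_univ j), ← Finset.add_sum_erase (univ.erase j) _ (a := i)
          (by simp [h]), coeff_add, coeff_add]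
  have e1 := coeff_rot_monomial h N 0 u 0 β rfl rfl hi hj
  have e2 := coeff_rot_monomial h 0 N u 0 β rfl rfl hi hj
  simp only [Finsupp.single_zero, add_zero, zero_add, K_left, K_right] at e1 e2
  rw [X_pow_eq_monomial, X_pow_eq_monomial, e1, e2]
  have e3 : coeff (Finsupp.single i u + Finsupp.single j 2 + β)
      (∑ x ∈ (univ.erase j).erase i, rot i j (X x ^ N : MvPolynomial (Fin N) ℂ)) = 0 := by
    rw [coeff_sum]
    apply Finset.sum_eq_zero
    intro x hx
    simp at hx
    have hsx : (Finsupp.single x N : Fin N →₀ ℕ) i = 0 := by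
      simp [Finsupp.single_apply, hx.1]
    have hsx' : (Finsupp.single x N : Fin N →₀ ℕ) j = 0 := by
      simp [Finsupp.single_apply, hx.2]
    have e4 := coeff_rot_monomial h 0 0 u (Finsupp.single x N) β hsx hsx' hi hj
    simp only [Finsupp.single_zero, add_zero, zero_add] at e4
    rw [X_pow_eq_monomial, e4, if_neg]
    rintro ⟨h1, _⟩; omega
  rw [e3]
  by_cases hc : N = u + 2 ∧ β = 0
  · have hc' : N = u + 2 ∧ 0 = β := ⟨hc.1, hc.2.symm⟩
    rw [if_pos hc', if_pos hc]; ring
  · have hc' : ¬ (N = u + 2 ∧ 0 = β) := fun h => hc ⟨h.1, h.2.symm⟩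
    rw [if_neg hc', if_neg hc]; ring

lemma rot_psi_coeff {i j : Fin N} (h : i ≠ j) (α : Fin N →₀ ℕ) (hα : α j = 2) :
    coeff α (rot i j (psi N)) =
      if α = Finsupp.single i (N - 2) + Finsupp.single j 2 ∧ 2 ≤ N
      then sq ^ N * (2 * (N.choose 2 : ℂ)) else 0 := by
  unfold psi
  rw [map_sub, map_mul, rot_C, coeff_sub, coeff_C_mul, rot_P_coeff h α (by omega), mul_zero, sub_zero]
  have hd := decomp h α
  have hβi : ((α.erase i).erase j) i = 0 := by simp [Finsupp.erase, h]
  have hβj : ((α.erase i).erase j) j = 0 := by simp [Finsupp.erase]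
  rw [hα] at hd
  have e := rot_S_coeff h (α i) ((α.erase i).erase j) hβi hβj
  rw [← hd] at e
  rw [e]
  by_cases hc : N = α i + 2 ∧ (α.erase i).erase j = 0
  · rw [if_pos hc, if_pos]
    refine ⟨?_, by omega⟩
    conv_lhs => rw [hd]
    rw [hc.2]
    have : α i = N - 2 := by omega
    rw [this]; simp
  · rw [if_neg hc, if_neg]
    rintro ⟨h1, h2⟩
    apply hc
    have h3 : α i = N - 2 := by rw [h1]; simp [h]
    refine ⟨by omega, ?_⟩
    rw [h1]
    ext k
    by_cases hki : k = i
    · subst hki; simp [Finsupp.erase, h]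
    · by_cases hkj : k = j
      · subst hkj; simp [Finsupp.erase]
      · simp [Finsupp.erase, Finsupp.single_apply, hki, hkj, Ne.symm hki, Ne.symm hkj]

/-- the energy of one pair -/
lemma pair_energy {i j : Fin N} (h : i ≠ j) (hN : 2 ≤ N) :
    (Finset.filter (fun α => α j = 2) (rot i j (psi N)).support).sum
      (fun α => ‖coeff α (rot i j (psi N))‖ ^ 2 * ∏ k : Fin N, ((Nat.factorial (α k) : ℕ) : ℝ))
      ≤ 2 * (N : ℝ) * (N - 1) * (Nat.factorial N : ℝ) / 2 ^ N := by
  set α₀ : Fin N →₀ ℕ := Finsupp.single i (N - 2) + Finsupp.single j 2 with hα₀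
  have h1 : ∀ α ∈ Finset.filter (fun α => α j = 2) (rot i j (psi N)).support, α = α₀ := by
    intro α hα
    simp only [Finset.mem_filter, mem_support_iff] at hα
    by_contra hne
    apply hα.1
    rw [rot_psi_coeff h α hα.2, if_neg]
    rintro ⟨h2, _⟩; exact hne h2
  have h2 : Finset.filter (fun α => α j = 2) (rot i j (psi N)).support ⊆ {α₀} := by
    intro α hα; simp [h1 α hα]
  refine le_trans (Finset.sum_le_sum_of_subset_of_nonneg h2 ?_) ?_
  · intro α _ _
    positivity
  · rw [Finset.sum_singleton]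
    have h3 : α₀ j = 2 := by simp [hα₀, h]
    rw [rot_psi_coeff h α₀ h3, if_pos ⟨rfl, hN⟩]
    have h4 : ∏ k : Fin N, ((Nat.factorial (α₀ k) : ℕ) : ℝ) = (Nat.factorial (N - 2) : ℝ) * 2 := by
      rw [← Finset.mul_prod_erase univ _ (mem_univ j), ← Finset.mul_prod_erase (univ.erase j) _ (a := i)
          (by simp [h])]
      have h5 : ∏ x ∈ (univ.erase j).erase i, ((Nat.factorial (α₀ x) : ℕ) : ℝ) = 1 := by
        apply Finset.prod_eq_one
        intro x hx
        simp at hx
        simp [hα₀, Finsupp.single_apply, Ne.symm hx.1, Ne.symm hx.2]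
      rw [h5, h3]
      have h6 : α₀ i = N - 2 := by simp [hα₀, h]
      rw [h6]
      simp [Nat.factorial]
      ring
    rw [h4]
    have h7 : ‖sq‖ ^ 2 = 1 / 2 := by
      unfold sq
      rw [norm_inv, Complex.norm_real]
      simp
    have h8 : ‖sq ^ N * (2 * (N.choose 2 : ℂ))‖ ^ 2 = (1 / 2) ^ N * (N * (N - 1)) ^ 2 := by
      rw [norm_mul, norm_pow, mul_pow, ← pow_mul, mul_comm N 2, pow_mul, h7]
      congr 1
      rw [norm_mul, Complex.norm_natCast]
      have : ((N.choose 2 : ℕ) : ℝ) = N * (N - 1) / 2 := Nat.cast_choose_two ℝ N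
      rw [this]
      simp
      ring
    rw [h8]
    obtain ⟨M, rfl⟩ : ∃ M, N = M + 2 := ⟨N - 2, by omega⟩
    have h9 : (Nat.factorial (M + 2) : ℝ) = (M + 2) * (M + 1) * (Nat.factorial M : ℝ) := by
      rw [Nat.factorial_succ, Nat.factorial_succ]; push_cast; ring
    rw [h9]
    simp only [Nat.add_sub_cancel]
    push_cast
    rw [one_div, inv_pow]
    apply le_of_eq
    field_simp
    ring

lemma coeff_psi_single (i : Fin N) (hN : 2 ≤ N) :
    coeff (Finsupp.single i N) (psi N) = 1 - lam N := by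
  unfold psi
  rw [coeff_sub, coeff_C_mul, coeff_P, if_pos (sum_single i N)]
  have h1 : Nat.multinomial univ (⇑(Finsupp.single i N)) = 1 := by
    have := Nat.multinomial_spec univ (⇑(Finsupp.single i N))
    rw [sum_single] at this
    have h2 : ∏ k, ((Finsupp.single i N) k).factorial = N.factorial := by
      rw [← Finset.mul_prod_erase univ _ (mem_univ i)]
      rw [Finset.prod_eq_one]
      · simp
      · intro x hx
        simp at hx
        simp [Finsupp.single_apply, Ne.symm hx]
    rw [h2] at this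
    have h3 : 0 < N.factorial := Nat.factorial_pos N
    exact Nat.eq_of_mul_eq_mul_left h3 (by simpa using this)
  have h2 : coeff (Finsupp.single i N) (S N) = 1 := by
    unfold S
    rw [coeff_sum, Finset.sum_eq_single i]
    · rw [X_pow_eq_monomial, coeff_monomial, if_pos rfl]
    · intro k _ hk
      rw [X_pow_eq_monomial, coeff_monomial, if_neg]
      intro e
      have := DFunLike.congr_fun e i
      simp [Finsupp.single_apply, hk] at this
      omega
    · intro h; exact absurd (mem_univ i) h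
  rw [h1, h2]; simp

lemma lam_bound (hN : 2 ≤ N) : (1 : ℝ) / 2 ≤ ‖1 - lam N‖ := by
  have h1 : ‖lam N‖ ≤ 1 / 2 := by
    unfold lam
    rw [norm_div, norm_pow, Complex.norm_natCast]
    have h2 : (2 : ℝ) ≤ (N : ℝ) := by exact_mod_cast hN
    have h3 : (N : ℝ) ^ 2 ≤ (N : ℝ) ^ N := pow_le_pow_right₀ (by linarith) hN
    rw [div_le_div_iff₀ (by positivity) (by norm_num)]
    nlinarith
  have h2 : ‖(1 : ℂ)‖ ≤ ‖1 - lam N‖ + ‖lam N‖ := by
    have := norm_add_le (1 - lam N) (lam N)
    simpa using this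
  simp at h2
  linarith

lemma norm_bound (hN : 2 ≤ N) :
    (N : ℝ) * (Nat.factorial N : ℝ) / 4 ≤
    (psi N).support.sum (fun α => ‖MvPolynomial.coeff α (psi N)‖ ^ 2 *
          ∏ k : Fin N, ((Nat.factorial (α k) : ℕ) : ℝ)) := by
  have hinj : Function.Injective (fun i : Fin N => (Finsupp.single i N : Fin N →₀ ℕ)) := by
    intro i j hij
    simp only at hij
    have := DFunLike.congr_fun hij i
    simp [Finsupp.single_apply] at this
    by_contra hne
    have h3 := this (Ne.symm hne)
    omega
  have hsub : univ.image (fun i : Fin N => (Finsupp.single i N : Fin N →₀ ℕ)) ⊆ (psi N).support := by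
    intro α hα
    simp only [Finset.mem_image, Finset.mem_univ, true_and] at hα
    obtain ⟨i, rfl⟩ := hα
    rw [mem_support_iff, coeff_psi_single i hN]
    intro h0
    have := lam_bound hN
    rw [h0] at this
    simp at this
    linarith
  refine le_trans ?_ (Finset.sum_le_sum_of_subset_of_nonneg hsub ?_)
  · rw [Finset.sum_image (fun i _ j _ h => hinj h)]
    have h1 : ∀ i : Fin N, (Nat.factorial N : ℝ) / 4 ≤
      ‖coeff (Finsupp.single i N) (psi N)‖ ^ 2 *
        ∏ k : Fin N, ((Nat.factorial ((Finsupp.single i N : Fin N →₀ ℕ) k) : ℕ) : ℝ) := by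
      intro i
      rw [coeff_psi_single i hN]
      have h2 : ∏ k : Fin N, ((Nat.factorial ((Finsupp.single i N : Fin N →₀ ℕ) k) : ℕ) : ℝ)
          = (Nat.factorial N : ℝ) := by
        rw [← Finset.mul_prod_erase univ _ (mem_univ i)]
        rw [Finset.prod_eq_one]
        · simp
        · intro x hx
          simp at hx
          simp [Finsupp.single_apply, Ne.symm hx]
      rw [h2]
      have h3 := lam_bound hN
      have h4 : (0 : ℝ) < (Nat.factorial N : ℝ) := by exact_mod_cast Nat.factorial_pos N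
      have h5 : (1 / 4 : ℝ) ≤ ‖1 - lam N‖ ^ 2 := by nlinarith
      nlinarith
    calc (N : ℝ) * (Nat.factorial N : ℝ) / 4 = ∑ i : Fin N, (Nat.factorial N : ℝ) / 4 := by
          simp; ring
      _ ≤ _ := Finset.sum_le_sum (fun i _ => h1 i)
  · intro α _ _
    positivity

lemma degree_psi (hN : 2 ≤ N) : (psi N).totalDegree ≤ 4 * N * (N - 1) / 2 := by
  have h1 : (psi N).totalDegree ≤ N := by
    unfold psi S P
    refine le_trans (totalDegree_sub _ _) ?_
    apply max_le
    · refine le_trans (totalDegree_finset_sum _ _) ?_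
      apply Finset.sup_le
      intro i _
      rw [totalDegree_X_pow]
    · refine le_trans (totalDegree_mul _ _) ?_
      rw [totalDegree_C, zero_add]
      refine le_trans (totalDegree_pow _ _) ?_
      have : (∑ i : Fin N, X i : MvPolynomial (Fin N) ℂ).totalDegree ≤ 1 := by
        refine le_trans (totalDegree_finset_sum _ _) ?_
        apply Finset.sup_le
        intro i _
        rw [totalDegree_X]
      nlinarith
  have h2 : N ≤ 4 * N * (N - 1) / 2 := by
    obtain ⟨M, rfl⟩ : ∃ M, N = M + 2 := ⟨N - 2, by omega⟩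
    rw [Nat.le_div_iff_mul_le (by norm_num)]
    simp only [Nat.add_sub_cancel, show M + 2 - 1 = M + 1 by omega]
    nlinarith
  omega


lemma exists_large (c : ℝ) (hc : 0 < c) : ∃ N : ℕ, 2 ≤ N ∧ 8 * (N : ℝ) ^ 3 / 2 ^ N < c := by
  have h := tendsto_pow_const_div_const_pow_of_one_lt 3 (r := (2 : ℝ)) (by norm_num)
  have h2 := h.eventually (gt_mem_nhds (show (0 : ℝ) < c / 8 by positivity))
  obtain ⟨N, hN⟩ := ((h2.and (Filter.eventually_ge_atTop 2))).exists
  refine ⟨N, hN.2, ?_⟩
  have h3 := hN.1
  have : 8 * (N : ℝ) ^ 3 / 2 ^ N = 8 * ((N : ℝ) ^ 3 / 2 ^ N) := by ring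
  rw [this]
  linarith

end helpers

/-- The negation of the preceding statement: For each ℓ≥2 there is c>0 such that for all N, every symmetric (ℓ even) or antisymmetric (ℓ odd) LLL state of degree ≤ℓN(N−1)/2 orthogonal to the kernel of the relative-angular-momentum-(ℓ−2) pair Hamiltonian has energy ≥ c times its squared norm. -/
theorem result :
    ¬ (∀ ℓ : ℕ, 2 ≤ ℓ → ∃ c : ℝ, 0 < c ∧ ∀ N : ℕ, ∀ ψ : MvPolynomial (Fin N) ℂ,
      (∀ σ : Equiv.Perm (Fin N),
        MvPolynomial.rename (⇑σ) ψ = (((Equiv.Perm.sign σ : ℤ) : ℂ) ^ ℓ) • ψ) →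
      ψ.totalDegree ≤ ℓ * N * (N - 1) / 2 →
      (∀ φ : MvPolynomial (Fin N) ℂ,
        (∀ σ : Equiv.Perm (Fin N),
          MvPolynomial.rename (⇑σ) φ = (((Equiv.Perm.sign σ : ℤ) : ℂ) ^ ℓ) • φ) →
        φ.totalDegree ≤ ℓ * N * (N - 1) / 2 →
        (∀ i j : Fin N, i < j →
          ∀ α ∈ (MvPolynomial.aeval
              (fun k : Fin N => (if k = i then
                  MvPolynomial.C (((Real.sqrt 2 : ℝ) : ℂ)⁻¹) *
                    (MvPolynomial.X i + MvPolynomial.X j)
                else if k = j then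
                  MvPolynomial.C (((Real.sqrt 2 : ℝ) : ℂ)⁻¹) *
                    (MvPolynomial.X i - MvPolynomial.X j)
                else MvPolynomial.X k : MvPolynomial (Fin N) ℂ)) φ).support,
            α j ≠ ℓ - 2) →
        φ.support.sum (fun α => (starRingEnd ℂ) (MvPolynomial.coeff α φ) *
          MvPolynomial.coeff α ψ * ∏ k : Fin N, ((Nat.factorial (α k) : ℕ) : ℂ)) = 0) →
      c * ψ.support.sum (fun α => ‖MvPolynomial.coeff α ψ‖ ^ 2 *
          ∏ k : Fin N, ((Nat.factorial (α k) : ℕ) : ℝ)) ≤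
        ∑ i : Fin N, ∑ j : Fin N,
          (if i < j then
            (Finset.filter (fun α => α j = ℓ - 2)
              (MvPolynomial.aeval
                (fun k : Fin N => (if k = i then
                    MvPolynomial.C (((Real.sqrt 2 : ℝ) : ℂ)⁻¹) *
                      (MvPolynomial.X i + MvPolynomial.X j)
                  else if k = j then
                    MvPolynomial.C (((Real.sqrt 2 : ℝ) : ℂ)⁻¹) *
                      (MvPolynomial.X i - MvPolynomial.X j)
                  else MvPolynomial.X k : MvPolynomial (Fin N) ℂ)) ψ).support).sum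
              (fun α => ‖MvPolynomial.coeff α
                  (MvPolynomial.aeval
                    (fun k : Fin N => (if k = i then
                        MvPolynomial.C (((Real.sqrt 2 : ℝ) : ℂ)⁻¹) *
                          (MvPolynomial.X i + MvPolynomial.X j)
                      else if k = j then
                        MvPolynomial.C (((Real.sqrt 2 : ℝ) : ℂ)⁻¹) *
                          (MvPolynomial.X i - MvPolynomial.X j)
                      else MvPolynomial.X k : MvPolynomial (Fin N) ℂ)) ψ)‖ ^ 2 *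
                ∏ k : Fin N, ((Nat.factorial (α k) : ℕ) : ℝ))
          else 0)) := by
  intro H
  obtain ⟨c, hc, H⟩ := H 4 (by norm_num)
  obtain ⟨N, hN, hlt⟩ := exists_large c hc
  have hN0 : N ≠ 0 := by omega
  have key := H N (psi N) (by
      intro σ
      have h1 : (((Equiv.Perm.sign σ : ℤ) : ℂ) ^ 4) = 1 := by
        rcases Int.units_eq_one_or (Equiv.Perm.sign σ) with h | h <;> rw [h] <;> norm_num
      rw [h1, one_smul]
      exact sym_psi σ) (degree_psi hN) (by
      intro φ hφ _ hker
      apply orth hN0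
      · intro σ
        have h1 : (((Equiv.Perm.sign σ : ℤ) : ℂ) ^ 4) = 1 := by
          rcases Int.units_eq_one_or (Equiv.Perm.sign σ) with h | h <;> rw [h] <;> norm_num
        have h2 := hφ σ
        rw [h1, one_smul] at h2
        exact h2
      · intro i j hij γ hγ
        exact hker i j hij γ hγ)
  have hE : ∀ i j : Fin N, (if i < j then
            (Finset.filter (fun α => α j = 4 - 2)
              (rot i j (psi N)).support).sum
              (fun α => ‖MvPolynomial.coeff α (rot i j (psi N))‖ ^ 2 *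
                ∏ k : Fin N, ((Nat.factorial (α k) : ℕ) : ℝ))
          else 0) ≤ 2 * (N : ℝ) * (N - 1) * (Nat.factorial N : ℝ) / 2 ^ N := by
    intro i j
    split_ifs with hij
    · exact pair_energy (ne_of_lt hij) hN
    · have : (1 : ℝ) ≤ N := by exact_mod_cast (by omega : 1 ≤ N)
      have h1 : (0 : ℝ) ≤ (N : ℝ) - 1 := by linarith
      positivity
  have hsum := Finset.sum_le_sum (fun i (_ : i ∈ (Finset.univ : Finset (Fin N))) =>
    Finset.sum_le_sum (fun j (_ : j ∈ (Finset.univ : Finset (Fin N))) => hE i j))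
  have hchain : c * ((N : ℝ) * (Nat.factorial N : ℝ) / 4) ≤
      ∑ i : Fin N, ∑ j : Fin N, 2 * (N : ℝ) * (N - 1) * (Nat.factorial N : ℝ) / 2 ^ N :=
    le_trans (mul_le_mul_of_nonneg_left (norm_bound hN) hc.le) (le_trans key hsum)
  simp only [Finset.sum_const, Finset.card_univ, Fintype.card_fin, nsmul_eq_mul] at hchain
  have hf : (0 : ℝ) < (Nat.factorial N : ℝ) := by exact_mod_cast Nat.factorial_pos N
  have hNr : (2 : ℝ) ≤ N := by exact_mod_cast hN
  have h2 : (0 : ℝ) < 2 ^ N := by positivity
  have h3 : c ≤ 8 * (N : ℝ) ^ 3 / 2 ^ N := by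
    rw [le_div_iff₀ h2]
    have h4 : c * ((N : ℝ) * (Nat.factorial N : ℝ) / 4) * 2 ^ N ≤
        N * (N * (2 * (N : ℝ) * (N - 1) * (Nat.factorial N : ℝ))) := by
      calc c * ((N : ℝ) * (Nat.factorial N : ℝ) / 4) * 2 ^ N ≤
          (N * (N * (2 * (N : ℝ) * (N - 1) * (Nat.factorial N : ℝ) / 2 ^ N))) * 2 ^ N :=
            mul_le_mul_of_nonneg_right hchain h2.le
        _ = N * (N * (2 * (N : ℝ) * (N - 1) * (Nat.factorial N : ℝ))) := by
            field_simp
    have h5 : (N : ℝ) * (Nat.factorial N : ℝ) / 4 * (c * 2 ^ N) ≤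
        (N : ℝ) * (Nat.factorial N : ℝ) / 4 * (8 * (N : ℝ) ^ 3) := by
      have : N * (N * (2 * (N : ℝ) * (N - 1) * (Nat.factorial N : ℝ))) ≤
          (N : ℝ) * (Nat.factorial N : ℝ) / 4 * (8 * (N : ℝ) ^ 3) := by
        have e : (N : ℝ) * (Nat.factorial N : ℝ) / 4 * (8 * (N : ℝ) ^ 3) -
          N * (N * (2 * (N : ℝ) * (N - 1) * (Nat.factorial N : ℝ))) =
            2 * (N : ℝ) ^ 3 * (Nat.factorial N : ℝ) := by ring
        have : 0 ≤ 2 * (N : ℝ) ^ 3 * (Nat.factorial N : ℝ) := by positivity
        linarith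
      nlinarith [h4]
    exact le_of_mul_le_mul_left h5 (by positivity)
  linarith

end Pool.Agent.S15686
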