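import Pool.Statements.S00261
import Pool.Agent.Lib.MP_740d3f_ag.ThmV
import Pool.Agent.Lib.MP_740d3f_ag.Los

set_option autoImplicit false
open Pool Pool.MP_740d3f_ag

namespace Pool.Agent.S00261

/-- For each d≥2 there is a nonzero polynomial in the coefficients such that any two degree-d rational maps off its zero set with the same period-1 and period-2 multiplier spectra are conjugate by a Möbius map. -/
theorem result :
    ∀ d : ℕ, 2 ≤ d →
      ∃ P : MvPolynomial (Fin (d + 1) ⊕ Fin (d + 1)) ℂ, P ≠ 0 ∧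
        ∀ p₁ q₁ p₂ q₂ : Polynomial ℂ,
          IsCoprime p₁ q₁ → max p₁.natDegree q₁.natDegree = d →
          IsCoprime p₂ q₂ → max p₂.natDegree q₂.natDegree = d →
          MvPolynomial.eval (Sum.elim (fun i : Fin (d + 1) => p₁.coeff i.val)
            (fun i : Fin (d + 1) => q₁.coeff i.val)) P ≠ 0 →
          MvPolynomial.eval (Sum.elim (fun i : Fin (d + 1) => p₂.coeff i.val)
            (fun i : Fin (d + 1) => q₂.coeff i.val)) P ≠ 0 →
          (∀ c : ℂ,
            Set.ncard {z : ℂ | q₁.eval z ≠ 0 ∧ p₁.eval z = z * q₁.eval z ∧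
              ((Polynomial.derivative p₁).eval z * q₁.eval z
                - p₁.eval z * (Polynomial.derivative q₁).eval z) / (q₁.eval z) ^ 2 = c}
            = Set.ncard {z : ℂ | q₂.eval z ≠ 0 ∧ p₂.eval z = z * q₂.eval z ∧
              ((Polynomial.derivative p₂).eval z * q₂.eval z
                - p₂.eval z * (Polynomial.derivative q₂).eval z) / (q₂.eval z) ^ 2 = c}) →
          (∀ c : ℂ,
            Set.ncard {z : ℂ | q₁.eval z ≠ 0 ∧ q₁.eval (p₁.eval z / q₁.eval z) ≠ 0 ∧
              p₁.eval (p₁.eval z / q₁.eval z) / q₁.eval (p₁.eval z / q₁.eval z) = z ∧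
              p₁.eval z / q₁.eval z ≠ z ∧
              ((Polynomial.derivative p₁).eval z * q₁.eval z
                - p₁.eval z * (Polynomial.derivative q₁).eval z) / (q₁.eval z) ^ 2 *
              (((Polynomial.derivative p₁).eval (p₁.eval z / q₁.eval z)
                  * q₁.eval (p₁.eval z / q₁.eval z)
                - p₁.eval (p₁.eval z / q₁.eval z)
                  * (Polynomial.derivative q₁).eval (p₁.eval z / q₁.eval z))
                / (q₁.eval (p₁.eval z / q₁.eval z)) ^ 2) = c}
            = Set.ncard {z : ℂ | q₂.eval z ≠ 0 ∧ q₂.eval (p₂.eval z / q₂.eval z) ≠ 0 ∧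
              p₂.eval (p₂.eval z / q₂.eval z) / q₂.eval (p₂.eval z / q₂.eval z) = z ∧
              p₂.eval z / q₂.eval z ≠ z ∧
              ((Polynomial.derivative p₂).eval z * q₂.eval z
                - p₂.eval z * (Polynomial.derivative q₂).eval z) / (q₂.eval z) ^ 2 *
              (((Polynomial.derivative p₂).eval (p₂.eval z / q₂.eval z)
                  * q₂.eval (p₂.eval z / q₂.eval z)
                - p₂.eval (p₂.eval z / q₂.eval z)
                  * (Polynomial.derivative q₂).eval (p₂.eval z / q₂.eval z))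
                / (q₂.eval (p₂.eval z / q₂.eval z)) ^ 2) = c}) →
          ∃ a b c e : ℂ, a * e - b * c ≠ 0 ∧
            ∀ z : ℂ, q₁.eval z ≠ 0 → c * z + e ≠ 0 →
              c * (p₁.eval z / q₁.eval z) + e ≠ 0 →
              q₂.eval ((a * z + b) / (c * z + e)) ≠ 0 →
              p₂.eval ((a * z + b) / (c * z + e)) / q₂.eval ((a * z + b) / (c * z + e))
                = (a * (p₁.eval z / q₁.eval z) + b) / (c * (p₁.eval z / q₁.eval z) + e) := by
  exact Lib.MP_740d3f_ag.frozen_of_thmV
    (fun Ω _ _ _ d hd p₁ q₁ p₂ q₂ h₁ h₂ hf hp =>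
      Lib.MP_740d3f_ag.thmV Ω d hd p₁ q₁ p₂ q₂ h₁ h₂ hf hp)
    (fun Ω _ _ _ d hd p q h c => Lib.MP_740d3f_ag.genMap_finite Ω d hd p q h c)

end Pool.Agent.S00261
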