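import Pool.Statements.S01809
import Pool.Agent.Lib.MP_6b5f89_al.Main

set_option autoImplicit false
open Pool Pool.MP_6b5f89_al

namespace Pool.Agent.S01809

/-- There is one function f such that for every prime p and all finite p-groups G, H with isomorphic Burnside rings (realized via their tables of marks), the nilpotency class of H is at most f(class of G). -/
theorem result :
    ∃ f : ℕ → ℕ, ∀ (p : ℕ), p.Prime →
      ∀ (G H : Type) [Group G] [Group H] [Finite G] [Finite H]
        [Group.IsNilpotent G] [Group.IsNilpotent H],
        IsPGroup p G → IsPGroup p H →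
        Nonempty
          (↥(Subring.closure (Set.range (fun L : Subgroup G => fun K : Subgroup G =>
              ((Nat.card {x : G ⧸ L // ∀ k ∈ K, k • x = x} : ℕ) : ℤ))))
            ≃+*
           ↥(Subring.closure (Set.range (fun L : Subgroup H => fun K : Subgroup H =>
              ((Nat.card {x : H ⧸ L // ∀ k ∈ K, k • x = x} : ℕ) : ℤ))))) →
        Group.nilpotencyClass H ≤ f (Group.nilpotencyClass G) := by
  refine ⟨Pool.Agent.Lib.MP_6b5f89_al.FF, ?_⟩
  intro p hp G H _ _ _ _ _ _ hG hH hφ
  obtain ⟨φ⟩ := hφ
  have : Fact p.Prime := ⟨hp⟩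
  have : Fintype G := Fintype.ofFinite G
  have : Fintype H := Fintype.ofFinite H
  exact Pool.Agent.Lib.MP_6b5f89_al.class_le φ hG hH

end Pool.Agent.S01809
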