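import Pool.Statements.S02027
import Pool.Agent.Lib.MP_7ac902_al.Z.Final

set_option autoImplicit false
open Pool Pool.MP_7ac902_al

namespace Pool.Agent.S02027

/-- For every n, every group admitting a right-invariant linear order in which all n-fold left-normed commutators [x,y,...,y] are trivial is nilpotent. -/
theorem result :
    ∀ (n : ℕ) (G : Type) [Group G],
      (∃ lo : LinearOrder G, ∀ a b c : G, lo.le a b → lo.le (a * c) (b * c)) →
      (∀ x y : G, (fun z : G => z⁻¹ * y⁻¹ * z * y)^[n] x = 1) →
      Group.IsNilpotent G :=
  fun _ _ _ hG hE => Pool.Agent.Lib.MP_7ac902_al.Z.isNilpotent_of_rightOrder hG hE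

end Pool.Agent.S02027
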