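import Pool.Statements.S02393
import Pool.Agent.Lib.MP_97567f_al.F4.TopG
import Pool.Agent.Lib.MP_97567f_al.U.Last

set_option autoImplicit false
open Pool Pool.MP_97567f_al

namespace Pool.Agent.S02393

/-- For every Coxeter matrix whose Coxeter group is finite, the automorphism group of the associated Artin group (braid-relation presentation) embeds as a group into GL_d(K) for some field K and some d. -/
theorem result :
  ∀ (n : ℕ) (M : CoxeterMatrix (Fin n)), Finite M.Group →
    ∃ (K : Type) (_ : Field K) (d : ℕ)
      (f : MulAut (PresentedGroup (Set.range (fun p : Fin n × Fin n =>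
          ((List.range (M.M p.1 p.2)).map (fun k : ℕ =>
              if k % 2 = 0 then FreeGroup.of p.1 else FreeGroup.of p.2)).prod *
          (((List.range (M.M p.1 p.2)).map (fun k : ℕ =>
              if k % 2 = 0 then FreeGroup.of p.2 else FreeGroup.of p.1)).prod)⁻¹)))
        →* Matrix.GeneralLinearGroup (Fin d) K),
      Function.Injective f := by
  intro n M hf
  obtain ⟨d, f, hinj⟩ := Pool.Agent.Lib.MP_97567f_al.U.last_of
    Pool.Agent.Lib.MP_97567f_al.F4.good_F4' Pool.Agent.Lib.MP_97567f_al.U.good_H3'
    Pool.Agent.Lib.MP_97567f_al.U.good_H4' n M hf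
  exact ⟨_, inferInstance, d, f, hinj⟩

end Pool.Agent.S02393
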