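import Pool.Statements.S02561
import Pool.Agent.Lib.MP_a2efaf_al.WFinal
import Pool.Agent.Lib.MP_a2efaf_al.LB
import Pool.Agent.Lib.MP_a2efaf_al.Narrow

set_option autoImplicit false
open Pool Pool.MP_a2efaf_al

namespace Pool.Agent.S02561

/-- For every field and numerical semigroup with minimal generators g0<…<ge, the tangent-cone ideal of its semigroup ring needs no more generators than that of the semigroup minimally generated by g0, g0+1, …, min(ge, 2g0−1). -/
theorem result :
    ∀ (k : Type) [Field k] (e : ℕ) (g : Fin (e + 1) → ℕ),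
      StrictMono g → 0 < g 0 →
      Finset.univ.gcd g = 1 →
      (∀ i, g i ∉ AddSubmonoid.closure (g '' {j | j ≠ i})) →
      ∀ (m : ℕ), m = min (g (Fin.last e)) (2 * g 0 - 1) + 1 - g 0 →
      ∀ (IΓ : Ideal (MvPolynomial (Fin (e + 1)) k)) (IT : Ideal (MvPolynomial (Fin m) k)),
        IΓ = Ideal.span {p | ∃ f ∈ RingHom.ker (MvPolynomial.aeval
              (fun i : Fin (e + 1) => (Polynomial.X : Polynomial k) ^ g i)),
              ∃ n : ℕ, p = MvPolynomial.homogeneousComponent n f ∧
                ∀ n' < n, MvPolynomial.homogeneousComponent n' f = 0} →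
        IT = Ideal.span {p | ∃ f ∈ RingHom.ker (MvPolynomial.aeval
              (fun j : Fin m => (Polynomial.X : Polynomial k) ^ (g 0 + (j : ℕ)))),
              ∃ n : ℕ, p = MvPolynomial.homogeneousComponent n f ∧
                ∀ n' < n, MvPolynomial.homogeneousComponent n' f = 0} →
        ∀ t : Finset (MvPolynomial (Fin m) k), Ideal.span (t : Set (MvPolynomial (Fin m) k)) = IT →
          ∃ s : Finset (MvPolynomial (Fin (e + 1)) k), s.card ≤ t.card ∧
            Ideal.span (s : Set (MvPolynomial (Fin (e + 1)) k)) = IΓ := by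
  intro k _ e g hmono hpos hgcd hmin m hm IΓ IT hIΓ hIT t ht
  have hg : Agent.Lib.MP_a2efaf_al.Mg g := ⟨hmono, hpos, hmin⟩
  have hI : IΓ = Agent.Lib.MP_a2efaf_al.initIdeal k g := hIΓ
  have hT : IT = Agent.Lib.MP_a2efaf_al.initIdeal k (fun j : Fin m => g 0 + (j : ℕ)) := hIT
  rw [hI]
  rw [hT] at ht
  have hle : g 0 ≤ g (Fin.last e) := hmono.monotone (Fin.zero_le _)
  by_cases hwide : 2 * g 0 - 1 ≤ g (Fin.last e)
  · -- the wide case
    obtain ⟨s, hs, hspan⟩ := Agent.Lib.MP_a2efaf_al.wide_case k hg
    refine ⟨s, ?_, hspan⟩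
    have hm' : m = g 0 := by
      rw [hm, min_eq_right hwide]; omega
    rcases Nat.lt_or_ge (g 0) 2 with h2 | h2
    · have h1 : g 0 = 1 := by omega
      rw [h1] at hs
      simp only [Nat.choose_eq_zero_of_lt (show 1 < 2 by norm_num)] at hs
      omega
    · have hlow := Agent.Lib.MP_a2efaf_al.interval_lower k m (g 0) (g 0 - 1) 1 1 (by omega)
        (by omega) (by omega) (by omega) (by omega) (by omega) t ht
      have hch : (g 0).choose 2 = (g 0 - 1).choose 2 + (g 0 - 1 - 1 + 1) := by
        obtain ⟨a, ha⟩ : ∃ a, g 0 = a + 2 := ⟨g 0 - 2, by omega⟩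
        rw [ha]
        have e1 : a + 2 - 1 = a + 1 := by omega
        have e2 : a + 1 - 1 + 1 = a + 1 := by omega
        rw [e1, e2, Nat.choose_succ_succ' (a + 1) 1, Nat.choose_one_right]
        ring
      omega
  · -- the narrow case
    push Not at hwide
    have hm' : m = g (Fin.last e) + 1 - g 0 := by
      rw [hm, min_eq_left hwide.le]
    obtain ⟨w, hw⟩ : ∃ w, g (Fin.last e) = g 0 + w := ⟨g (Fin.last e) - g 0, by omega⟩
    have hw1 : 1 ≤ w := by
      by_contra h
      have hw0 : w = 0 := by omega
      rw [hw0, add_zero] at hw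
      have he : Fin.last e = 0 := hmono.injective hw
      have he0 : e = 0 := by
        have := congrArg Fin.val he
        simpa using this
      subst he0
      have : g 0 = 1 := by
        have h1 : (Finset.univ : Finset (Fin (0 + 1))).gcd g = g 0 := by
          have : (Finset.univ : Finset (Fin (0 + 1))) = {0} := by
            ext x; simp [Fin.eq_zero x]
          rw [this, Finset.gcd_singleton]
          simp
        rw [h1] at hgcd
        exact hgcd
      omega
    -- `g 0 = q w + b`
    obtain ⟨q, b, hM, hb, hbw⟩ : ∃ q b, g 0 = q * w + b ∧ 1 ≤ b ∧ b ≤ w := by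
      refine ⟨(g 0 - 1) / w, (g 0 - 1) % w + 1, ?_, by omega, ?_⟩
      · have := Nat.div_add_mod (g 0 - 1) w
        rw [mul_comm] at this
        omega
      · have := Nat.mod_lt (g 0 - 1) (show w > 0 by omega)
        omega
    have hq : 1 ≤ q := by
      by_contra h
      have : q = 0 := by omega
      rw [this] at hM
      omega
    -- `g i ≥ g 0 + i` and `g i ≤ g last - (e - i)`
    have hlo : ∀ i : ℕ, ∀ hi : i < e + 1, g 0 + i ≤ g ⟨i, hi⟩ := by
      intro i
      induction i with
      | zero => intro hi; exact le_refl _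
      | succ i ih =>
        intro hi
        have h1 := ih (by omega)
        have h2 : g ⟨i, by omega⟩ < g ⟨i + 1, hi⟩ := hmono (by
          rw [Fin.lt_def]; exact Nat.lt_succ_self i)
        omega
    have hup : ∀ d : ℕ, ∀ i : ℕ, ∀ hi : i < e + 1, i + d = e → g ⟨i, hi⟩ + d ≤ g (Fin.last e) := by
      intro d
      induction d with
      | zero =>
        intro i hi hd
        have : (⟨i, hi⟩ : Fin (e + 1)) = Fin.last e := by
          apply Fin.ext; simpa using hd
        rw [this]; omega
      | succ d ih =>
        intro i hi hd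
        have h1 := ih (i + 1) (by omega) (by omega)
        have h2 : g ⟨i, hi⟩ < g ⟨i + 1, by omega⟩ := hmono (by
          rw [Fin.lt_def]; exact Nat.lt_succ_self i)
        omega
    have hew : e ≤ w := by
      have := hlo e (by omega)
      have e1 : (⟨e, by omega⟩ : Fin (e + 1)) = Fin.last e := rfl
      rw [e1, hw] at this
      omega
    rcases Nat.eq_or_lt_of_le hew with hc0 | hmiss
    · -- no missing class: the semigroup is the interval one
      have hme : m = e + 1 := by omega
      subst hme
      have hgi : ∀ i : Fin (e + 1), g i = g 0 + (i : ℕ) := by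
        intro i
        have h1 := hlo i i.2
        have h2 := hup (e - i) i i.2 (by have := i.2; omega)
        have e1 : (⟨(i : ℕ), i.2⟩ : Fin (e + 1)) = i := rfl
        rw [e1] at h1 h2
        have := i.2
        omega
      have hfun : g = (fun j : Fin (e + 1) => g 0 + (j : ℕ)) := funext hgi
      refine ⟨t, le_refl _, ?_⟩
      rw [ht]
      congr 1
      exact hfun.symm
    obtain ⟨s, hs, hspan⟩ := Agent.Lib.MP_a2efaf_al.narrow_case k hg w q b hw hw1
      (by omega) hmiss hM hb hbw
    refine ⟨s, ?_, hspan⟩
    have hlow := Agent.Lib.MP_a2efaf_al.interval_lower k m (g 0) w q b (by omega)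
      hw1 hM hb hbw hq t ht
    omega

end Pool.Agent.S02561
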