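import Pool.Statements.S02714
import Pool.Agent.Lib.MP_afddf0_al.TwoFir

set_option autoImplicit false
open Pool Pool.MP_afddf0_al

namespace Pool.Agent.S02714

open FreeAlgebra Pool.Agent.Lib.MP_afddf0_al

/-- The free algebra on four letters over the field with two elements. -/
abbrev F := FreeAlgebra (ZMod 2) (Fin 4)

noncomputable def x : F := ι (ZMod 2) 0
noncomputable def y : F := ι (ZMod 2) 1
noncomputable def z : F := ι (ZMod 2) 2
noncomputable def t : F := ι (ZMod 2) 3
noncomputable def q : F := 1 + x * y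
noncomputable def w : F := q * t

lemma two_cancel (f : F) : f + f = 0 := by
  have h : (2 : ZMod 2) • f = 0 := by
    have : (2 : ZMod 2) = 0 := by decide
    rw [this, zero_smul]
  rwa [two_smul] at h

/-- values of the derivation on the generators -/
noncomputable def val : Fin 4 → F := ![w * x, y * w, y * t, w * t]

noncomputable def Dhom : F →ₐ[ZMod 2] Matrix (Fin 2) (Fin 2) F :=
  FreeAlgebra.lift (ZMod 2) (fun i => !![ι (ZMod 2) i, val i; 0, ι (ZMod 2) i])

lemma Dhom_entries (f : F) : Dhom f 0 0 = f ∧ Dhom f 1 0 = 0 ∧ Dhom f 1 1 = f := by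
  induction f using FreeAlgebra.induction with
  | grade0 r => simp [Matrix.algebraMap_matrix_apply]
  | grade1 i => simp [Dhom]
  | mul a b ha hb =>
    obtain ⟨ha1, ha2, ha3⟩ := ha
    obtain ⟨hb1, hb2, hb3⟩ := hb
    simp [Matrix.mul_apply, Fin.sum_univ_two, ha1, ha2, ha3, hb1, hb2, hb3]
  | add a b ha hb =>
    obtain ⟨ha1, ha2, ha3⟩ := ha
    obtain ⟨hb1, hb2, hb3⟩ := hb
    simp [ha1, ha2, ha3, hb1, hb2, hb3]

/-- the derivation -/
noncomputable def D : Module.End (ZMod 2) F where
  toFun f := Dhom f 0 1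
  map_add' a b := by simp
  map_smul' c a := by simp

lemma D_mul (a b : F) : D (a * b) = D a * b + a * D b := by
  have ha := Dhom_entries a
  have hb := Dhom_entries b
  simp only [D, LinearMap.coe_mk, AddHom.coe_mk, map_mul, Matrix.mul_apply, Fin.sum_univ_two,
    ha.1, hb.2.2]
  abel

lemma D_algebraMap (r : ZMod 2) : D (algebraMap (ZMod 2) F r) = 0 := by
  simp [D, Matrix.algebraMap_matrix_apply]

lemma D_one : D (1 : F) = 0 := by
  simpa using D_algebraMap 1

lemma D_ι (i : Fin 4) : D (ι (ZMod 2) i) = val i := by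
  simp [D, Dhom]

lemma D_x : D x = w * x := D_ι 0
lemma D_y : D y = y * w := D_ι 1
lemma D_z : D z = y * t := D_ι 2
lemma D_t : D t = w * t := D_ι 3

lemma D_q : D q = w * (x * y) + x * y * w := by
  rw [q, map_add, D_one, D_mul, D_x, D_y]; noncomm_ring

lemma D_w : D w = w * w := by
  have hq : x * y = q + 1 := by
    rw [q]
    have := two_cancel (1 : F)
    calc x * y = x * y + (1 + 1) := by rw [this, add_zero]
      _ = 1 + x * y + 1 := by abel
  conv_lhs => rw [w]
  rw [D_mul, D_q, D_t, hq]
  have e : (w * (q + 1) + (q + 1) * w) * t + q * (w * t)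
      = w * (q * t) + (w * t + w * t) + (q * w * t + q * w * t) := by noncomm_ring
  rw [e, two_cancel, two_cancel, add_zero, add_zero]
  rfl

lemma DD (f : F) : D (D f) = 0 := by
  induction f using FreeAlgebra.induction with
  | grade0 r => rw [D_algebraMap, map_zero]
  | grade1 i =>
    rw [D_ι]
    fin_cases i
    · change D (w * x) = 0
      rw [D_mul, D_w, D_x, mul_assoc, two_cancel]
    · change D (y * w) = 0
      rw [D_mul, D_w, D_y, mul_assoc, two_cancel]
    · change D (y * t) = 0
      rw [D_mul, D_y, D_t, mul_assoc, two_cancel]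
    · change D (w * t) = 0
      rw [D_mul, D_w, D_t, mul_assoc, two_cancel]
  | mul a b ha hb =>
    rw [D_mul, map_add, D_mul, D_mul, ha, hb, zero_mul, mul_zero, zero_add, add_zero, two_cancel]
  | add a b ha hb => rw [map_add, map_add, ha, hb, add_zero]

noncomputable def u : F := t * q + q * t

lemma q_eq : x * y = q + 1 := by
  rw [q]
  have := two_cancel (1 : F)
  calc x * y = x * y + (1 + 1) := by rw [this, add_zero]
    _ = 1 + x * y + 1 := by abel

lemma D_q' : D q = q * u := by
  rw [D_q, q_eq, u, w]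
  have e : q * t * (q + 1) + (q + 1) * (q * t)
      = q * (t * q + q * t) + (q * t + q * t) := by noncomm_ring
  rw [e, two_cancel, add_zero]

lemma D_u : D u = u * u := by
  have h1 : D (t * q) = w * t * q + t * (q * u) := by rw [D_mul, D_t, D_q']
  have h2 : D (q * t) = q * u * t + q * (w * t) := by rw [D_mul, D_t, D_q']
  have : D u = D (t * q) + D (q * t) := by rw [← map_add]; rfl
  rw [this, h1, h2]
  simp only [w, u]
  have e : q * t * t * q + t * (q * (t * q + q * t)) + (q * (t * q + q * t) * t + q * (q * t * t))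
      = (t * q + q * t) * (t * q + q * t) + (q * (q * t * t) + q * (q * t * t)) := by
    noncomm_ring
  rw [e, two_cancel, add_zero]

/-- second coordinate of the kernel vector -/
noncomputable def s : F := y + z * q

lemma D_s : D s = s * u := by
  rw [s, map_add, D_mul, D_y, D_z, D_q', w, u]
  have e : y * (q * t) + (y * t * q + z * (q * (t * q + q * t)))
      = (y + z * q) * (t * q + q * t) := by noncomm_ring
  exact e

noncomputable def a0 : F := y + (1 + y * x) * z
noncomputable def b0 : F := 1 + y * x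

lemma D_b0 : D b0 = 0 := by
  rw [b0, map_add, D_one, D_mul, D_x, D_y, mul_assoc, two_cancel, add_zero]

lemma D_a0 : D a0 = 0 := by
  have h : D ((1 + y * x) * z) = (1 + y * x) * (y * t) := by
    have := D_b0
    rw [b0] at this
    rw [D_mul, this, zero_mul, zero_add, D_z]
  rw [a0, map_add, h, D_y, w, q]
  have e : y * ((1 + x * y) * t) + (1 + y * x) * (y * t)
      = (1 + y * x) * (y * t) + (1 + y * x) * (y * t) := by noncomm_ring
  rw [e, two_cancel]

lemma rel_qs : a0 * q + b0 * s = 0 := by
  rw [a0, b0, s, q]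
  have e : (y + (1 + y * x) * z) * (1 + x * y) + (1 + y * x) * (y + z * (1 + x * y))
      = (y + y * (x * y)) + (y + y * (x * y))
        + ((1 + y * x) * (z * (1 + x * y)) + (1 + y * x) * (z * (1 + x * y))) := by noncomm_ring
  rw [e, two_cancel, two_cancel, add_zero]

/-- a specialization showing that `u` is not zero -/
lemma u_ne : u ≠ 0 := by
  intro h
  -- send x to E12, y to E21 and t to E12 in 2x2 matrices
  let φ : F →ₐ[ZMod 2] Matrix (Fin 2) (Fin 2) (ZMod 2) :=
    FreeAlgebra.lift (ZMod 2) ![!![0, 1; 0, 0], !![0, 0; 1, 0], 0, !![0, 1; 0, 0]]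
  have hx : φ x = !![0, 1; 0, 0] := by simp [φ, x]
  have hy : φ y = !![0, 0; 1, 0] := by simp [φ, y]
  have ht : φ t = !![0, 1; 0, 0] := by simp [φ, t]
  have : φ u = 0 := by rw [h, map_zero]
  rw [u, q] at this
  simp only [map_add, map_mul, map_one, hx, hy, ht] at this
  have h01 := congrFun (congrFun this 0) 1
  simp [Matrix.mul_apply, Fin.sum_univ_two, Matrix.one_apply] at h01
  revert h01
  decide

/-- The kernel vector `(q, s)` generates the kernel of the row `(a0, b0)`. -/
lemma kernel (n1 n2 : F) (h : a0 * n1 + b0 * n2 = 0) :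
    n1 = q * (n1 + x * (z * n1 + n2)) := by
  -- put v = z n1 + n2 ; the relation says y n1 = (1 + y x) v, hence v = y (n1 + x v)
  have h1 : y * n1 + (1 + y * x) * (z * n1 + n2) = 0 := by
    rw [a0, b0] at h
    rw [← h]; noncomm_ring
  have hv : z * n1 + n2 = y * (n1 + x * (z * n1 + n2)) := by
    have e : z * n1 + n2 = (y * n1 + (1 + y * x) * (z * n1 + n2))
        + (y * (n1 + x * (z * n1 + n2)))
        - ((y * n1 + y * n1) + (y * x * (z * n1 + n2) + y * x * (z * n1 + n2))) := by
      noncomm_ring
    rw [h1, two_cancel, two_cancel, zero_add, add_zero, sub_zero] at e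
    exact e
  have e2 : q * (n1 + x * (z * n1 + n2))
      = n1 + x * (z * n1 + n2) + x * (y * (n1 + x * (z * n1 + n2))) := by
    rw [q]; noncomm_ring
  rw [e2, ← hv, add_assoc, two_cancel, add_zero]

lemma q_ne : q ≠ 0 := by
  intro h
  have h2 := D_q'
  let φ : F →ₐ[ZMod 2] ZMod 2 := FreeAlgebra.lift (ZMod 2) (fun _ => 0)
  have : φ q = 0 := by rw [h, map_zero]
  rw [q] at this
  simp [φ, x] at this

/-- The negation of the preceding statement: Over a field of prime characteristic p, for any finite-dimensional space of derivations of a free associative algebra closed under commutators and p-th powers, the common kernel of those derivations is itself a free algebra. -/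
theorem result :
    ¬ (∀ (p : ℕ) (k : Type) [Field k] [CharP k p], p.Prime →
    ∀ (X : Type) (L : Submodule k (Module.End k (FreeAlgebra k X))),
      FiniteDimensional k L →
      (∀ D ∈ L, ∀ a b : FreeAlgebra k X, D (a * b) = D a * b + a * D b) →
      (∀ D₁ ∈ L, ∀ D₂ ∈ L, D₁ * D₂ - D₂ * D₁ ∈ L) →
      (∀ D ∈ L, D ^ p ∈ L) →
      ∃ (Y : Type) (f : FreeAlgebra k Y →ₐ[k] FreeAlgebra k X),
        Function.Injective f ∧ Set.range f = {a | ∀ D ∈ L, D a = 0}) := by
  intro H
  have : Fact (Nat.Prime 2) := ⟨Nat.prime_two⟩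
  have hD2 : D * D = 0 := by
    ext f
    exact DD f
  obtain ⟨Y, f, hf, hrange⟩ := H 2 (ZMod 2) Nat.prime_two (Fin 4)
    (Submodule.span (ZMod 2) {D})
    (FiniteDimensional.span_singleton _ _)
    (by
      intro E hE a b
      obtain ⟨c, rfl⟩ := Submodule.mem_span_singleton.1 hE
      simp only [LinearMap.smul_apply, D_mul, smul_add, smul_mul_assoc, mul_smul_comm])
    (by
      intro E₁ hE₁ E₂ hE₂
      obtain ⟨c, rfl⟩ := Submodule.mem_span_singleton.1 hE₁
      obtain ⟨d, rfl⟩ := Submodule.mem_span_singleton.1 hE₂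
      simp only [smul_mul_assoc, mul_smul_comm, hD2, smul_zero, sub_zero]
      exact zero_mem _)
    (by
      intro E hE
      obtain ⟨c, rfl⟩ := Submodule.mem_span_singleton.1 hE
      rw [pow_two]
      simp only [smul_mul_assoc, mul_smul_comm, hD2, smul_zero]
      exact zero_mem _)
  -- membership in the range of f
  have hmem : ∀ g : F, D g = 0 → ∃ g', f g' = g := by
    intro g hg
    have : g ∈ Set.range f := by
      rw [hrange]
      intro E hE
      obtain ⟨c, rfl⟩ := Submodule.mem_span_singleton.1 hE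
      rw [LinearMap.smul_apply, hg, smul_zero]
    exact this
  have hker : ∀ g', D (f g') = 0 := by
    intro g'
    have : f g' ∈ Set.range f := ⟨g', rfl⟩
    rw [hrange] at this
    exact this D (Submodule.mem_span_singleton_self D)
  obtain ⟨a, ha⟩ := hmem a0 D_a0
  obtain ⟨b, hb⟩ := hmem b0 D_b0
  obtain ⟨p, hp⟩ := hmem (q * u) (by rw [D_mul, D_q', D_u, mul_assoc, two_cancel])
  obtain ⟨r, hr⟩ := hmem (s * u) (by rw [D_mul, D_s, D_u, mul_assoc, two_cancel])
  have hrel : a * p + b * r = 0 := by
    apply hf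
    rw [map_add, map_mul, map_mul, ha, hb, hp, hr, map_zero, ← mul_assoc, ← mul_assoc,
      ← add_mul, rel_qs, zero_mul]
  have hp0 : p ≠ 0 := by
    intro h0
    rw [h0, map_zero] at hp
    rcases mul_eq_zero.1 hp.symm with h | h
    · exact q_ne h
    · exact u_ne h
  obtain ⟨d, w1, w2, v1, v2, n1, n2, u1, u2, h1, h2, h3, h4, h5, h6, h7⟩ :=
    cert_of_dependent' a b p r hrel (Or.inl hp0)
  -- transfer to F
  have hd0 : f d ≠ 0 := by
    intro h0
    have : a0 = 0 := by rw [← ha, h1, map_mul, h0, zero_mul]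
    have h' : b0 = 0 := by rw [← hb, h2, map_mul, h0, zero_mul]
    -- b0 = 1 + y x has augmentation one
    let φ : F →ₐ[ZMod 2] ZMod 2 := FreeAlgebra.lift (ZMod 2) (fun _ => 0)
    have : φ b0 = 0 := by rw [h', map_zero]
    rw [b0] at this
    simp [φ, y] at this
  have hα : f w1 * q + f w2 * s = 0 := by
    have h := rel_qs
    rw [← ha, ← hb, h1, h2, map_mul, map_mul, mul_assoc, mul_assoc, ← mul_add] at h
    exact (mul_eq_zero.1 h).resolve_left hd0
  set β : F := f u1 * q + f u2 * s with hβ
  have hq : q = f n1 * β := by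
    have e1 : f v1 * f w1 + f n1 * f u1 = 1 := by
      rw [← map_mul, ← map_mul, ← map_add, h4, map_one]
    have e2 : f v1 * f w2 + f n1 * f u2 = 0 := by
      rw [← map_mul, ← map_mul, ← map_add, h5, map_zero]
    have : f v1 * (f w1 * q + f w2 * s) + f n1 * β
        = (f v1 * f w1 + f n1 * f u1) * q + (f v1 * f w2 + f n1 * f u2) * s := by
      rw [hβ]; noncomm_ring
    rw [hα, mul_zero, zero_add, e1, e2, one_mul, zero_mul, add_zero] at this
    exact this.symm
  have hn : a0 * f n1 + b0 * f n2 = 0 := by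
    rw [← ha, ← hb, ← map_mul, ← map_mul, ← map_add, h3, map_zero]
  have hk := kernel _ _ hn
  set h : F := f n1 + x * (z * f n1 + f n2) with hh
  have hone : h * β = 1 := by
    have : q * (h * β) = q * 1 := by
      rw [← mul_assoc, ← hk, ← hq, mul_one]
    exact mul_left_cancel₀ q_ne this
  obtain ⟨c, hc⟩ := unit_scalar β h hone
  have hDβ : D β = 0 := by rw [hc, D_algebraMap]
  have hDq : D q = 0 := by
    rw [hq, D_mul, hker, hDβ, zero_mul, mul_zero, add_zero]
  rw [D_q'] at hDq
  rcases mul_eq_zero.1 hDq with h' | h'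
  · exact q_ne h'
  · exact u_ne h'

end Pool.Agent.S02714
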