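import Pool.Statements.S02989
import Pool.Agent.Lib.MP_c3da71_al.Top

set_option autoImplicit false
open Pool Pool.MP_c3da71_al

namespace Pool.Agent.S02989

/-- For every finitely generated group G with an abelian normal subgroup A and G/A polycyclic, some m bounds the number of strict steps in any ascending chain of centralizers of subnormal subgroups of G. -/
theorem result :
    ∀ (G : Type) [Group G], Group.FG G →
      ∀ (A : Subgroup G) [A.Normal],
        (∀ a ∈ A, ∀ b ∈ A, a * b = b * a) →
        IsSolvable (G ⧸ A) →
        (∀ K : Subgroup (G ⧸ A), K.FG) →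
        ∃ m : ℕ, ∀ (n : ℕ) (H : ℕ → Subgroup G),
          (∀ i ≤ n, ∃ k : ℕ, ∃ K : ℕ → Subgroup G,
              K 0 = H i ∧ K k = ⊤ ∧
              ∀ j < k, K j ≤ K (j + 1) ∧ ((K j).subgroupOf (K (j + 1))).Normal) →
          (∀ i < n, Subgroup.centralizer ((H i : Set G)) ≤
              Subgroup.centralizer ((H (i + 1) : Set G))) →
          {i : ℕ | i < n ∧ Subgroup.centralizer ((H i : Set G)) <
              Subgroup.centralizer ((H (i + 1) : Set G))}.ncard ≤ m :=
  C3da71.main

end Pool.Agent.S02989
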