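import Pool.Statements.S03160

/-!
Counterexample: `F` free on `a, b`, `r₁ = [a³,b]`, `r₂ = a³` (a proper power), `r₃ = a⁶ [a³,b]`,
`x = [a³, r₃]`, `n = 2`.  With `c = a³`: `x² = [c, x]⁻¹ r₃ [r₁⁻¹, r₃] r₃⁻¹`, and `x` is detected by a
homomorphism to an explicit group of order `32`.
-/

set_option autoImplicit false
open Pool Pool.MP_d30538_al
open scoped commutatorElement

namespace Pool.Agent.S03160

/-- A group of order `32`: the matrices
`[[1,0,0,be],[i,1,0,ro],[c,i,1,xi],[0,0,0,1]]` over `ZMod 2`. -/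
@[ext] structure P where
  i : ZMod 2
  c : ZMod 2
  be : ZMod 2
  ro : ZMod 2
  xi : ZMod 2
deriving DecidableEq

namespace P

instance : Mul P := ⟨fun g h => ⟨g.i + h.i, g.c + g.i * h.i + h.c, g.be + h.be,
  g.ro + h.ro + g.i * h.be, g.xi + h.xi + g.i * h.ro + g.c * h.be⟩⟩
instance : One P := ⟨⟨0, 0, 0, 0, 0⟩⟩
instance : Inv P := ⟨fun g => ⟨-g.i, -g.c + g.i * g.i, -g.be, -g.ro + g.i * g.be,
  -g.xi + g.i * (g.ro - g.i * g.be) + g.c * g.be⟩⟩

@[simp] theorem mul_i (g h : P) : (g * h).i = g.i + h.i := rfl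
@[simp] theorem mul_c (g h : P) : (g * h).c = g.c + g.i * h.i + h.c := rfl
@[simp] theorem mul_be (g h : P) : (g * h).be = g.be + h.be := rfl
@[simp] theorem mul_ro (g h : P) : (g * h).ro = g.ro + h.ro + g.i * h.be := rfl
@[simp] theorem mul_xi (g h : P) :
    (g * h).xi = g.xi + h.xi + g.i * h.ro + g.c * h.be := rfl
@[simp] theorem one_i : (1 : P).i = 0 := rfl
@[simp] theorem one_c : (1 : P).c = 0 := rfl
@[simp] theorem one_be : (1 : P).be = 0 := rfl
@[simp] theorem one_ro : (1 : P).ro = 0 := rfl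
@[simp] theorem one_xi : (1 : P).xi = 0 := rfl
@[simp] theorem inv_i (g : P) : (g⁻¹).i = -g.i := rfl
@[simp] theorem inv_c (g : P) : (g⁻¹).c = -g.c + g.i * g.i := rfl
@[simp] theorem inv_be (g : P) : (g⁻¹).be = -g.be := rfl
@[simp] theorem inv_ro (g : P) : (g⁻¹).ro = -g.ro + g.i * g.be := rfl
@[simp] theorem inv_xi (g : P) :
    (g⁻¹).xi = -g.xi + g.i * (g.ro - g.i * g.be) + g.c * g.be := rfl

instance : Group P where
  mul_assoc g h k := by
    ext <;> simp only [mul_i, mul_c, mul_be, mul_ro, mul_xi] <;> ring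
  one_mul g := by
    ext <;> simp only [mul_i, mul_c, mul_be, mul_ro, mul_xi, one_i, one_c, one_be, one_ro,
      one_xi] <;> ring
  mul_one g := by
    ext <;> simp only [mul_i, mul_c, mul_be, mul_ro, mul_xi, one_i, one_c, one_be, one_ro,
      one_xi] <;> ring
  inv_mul_cancel g := by
    ext <;> simp only [mul_i, mul_c, mul_be, mul_ro, mul_xi, one_i, one_c, one_be, one_ro,
      one_xi, inv_i, inv_c, inv_be, inv_ro, inv_xi] <;> ring

end P

/-- the normal subgroup `i = c = be = 0` -/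
def N1 : Subgroup P where
  carrier := {g | g.i = 0 ∧ g.c = 0 ∧ g.be = 0}
  mul_mem' := by
    rintro g h ⟨h1, h2, h3⟩ ⟨h4, h5, h6⟩
    exact ⟨by simp [h1, h4], by simp [h1, h2, h5], by simp [h3, h6]⟩
  one_mem' := ⟨rfl, rfl, rfl⟩
  inv_mem' := by
    rintro g ⟨h1, h2, h3⟩
    exact ⟨by simp [h1], by simp [h1, h2], by simp [h3]⟩

/-- the normal subgroup `i = be = 0`, `c = ro` -/
def N3 : Subgroup P where
  carrier := {g | g.i = 0 ∧ g.be = 0 ∧ g.c = g.ro}
  mul_mem' := by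
    rintro g h ⟨h1, h2, h3⟩ ⟨h4, h5, h6⟩
    exact ⟨by simp [h1, h4], by simp [h2, h5], by simp [h1, h3, h4, h5, h6]⟩
  one_mem' := ⟨rfl, rfl, rfl⟩
  inv_mem' := by
    rintro g ⟨h1, h2, h3⟩
    exact ⟨by simp [h1], by simp [h2], by simp [h1, h2, h3]⟩

theorem N1_normal : N1.Normal := by
  refine ⟨fun n hn g => ?_⟩
  obtain ⟨h1, h2, h3⟩ := hn
  refine ⟨?_, ?_, ?_⟩
  · simp only [P.mul_i, P.inv_i, h1]; ring
  · simp only [P.mul_i, P.mul_c, P.inv_i, P.inv_c, h1, h2]; ring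
  · simp only [P.mul_be, P.inv_be, h3]; ring

theorem N3_normal : N3.Normal := by
  refine ⟨fun n hn g => ?_⟩
  obtain ⟨h1, h2, h3⟩ := hn
  refine ⟨?_, ?_, ?_⟩
  · simp only [P.mul_i, P.inv_i, h1]; ring
  · simp only [P.mul_be, P.inv_be, h2]; ring
  · simp only [P.mul_i, P.mul_c, P.mul_be, P.mul_ro, P.inv_i, P.inv_c, P.inv_be, P.inv_ro,
      h1, h2, h3]; ring

theorem comm13 (p q : P) (hp : p ∈ N1) (hq : q ∈ N3) : p * q = q * p := by
  obtain ⟨h1, h2, h3⟩ := hp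
  obtain ⟨h4, h5, h6⟩ := hq
  ext
  · simp [h1, h4]
  · simp [h1, h2, h4]
  · simp [h3, h5]
  · simp [h1, h4, h3, h5]; ring
  · simp [h1, h2, h3, h4, h5]; ring

theorem central13 (p : P) (hp : p ∈ N1) (hq : p ∈ N3) (g : P) : g * p = p * g := by
  obtain ⟨h1, h2, h3⟩ := hp
  obtain ⟨h4, h5, h6⟩ := hq
  have h7 : p.ro = 0 := by rw [← h6, h2]
  ext
  · simp [h1]
  · simp [h1, h2]
  · simp [h3]
  · simp [h1, h3, h7]
  · simp [h1, h2, h3, h7]; ring

/-- the cube `a³` of the generator `a` -/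
def fa : FreeGroup Bool := FreeGroup.of true ^ 3
/-- generator `b` -/
def fb : FreeGroup Bool := FreeGroup.of false
/-- image of `a³`, an element of order `4` -/
def pa : P := ⟨1, 0, 0, 0, 0⟩
/-- image of `b` -/
def pb : P := ⟨0, 0, 1, 0, 0⟩

/-- the homomorphism to `P` with `a ↦ pa³` and `b ↦ pb` -/
def phi : FreeGroup Bool →* P := FreeGroup.lift (fun t => if t then pa * pa * pa else pb)

theorem pa_nine : (pa * pa * pa) ^ 3 = pa := by
  rw [pow_succ, pow_succ, pow_succ, pow_zero]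
  decide
theorem phi_fa : phi fa = pa := by
  rw [fa, map_pow, phi, FreeGroup.lift_apply_of, if_pos rfl, pa_nine]
theorem phi_fb : phi fb = pb := by simp [phi, fb]

/-- `r₁` -/
def r1 : FreeGroup Bool := fa * fb * fa⁻¹ * fb⁻¹
/-- `r₃` -/
def r3 : FreeGroup Bool := fa * fa * r1
/-- the torsion element -/
def xx : FreeGroup Bool := fa * r3 * fa⁻¹ * r3⁻¹

theorem phi_r1 : phi r1 = pa * pb * pa⁻¹ * pb⁻¹ := by
  rw [r1, map_mul, map_mul, map_mul, map_inv, map_inv, phi_fa, phi_fb]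
theorem phi_r3 : phi r3 = pa * pa * (pa * pb * pa⁻¹ * pb⁻¹) := by
  rw [r3, map_mul, map_mul, phi_fa, phi_r1]
theorem phi_xx : phi xx = pa * (pa * pa * (pa * pb * pa⁻¹ * pb⁻¹)) * pa⁻¹ *
    (pa * pa * (pa * pb * pa⁻¹ * pb⁻¹))⁻¹ := by
  rw [xx, map_mul, map_mul, map_mul, map_inv, map_inv, phi_fa, phi_r3]

/-- `R₁` -/
abbrev R1 : Subgroup (FreeGroup Bool) := Subgroup.normalClosure ({r1} : Set (FreeGroup Bool))
/-- `R₂` -/
abbrev R2 : Subgroup (FreeGroup Bool) := Subgroup.normalClosure ({fa} : Set (FreeGroup Bool))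
/-- `R₃` -/
abbrev R3 : Subgroup (FreeGroup Bool) := Subgroup.normalClosure ({r3} : Set (FreeGroup Bool))

theorem phi_r1_mem : phi r1 ∈ N1 := by
  rw [phi_r1]
  exact ⟨by decide, by decide, by decide⟩

theorem phi_r3_mem : phi r3 ∈ N3 := by
  rw [phi_r3]
  exact ⟨by decide, by decide, by decide⟩

theorem R1_le : R1 ≤ N1.comap phi := by
  have := N1_normal
  apply Subgroup.normalClosure_le_normal
  rintro _ rfl
  exact phi_r1_mem

theorem R3_le : R3 ≤ N3.comap phi := by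
  have := N3_normal
  apply Subgroup.normalClosure_le_normal
  rintro _ rfl
  exact phi_r3_mem

theorem comm_le_ker {A B : Subgroup (FreeGroup Bool)}
    (h : ∀ g ∈ A, ∀ k ∈ B, phi g * phi k = phi k * phi g) : ⁅A, B⁆ ≤ phi.ker := by
  rw [Subgroup.commutator_le]
  intro g hg k hk
  rw [MonoidHom.mem_ker, map_commutatorElement, commutatorElement_eq_one_iff_mul_comm]
  exact h g hg k hk

theorem big_le_ker :
    (⁅R1, R2 ⊓ R3⁆ ⊔ ⁅R2, R1 ⊓ R3⁆ ⊔ ⁅R3, R1 ⊓ R2⁆) ≤ phi.ker := by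
  refine sup_le (sup_le (comm_le_ker ?_) (comm_le_ker ?_)) (comm_le_ker ?_)
  · intro g hg k hk
    exact comm13 _ _ (R1_le hg) (R3_le hk.2)
  · intro g _ k hk
    exact central13 _ (R1_le hk.1) (R3_le hk.2) _
  · intro g hg k hk
    exact (comm13 _ _ (R1_le hk.1) (R3_le hg)).symm

theorem r1_mem : r1 ∈ R1 := Subgroup.subset_normalClosure rfl
theorem fa_mem : fa ∈ R2 := Subgroup.subset_normalClosure rfl
theorem r3_mem : r3 ∈ R3 := Subgroup.subset_normalClosure rfl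

theorem r3_mem_R2 : r3 ∈ R2 := by
  have h1 : fb * fa⁻¹ * fb⁻¹ ∈ R2 :=
    (Subgroup.normalClosure_normal).conj_mem _ (R2.inv_mem fa_mem) fb
  have : r3 = fa * fa * (fa * (fb * fa⁻¹ * fb⁻¹)) := by simp [r3, r1, mul_assoc]
  rw [this]
  exact R2.mul_mem (R2.mul_mem fa_mem fa_mem) (R2.mul_mem fa_mem h1)

theorem xx_mem_R3 : xx ∈ R3 :=
  R3.mul_mem ((Subgroup.normalClosure_normal).conj_mem _ r3_mem fa) (R3.inv_mem r3_mem)

theorem xx_mem_R2 : xx ∈ R2 :=
  R2.mul_mem (R2.mul_mem (R2.mul_mem fa_mem r3_mem_R2) (R2.inv_mem fa_mem)) (R2.inv_mem r3_mem_R2)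

theorem xx_mem_R1 : xx ∈ R1 := by
  have h1 : fa * r1 * fa⁻¹ * r1⁻¹ ∈ R1 :=
    R1.mul_mem ((Subgroup.normalClosure_normal).conj_mem _ r1_mem fa) (R1.inv_mem r1_mem)
  have h2 := (Subgroup.normalClosure_normal (s := ({r1} : Set (FreeGroup Bool)))).conj_mem _ h1
    (fa * fa)
  have : xx = (fa * fa) * (fa * r1 * fa⁻¹ * r1⁻¹) * (fa * fa)⁻¹ := by
    simp only [xx, r3]; group
  rw [this]; exact h2

theorem xx_sq : xx ^ 2 =
    ⁅fa, xx⁆⁻¹ * (r3 * ⁅r1⁻¹, r3⁆ * r3⁻¹) := by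
  simp only [xx, r3, commutatorElement_def, pow_two, mul_assoc, mul_inv_rev, inv_inv]; group

theorem main : ∃ (α : Type) (r₁ r₂ r₃ x : FreeGroup α) (n : ℕ), 0 < n ∧
    x ∈ Subgroup.normalClosure ({r₁} : Set (FreeGroup α)) ⊓
          Subgroup.normalClosure ({r₂} : Set (FreeGroup α)) ⊓
          Subgroup.normalClosure ({r₃} : Set (FreeGroup α)) ∧
      x ^ n ∈
        (⁅Subgroup.normalClosure ({r₁} : Set (FreeGroup α)),
            Subgroup.normalClosure ({r₂} : Set (FreeGroup α)) ⊓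
              Subgroup.normalClosure ({r₃} : Set (FreeGroup α))⁆ ⊔
          ⁅Subgroup.normalClosure ({r₂} : Set (FreeGroup α)),
            Subgroup.normalClosure ({r₁} : Set (FreeGroup α)) ⊓
              Subgroup.normalClosure ({r₃} : Set (FreeGroup α))⁆ ⊔
          ⁅Subgroup.normalClosure ({r₃} : Set (FreeGroup α)),
            Subgroup.normalClosure ({r₁} : Set (FreeGroup α)) ⊓
              Subgroup.normalClosure ({r₂} : Set (FreeGroup α))⁆) ∧
      x ∉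
        (⁅Subgroup.normalClosure ({r₁} : Set (FreeGroup α)),
            Subgroup.normalClosure ({r₂} : Set (FreeGroup α)) ⊓
              Subgroup.normalClosure ({r₃} : Set (FreeGroup α))⁆ ⊔
          ⁅Subgroup.normalClosure ({r₂} : Set (FreeGroup α)),
            Subgroup.normalClosure ({r₁} : Set (FreeGroup α)) ⊓
              Subgroup.normalClosure ({r₃} : Set (FreeGroup α))⁆ ⊔
          ⁅Subgroup.normalClosure ({r₃} : Set (FreeGroup α)),
            Subgroup.normalClosure ({r₁} : Set (FreeGroup α)) ⊓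
              Subgroup.normalClosure ({r₂} : Set (FreeGroup α))⁆) := by
  refine ⟨Bool, r1, fa, r3, xx, 2, by norm_num, ⟨⟨xx_mem_R1, xx_mem_R2⟩, xx_mem_R3⟩, ?_, ?_⟩
  · rw [xx_sq]
    have hA : ⁅fa, xx⁆⁻¹ ∈ ⁅R2, R1 ⊓ R3⁆ :=
      Subgroup.inv_mem _ (Subgroup.commutator_mem_commutator fa_mem ⟨xx_mem_R1, xx_mem_R3⟩)
    have hB : ⁅r1⁻¹, r3⁆ ∈ ⁅R1, R2 ⊓ R3⁆ :=
      Subgroup.commutator_mem_commutator (R1.inv_mem r1_mem) ⟨r3_mem_R2, r3_mem⟩
    have hN : (⁅R1, R2 ⊓ R3⁆ : Subgroup (FreeGroup Bool)).Normal := inferInstance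
    have hB' : r3 * ⁅r1⁻¹, r3⁆ * r3⁻¹ ∈ ⁅R1, R2 ⊓ R3⁆ := hN.conj_mem _ hB r3
    refine Subgroup.mul_mem _ ?_ ?_
    · exact (le_trans (le_sup_right : _ ≤ ⁅R1, R2 ⊓ R3⁆ ⊔ ⁅R2, R1 ⊓ R3⁆) le_sup_left) hA
    · exact (le_trans (le_sup_left : _ ≤ ⁅R1, R2 ⊓ R3⁆ ⊔ ⁅R2, R1 ⊓ R3⁆) le_sup_left) hB'
  · intro h
    have h1 := big_le_ker h
    rw [MonoidHom.mem_ker, phi_xx] at h1
    exact absurd h1 (by decide)

/-- The negation of the preceding statement: In any free group with normal closures R1,R2,R3 of single elements, if x lies in R1∩R2∩R3 and some positive power of x lies in [R1,R2∩R3][R2,R1∩R3][R3,R1∩R2], then x itself lies in that subgroup. -/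
theorem result :
    ¬ (∀ (α : Type) (r₁ r₂ r₃ x : FreeGroup α) (n : ℕ), 0 < n →
      x ∈ Subgroup.normalClosure ({r₁} : Set (FreeGroup α)) ⊓
          Subgroup.normalClosure ({r₂} : Set (FreeGroup α)) ⊓
          Subgroup.normalClosure ({r₃} : Set (FreeGroup α)) →
      x ^ n ∈
        (⁅Subgroup.normalClosure ({r₁} : Set (FreeGroup α)),
            Subgroup.normalClosure ({r₂} : Set (FreeGroup α)) ⊓
              Subgroup.normalClosure ({r₃} : Set (FreeGroup α))⁆ ⊔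
          ⁅Subgroup.normalClosure ({r₂} : Set (FreeGroup α)),
            Subgroup.normalClosure ({r₁} : Set (FreeGroup α)) ⊓
              Subgroup.normalClosure ({r₃} : Set (FreeGroup α))⁆ ⊔
          ⁅Subgroup.normalClosure ({r₃} : Set (FreeGroup α)),
            Subgroup.normalClosure ({r₁} : Set (FreeGroup α)) ⊓
              Subgroup.normalClosure ({r₂} : Set (FreeGroup α))⁆) →
      x ∈
        (⁅Subgroup.normalClosure ({r₁} : Set (FreeGroup α)),
            Subgroup.normalClosure ({r₂} : Set (FreeGroup α)) ⊓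
              Subgroup.normalClosure ({r₃} : Set (FreeGroup α))⁆ ⊔
          ⁅Subgroup.normalClosure ({r₂} : Set (FreeGroup α)),
            Subgroup.normalClosure ({r₁} : Set (FreeGroup α)) ⊓
              Subgroup.normalClosure ({r₃} : Set (FreeGroup α))⁆ ⊔
          ⁅Subgroup.normalClosure ({r₃} : Set (FreeGroup α)),
            Subgroup.normalClosure ({r₁} : Set (FreeGroup α)) ⊓
              Subgroup.normalClosure ({r₂} : Set (FreeGroup α))⁆)) := by
  intro H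
  obtain ⟨α, r₁, r₂, r₃, x, n, hn, hx, hxn, hnot⟩ := main
  exact hnot (H α r₁ r₂ r₃ x n hn hx hxn)

end Pool.Agent.S03160
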