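import Pool.Statements.S04368

set_option autoImplicit false
open Filter Topology
open Pool Pool.MP_393faa_an

/-
The counterexample.  Let `E = ℓ²(ℕ)`, `V` the unilateral shift on `E` and `u = e₀`, so that `u` is a
unit vector orthogonal to the range of `V`.  For real `t` put `D t = I + (t - 1) P_u`.  On `E ⊕ E` let
`S = V ⊕ V`, `L = D 2 ⊕ D (1/2)` and `T = L⁻¹ S L`.  As `D t V = V`, one has `T ^ n = S ^ n L` for
`n ≥ 1`, hence `‖T ^ n x‖ = ‖L x‖` for `n ≥ 1`, i.e. (1) and (4) hold, and `‖L‖ ‖L⁻¹‖ = 2 * 2 = 4`.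
But `M = (1/2) D 2 ⊕ D (1/2)` also satisfies `T = M⁻¹ S M`, and `‖M‖ ≤ 1`, `‖M⁻¹‖ ≤ 2`.
Hence `d(T) ≤ 2 < 4`.
-/

namespace Pool.Agent.S04368

open scoped InnerProductSpace

section General

variable {E : Type} [NormedAddCommGroup E] [InnerProductSpace ℂ E]

/-- `D u t = I + (t - 1) P_u`, the operator scaling the unit vector `u` by `t`. -/
noncomputable def D (u : E) (t : ℝ) : E →L[ℂ] E :=
  ContinuousLinearMap.id ℂ E + ((t : ℂ) - 1) • (innerSL ℂ u).smulRight u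

lemma D_apply (u : E) (t : ℝ) (x : E) : D u t x = x + (((t : ℂ) - 1) * ⟪u, x⟫_ℂ) • u := by
  simp [D, smul_smul]

lemma inner_u_u {u : E} (hu : ‖u‖ = 1) : ⟪u, u⟫_ℂ = 1 := by
  rw [inner_self_eq_norm_sq_to_K, hu]; simp

lemma inner_u_D {u : E} (hu : ‖u‖ = 1) (t : ℝ) (x : E) : ⟪u, D u t x⟫_ℂ = t * ⟪u, x⟫_ℂ := by
  rw [D_apply, inner_add_right, inner_smul_right, inner_u_u hu]; ring

lemma D_D {u : E} (hu : ‖u‖ = 1) (s t : ℝ) (x : E) : D u s (D u t x) = D u (s * t) x := by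
  rw [D_apply u s, inner_u_D hu, D_apply u t, D_apply u (s*t), add_assoc, ← add_smul]
  congr 2
  push_cast
  ring

lemma D_one (u : E) : D u 1 = 1 := by
  ext1 x
  rw [D_apply]; simp

lemma D_mul {u : E} (hu : ‖u‖ = 1) (s t : ℝ) : D u s * D u t = D u (s * t) := by
  ext1 x
  simp [D_D hu]

lemma D_V (u : E) (V : E →L[ℂ] E) (hV : ∀ x, ⟪u, V x⟫_ℂ = 0) (t : ℝ) : D u t * V = V := by
  ext1 x
  simp [D_apply, hV]

lemma norm_D_sq {u : E} (hu : ‖u‖ = 1) (t : ℝ) (x : E) :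
    ‖D u t x‖ ^ 2 = ‖x‖ ^ 2 + (t ^ 2 - 1) * ‖⟪u, x⟫_ℂ‖ ^ 2 := by
  have hre : RCLike.re ⟪x, (((t : ℂ) - 1) * ⟪u, x⟫_ℂ) • u⟫_ℂ = (t - 1) * ‖⟪u, x⟫_ℂ‖ ^ 2 := by
    rw [inner_smul_right, ← inner_conj_symm x u]
    have : ((t : ℂ) - 1) * ⟪u, x⟫_ℂ * (starRingEnd ℂ) ⟪u, x⟫_ℂ =
        (((t - 1) * ‖⟪u, x⟫_ℂ‖ ^ 2 : ℝ) : ℂ) := by
      rw [mul_assoc, Complex.mul_conj, Complex.normSq_eq_norm_sq]
      push_cast
      ring
    rw [this]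
    exact Complex.ofReal_re _
  rw [D_apply, @norm_add_sq ℂ, hre, norm_smul, hu, norm_mul]
  have : ‖(t : ℂ) - 1‖ = |t - 1| := by
    rw [← Complex.ofReal_one, ← Complex.ofReal_sub, Complex.norm_real, Real.norm_eq_abs]
  rw [this, mul_one, mul_pow, sq_abs]
  ring

lemma norm_inner_u_le {u : E} (hu : ‖u‖ = 1) (x : E) : ‖⟪u, x⟫_ℂ‖ ^ 2 ≤ ‖x‖ ^ 2 := by
  have := norm_inner_le_norm (𝕜 := ℂ) u x
  rw [hu, one_mul] at this
  gcongr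

/-- The direct sum of two operators. -/
noncomputable def dsum (A B : E →L[ℂ] E) : WithLp 2 (E × E) →L[ℂ] WithLp 2 (E × E) :=
  ((WithLp.prodContinuousLinearEquiv 2 ℂ E E).symm : (E × E) →L[ℂ] WithLp 2 (E × E)).comp
    ((A.prodMap B).comp
      ((WithLp.prodContinuousLinearEquiv 2 ℂ E E) : WithLp 2 (E × E) →L[ℂ] (E × E)))

lemma dsum_fst (A B : E →L[ℂ] E) (x : WithLp 2 (E × E)) : (dsum A B x).fst = A x.fst := by
  simp [dsum]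

lemma dsum_snd (A B : E →L[ℂ] E) (x : WithLp 2 (E × E)) : (dsum A B x).snd = B x.snd := by
  simp [dsum]

lemma ext2 {x y : WithLp 2 (E × E)} (h1 : x.fst = y.fst) (h2 : x.snd = y.snd) : x = y := by
  apply (WithLp.ofLp_injective 2)
  exact Prod.ext h1 h2

lemma norm_dsum_sq (A B : E →L[ℂ] E) (x : WithLp 2 (E × E)) :
    ‖dsum A B x‖ ^ 2 = ‖A x.fst‖ ^ 2 + ‖B x.snd‖ ^ 2 := by
  rw [WithLp.prod_norm_sq_eq_of_L2, dsum_fst, dsum_snd]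

lemma dsum_mul (A B A' B' : E →L[ℂ] E) : dsum A B * dsum A' B' = dsum (A * A') (B * B') := by
  ext1 x
  apply ext2
  · simp [dsum_fst]
  · simp [dsum_snd]

lemma dsum_one : dsum (1 : E →L[ℂ] E) 1 = 1 := by
  ext1 x
  apply ext2
  · simp [dsum_fst]
  · simp [dsum_snd]

/-- The similarity satisfying (1) and (4). -/
noncomputable def L (u : E) (hu : ‖u‖ = 1) : (WithLp 2 (E × E) →L[ℂ] WithLp 2 (E × E))ˣ where
  val := dsum (D u 2) (D u (1/2))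
  inv := dsum (D u (1/2)) (D u 2)
  val_inv := by
    rw [dsum_mul, D_mul hu, D_mul hu]; norm_num [D_one, dsum_one]
  inv_val := by
    rw [dsum_mul, D_mul hu, D_mul hu]; norm_num [D_one, dsum_one]

/-- The better similarity. -/
noncomputable def M (u : E) (hu : ‖u‖ = 1) : (WithLp 2 (E × E) →L[ℂ] WithLp 2 (E × E))ˣ where
  val := dsum ((1/2 : ℂ) • D u 2) (D u (1/2))
  inv := dsum ((2 : ℂ) • D u (1/2)) (D u 2)
  val_inv := by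
    rw [dsum_mul, smul_mul_smul_comm, D_mul hu, D_mul hu]; norm_num [D_one, dsum_one]
  inv_val := by
    rw [dsum_mul, smul_mul_smul_comm, D_mul hu, D_mul hu]; norm_num [D_one, dsum_one]

lemma norm_dsum_V (V : E →L[ℂ] E) (hV : ∀ x, ‖V x‖ = ‖x‖) (x : WithLp 2 (E × E)) :
    ‖dsum V V x‖ = ‖x‖ := by
  have : ‖dsum V V x‖ ^ 2 = ‖x‖ ^ 2 := by
    rw [norm_dsum_sq, WithLp.prod_norm_sq_eq_of_L2, hV, hV]
  exact (pow_left_inj₀ (norm_nonneg _) (norm_nonneg _) two_ne_zero).1 this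

lemma Linv_S {u : E} (hu : ‖u‖ = 1) (V : E →L[ℂ] E) (hV : ∀ x, ⟪u, V x⟫_ℂ = 0) :
    (↑(L u hu)⁻¹ : WithLp 2 (E × E) →L[ℂ] WithLp 2 (E × E)) * dsum V V = dsum V V := by
  change dsum (D u (1/2)) (D u 2) * dsum V V = dsum V V
  rw [dsum_mul, D_V u V hV, D_V u V hV]

lemma L_S {u : E} (hu : ‖u‖ = 1) (V : E →L[ℂ] E) (hV : ∀ x, ⟪u, V x⟫_ℂ = 0) :
    (↑(L u hu) : WithLp 2 (E × E) →L[ℂ] WithLp 2 (E × E)) * dsum V V = dsum V V := by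
  change dsum (D u 2) (D u (1/2)) * dsum V V = dsum V V
  rw [dsum_mul, D_V u V hV, D_V u V hV]

lemma T_eq_M {u : E} (hu : ‖u‖ = 1) (V : E →L[ℂ] E) (hV : ∀ x, ⟪u, V x⟫_ℂ = 0) :
    (↑(L u hu)⁻¹ : WithLp 2 (E × E) →L[ℂ] WithLp 2 (E × E)) * dsum V V * ↑(L u hu) =
    (↑(M u hu)⁻¹ : WithLp 2 (E × E) →L[ℂ] WithLp 2 (E × E)) * dsum V V * ↑(M u hu) := by
  change dsum (D u (1/2)) (D u 2) * dsum V V * dsum (D u 2) (D u (1/2)) =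
    dsum ((2 : ℂ) • D u (1/2)) (D u 2) * dsum V V * dsum ((1/2 : ℂ) • D u 2) (D u (1/2))
  rw [dsum_mul, dsum_mul, dsum_mul, dsum_mul, smul_mul_assoc, smul_mul_smul_comm]
  norm_num

lemma Tpow {R : Type} [Monoid R] (S L : R) (h : L * S = S) (n : ℕ) :
    (S * L) ^ (n + 1) = S ^ (n + 1) * L := by
  induction n with
  | zero => simp
  | succ n ih =>
    rw [pow_succ', ih, pow_succ' S n]
    calc S * L * (S * S ^ n * L) = S * ((L * S) * S ^ n * L) := by simp only [mul_assoc]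
      _ = S * (S * S ^ n * L) := by rw [h]
      _ = S ^ (n + 1 + 1) * L := by simp only [pow_succ', mul_assoc]

lemma norm_pow_apply {F : Type} [NormedAddCommGroup F] [InnerProductSpace ℂ F] (S : F →L[ℂ] F)
    (hS : ∀ x, ‖S x‖ = ‖x‖) (n : ℕ) (x : F) : ‖(S ^ n) x‖ = ‖x‖ := by
  induction n with
  | zero => simp
  | succ n ih =>
    rw [pow_succ']
    change ‖S ((S ^ n) x)‖ = ‖x‖
    rw [hS, ih]

lemma norm_L_ge {u : E} (hu : ‖u‖ = 1) :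
    2 ≤ ‖(↑(L u hu) : WithLp 2 (E × E) →L[ℂ] WithLp 2 (E × E))‖ := by
  have h := ContinuousLinearMap.le_opNorm (dsum (D u 2) (D u (1/2))) (WithLp.toLp 2 (u, (0 : E)))
  have h1 : ‖(WithLp.toLp 2 (u, (0 : E)) : WithLp 2 (E × E))‖ = 1 := by
    have : ‖(WithLp.toLp 2 (u, (0 : E)) : WithLp 2 (E × E))‖ ^ 2 = 1 ^ 2 := by
      rw [WithLp.prod_norm_sq_eq_of_L2]; simp [hu]
    exact (pow_left_inj₀ (norm_nonneg _) zero_le_one two_ne_zero).1 this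
  have h2 : ‖dsum (D u 2) (D u (1/2)) (WithLp.toLp 2 (u, (0 : E)))‖ = 2 := by
    have : ‖dsum (D u 2) (D u (1/2)) (WithLp.toLp 2 (u, (0 : E)))‖ ^ 2 = 2 ^ 2 := by
      rw [norm_dsum_sq]
      simp only [WithLp.toLp_fst, WithLp.toLp_snd]
      rw [norm_D_sq hu, norm_D_sq hu, hu, inner_u_u hu]
      norm_num
    exact (pow_left_inj₀ (norm_nonneg _) zero_le_two two_ne_zero).1 this
  rw [h1, h2, mul_one] at h
  exact h

lemma norm_Linv_ge {u : E} (hu : ‖u‖ = 1) :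
    2 ≤ ‖(↑(L u hu)⁻¹ : WithLp 2 (E × E) →L[ℂ] WithLp 2 (E × E))‖ := by
  have h := ContinuousLinearMap.le_opNorm (dsum (D u (1/2)) (D u 2)) (WithLp.toLp 2 ((0 : E), u))
  have h1 : ‖(WithLp.toLp 2 ((0 : E), u) : WithLp 2 (E × E))‖ = 1 := by
    have : ‖(WithLp.toLp 2 ((0 : E), u) : WithLp 2 (E × E))‖ ^ 2 = 1 ^ 2 := by
      rw [WithLp.prod_norm_sq_eq_of_L2]; simp [hu]
    exact (pow_left_inj₀ (norm_nonneg _) zero_le_one two_ne_zero).1 this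
  have h2 : ‖dsum (D u (1/2)) (D u 2) (WithLp.toLp 2 ((0 : E), u))‖ = 2 := by
    have : ‖dsum (D u (1/2)) (D u 2) (WithLp.toLp 2 ((0 : E), u))‖ ^ 2 = 2 ^ 2 := by
      rw [norm_dsum_sq]
      simp only [WithLp.toLp_fst, WithLp.toLp_snd]
      rw [norm_D_sq hu, norm_D_sq hu, hu, inner_u_u hu]
      norm_num
    exact (pow_left_inj₀ (norm_nonneg _) zero_le_two two_ne_zero).1 this
  rw [h1, h2, mul_one] at h
  exact h

lemma norm_M_le {u : E} (hu : ‖u‖ = 1) :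
    ‖(↑(M u hu) : WithLp 2 (E × E) →L[ℂ] WithLp 2 (E × E))‖ ≤ 1 := by
  refine ContinuousLinearMap.opNorm_le_bound _ zero_le_one (fun x => ?_)
  rw [one_mul]
  have : ‖dsum ((1/2 : ℂ) • D u 2) (D u (1/2)) x‖ ^ 2 ≤ ‖x‖ ^ 2 := by
    rw [norm_dsum_sq, WithLp.prod_norm_sq_eq_of_L2]
    have h1 : ‖((1/2 : ℂ) • D u 2) x.fst‖ ^ 2 = (1/4) * ‖D u 2 x.fst‖ ^ 2 := by
      change ‖(1/2 : ℂ) • (D u 2 x.fst)‖ ^ 2 = _
      rw [norm_smul, mul_pow]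
      norm_num
    rw [h1, norm_D_sq hu, norm_D_sq hu]
    have h2 := norm_inner_u_le hu x.fst
    have h3 := sq_nonneg ‖⟪u, x.snd⟫_ℂ‖
    nlinarith
  exact (pow_le_pow_iff_left₀ (norm_nonneg _) (norm_nonneg _) two_ne_zero).1 this

lemma norm_Minv_le {u : E} (hu : ‖u‖ = 1) :
    ‖(↑(M u hu)⁻¹ : WithLp 2 (E × E) →L[ℂ] WithLp 2 (E × E))‖ ≤ 2 := by
  refine ContinuousLinearMap.opNorm_le_bound _ zero_le_two (fun x => ?_)
  have : ‖dsum ((2 : ℂ) • D u (1/2)) (D u 2) x‖ ^ 2 ≤ (2 * ‖x‖) ^ 2 := by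
    rw [norm_dsum_sq, mul_pow, WithLp.prod_norm_sq_eq_of_L2]
    have h1 : ‖((2 : ℂ) • D u (1/2)) x.fst‖ ^ 2 = 4 * ‖D u (1/2) x.fst‖ ^ 2 := by
      change ‖(2 : ℂ) • (D u (1/2) x.fst)‖ ^ 2 = _
      rw [norm_smul, mul_pow]
      norm_num
    rw [h1, norm_D_sq hu, norm_D_sq hu]
    have h2 := norm_inner_u_le hu x.snd
    have h3 := sq_nonneg ‖⟪u, x.fst⟫_ℂ‖
    nlinarith
  exact (pow_le_pow_iff_left₀ (norm_nonneg _) (mul_nonneg zero_le_two (norm_nonneg _))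
    two_ne_zero).1 this

end General

section Shift

/-- The standard Hilbert basis of `ℓ²(ℕ)`. -/
noncomputable def b : HilbertBasis ℕ ℂ (lp (fun _ : ℕ => ℂ) 2) :=
  HilbertBasis.ofRepr (LinearIsometryEquiv.refl ℂ (lp (fun _ : ℕ => ℂ) 2))

lemma shifted_orthonormal : Orthonormal ℂ (fun n : ℕ => b (n + 1)) :=
  b.orthonormal.comp (fun n : ℕ => n + 1) (add_left_injective 1)

/-- The unilateral shift. -/
noncomputable def V : lp (fun _ : ℕ => ℂ) 2 →ₗᵢ[ℂ] lp (fun _ : ℕ => ℂ) 2 :=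
  shifted_orthonormal.orthogonalFamily.linearIsometry

lemma norm_u : ‖b 0‖ = 1 := b.orthonormal.1 0

lemma inner_u_V (x : lp (fun _ : ℕ => ℂ) 2) : ⟪b 0, V x⟫_ℂ = 0 := by
  have h := shifted_orthonormal.orthogonalFamily.hasSum_linearIsometry x
  have h2 := (innerSL ℂ (b 0)).hasSum h
  have h3 : HasSum (fun i : ℕ => (innerSL ℂ (b 0))
      ((LinearIsometry.toSpanSingleton ℂ (lp (fun _ : ℕ => ℂ) 2)
        (shifted_orthonormal.1 i)) (x i))) 0 := by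
    convert hasSum_zero using 2 with i
    have h4 : ⟪b 0, b (i + 1)⟫_ℂ = 0 := b.orthonormal.2 (Nat.succ_ne_zero i).symm
    simp [h4]
  exact h2.unique h3

end Shift

/-- The negation of the preceding statement: On a complex Hilbert space, if T = L⁻¹SL with S an isometry and ‖Lx‖ = lim ‖Tⁿx‖ for all x, then ‖L‖‖L⁻¹‖ equals the infimum of ‖M‖‖M⁻¹‖ over all similarities M of T to an isometry. -/
theorem result :
    ¬ (∀ (H : Type) [NormedAddCommGroup H] [InnerProductSpace ℂ H] [CompleteSpace H]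
      (T S : H →L[ℂ] H) (L : (H →L[ℂ] H)ˣ),
      (∀ x : H, ‖S x‖ = ‖x‖) →
      T = (↑L⁻¹ : H →L[ℂ] H) * S * (↑L : H →L[ℂ] H) →
      (∀ x : H, Tendsto (fun n : ℕ => ‖(T ^ n) x‖) atTop (𝓝 ‖(↑L : H →L[ℂ] H) x‖)) →
      ‖(↑L : H →L[ℂ] H)‖ * ‖(↑L⁻¹ : H →L[ℂ] H)‖ =
        sInf {r : ℝ | ∃ (M : (H →L[ℂ] H)ˣ) (S' : H →L[ℂ] H),
          (∀ x : H, ‖S' x‖ = ‖x‖) ∧
          T = (↑M⁻¹ : H →L[ℂ] H) * S' * (↑M : H →L[ℂ] H) ∧
          r = ‖(↑M : H →L[ℂ] H)‖ * ‖(↑M⁻¹ : H →L[ℂ] H)‖}) := by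
  intro h
  have hV : ∀ x, ⟪b 0, V.toContinuousLinearMap x⟫_ℂ = 0 := inner_u_V
  have hVn : ∀ x, ‖V.toContinuousLinearMap x‖ = ‖x‖ := fun x => V.norm_map x
  have key := h (WithLp 2 (lp (fun _ : ℕ => ℂ) 2 × lp (fun _ : ℕ => ℂ) 2))
    ((↑(L (b 0) norm_u)⁻¹) * dsum V.toContinuousLinearMap V.toContinuousLinearMap *
      ↑(L (b 0) norm_u))
    (dsum V.toContinuousLinearMap V.toContinuousLinearMap) (L (b 0) norm_u)
    (norm_dsum_V _ hVn) rfl ?_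
  · have hle : sInf {r : ℝ | ∃ (M' : (WithLp 2 (lp (fun _ : ℕ => ℂ) 2 × lp (fun _ : ℕ => ℂ) 2) →L[ℂ]
          WithLp 2 (lp (fun _ : ℕ => ℂ) 2 × lp (fun _ : ℕ => ℂ) 2))ˣ)
          (S' : WithLp 2 (lp (fun _ : ℕ => ℂ) 2 × lp (fun _ : ℕ => ℂ) 2) →L[ℂ]
          WithLp 2 (lp (fun _ : ℕ => ℂ) 2 × lp (fun _ : ℕ => ℂ) 2)),
          (∀ x, ‖S' x‖ = ‖x‖) ∧
          (↑(L (b 0) norm_u)⁻¹) * dsum V.toContinuousLinearMap V.toContinuousLinearMap *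
            ↑(L (b 0) norm_u) = (↑M'⁻¹) * S' * (↑M') ∧
          r = ‖(↑M' : WithLp 2 (lp (fun _ : ℕ => ℂ) 2 × lp (fun _ : ℕ => ℂ) 2) →L[ℂ]
          WithLp 2 (lp (fun _ : ℕ => ℂ) 2 × lp (fun _ : ℕ => ℂ) 2))‖ *
            ‖(↑M'⁻¹ : WithLp 2 (lp (fun _ : ℕ => ℂ) 2 × lp (fun _ : ℕ => ℂ) 2) →L[ℂ]
          WithLp 2 (lp (fun _ : ℕ => ℂ) 2 × lp (fun _ : ℕ => ℂ) 2))‖} ≤
          ‖(↑(M (b 0) norm_u) : WithLp 2 (lp (fun _ : ℕ => ℂ) 2 × lp (fun _ : ℕ => ℂ) 2) →L[ℂ]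
          WithLp 2 (lp (fun _ : ℕ => ℂ) 2 × lp (fun _ : ℕ => ℂ) 2))‖ *
            ‖(↑(M (b 0) norm_u)⁻¹ : WithLp 2 (lp (fun _ : ℕ => ℂ) 2 × lp (fun _ : ℕ => ℂ) 2) →L[ℂ]
          WithLp 2 (lp (fun _ : ℕ => ℂ) 2 × lp (fun _ : ℕ => ℂ) 2))‖ := by
      apply csInf_le
      · refine ⟨0, ?_⟩
        rintro r ⟨M', S', -, -, rfl⟩
        positivity
      · exact ⟨M (b 0) norm_u, _, norm_dsum_V _ hVn, T_eq_M norm_u _ hV, rfl⟩
    have h1 := norm_L_ge norm_u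
    have h2 := norm_Linv_ge norm_u
    have h3 := norm_M_le norm_u
    have h4 := norm_Minv_le norm_u
    rw [← key] at hle
    have h5 : ‖(↑(M (b 0) norm_u) : WithLp 2 (lp (fun _ : ℕ => ℂ) 2 × lp (fun _ : ℕ => ℂ) 2) →L[ℂ]
          WithLp 2 (lp (fun _ : ℕ => ℂ) 2 × lp (fun _ : ℕ => ℂ) 2))‖ *
            ‖(↑(M (b 0) norm_u)⁻¹ : WithLp 2 (lp (fun _ : ℕ => ℂ) 2 × lp (fun _ : ℕ => ℂ) 2) →L[ℂ]
          WithLp 2 (lp (fun _ : ℕ => ℂ) 2 × lp (fun _ : ℕ => ℂ) 2))‖ ≤ 1 * 2 := by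
      gcongr
    have h6 : (2 : ℝ) * 2 ≤ ‖(↑(L (b 0) norm_u) :
          WithLp 2 (lp (fun _ : ℕ => ℂ) 2 × lp (fun _ : ℕ => ℂ) 2) →L[ℂ]
          WithLp 2 (lp (fun _ : ℕ => ℂ) 2 × lp (fun _ : ℕ => ℂ) 2))‖ *
            ‖(↑(L (b 0) norm_u)⁻¹ : WithLp 2 (lp (fun _ : ℕ => ℂ) 2 × lp (fun _ : ℕ => ℂ) 2) →L[ℂ]
          WithLp 2 (lp (fun _ : ℕ => ℂ) 2 × lp (fun _ : ℕ => ℂ) 2))‖ := by
      gcongr
    linarith
  · intro x
    rw [Linv_S norm_u _ hV]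
    apply tendsto_const_nhds.congr'
    filter_upwards [eventually_ge_atTop 1] with n hn
    obtain ⟨k, rfl⟩ : ∃ k, n = k + 1 := ⟨n - 1, by omega⟩
    rw [Tpow _ _ (L_S norm_u _ hV)]
    exact (norm_pow_apply _ (norm_dsum_V _ hVn) (k + 1) _).symm

end Pool.Agent.S04368
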