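import Pool.Statements.S04540
import Pool.Agent.Lib.MP_465591_an.N.C.All
import Pool.Agent.Lib.MP_465591_an.N.H.All
import Pool.Agent.Lib.LC465.Q1
import Pool.Agent.Lib.LC465.Ex
import Pool.Agent.Lib.LC465.Cnt
import Pool.Agent.Lib.LC465.Ord
import Pool.Agent.Lib.LC465.Q4
import Pool.Agent.Lib.LC465.Sgn
import Pool.Agent.Lib.LC465.Bmp
import Pool.Agent.Lib.LC465.Dv
import Pool.Agent.Lib.LC465.N1
import Pool.Agent.Lib.LC465.N2
import Pool.Agent.Lib.LC465.Nl
import Pool.Agent.Lib.LC465.Nk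
import Pool.Agent.Lib.LC465.Nv
import Pool.Agent.Lib.LC465.LocC
import Pool.Agent.Lib.LC465.LocG
import Pool.Agent.Lib.LC465.Inq
import Pool.Agent.Lib.LC465.Fd
import Pool.Agent.Lib.LC465.Fi
import Pool.Agent.Lib.LC465.Fk
import Pool.Agent.Lib.LC465.Fa
import Pool.Agent.Lib.LC465.Par
import Pool.Agent.Lib.LC465.Fin
import Pool.Agent.Lib.LC465.Top

set_option autoImplicit false
open Pool Pool.MP_465591_an

namespace Pool.Agent.S04540

/-- The negation of the preceding statement: For n ≥ 2, every normalized univalent map of the unit ball of C^n that extends univalently to a larger ball is the time-0 map of a normalized Loewner chain (univalent maps with derivative e^t I at 0 and increasing images). -/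
theorem result :
    ¬ (∀ n : ℕ, 2 ≤ n →
      ∀ f : EuclideanSpace ℂ (Fin n) → EuclideanSpace ℂ (Fin n),
        DifferentiableOn ℂ f (Metric.ball 0 1) →
        Set.InjOn f (Metric.ball 0 1) →
        f 0 = 0 →
        fderiv ℂ f 0 = ContinuousLinearMap.id ℂ (EuclideanSpace ℂ (Fin n)) →
        (∃ r : ℝ, 1 < r ∧ ∃ F : EuclideanSpace ℂ (Fin n) → EuclideanSpace ℂ (Fin n),
            DifferentiableOn ℂ F (Metric.ball 0 r) ∧
            Set.InjOn F (Metric.ball 0 r) ∧
            Set.EqOn F f (Metric.ball 0 1)) →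
        ∃ L : ℝ → EuclideanSpace ℂ (Fin n) → EuclideanSpace ℂ (Fin n),
          (∀ t : ℝ, 0 ≤ t →
              DifferentiableOn ℂ (L t) (Metric.ball 0 1) ∧
              Set.InjOn (L t) (Metric.ball 0 1) ∧
              L t 0 = 0 ∧
              fderiv ℂ (L t) 0 =
                (Complex.ofReal (Real.exp t)) • ContinuousLinearMap.id ℂ (EuclideanSpace ℂ (Fin n))) ∧
          (∀ s t : ℝ, 0 ≤ s → s ≤ t →
              L s '' Metric.ball 0 1 ⊆ L t '' Metric.ball 0 1) ∧
          Set.EqOn (L 0) f (Metric.ball 0 1)) := by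
  have h0 : LC465.S_Ex := LC465.tEx
  have h1 : LC465.S_Cnt := LC465.tCnt h0
  have h2 : LC465.S_Ord := LC465.tOrd LC465.tQ1 h0 h1
  have h3 : LC465.S_Bmp := LC465.tBmp
  have h4 : LC465.S_N1 := LC465.tN1 h3 (LC465.tDv h3)
  have h5 : LC465.S_N2 := LC465.tN2 h3
  have h6 : LC465.S_Nl := LC465.tNl h4 h5 LC465.tSgn
  have h7 : LC465.S_Nk := LC465.tNk h5
  have h8 : LC465.S_Nv := LC465.tNv h1 h2
  have h9 : LC465.S_LocC := LC465.tLocC h0 h2 h8
  have h10 : LC465.S_Inq := LC465.tInq h4 h7 h9 (LC465.tLocG h6 h7)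
  have h11 : LC465.S_Fi := LC465.tFi LC465.tQ1 LC465.tQ4 LC465.tFd
  exact LC465.tTop (LC465.tFin h0 h1 h4 h7 h8 h9 h10 LC465.tFd h11 LC465.tFk
    (LC465.tFa LC465.tFd) LC465.tPar
    (Pool.Agent.Lib.MP_465591_an.NC.cmain Pool.Agent.N465591.tH))

end Pool.Agent.S04540
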