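import Pool.Statements.S04727
import Pool.Agent.Lib.MP_577a3c26_an.Reduce

set_option autoImplicit false
open Pool Pool.MP_577a3c26_an

namespace Pool.Agent.S04727

/-- The real continuous functions on the Hilbert cube with the pointwise-convergence topology are not homeomorphic to the Banach space C([0,1]^ω) with its weak topology. -/
theorem result :
    IsEmpty ({f : (ℕ → unitInterval) → ℝ // Continuous f} ≃ₜ
      WeakSpace ℝ C(ℕ → unitInterval, ℝ)) := by
  refine ⟨fun h => ?_⟩
  refine Pool.Agent.Lib.MP_577a3c26_an.reduce (K := ℕ → unitInterval) ?_ h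
  intro V hV hne
  obtain ⟨x, hx⟩ := hne
  exact infinite_of_mem_nhds x (hV.mem_nhds hx)

end Pool.Agent.S04727
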