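import Pool.Statements.S04771
import Pool.Agent.Lib.MP_5c4da9_an.WMain
import Pool.Agent.Lib.MP_5c4da9_an.WBase
import Pool.Agent.Lib.MP_5c4da9_an.WLip
import Pool.Agent.Lib.MP_5c4da9_an.WProj
import Pool.Agent.Lib.MP_5c4da9_an.WSect
import Pool.Agent.Lib.MP_5c4da9_an.WMoll
import Pool.Agent.Lib.MP_5c4da9_an.WNuDet
import Pool.Agent.Lib.MP_5c4da9_an.WNu
import Pool.Agent.Lib.MP_5c4da9_an.WStokesId
import Pool.Agent.Lib.MP_5c4da9_an.WStokes
import Pool.Agent.Lib.MP_5c4da9_an.WPhi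
import Pool.Agent.Lib.MP_5c4da9_an.WKappa
import Pool.Agent.Lib.MP_5c4da9_an.WEq
import Pool.Agent.Lib.MP_5c4da9_an.WPolyD
import Pool.Agent.Lib.MP_5c4da9_an.WPolInt
import Pool.Agent.Lib.MP_5c4da9_an.WLim
import Pool.Agent.Lib.MP_5c4da9_an.WAlg
import Pool.Agent.Lib.MP_5c4da9_an.WCoord
import Pool.Agent.Lib.MP_5c4da9_an.Pow
import Pool.Agent.Lib.MP_5c4da9_an.ExpL
import Pool.Agent.Lib.MP_5c4da9_an.Cartan
import Pool.Agent.Lib.MP_5c4da9_an.Retr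
import Pool.Agent.Lib.MP_5c4da9_an.IsoLocal
import Pool.Agent.Lib.MP_5c4da9_an.Lift
import Pool.Agent.Lib.MP_5c4da9_an.Inward
import Pool.Agent.Lib.MP_5c4da9_an.Point
import Pool.Agent.Lib.MP_5c4da9_an.Univ
import Pool.Agent.Lib.MP_5c4da9_an.Uniform
import Pool.Agent.Lib.MP_5c4da9_an.Grad
import Pool.Agent.Lib.MP_5c4da9_an.Invariant

set_option autoImplicit false
open Pool Pool.MP_5c4da9_an

namespace Pool.Agent.S04771

/-- For every even n ≥ 4, a real normed space of dimension n in which any two (n−1)-dimensional subspaces are linearly isometric is itself linearly isometric to Euclidean n-space. -/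
theorem result :
    ∀ n : ℕ, Even n → 4 ≤ n →
      ∀ (E : Type) [NormedAddCommGroup E] [NormedSpace ℝ E],
        Module.finrank ℝ E = n →
        (∀ V W : Submodule ℝ E,
            Module.finrank ℝ V = n - 1 → Module.finrank ℝ W = n - 1 →
            Nonempty (V ≃ₗᵢ[ℝ] W)) →
        Nonempty (E ≃ₗᵢ[ℝ] EuclideanSpace ℝ (Fin n)) := by
  have hCartan : Agent.Lib.MP_5c4da9_an.CartanStmt :=
    Agent.Lib.MP_5c4da9_an.cartanStmt
      (Agent.Lib.MP_5c4da9_an.expStmt Agent.Lib.MP_5c4da9_an.powStmt)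
  have hU : Agent.Lib.MP_5c4da9_an.UnivStmt :=
    Agent.Lib.MP_5c4da9_an.univStmt Agent.Lib.MP_5c4da9_an.invStmt
      (Agent.Lib.MP_5c4da9_an.pointStmt
        (Agent.Lib.MP_5c4da9_an.liftStmt (Agent.Lib.MP_5c4da9_an.retrStmt hCartan)
          Agent.Lib.MP_5c4da9_an.isoLocalStmt)
        Agent.Lib.MP_5c4da9_an.inwardStmt)
  have hNu : Agent.Lib.MP_5c4da9_an.NuStmt :=
    Agent.Lib.MP_5c4da9_an.nuStmt_of Agent.Lib.MP_5c4da9_an.jac_nu_nonpos
      Agent.Lib.MP_5c4da9_an.jac_nu_zero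
  have hBase := Agent.Lib.MP_5c4da9_an.wBaseStmt
  have hLip := Agent.Lib.MP_5c4da9_an.lipStmt hBase
  have hProj := Agent.Lib.MP_5c4da9_an.projStmt hBase hLip hCartan
  have hEq := Agent.Lib.MP_5c4da9_an.eqStmt hNu
    (Agent.Lib.MP_5c4da9_an.stokesStmt Agent.Lib.MP_5c4da9_an.stokesIdStmt)
    Agent.Lib.MP_5c4da9_an.phiStmt
  exact Agent.Lib.MP_5c4da9_an.wmain hNu
    (Agent.Lib.MP_5c4da9_an.lSectStmt hBase hLip hProj)
    Agent.Lib.MP_5c4da9_an.mollStmt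
    Agent.Lib.MP_5c4da9_an.polyDStmt
    (Agent.Lib.MP_5c4da9_an.polIntStmt Agent.Lib.MP_5c4da9_an.polyDStmt)
    (Agent.Lib.MP_5c4da9_an.limStmt hEq (Agent.Lib.MP_5c4da9_an.kappaStmt hNu) hNu)
    Agent.Lib.MP_5c4da9_an.algStmt
    (Agent.Lib.MP_5c4da9_an.coordBStmt Agent.Lib.MP_5c4da9_an.invStmt
      (Agent.Lib.MP_5c4da9_an.uniformStmt hU) Agent.Lib.MP_5c4da9_an.gradStmt)

end Pool.Agent.S04771
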