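import Pool.Statements.S04939
import Pool.Agent.Lib.MP_6ad5de_an.AreaBound
import Pool.Agent.Lib.MP_6ad5de_an.Means

set_option autoImplicit false
open Filter
open Pool Pool.MP_6ad5de_an

namespace Pool.Agent.S04939

/-- If f is analytic on the unit disc and omits values wₖ with positive strictly increasing moduli rₖ → ∞ and Σ(log(rₖ₊₁/rₖ))² < ∞, then the mean of ∣f∣ on ∣z∣=r is O(1/(1−r)) and the Taylor coefficients are O(n). -/
theorem result :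
    ∀ (f : ℂ → ℂ) (w : ℕ → ℂ),
      DifferentiableOn ℂ f (Metric.ball (0 : ℂ) 1) →
      (∀ z ∈ Metric.ball (0 : ℂ) 1, ∀ k : ℕ, f z ≠ w k) →
      0 < ‖w 0‖ →
      StrictMono (fun k : ℕ => ‖w k‖) →
      Tendsto (fun k : ℕ => ‖w k‖) atTop atTop →
      Summable (fun n : ℕ => (Real.log (‖w (n + 1)‖ / ‖w n‖)) ^ 2) →
      (∃ C : ℝ, ∀ r : ℝ, 0 ≤ r → r < 1 →
          (1 / (2 * Real.pi)) * ∫ θ in (0 : ℝ)..(2 * Real.pi), ‖f (circleMap 0 r θ)‖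
            ≤ C / (1 - r)) ∧
      (∃ C : ℝ, ∀ n : ℕ,
          ‖iteratedDeriv n f 0 / (n.factorial : ℂ)‖ ≤ C * ((n : ℝ) + 1)) := by
  intro f w hf homit h0 hmono htop hsum
  obtain ⟨C, hC⟩ := Pool.Agent.Lib.MP_6ad5de_an.area_bound hf homit h0 hmono htop hsum
  have hM : ∀ r : ℝ, 0 ≤ r → r < 1 →
      (1 / (2 * Real.pi)) * ∫ θ in (0 : ℝ)..(2 * Real.pi), ‖f (circleMap 0 r θ)‖
        ≤ (24 * |C|) / (1 - r) :=
    fun r hr hr1 => Pool.Agent.Lib.MP_6ad5de_an.mean_bound' hf hC hr hr1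
  exact ⟨⟨24 * |C|, hM⟩, ⟨6 * (24 * |C|), fun n =>
    Pool.Agent.Lib.MP_6ad5de_an.coeff_bound hf (by positivity) hM n⟩⟩

end Pool.Agent.S04939
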