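import Pool.Statements.S04948
import Pool.Agent.Lib.MP_6b3dca_an.Main

set_option autoImplicit false
open Pool Pool.MP_6b3dca_an

namespace Pool.Agent.S04948

/-- The negation of the preceding statement: There is a nonreflexive real Banach space X such that the set of elements of the bidual X** that attain their norm on the unit ball of X* is exactly a linear subspace of X**. -/
theorem result :
    ¬ (∃ (X : Type) (_ : NormedAddCommGroup X) (_ : NormedSpace ℝ X) (_ : CompleteSpace X),
      ¬ Function.Surjective (NormedSpace.inclusionInDoubleDual ℝ X) ∧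
      ∃ S : Submodule ℝ ((X →L[ℝ] ℝ) →L[ℝ] ℝ),
        ∀ φ : (X →L[ℝ] ℝ) →L[ℝ] ℝ,
          φ ∈ S ↔ ∃ f : X →L[ℝ] ℝ, ‖f‖ ≤ 1 ∧ φ f = ‖φ‖) := by
  rintro ⟨X, i1, i2, i3, hX, S, hS⟩
  exact Pool.Agent.Lib.MP_6b3dca_an.main_aux hX S hS

end Pool.Agent.S04948
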