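import Pool.Statements.S05104

set_option autoImplicit false
open Pool Pool.MP_791656_an

namespace Pool.Agent.S05104

open MeasureTheory Set Real

/-- the plane -/
abbrev E := EuclideanSpace ℝ (Fin 2)

/-- Equilateral triangle of height 1 with the apex cut off at one tenth of its height. -/
def Om : Set E := {p | 0 < p 0 ∧ p 0 < 9/10 ∧ Real.sqrt 3 * |p 1| < 1 - p 0}

lemma continuous_coord (i : Fin 2) : Continuous (fun p : E => p i) := by fun_prop

lemma isOpen_Om : IsOpen Om := by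
  have h0 := continuous_coord 0
  have h1 := continuous_coord 1
  refine IsOpen.inter (isOpen_lt continuous_const h0) (IsOpen.inter (isOpen_lt h0 continuous_const) ?_)
  exact isOpen_lt (continuous_const.mul h1.abs) (continuous_const.sub h0)

lemma convex_Om : Convex ℝ Om := by
  intro p hp q hq a b ha hb hab
  obtain ⟨hp0, hp1, hp2⟩ := hp
  obtain ⟨hq0, hq1, hq2⟩ := hq
  have e0 : (a • p + b • q) 0 = a * p 0 + b * q 0 := by simp
  have e1 : (a • p + b • q) 1 = a * p 1 + b * q 1 := by simp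
  have hs : 0 ≤ Real.sqrt 3 := Real.sqrt_nonneg 3
  rcases eq_or_lt_of_le ha with h | h
  · have hb1 : b = 1 := by linarith
    subst hb1; subst h
    simpa [Om] using And.intro hq0 (And.intro hq1 hq2)
  · have habs : |a * p 1 + b * q 1| ≤ a * |p 1| + b * |q 1| := by
      calc |a * p 1 + b * q 1| ≤ |a * p 1| + |b * q 1| := abs_add_le _ _
        _ = a * |p 1| + b * |q 1| := by rw [abs_mul, abs_mul, abs_of_nonneg ha, abs_of_nonneg hb]
    refine ⟨?_, ?_, ?_⟩
    · rw [e0]; have := mul_pos h hp0; have := mul_nonneg hb hq0.le; linarith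
    · rw [e0]
      have h1 : a * p 0 < a * (9/10) := mul_lt_mul_of_pos_left hp1 h
      have h2 : b * q 0 ≤ b * (9/10) := mul_le_mul_of_nonneg_left hq1.le hb
      nlinarith
    · rw [e0, e1]
      have h1 : a * (Real.sqrt 3 * |p 1|) < a * (1 - p 0) := mul_lt_mul_of_pos_left hp2 h
      have h2 : b * (Real.sqrt 3 * |q 1|) ≤ b * (1 - q 0) := mul_le_mul_of_nonneg_left hq2.le hb
      have h3 := mul_le_mul_of_nonneg_left habs hs
      nlinarith

lemma one_le_sqrt3 : (1:ℝ) ≤ Real.sqrt 3 := by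
  rw [show (1:ℝ) = Real.sqrt 1 by simp]
  exact Real.sqrt_le_sqrt (by norm_num)

lemma sqrt3_sq : Real.sqrt 3 * Real.sqrt 3 = 3 := Real.mul_self_sqrt (by norm_num)

lemma sqrt3_pos : (0:ℝ) < Real.sqrt 3 := by positivity

lemma abs_coord_of_mem {p : E} (hp : p ∈ Om) : |p 0| ≤ 1 ∧ |p 1| ≤ 1 := by
  obtain ⟨hp0, hp1, hp2⟩ := hp
  refine ⟨by rw [abs_of_pos hp0]; linarith, ?_⟩
  have := one_le_sqrt3
  have h3 : 1 * |p 1| ≤ Real.sqrt 3 * |p 1| := mul_le_mul_of_nonneg_right this (abs_nonneg _)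
  linarith

lemma bounded_Om : Bornology.IsBounded Om := by
  rw [isBounded_iff_forall_norm_le]
  refine ⟨2, fun p hp => ?_⟩
  obtain ⟨h0, h1⟩ := abs_coord_of_mem hp
  rw [EuclideanSpace.norm_eq, Fin.sum_univ_two, Real.sqrt_le_left (by norm_num)]
  simp only [Real.norm_eq_abs]
  nlinarith [abs_nonneg (p 0), abs_nonneg (p 1)]

lemma nonempty_Om : Om.Nonempty := by
  refine ⟨!₂[1/2, 0], ?_⟩
  simp [Om]
  norm_num

/-! ### Integration over `Om` -/

/-- coordinates as a pair -/
noncomputable def Phi : E ≃ᵐ ℝ × ℝ :=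
  (MeasurableEquiv.toLp 2 (Fin 2 → ℝ)).symm.trans MeasurableEquiv.finTwoArrow

lemma Phi_apply (p : E) : Phi p = (p 0, p 1) := rfl

lemma measurePreserving_Phi : MeasurePreserving Phi (volume : Measure E) (volume : Measure (ℝ × ℝ)) :=
  (volume_preserving_finTwoArrow ℝ).comp
    (EuclideanSpace.volume_preserving_symm_measurableEquiv_toLp (Fin 2))

/-- half width -/
noncomputable def gw (x : ℝ) : ℝ := (1 - x) / Real.sqrt 3

lemma mem_Om_iff (p : E) : p ∈ Om ↔ (p 0 ∈ Ioo (0:ℝ) (9/10) ∧ p 1 ∈ Ioo (-gw (p 0)) (gw (p 0))) := by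
  have h : Real.sqrt 3 * |p 1| < 1 - p 0 ↔ |p 1| < gw (p 0) := by
    rw [gw, lt_div_iff₀ sqrt3_pos, mul_comm]
  simp only [Om, Set.mem_ofPred_eq, mem_Ioo, h, abs_lt]
  tauto

lemma setIntegral_Om (F : ℝ × ℝ → ℝ) (hF : Continuous F) :
    ∫ p in Om, F (p 0, p 1) = ∫ x in Ioo (0:ℝ) (9/10), ∫ y in Ioo (-gw x) (gw x), F (x, y) := by
  set R : Set (ℝ × ℝ) := {z | z.1 ∈ Ioo (0:ℝ) (9/10) ∧ z.2 ∈ Ioo (-gw z.1) (gw z.1)} with hR
  have hpre : Om = Phi ⁻¹' R := by
    ext p; rw [mem_Om_iff]; rfl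
  have h1 : ∫ p in Om, F (p 0, p 1) = ∫ z in R, F z := by
    rw [hpre]
    exact measurePreserving_Phi.setIntegral_preimage_emb Phi.measurableEmbedding F R
  have hgc : Continuous gw := by unfold gw; fun_prop
  have hRo : IsOpen R := by
    refine IsOpen.inter (isOpen_Ioo.preimage continuous_fst) ?_
    exact IsOpen.inter (isOpen_lt (hgc.comp continuous_fst).neg continuous_snd)
      (isOpen_lt continuous_snd (hgc.comp continuous_fst))
  have hRb : R ⊆ Icc (0:ℝ) 1 ×ˢ Icc (-1:ℝ) 1 := by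
    rintro ⟨x, y⟩ ⟨hx, hy⟩
    simp only [mem_Ioo] at hx hy
    have hg : gw x ≤ 1 := by
      unfold gw
      rw [div_le_one sqrt3_pos]
      have := one_le_sqrt3
      linarith
    simp only [mem_prod, mem_Icc]
    refine ⟨⟨by linarith, by linarith⟩, ⟨by linarith, by linarith⟩⟩
  have hint : Integrable (R.indicator F) (volume : Measure (ℝ × ℝ)) := by
    rw [integrable_indicator_iff hRo.measurableSet]
    have hc : IsCompact (Icc (0:ℝ) 1 ×ˢ Icc (-1:ℝ) 1) := isCompact_Icc.prod isCompact_Icc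
    exact (hF.continuousOn.integrableOn_compact hc).mono_set hRb
  rw [h1, ← integral_indicator hRo.measurableSet, Measure.volume_eq_prod] at *
  rw [integral_prod _ hint, ← integral_indicator measurableSet_Ioo]
  refine integral_congr_ae (Filter.Eventually.of_forall fun x => ?_)
  simp only
  by_cases hx : x ∈ Ioo (0:ℝ) (9/10)
  · rw [indicator_of_mem hx, ← integral_indicator measurableSet_Ioo]
    refine integral_congr_ae (Filter.Eventually.of_forall fun y => ?_)
    simp only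
    by_cases hy : y ∈ Ioo (-gw x) (gw x)
    · rw [indicator_of_mem hy, indicator_of_mem (show (x, y) ∈ R from ⟨hx, hy⟩)]
    · rw [indicator_of_notMem hy, indicator_of_notMem (fun h : (x, y) ∈ R => hy h.2)]
  · rw [indicator_of_notMem hx]
    have : ∀ y, R.indicator F (x, y) = 0 := fun y =>
      indicator_of_notMem (fun h : (x, y) ∈ R => hx h.1) F
    simp [this]

lemma gw_nonneg {x : ℝ} (hx : x ∈ Ioo (0:ℝ) (9/10)) : 0 ≤ gw x := by
  simp only [mem_Ioo] at hx
  unfold gw
  exact div_nonneg (by linarith) sqrt3_pos.le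

/-- inner integral for polynomial integrands `a + b y + d y^2` -/
lemma inner_integral (a b d g : ℝ) (hg : 0 ≤ g) :
    ∫ y in Ioo (-g) g, (a + b * y + d * y ^ 2) = 2 * a * g + 2 / 3 * d * g ^ 3 := by
  rw [← integral_Ioc_eq_integral_Ioo, ← intervalIntegral.integral_of_le (by linarith)]
  have : ∀ y : ℝ, HasDerivAt (fun y : ℝ => a * y + b * y ^ 2 / 2 + d * y ^ 3 / 3)
      (a + b * y + d * y ^ 2) y := by
    intro y
    have h1 : HasDerivAt (fun y : ℝ => a * y) (a * 1) y := (hasDerivAt_id y).const_mul a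
    have h2 : HasDerivAt (fun y : ℝ => b * y ^ 2 / 2) (b * (2 * y ^ 1 * 1) / 2) y :=
      (((hasDerivAt_id y).pow 2).const_mul b).div_const 2
    have h3 : HasDerivAt (fun y : ℝ => d * y ^ 3 / 3) (d * (3 * y ^ 2 * 1) / 3) y :=
      (((hasDerivAt_id y).pow 3).const_mul d).div_const 3
    exact ((h1.add h2).add h3).congr_deriv (by ring)
  rw [intervalIntegral.integral_eq_sub_of_hasDerivAt (fun y _ => this y)
    (Continuous.intervalIntegrable (by fun_prop) _ _)]
  ring

/-- outer integral for cubic integrands in `1 - x` -/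
lemma outer_integral (a b d : ℝ) :
    ∫ x in Ioo (0:ℝ) (9/10), (a * (1 - x) + b * (1 - x) ^ 2 + d * (1 - x) ^ 3)
      = a * (99/200) + b * (333/1000) + d * (9999/40000) := by
  rw [← integral_Ioc_eq_integral_Ioo, ← intervalIntegral.integral_of_le (by norm_num)]
  have : ∀ x : ℝ, HasDerivAt (fun x : ℝ => -(a * (1 - x) ^ 2 / 2) - b * (1 - x) ^ 3 / 3 - d * (1 - x) ^ 4 / 4)
      (a * (1 - x) + b * (1 - x) ^ 2 + d * (1 - x) ^ 3) x := by
    intro x
    have h0 : HasDerivAt (fun x : ℝ => 1 - x) (-1) x := by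
      simpa using (hasDerivAt_id x).const_sub 1
    have h1 : HasDerivAt (fun x : ℝ => -(a * (1 - x) ^ 2 / 2)) (-(a * (2 * (1 - x) ^ 1 * (-1)) / 2)) x :=
      (((h0.pow 2).const_mul a).div_const 2).neg
    have h2 : HasDerivAt (fun x : ℝ => b * (1 - x) ^ 3 / 3) (b * (3 * (1 - x) ^ 2 * (-1)) / 3) x :=
      ((h0.pow 3).const_mul b).div_const 3
    have h3 : HasDerivAt (fun x : ℝ => d * (1 - x) ^ 4 / 4) (d * (4 * (1 - x) ^ 3 * (-1)) / 4) x :=
      ((h0.pow 4).const_mul d).div_const 4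
    exact ((h1.sub h2).sub h3).congr_deriv (by ring)
  rw [intervalIntegral.integral_eq_sub_of_hasDerivAt (fun y _ => this y)
    (Continuous.intervalIntegrable (by fun_prop) _ _)]
  ring

lemma area_Om : (volume Om).toReal = 99/100 / Real.sqrt 3 := by
  have h : ∫ p in Om, (1:ℝ) = (volume Om).toReal := by
    simp [Measure.real]
  have h2 := setIntegral_Om (fun _ => (1:ℝ)) continuous_const
  rw [← h, h2]
  have h3 : ∀ x ∈ Ioo (0:ℝ) (9/10), ∫ y in Ioo (-gw x) (gw x), (1:ℝ)
      = (2 / Real.sqrt 3) * (1 - x) + 0 * (1 - x) ^ 2 + 0 * (1 - x) ^ 3 := by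
    intro x hx
    have := inner_integral 1 0 0 (gw x) (gw_nonneg hx)
    simp only [zero_mul, add_zero] at this
    rw [this]; unfold gw; ring
  rw [setIntegral_congr_fun measurableSet_Ioo h3, outer_integral]
  ring

lemma int_coord0 : ∫ p in Om, p 0 = (18/55) * (99/100 / Real.sqrt 3) := by
  have h2 := setIntegral_Om (fun z => z.1) continuous_fst
  simp only at h2
  rw [h2]
  have h3 : ∀ x ∈ Ioo (0:ℝ) (9/10), ∫ y in Ioo (-gw x) (gw x), x
      = (2 / Real.sqrt 3) * (1 - x) + (-(2 / Real.sqrt 3)) * (1 - x) ^ 2 + 0 * (1 - x) ^ 3 := by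
    intro x hx
    have := inner_integral x 0 0 (gw x) (gw_nonneg hx)
    simp only [zero_mul, add_zero] at this
    rw [this]; unfold gw; ring
  rw [setIntegral_congr_fun measurableSet_Ioo h3, outer_integral]
  ring

lemma int_coord1 : ∫ p in Om, p 1 = 0 := by
  have h2 := setIntegral_Om (fun z => z.2) continuous_snd
  simp only at h2
  rw [h2]
  have h3 : ∀ x ∈ Ioo (0:ℝ) (9/10), ∫ y in Ioo (-gw x) (gw x), y
      = 0 * (1 - x) + 0 * (1 - x) ^ 2 + 0 * (1 - x) ^ 3 := by
    intro x hx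
    have := inner_integral 0 1 0 (gw x) (gw_nonneg hx)
    simp only [zero_mul, add_zero, one_mul, zero_add] at this
    rw [this]; ring
  rw [setIntegral_congr_fun measurableSet_Ioo h3, outer_integral]
  ring

lemma int_second : ∫ p in Om, ((p 0 - 18/55) ^ 2 + (p 1 - 0) ^ 2) = (11821/110000) / Real.sqrt 3 := by
  have h2 := setIntegral_Om (fun z => (z.1 - 18/55) ^ 2 + (z.2 - 0) ^ 2) (by fun_prop)
  simp only at h2
  rw [h2]
  have h3 : ∀ x ∈ Ioo (0:ℝ) (9/10), ∫ y in Ioo (-gw x) (gw x), ((x - 18/55) ^ 2 + (y - 0) ^ 2)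
      = (2 / Real.sqrt 3 * (37/55)^2) * (1 - x) + (-(2 / Real.sqrt 3) * 2 * (37/55)) * (1 - x) ^ 2
        + (2 / Real.sqrt 3 + 2 / (9 * Real.sqrt 3)) * (1 - x) ^ 3 := by
    intro x hx
    have := inner_integral ((x - 18/55)^2) 0 1 (gw x) (gw_nonneg hx)
    have e : ∀ y : ℝ, (x - 18/55) ^ 2 + (y - 0) ^ 2 = (x - 18/55) ^ 2 + 0 * y + 1 * y ^ 2 := by
      intro y; ring
    simp only [e]
    rw [this]; unfold gw
    have hs : Real.sqrt 3 ^ 2 = 3 := by rw [sq]; exact sqrt3_sq
    have hs3 : Real.sqrt 3 ^ 3 = 3 * Real.sqrt 3 := by rw [pow_succ, hs]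
    have hne : Real.sqrt 3 ≠ 0 := sqrt3_pos.ne'
    rw [div_pow, hs3]
    field_simp
    ring
  rw [setIntegral_congr_fun measurableSet_Ioo h3, outer_integral]
  have hne : Real.sqrt 3 ≠ 0 := sqrt3_pos.ne'
  field_simp
  norm_num

/-! ### Centroid and polar moment -/

lemma integrableOn_id : IntegrableOn (fun p : E => p) Om := by
  have hb : Om ⊆ Metric.closedBall 0 2 := by
    intro p hp
    obtain ⟨h0, h1⟩ := abs_coord_of_mem hp
    rw [mem_closedBall_zero_iff, EuclideanSpace.norm_eq, Fin.sum_univ_two, Real.sqrt_le_left (by norm_num)]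
    simp only [Real.norm_eq_abs]
    nlinarith [abs_nonneg (p 0), abs_nonneg (p 1)]
  exact (continuous_id.continuousOn.integrableOn_compact (isCompact_closedBall (0:E) 2)).mono_set hb

lemma coord_integral (i : Fin 2) : (∫ x in Om, x) i = ∫ x in Om, x i := by
  have := (EuclideanSpace.proj (𝕜 := ℝ) i : E →L[ℝ] ℝ).integral_comp_comm integrableOn_id
  simpa using this.symm

lemma centroid_coords (c : E) (hc : c = ((volume Om).toReal)⁻¹ • ∫ x in Om, x) :
    c 0 = 18/55 ∧ c 1 = 0 := by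
  have hne : Real.sqrt 3 ≠ 0 := sqrt3_pos.ne'
  constructor
  · rw [hc, PiLp.smul_apply, coord_integral, int_coord0, area_Om, smul_eq_mul]
    field_simp
  · rw [hc, PiLp.smul_apply, coord_integral, int_coord1, smul_zero]

lemma polar_moment (c : E) (hc : c = ((volume Om).toReal)⁻¹ • ∫ x in Om, x) :
    ∫ x in Om, ‖x - c‖ ^ 2 = (11821/110000) / Real.sqrt 3 := by
  obtain ⟨h0, h1⟩ := centroid_coords c hc
  rw [← int_second]
  refine setIntegral_congr_fun isOpen_Om.measurableSet fun x _ => ?_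
  simp only
  rw [EuclideanSpace.real_norm_sq_eq, Fin.sum_univ_two]
  simp [h0, h1]

/-! ### The ground state of the equilateral triangle -/

/-- ground state -/
noncomputable def ph (p : E) : ℝ := sin (π * p 0) * (cos (π * p 0) + cos (Real.sqrt 3 * π * p 1))

/-- first partial derivative of the ground state -/
noncomputable def ph0 (p : E) : ℝ :=
  π * cos (π * p 0) * (cos (π * p 0) + cos (Real.sqrt 3 * π * p 1)) - π * sin (π * p 0) * sin (π * p 0)

/-- second partial derivative of the ground state -/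
noncomputable def ph1 (p : E) : ℝ :=
  -(Real.sqrt 3 * π * (sin (π * p 0) * sin (Real.sqrt 3 * π * p 1)))

/-- `∂₀∂₀` of the ground state -/
noncomputable def ph00 (p : E) : ℝ :=
  -(π ^ 2 * sin (π * p 0) * (cos (π * p 0) + cos (Real.sqrt 3 * π * p 1)))
   - 3 * π ^ 2 * sin (π * p 0) * cos (π * p 0)

/-- `∂₁∂₁` of the ground state -/
noncomputable def ph11 (p : E) : ℝ :=
  -(3 * π ^ 2 * (sin (π * p 0) * cos (Real.sqrt 3 * π * p 1)))

lemma ph_eigen (p : E) : ph00 p + ph11 p = -(4 * π ^ 2 * ph p) := by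
  unfold ph00 ph11 ph; ring

lemma contDiff_coord (i : Fin 2) : ContDiff ℝ ⊤ (fun p : E => p i) := by fun_prop

lemma contDiff_ph : ContDiff ℝ 2 ph := by
  unfold ph
  fun_prop

lemma ph_pos {p : E} (hp : p ∈ Om) : 0 < ph p := by
  obtain ⟨h0, h1, h2⟩ := hp
  have hpi := Real.pi_pos
  unfold ph
  apply mul_pos
  · apply Real.sin_pos_of_pos_of_lt_pi
    · positivity
    · nlinarith
  · have h3 : cos (π - π * p 0) < cos (Real.sqrt 3 * π * p 1) := by
      rw [← Real.cos_abs (Real.sqrt 3 * π * p 1)]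
      apply Real.cos_lt_cos_of_nonneg_of_le_pi (abs_nonneg _)
      · nlinarith
      · rw [abs_mul, abs_of_pos (by have := sqrt3_pos; positivity)]
        nlinarith
    rw [Real.cos_pi_sub] at h3
    linarith

/-- the unit vectors -/
noncomputable abbrev ev (i : Fin 2) : E := EuclideanSpace.single i 1

lemma line_coord (p : E) (i j : Fin 2) (t : ℝ) : (p + t • ev i) j = p j + (if j = i then t else 0) := by
  simp [ev, Pi.single_apply]

lemma hasLineDerivAt_ph0 (p : E) : HasLineDerivAt ℝ ph0 (ph00 p) p (ev 0) := by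
  unfold HasLineDerivAt
  have e : (fun t : ℝ => ph0 (p + t • ev 0)) = fun t =>
      π * cos (π * (p 0 + t)) * (cos (π * (p 0 + t)) + cos (Real.sqrt 3 * π * p 1))
        - π * sin (π * (p 0 + t)) * sin (π * (p 0 + t)) := by
    funext t; simp [ph0, line_coord]
  rw [e]
  have h0 : HasDerivAt (fun t : ℝ => π * (p 0 + t)) π 0 := by
    simpa using ((hasDerivAt_id (0:ℝ)).const_add (p 0)).const_mul π
  have hc : HasDerivAt (fun t : ℝ => cos (π * (p 0 + t))) (-sin (π * (p 0 + 0)) * π) 0 := h0.cos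
  have hs : HasDerivAt (fun t : ℝ => sin (π * (p 0 + t))) (cos (π * (p 0 + 0)) * π) 0 := h0.sin
  refine (((hc.const_mul π).mul (hc.add_const (cos (Real.sqrt 3 * π * p 1)))).sub
    ((hs.const_mul π).mul hs)).congr_deriv ?_
  simp only [add_zero]
  unfold ph00
  ring

lemma hasLineDerivAt_ph1 (p : E) : HasLineDerivAt ℝ ph1 (ph11 p) p (ev 1) := by
  unfold HasLineDerivAt
  have e : (fun t : ℝ => ph1 (p + t • ev 1)) = fun t =>
      -(Real.sqrt 3 * π * (sin (π * p 0) * sin (Real.sqrt 3 * π * (p 1 + t)))) := by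
    funext t; simp [ph1, line_coord]
  rw [e]
  have h0 : HasDerivAt (fun t : ℝ => Real.sqrt 3 * π * (p 1 + t)) (Real.sqrt 3 * π) 0 := by
    simpa using ((hasDerivAt_id (0:ℝ)).const_add (p 1)).const_mul (Real.sqrt 3 * π)
  have hs := ((h0.sin.const_mul (sin (π * p 0))).const_mul (Real.sqrt 3 * π)).neg
  refine hs.congr_deriv ?_
  simp only [add_zero]
  unfold ph11
  have h3 := sqrt3_sq
  linear_combination (-(π ^ 2 * (sin (π * p 0) * cos (Real.sqrt 3 * π * p 1)))) * h3

lemma fderiv_ph0 (p : E) : fderiv ℝ ph p (ev 0) = ph0 p := by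
  have hd : DifferentiableAt ℝ ph p := (contDiff_ph.differentiable (by norm_num)) p
  have h : HasLineDerivAt ℝ ph (ph0 p) p (ev 0) := by
    unfold HasLineDerivAt
    have e : (fun t : ℝ => ph (p + t • ev 0)) = fun t =>
        sin (π * (p 0 + t)) * (cos (π * (p 0 + t)) + cos (Real.sqrt 3 * π * p 1)) := by
      funext t; simp [ph, line_coord]
    rw [e]
    have h0 : HasDerivAt (fun t : ℝ => π * (p 0 + t)) π 0 := by
      simpa using ((hasDerivAt_id (0:ℝ)).const_add (p 0)).const_mul π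
    have hc : HasDerivAt (fun t : ℝ => cos (π * (p 0 + t))) (-sin (π * (p 0 + 0)) * π) 0 := h0.cos
    have hs : HasDerivAt (fun t : ℝ => sin (π * (p 0 + t))) (cos (π * (p 0 + 0)) * π) 0 := h0.sin
    refine (hs.mul (hc.add_const (cos (Real.sqrt 3 * π * p 1)))).congr_deriv ?_
    simp only [add_zero]
    unfold ph0
    ring
  rw [← hd.lineDeriv_eq_fderiv]
  exact h.lineDeriv

lemma fderiv_ph1 (p : E) : fderiv ℝ ph p (ev 1) = ph1 p := by
  have hd : DifferentiableAt ℝ ph p := (contDiff_ph.differentiable (by norm_num)) p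
  have h : HasLineDerivAt ℝ ph (ph1 p) p (ev 1) := by
    unfold HasLineDerivAt
    have e : (fun t : ℝ => ph (p + t • ev 1)) = fun t =>
        sin (π * p 0) * (cos (π * p 0) + cos (Real.sqrt 3 * π * (p 1 + t))) := by
      funext t; simp [ph, line_coord]
    rw [e]
    have h0 : HasDerivAt (fun t : ℝ => Real.sqrt 3 * π * (p 1 + t)) (Real.sqrt 3 * π) 0 := by
      simpa using ((hasDerivAt_id (0:ℝ)).const_add (p 1)).const_mul (Real.sqrt 3 * π)
    refine ((h0.cos.const_add (cos (π * p 0))).const_mul (sin (π * p 0))).congr_deriv ?_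
    simp only [add_zero]
    unfold ph1
    ring
  rw [← hd.lineDeriv_eq_fderiv]
  exact h.lineDeriv

/-- The operator norm of a functional dominates its coordinates. -/
lemma norm_sq_ge (L : E →L[ℝ] ℝ) : (L (ev 0)) ^ 2 + (L (ev 1)) ^ 2 ≤ ‖L‖ ^ 2 := by
  set a := L (ev 0)
  set b := L (ev 1)
  set v : E := a • ev 0 + b • ev 1 with hv
  have hLv : L v = a ^ 2 + b ^ 2 := by
    rw [hv, map_add, map_smul, map_smul, smul_eq_mul, smul_eq_mul]; ring
  have hnv : ‖v‖ ^ 2 = a ^ 2 + b ^ 2 := by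
    rw [EuclideanSpace.real_norm_sq_eq, Fin.sum_univ_two, hv]
    simp [ev]
  have h1 : |L v| ≤ ‖L‖ * ‖v‖ := by simpa using L.le_opNorm v
  have h2 : (L v) ^ 2 ≤ ‖L‖ ^ 2 * ‖v‖ ^ 2 := by
    rw [← mul_pow, ← sq_abs (L v)]
    exact pow_le_pow_left₀ (abs_nonneg _) h1 2
  rw [hLv, hnv] at h2
  by_cases hz : a ^ 2 + b ^ 2 = 0
  · rw [hz]; positivity
  · have hpos : 0 < a ^ 2 + b ^ 2 := lt_of_le_of_ne (by positivity) (Ne.symm hz)
    nlinarith [h2]

/-! ### The lower bound `4 π²` for the Rayleigh quotient -/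

section Rayleigh

variable {u : E → ℝ} (hu : ContDiff ℝ 1 u) (hc : HasCompactSupport u) (hs : tsupport u ⊆ Om)

include hu hs in
lemma contDiff_w : ContDiff ℝ 1 (fun p => u p ^ 2 / ph p) := by
  rw [contDiff_iff_contDiffAt]
  intro p
  by_cases hp : p ∈ tsupport u
  · exact ((hu.contDiffAt.pow 2)).div (contDiff_ph.contDiffAt.of_le (by norm_num)) (ph_pos (hs hp)).ne'
  · have h0 : u =ᶠ[nhds p] 0 := notMem_tsupport_iff_eventuallyEq.mp hp
    have : (fun p => u p ^ 2 / ph p) =ᶠ[nhds p] fun _ => 0 := by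
      filter_upwards [h0] with q hq
      simp [hq]
    exact contDiffAt_const.congr_of_eventuallyEq this

include hc in
lemma hasCompactSupport_w : HasCompactSupport (fun p => u p ^ 2 / ph p) := by
  refine hc.mono' ?_
  intro p hp
  apply subset_tsupport
  rw [Function.mem_support] at hp ⊢
  intro h
  apply hp
  simp [h]

include hu hs in
lemma fderiv_w {p : E} (hp : p ∈ tsupport u) (i : Fin 2) (g : ℝ) (hg : fderiv ℝ ph p (ev i) = g) :
    fderiv ℝ (fun p => u p ^ 2 / ph p) p (ev i)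
      = 2 * u p * fderiv ℝ u p (ev i) / ph p - u p ^ 2 * g / ph p ^ 2 := by
  have hne := (ph_pos (hs hp)).ne'
  have h1 : HasFDerivAt u (fderiv ℝ u p) p := (hu.differentiable (by norm_num) p).hasFDerivAt
  have h2 : HasFDerivAt ph (fderiv ℝ ph p) p := (contDiff_ph.differentiable (by norm_num) p).hasFDerivAt
  have h3 : HasLineDerivAt ℝ u (fderiv ℝ u p (ev i)) p (ev i) := h1.hasLineDerivAt _
  have h4 : HasLineDerivAt ℝ ph g p (ev i) := by rw [← hg]; exact h2.hasLineDerivAt _
  have hd : DifferentiableAt ℝ (fun p => u p ^ 2 / ph p) p :=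
    (contDiff_w hu hs).differentiable (by norm_num) p
  rw [← hd.lineDeriv_eq_fderiv]
  apply HasLineDerivAt.lineDeriv
  unfold HasLineDerivAt at h3 h4 ⊢
  have h5 := (h3.pow 2).div h4 (by simpa using hne)
  refine h5.congr_deriv ?_
  simp only [zero_smul, add_zero, Nat.cast_ofNat, Pi.pow_apply]
  field_simp
  ring

include hu hc hs in
lemma parts0 : ∫ p, ph0 p * fderiv ℝ (fun p => u p ^ 2 / ph p) p (ev 0)
    = - ∫ p, ph00 p * (u p ^ 2 / ph p) := by
  have hw := contDiff_w hu hs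
  have hcw := hasCompactSupport_w hc
  have c0 : Continuous ph0 := by unfold ph0; fun_prop
  have c00 : Continuous ph00 := by unfold ph00; fun_prop
  have hfd : Continuous (fun p => fderiv ℝ (fun p => u p ^ 2 / ph p) p (ev 0)) :=
    (hw.continuous_fderiv (by norm_num)).clm_apply continuous_const
  have hfc : HasCompactSupport (fun p => fderiv ℝ (fun p => u p ^ 2 / ph p) p (ev 0)) :=
    hcw.fderiv_apply (𝕜 := ℝ) (ev 0)
  refine integral_bilinear_hasLineDerivAt_right_eq_neg_left_of_integrable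
    (B := ContinuousLinearMap.mul ℝ ℝ) (v := ev 0) ?_ ?_ ?_ ?_ ?_
  · exact (c00.mul hw.continuous).integrable_of_hasCompactSupport hcw.mul_left
  · exact (c0.mul hfd).integrable_of_hasCompactSupport hfc.mul_left
  · exact (c0.mul hw.continuous).integrable_of_hasCompactSupport hcw.mul_left
  · intro x _; exact hasLineDerivAt_ph0 x
  · intro x _
    exact ((hw.differentiable (by norm_num) x).hasFDerivAt).hasLineDerivAt _

include hu hc hs in
lemma parts1 : ∫ p, ph1 p * fderiv ℝ (fun p => u p ^ 2 / ph p) p (ev 1)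
    = - ∫ p, ph11 p * (u p ^ 2 / ph p) := by
  have hw := contDiff_w hu hs
  have hcw := hasCompactSupport_w hc
  have c0 : Continuous ph1 := by unfold ph1; fun_prop
  have c00 : Continuous ph11 := by unfold ph11; fun_prop
  have hfd : Continuous (fun p => fderiv ℝ (fun p => u p ^ 2 / ph p) p (ev 1)) :=
    (hw.continuous_fderiv (by norm_num)).clm_apply continuous_const
  have hfc : HasCompactSupport (fun p => fderiv ℝ (fun p => u p ^ 2 / ph p) p (ev 1)) :=
    hcw.fderiv_apply (𝕜 := ℝ) (ev 1)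
  refine integral_bilinear_hasLineDerivAt_right_eq_neg_left_of_integrable
    (B := ContinuousLinearMap.mul ℝ ℝ) (v := ev 1) ?_ ?_ ?_ ?_ ?_
  · exact (c00.mul hw.continuous).integrable_of_hasCompactSupport hcw.mul_left
  · exact (c0.mul hfd).integrable_of_hasCompactSupport hfc.mul_left
  · exact (c0.mul hw.continuous).integrable_of_hasCompactSupport hcw.mul_left
  · intro x _; exact hasLineDerivAt_ph1 x
  · intro x _
    exact ((hw.differentiable (by norm_num) x).hasFDerivAt).hasLineDerivAt _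

include hu hs in
/-- Pointwise inequality. -/
lemma pointwise (p : E) :
    ph0 p * fderiv ℝ (fun p => u p ^ 2 / ph p) p (ev 0) + ph00 p * (u p ^ 2 / ph p)
      + (ph1 p * fderiv ℝ (fun p => u p ^ 2 / ph p) p (ev 1) + ph11 p * (u p ^ 2 / ph p))
    ≤ ‖fderiv ℝ u p‖ ^ 2 - 4 * π ^ 2 * u p ^ 2 := by
  by_cases hp : p ∈ tsupport u
  · rw [fderiv_w hu hs hp 0 _ (fderiv_ph0 p), fderiv_w hu hs hp 1 _ (fderiv_ph1 p)]
    have hpos := ph_pos (hs hp)
    have hne := hpos.ne'
    have hn := norm_sq_ge (fderiv ℝ u p)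
    have he := ph_eigen p
    set a := fderiv ℝ u p (ev 0)
    set b := fderiv ℝ u p (ev 1)
    have h1 : ph00 p * (u p ^ 2 / ph p) + ph11 p * (u p ^ 2 / ph p) = - (4 * π ^ 2 * u p ^ 2) := by
      rw [← add_mul, he]; field_simp
    have h2 : ph0 p * (2 * u p * a / ph p - u p ^ 2 * ph0 p / ph p ^ 2)
        = a ^ 2 - (a - u p * ph0 p / ph p) ^ 2 := by field_simp; ring
    have h3 : ph1 p * (2 * u p * b / ph p - u p ^ 2 * ph1 p / ph p ^ 2)
        = b ^ 2 - (b - u p * ph1 p / ph p) ^ 2 := by field_simp; ring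
    rw [h2, h3]
    nlinarith [sq_nonneg (a - u p * ph0 p / ph p), sq_nonneg (b - u p * ph1 p / ph p)]
  · have h0 : u =ᶠ[nhds p] 0 := notMem_tsupport_iff_eventuallyEq.mp hp
    have hw0 : (fun p => u p ^ 2 / ph p) =ᶠ[nhds p] fun _ => 0 := by
      filter_upwards [h0] with q hq
      simp [hq]
    have h1 : fderiv ℝ (fun p => u p ^ 2 / ph p) p = 0 := by
      rw [hw0.fderiv_eq]; simp
    have h2 : fderiv ℝ u p = 0 := by
      rw [h0.fderiv_eq]; simp
    have h3 : u p = 0 := h0.eq_of_nhds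
    simp [h1, h2, h3]

include hu hc hs in
lemma rayleigh : 4 * π ^ 2 * ∫ p, u p ^ 2 ≤ ∫ p, ‖fderiv ℝ u p‖ ^ 2 := by
  have hw := contDiff_w hu hs
  have hcw := hasCompactSupport_w hc
  have c0 : Continuous ph0 := by unfold ph0; fun_prop
  have c00 : Continuous ph00 := by unfold ph00; fun_prop
  have c1 : Continuous ph1 := by unfold ph1; fun_prop
  have c11 : Continuous ph11 := by unfold ph11; fun_prop
  have hfd : ∀ i, Continuous (fun p => fderiv ℝ (fun p => u p ^ 2 / ph p) p (ev i)) := fun i =>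
    (hw.continuous_fderiv (by norm_num)).clm_apply continuous_const
  have hfc : ∀ i, HasCompactSupport (fun p => fderiv ℝ (fun p => u p ^ 2 / ph p) p (ev i)) := fun i =>
    hcw.fderiv_apply (𝕜 := ℝ) (ev i)
  have i0 : Integrable (fun p => ph0 p * fderiv ℝ (fun p => u p ^ 2 / ph p) p (ev 0)) :=
    (c0.mul (hfd 0)).integrable_of_hasCompactSupport (hfc 0).mul_left
  have i1 : Integrable (fun p => ph1 p * fderiv ℝ (fun p => u p ^ 2 / ph p) p (ev 1)) :=
    (c1.mul (hfd 1)).integrable_of_hasCompactSupport (hfc 1).mul_left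
  have i00 : Integrable (fun p => ph00 p * (u p ^ 2 / ph p)) :=
    (c00.mul hw.continuous).integrable_of_hasCompactSupport hcw.mul_left
  have i11 : Integrable (fun p => ph11 p * (u p ^ 2 / ph p)) :=
    (c11.mul hw.continuous).integrable_of_hasCompactSupport hcw.mul_left
  have hdc : HasCompactSupport (fun p => fderiv ℝ u p) := hc.fderiv (𝕜 := ℝ)
  have ig : Integrable (fun p => ‖fderiv ℝ u p‖ ^ 2) := by
    refine Continuous.integrable_of_hasCompactSupport
      (((hu.continuous_fderiv (by norm_num)).norm).pow 2) ?_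
    refine hdc.mono ?_
    intro p hp
    rw [Function.mem_support] at hp ⊢
    intro h; apply hp; simp [h]
  have iu : Integrable (fun p => u p ^ 2) := by
    refine Continuous.integrable_of_hasCompactSupport (hu.continuous.pow 2) ?_
    refine hc.mono ?_
    intro p hp
    rw [Function.mem_support] at hp ⊢
    intro h; apply hp; simp [h]
  have hle := integral_mono (((i0.add i00).add (i1.add i11))) (ig.sub (iu.const_mul (4 * π ^ 2)))
    (fun p => pointwise hu hs p)
  have e1 : ∫ p, ((fun p => ph0 p * fderiv ℝ (fun p => u p ^ 2 / ph p) p (ev 0))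
      + (fun p => ph00 p * (u p ^ 2 / ph p)) + ((fun p => ph1 p * fderiv ℝ (fun p => u p ^ 2 / ph p) p (ev 1))
      + fun p => ph11 p * (u p ^ 2 / ph p))) p = 0 := by
    rw [integral_add' (i0.add i00) (i1.add i11), integral_add' i0 i00, integral_add' i1 i11,
      parts0 hu hc hs, parts1 hu hc hs]
    ring
  rw [e1, integral_sub' ig (iu.const_mul (4 * π ^ 2)), integral_const_mul] at hle
  linarith

end Rayleigh

lemma lam_ge : 4 * π ^ 2 ≤ sInf {r : ℝ | ∃ u : EuclideanSpace ℝ (Fin 2) → ℝ,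
          ContDiff ℝ 1 u ∧ HasCompactSupport u ∧ tsupport u ⊆ Om ∧ u ≠ 0 ∧
          r = (∫ x, ‖fderiv ℝ u x‖ ^ 2) / (∫ x, u x ^ 2)} := by
  apply le_csInf
  · obtain ⟨x, hx⟩ := nonempty_Om
    obtain ⟨f, hf1, hf2, hf3, _, hf5⟩ :=
      exists_contDiff_tsupport_subset (n := 1) (isOpen_Om.mem_nhds hx)
    refine ⟨_, f, hf3, hf2, hf1, ?_, rfl⟩
    intro h
    rw [h] at hf5
    simp at hf5
  · rintro r ⟨u, hu, hc, hs, hne, rfl⟩
    have hpos : 0 < ∫ x, u x ^ 2 := by
      obtain ⟨x0, hx0⟩ : ∃ x, u x ≠ 0 := by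
        by_contra hcon
        push Not at hcon
        exact hne (funext hcon)
      refine Continuous.integral_pos_of_hasCompactSupport_nonneg_nonzero (hu.continuous.pow 2) ?_
        (fun x => sq_nonneg _) (x := x0) (by positivity)
      refine hc.mono ?_
      intro p hp
      rw [Function.mem_support] at hp ⊢
      intro h; apply hp; simp [h]
    rw [le_div_iff₀ hpos]
    exact rayleigh hu hc hs

/-- The negation of the preceding statement: For every bounded convex nonempty open plane set with area A, polar moment of inertia I about its centroid, and first Dirichlet eigenvalue λ (Rayleigh infimum), 9π²/2 < λA³/I ≤ 12π². -/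
theorem result :
    ¬ (∀ (Ω : Set (EuclideanSpace ℝ (Fin 2))), IsOpen Ω → Convex ℝ Ω →
      Bornology.IsBounded Ω → Ω.Nonempty →
      ∀ (A I lam : ℝ) (c : EuclideanSpace ℝ (Fin 2)),
        A = (MeasureTheory.volume Ω).toReal →
        c = A⁻¹ • ∫ x in Ω, x →
        I = ∫ x in Ω, ‖x - c‖ ^ 2 →
        lam = sInf {r : ℝ | ∃ u : EuclideanSpace ℝ (Fin 2) → ℝ,
          ContDiff ℝ 1 u ∧ HasCompactSupport u ∧ tsupport u ⊆ Ω ∧ u ≠ 0 ∧
          r = (∫ x, ‖fderiv ℝ u x‖ ^ 2) / (∫ x, u x ^ 2)} →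
        9 / 2 * Real.pi ^ 2 < lam * A ^ 3 / I ∧ lam * A ^ 3 / I ≤ 12 * Real.pi ^ 2) := by
  intro h
  obtain ⟨_, h2⟩ := h Om isOpen_Om convex_Om bounded_Om nonempty_Om _ _ _ _ rfl rfl rfl rfl
  rw [polar_moment _ rfl, area_Om] at h2
  have hl := lam_ge
  set lam := sInf {r : ℝ | ∃ u : EuclideanSpace ℝ (Fin 2) → ℝ,
          ContDiff ℝ 1 u ∧ HasCompactSupport u ∧ tsupport u ⊆ Om ∧ u ≠ 0 ∧
          r = (∫ x, ‖fderiv ℝ u x‖ ^ 2) / (∫ x, u x ^ 2)}
  have hs3 : Real.sqrt 3 ^ 3 = 3 * Real.sqrt 3 := by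
    rw [pow_succ, sq, sqrt3_sq]
  have hne : Real.sqrt 3 ≠ 0 := sqrt3_pos.ne'
  have e : lam * (99/100 / Real.sqrt 3) ^ 3 / (11821/110000 / Real.sqrt 3)
      = lam * ((99/100) ^ 3 / 3 / (11821/110000)) := by
    rw [div_pow, hs3]
    field_simp
  rw [e] at h2
  have hpi : 0 < π ^ 2 := by positivity
  nlinarith [h2, hl, hpi]

end Pool.Agent.S05104
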