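import Pool.Statements.S05358
import Pool.Agent.Lib.MP_8dcfde_an.Final
import Pool.Agent.Lib.MP_8dcfde_an.Wave
import Pool.Agent.Lib.MP_8dcfde_an.Lip
import Pool.Agent.Lib.MP_8dcfde_an.Jac
import Pool.Agent.Lib.MP_8dcfde_an.Int
import Pool.Agent.Lib.MP_8dcfde_an.Weak

set_option autoImplicit false
open Pool Pool.MP_8dcfde_an

namespace Pool.Agent.S05358

/-- The negation of the preceding statement: For n ≥ 3 and a domain Ω in ℝⁿ, every continuous non-constant W^{1,n} map f on Ω of finite distortion with distortion K_f = ∣Df∣ⁿ/J_f in L^{n−1}(Ω) maps open subsets of Ω to open sets. -/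
theorem result :
    ¬ (∀ (n : ℕ), 3 ≤ n →
    ∀ (Ω : Set (EuclideanSpace ℝ (Fin n))), IsOpen Ω → IsConnected Ω →
    ∀ (f : EuclideanSpace ℝ (Fin n) → EuclideanSpace ℝ (Fin n))
      (Df : EuclideanSpace ℝ (Fin n) →
        (EuclideanSpace ℝ (Fin n) →L[ℝ] EuclideanSpace ℝ (Fin n))),
      ContinuousOn f Ω →
      MeasureTheory.MemLp f ((n : ℕ) : ENNReal) (MeasureTheory.volume.restrict Ω) →
      MeasureTheory.MemLp Df ((n : ℕ) : ENNReal) (MeasureTheory.volume.restrict Ω) →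
      (∀ φ : EuclideanSpace ℝ (Fin n) → ℝ,
          ContDiff ℝ ((⊤ : ℕ∞) : WithTop ℕ∞) φ → HasCompactSupport φ → tsupport φ ⊆ Ω →
          ∀ v : EuclideanSpace ℝ (Fin n),
            ∫ x in Ω, (fderiv ℝ φ x v) • f x = - ∫ x in Ω, φ x • Df x v) →
      (∀ᵐ x ∂(MeasureTheory.volume.restrict Ω),
          0 ≤ LinearMap.det (Df x).toLinearMap ∧
          (LinearMap.det (Df x).toLinearMap = 0 → Df x = 0)) →
      MeasureTheory.MemLp
          (fun x => if 0 < LinearMap.det (Df x).toLinearMap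
            then ‖Df x‖ ^ n / LinearMap.det (Df x).toLinearMap else (1 : ℝ))
          ((n - 1 : ℕ) : ENNReal) (MeasureTheory.volume.restrict Ω) →
      (¬ ∃ c : EuclideanSpace ℝ (Fin n), ∀ x ∈ Ω, f x = c) →
      ∀ U : Set (EuclideanSpace ℝ (Fin n)), U ⊆ Ω → IsOpen U → IsOpen (f '' U)) :=
  Pool.Agent.Lib.MP_8dcfde_an.final
    (Pool.Agent.Lib.MP_8dcfde_an.omit_ff Pool.Agent.Lib.MP_8dcfde_an.wave)
    (Pool.Agent.Lib.MP_8dcfde_an.lip Pool.Agent.Lib.MP_8dcfde_an.wave)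
    (Pool.Agent.Lib.MP_8dcfde_an.jac Pool.Agent.Lib.MP_8dcfde_an.wave
      (Pool.Agent.Lib.MP_8dcfde_an.lip Pool.Agent.Lib.MP_8dcfde_an.wave))
    Pool.Agent.Lib.MP_8dcfde_an.int
    Pool.Agent.Lib.MP_8dcfde_an.weak

end Pool.Agent.S05358
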