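import Pool.Statements.S06071

set_option autoImplicit false
set_option linter.unusedSectionVars false
open Pool Pool.MP_c4f5bb_an

namespace Pool.Agent.S06071

open Metric

section defs

variable {X : Type} [NormedAddCommGroup X] [NormedSpace ℝ X]

/-- The minimal distance between two different points of `F`. -/
noncomputable def sep (F : Finset X) : ℝ :=
  sInf {t : ℝ | ∃ x ∈ F, ∃ y ∈ F, x ≠ y ∧ dist x y = t}

/-- `a` and `c` lie in the same cluster of `F` at scale `t` (single linkage clustering):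
every set containing `a` and stable under steps of length at most `t` in `F` contains `c`. -/
def conn (F : Finset X) (t : ℝ) (a c : X) : Prop :=
  ∀ A : Set X, a ∈ A → (∀ x ∈ A, ∀ y ∈ F, x ∈ F → dist x y ≤ t → y ∈ A) → c ∈ A

/-- The scale at which `a` and `c` merge, truncated below by `sep F`. -/
noncomputable def lev (F : Finset X) (a c : X) : ℝ := sInf {t : ℝ | sep F ≤ t ∧ conn F t a c}

/-- The weight of `c` as seen from `a`. -/
noncomputable def wt (F : Finset X) (a c : X) : ℝ := max 0 (2 * sep F - lev F a c)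

/-- The total weight. -/
noncomputable def tot (F : Finset X) (a : X) : ℝ := ∑ c ∈ F, wt F a c

/-- The weighted displacement sum. -/
noncomputable def dis (F : Finset X) (a : X) : X := ∑ c ∈ F, wt F a c • (c - a)

/-- The weighted average. -/
noncomputable def phi (F : Finset X) (a : X) : X := (tot F a)⁻¹ • ∑ c ∈ F, wt F a c • c

theorem conn_refl (F : Finset X) (t : ℝ) (a : X) : conn F t a a := fun _ ha _ => ha

theorem conn_of_dist {F : Finset X} {t : ℝ} {a c : X} (ha : a ∈ F) (hc : c ∈ F)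
    (h : dist a c ≤ t) : conn F t a c := fun _ haA hA => hA a haA c hc ha h

theorem conn_trans {F : Finset X} {t : ℝ} {a b c : X} (h1 : conn F t a b) (h2 : conn F t b c) :
    conn F t a c := fun A ha hA => h2 A (h1 A ha hA) hA

theorem conn_mono {F : Finset X} {s t : ℝ} (hst : s ≤ t) {a c : X} (h : conn F s a c) :
    conn F t a c := fun A ha hA => h A ha (fun x hx y hy hxF hd => hA x hx y hy hxF (hd.trans hst))

theorem conn_map {F G : Finset X} {t ε : ℝ} {f : X → X} (hf : ∀ x ∈ F, f x ∈ G)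
    (hd : ∀ x ∈ F, dist x (f x) ≤ ε) {a c : X} (ha : a ∈ F) (h : conn F t a c) :
    conn G (t + 2 * ε) (f a) (f c) := by
  intro A haA hA
  have := h {x | x ∈ F ∧ f x ∈ A} ⟨ha, haA⟩ ?_
  · exact this.2
  · rintro x ⟨hx, hxA⟩ y hy _ hxy
    refine ⟨hy, hA (f x) hxA (f y) (hf y hy) (hf x hx) ?_⟩
    have h1 := hd x hx
    have h2 := hd y hy
    have h3 : dist (f x) (f y) ≤ dist (f x) x + dist x y + dist y (f y) := dist_triangle4 _ _ _ _
    rw [dist_comm (f x) x] at h3
    linarith

theorem conn_dist_le {F : Finset X} {t : ℝ} (ht : 0 ≤ t) {a c : X} (ha : a ∈ F)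
    (h : conn F t a c) : dist a c ≤ F.card * t := by
  classical
  by_contra hcon
  push Not at hcon
  have key : ∀ k : ℕ, k < F.card → ∃ x ∈ F, (k : ℝ) * t < dist a x ∧ dist a x ≤ (k + 1) * t := by
    intro k hk
    by_contra hno
    push Not at hno
    have hc := h {x | dist a x ≤ k * t} (by simp; positivity) ?_
    · have h1 : dist a c ≤ k * t := hc
      have h2 : (k : ℝ) * t ≤ F.card * t := by
        apply mul_le_mul_of_nonneg_right _ ht
        exact_mod_cast hk.le
      linarith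
    · intro x hx y hy _ hxy
      by_contra hy2
      have hy3 : (k : ℝ) * t < dist a y := by
        simpa using hy2
      have h4 := hno y hy hy3
      have h5 : dist a y ≤ dist a x + dist x y := dist_triangle _ _ _
      have h6 : dist a x ≤ k * t := hx
      linarith
  choose! g hg using key
  have hcard : (Finset.range F.card).card ≤ (F.erase a).card := by
    apply Finset.card_le_card_of_injOn g
    · intro k hk
      have hk' : k < F.card := by simpa using hk
      obtain ⟨h1, h2, h3⟩ := hg k hk'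
      simp only [Finset.coe_erase, Set.mem_sdiff, Finset.mem_coe, Set.mem_singleton_iff]
      refine ⟨h1, ?_⟩
      intro h0
      rw [h0, dist_self] at h2
      have : (0:ℝ) ≤ k * t := by positivity
      linarith
    · intro i hi j hj hij
      have hi' : i < F.card := by simpa using hi
      have hj' : j < F.card := by simpa using hj
      obtain ⟨_, i2, i3⟩ := hg i hi'
      obtain ⟨_, j2, j3⟩ := hg j hj'
      rw [hij] at i2 i3
      have h1 : (i : ℝ) < j + 1 := lt_of_mul_lt_mul_right (lt_of_lt_of_le i2 j3) ht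
      have h2 : (j : ℝ) < i + 1 := lt_of_mul_lt_mul_right (lt_of_lt_of_le j2 i3) ht
      have h3 : i < j + 1 := by exact_mod_cast h1
      have h4 : j < i + 1 := by exact_mod_cast h2
      omega
  rw [Finset.card_range, Finset.card_erase_of_mem ha] at hcard
  have : 0 < F.card := Finset.card_pos.mpr ⟨a, ha⟩
  omega

theorem sep_set_bdd (F : Finset X) :
    BddBelow {t : ℝ | ∃ x ∈ F, ∃ y ∈ F, x ≠ y ∧ dist x y = t} :=
  ⟨0, by rintro t ⟨x, _, y, _, _, rfl⟩; exact dist_nonneg⟩

theorem sep_le {F : Finset X} {x y : X} (hx : x ∈ F) (hy : y ∈ F) (hxy : x ≠ y) :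
    sep F ≤ dist x y := csInf_le (sep_set_bdd F) ⟨x, hx, y, hy, hxy, rfl⟩

theorem exists_sep {F : Finset X} (hF : 2 ≤ F.card) :
    ∃ a ∈ F, ∃ b ∈ F, a ≠ b ∧ dist a b = sep F := by
  classical
  have hfin : {t : ℝ | ∃ x ∈ F, ∃ y ∈ F, x ≠ y ∧ dist x y = t}.Finite := by
    apply Set.Finite.subset ((F ×ˢ F).image (fun p : X × X => dist p.1 p.2)).finite_toSet
    rintro t ⟨x, hx, y, hy, _, rfl⟩
    simp only [Finset.coe_image, Set.mem_image, Finset.mem_coe, Finset.mem_product]
    exact ⟨(x, y), ⟨hx, hy⟩, rfl⟩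
  have hne : {t : ℝ | ∃ x ∈ F, ∃ y ∈ F, x ≠ y ∧ dist x y = t}.Nonempty := by
    obtain ⟨x, hx, y, hy, hxy⟩ := Finset.one_lt_card.mp (by omega : 1 < F.card)
    exact ⟨dist x y, x, hx, y, hy, hxy, rfl⟩
  have := hne.csInf_mem hfin
  exact this

theorem sep_pos {F : Finset X} (hF : 2 ≤ F.card) : 0 < sep F := by
  obtain ⟨a, _, b, _, hab, h⟩ := exists_sep hF
  rw [← h]
  exact dist_pos.mpr hab

theorem lev_bdd (F : Finset X) (a c : X) : BddBelow {t : ℝ | sep F ≤ t ∧ conn F t a c} :=
  ⟨sep F, fun _ ht => ht.1⟩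

theorem lev_nonempty {F : Finset X} {a c : X} (ha : a ∈ F) (hc : c ∈ F) :
    {t : ℝ | sep F ≤ t ∧ conn F t a c}.Nonempty :=
  ⟨max (sep F) (dist a c), le_max_left _ _, conn_of_dist ha hc (le_max_right _ _)⟩

theorem sep_le_lev {F : Finset X} {a c : X} (ha : a ∈ F) (hc : c ∈ F) : sep F ≤ lev F a c :=
  le_csInf (lev_nonempty ha hc) (fun _ ht => ht.1)

theorem lev_self {F : Finset X} {a : X} (ha : a ∈ F) : lev F a a = sep F :=
  le_antisymm (csInf_le (lev_bdd F a a) ⟨le_refl _, conn_refl F _ a⟩) (sep_le_lev ha ha)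

theorem wt_nonneg (F : Finset X) (a c : X) : 0 ≤ wt F a c := le_max_left _ _

theorem wt_le {F : Finset X} (hs : 0 ≤ sep F) {a c : X} (ha : a ∈ F) (hc : c ∈ F) :
    wt F a c ≤ sep F := by
  have := sep_le_lev ha hc
  unfold wt
  apply max_le hs
  linarith

theorem wt_self {F : Finset X} (hs : 0 ≤ sep F) {a : X} (ha : a ∈ F) : wt F a a = sep F := by
  unfold wt
  rw [lev_self ha, max_eq_right] <;> linarith

theorem dist_le_of_wt_pos {F : Finset X} (hs : 0 ≤ sep F) {a c : X} (ha : a ∈ F) (hc : c ∈ F)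
    (h : 0 < wt F a c) : ‖c - a‖ ≤ F.card * (2 * sep F) := by
  have h1 : lev F a c < 2 * sep F := by
    unfold wt at h
    rcases lt_max_iff.mp h with h | h
    · exact absurd h (lt_irrefl _)
    · linarith
  obtain ⟨t, ht, ht2⟩ := (csInf_lt_iff (lev_bdd F a c) (lev_nonempty ha hc)).mp h1
  have h2 := conn_dist_le (by linarith : 0 ≤ 2 * sep F) ha (conn_mono ht2.le ht.2)
  rwa [← dist_eq_norm, dist_comm]

theorem sep_le_tot {F : Finset X} (hs : 0 ≤ sep F) {a : X} (ha : a ∈ F) : sep F ≤ tot F a := by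
  rw [← wt_self hs ha]
  exact Finset.single_le_sum (f := fun c => wt F a c) (fun c _ => wt_nonneg F a c) ha

theorem phi_eq {F : Finset X} {a : X} (h : 0 < tot F a) :
    phi F a = a + (tot F a)⁻¹ • dis F a := by
  have h1 : dis F a = (∑ c ∈ F, wt F a c • c) - tot F a • a := by
    unfold dis tot
    rw [Finset.sum_smul, ← Finset.sum_sub_distrib]
    apply Finset.sum_congr rfl
    intro c _
    rw [smul_sub]
  unfold phi
  rw [h1, smul_sub, smul_smul, inv_mul_cancel₀ h.ne', one_smul]
  abel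

theorem norm_dis_le {F : Finset X} (hs : 0 ≤ sep F) {a : X} (ha : a ∈ F) :
    ‖dis F a‖ ≤ tot F a * (F.card * (2 * sep F)) := by
  unfold dis tot
  rw [Finset.sum_mul]
  apply norm_sum_le_of_le
  intro c hc
  rw [norm_smul, Real.norm_of_nonneg (wt_nonneg F a c)]
  rcases (wt_nonneg F a c).eq_or_lt with h | h
  · rw [← h]; simp
  · exact mul_le_mul_of_nonneg_left (dist_le_of_wt_pos hs ha hc h) h.le

theorem norm_disp_le {F : Finset X} (hs : 0 < sep F) {a : X} (ha : a ∈ F) :
    ‖(tot F a)⁻¹ • dis F a‖ ≤ F.card * (2 * sep F) := by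
  have ht : 0 < tot F a := lt_of_lt_of_le hs (sep_le_tot hs.le ha)
  rw [norm_smul, norm_inv, Real.norm_of_nonneg ht.le, inv_mul_le_iff₀ ht]
  exact norm_dis_le hs.le ha

theorem dist_phi_le {F : Finset X} (hs : 0 < sep F) {a : X} (ha : a ∈ F) :
    dist (phi F a) a ≤ F.card * (2 * sep F) := by
  have ht : 0 < tot F a := lt_of_lt_of_le hs (sep_le_tot hs.le ha)
  rw [phi_eq ht, dist_eq_norm, add_sub_cancel_left]
  exact norm_disp_le hs ha

/-- The two points of a closest pair see the same weights. -/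
theorem lev_congr {F : Finset X} {a b : X} (ha : a ∈ F) (hb : b ∈ F) (h : dist a b = sep F)
    (c : X) : lev F a c = lev F b c := by
  unfold lev
  congr 1
  ext t
  constructor
  · rintro ⟨h1, h2⟩
    exact ⟨h1, conn_trans (conn_of_dist hb ha (by rw [dist_comm, h]; exact h1)) h2⟩
  · rintro ⟨h1, h2⟩
    exact ⟨h1, conn_trans (conn_of_dist ha hb (by rw [h]; exact h1)) h2⟩

theorem phi_congr {F : Finset X} {a b : X} (ha : a ∈ F) (hb : b ∈ F) (h : dist a b = sep F) :
    phi F a = phi F b := by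
  have hw : ∀ c, wt F a c = wt F b c := by
    intro c
    unfold wt
    rw [lev_congr ha hb h c]
  unfold phi tot
  simp only [hw]

/-- `f : F → G` and `g : G → F` are mutually inverse and move points by at most `ε`. -/
structure Mat (F G : Finset X) (ε : ℝ) (f g : X → X) : Prop where
  f_mem : ∀ x ∈ F, f x ∈ G
  g_mem : ∀ y ∈ G, g y ∈ F
  gf : ∀ x ∈ F, g (f x) = x
  fg : ∀ y ∈ G, f (g y) = y
  df : ∀ x ∈ F, dist x (f x) ≤ ε

theorem Mat.symm {F G : Finset X} {ε : ℝ} {f g : X → X} (h : Mat F G ε f g) :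
    Mat G F ε g f where
  f_mem := h.g_mem
  g_mem := h.f_mem
  gf := h.fg
  fg := h.gf
  df := by
    intro y hy
    have := h.df (g y) (h.g_mem y hy)
    rwa [h.fg y hy, dist_comm] at this

theorem Mat.sep_le {F G : Finset X} {ε : ℝ} {f g : X → X} (h : Mat F G ε f g)
    (hF : 2 ≤ F.card) : sep G ≤ sep F + 2 * ε := by
  obtain ⟨a, ha, b, hb, hab, hd⟩ := exists_sep hF
  have hne : f a ≠ f b := by
    intro h0
    apply hab
    rw [← h.gf a ha, ← h.gf b hb, h0]
  have h1 := S06071.sep_le (h.f_mem a ha) (h.f_mem b hb) hne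
  have h2 := h.df a ha
  have h3 := h.df b hb
  have h4 : dist (f a) (f b) ≤ dist (f a) a + dist a b + dist b (f b) := dist_triangle4 _ _ _ _
  rw [dist_comm (f a) a] at h4
  linarith

theorem Mat.lev_le {F G : Finset X} {ε : ℝ} {f g : X → X} (h : Mat F G ε f g)
    (hF : 2 ≤ F.card) {a c : X} (ha : a ∈ F) (hc : c ∈ F) :
    lev G (f a) (f c) ≤ lev F a c + 2 * ε := by
  have h0 : lev G (f a) (f c) - 2 * ε ≤ lev F a c := by
    apply le_csInf (lev_nonempty ha hc)
    rintro t ⟨ht1, ht2⟩
    have h1 : lev G (f a) (f c) ≤ t + 2 * ε := by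
      apply csInf_le (lev_bdd G (f a) (f c))
      exact ⟨by linarith [h.sep_le hF], conn_map h.f_mem h.df ha ht2⟩
    linarith
  linarith

theorem Mat.wt_le {F G : Finset X} {ε : ℝ} {f g : X → X} (h : Mat F G ε f g) (hε : 0 ≤ ε)
    (hF : 2 ≤ F.card) (hG : 2 ≤ G.card) {a c : X} (ha : a ∈ F) (hc : c ∈ F) :
    wt F a c ≤ wt G (f a) (f c) + 6 * ε := by
  have h1 := h.lev_le hF ha hc
  have h2 := h.symm.sep_le hG
  have h3 := wt_nonneg G (f a) (f c)
  have h4 : 2 * sep G - lev G (f a) (f c) ≤ wt G (f a) (f c) := le_max_right _ _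
  unfold wt at *
  apply max_le
  · linarith
  · linarith

theorem Mat.abs_wt_le {F G : Finset X} {ε : ℝ} {f g : X → X} (h : Mat F G ε f g) (hε : 0 ≤ ε)
    (hF : 2 ≤ F.card) (hG : 2 ≤ G.card) {a c : X} (ha : a ∈ F) (hc : c ∈ F) :
    |wt F a c - wt G (f a) (f c)| ≤ 6 * ε := by
  have h1 := h.wt_le hε hF hG ha hc
  have h2 := h.symm.wt_le hε hG hF (h.f_mem a ha) (h.f_mem c hc)
  rw [h.gf a ha, h.gf c hc] at h2
  rw [abs_le]
  constructor <;> linarith

theorem Mat.sum_eq {F G : Finset X} {ε : ℝ} {f g : X → X} (h : Mat F G ε f g)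
    {M : Type} [AddCommMonoid M] (u : X → M) : ∑ y ∈ G, u y = ∑ x ∈ F, u (f x) := by
  symm
  refine Finset.sum_bij (fun x _ => f x) (fun x hx => h.f_mem x hx) ?_ ?_ (fun _ _ => rfl)
  · intro x hx y hy hxy
    rw [← h.gf x hx, ← h.gf y hy, hxy]
  · intro y hy
    exact ⟨g y, h.g_mem y hy, h.fg y hy⟩

theorem Mat.card_eq {F G : Finset X} {ε : ℝ} {f g : X → X} (h : Mat F G ε f g) :
    F.card = G.card := by
  have := h.sum_eq (fun _ => (1 : ℕ))
  simp at this
  exact this.symm

theorem Mat.term_le {F G : Finset X} {ε : ℝ} {f g : X → X} (h : Mat F G ε f g) (hε : 0 ≤ ε)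
    (hF : 2 ≤ F.card) (hFG : sep F ≤ 2 * sep G) {a c : X} (ha : a ∈ F)
    (hc : c ∈ F) :
    ‖wt F a c • (c - a) - wt G (f a) (f c) • (f c - f a)‖ ≤
      (24 * F.card + 2) * ε * sep G := by
  have hG : 2 ≤ G.card := h.card_eq ▸ hF
  have hsF := sep_pos hF
  have hsG := sep_pos hG
  have hw := h.abs_wt_le hε hF hG ha hc
  have hn : (0 : ℝ) ≤ F.card := by positivity
  rcases (wt_nonneg F a c).eq_or_lt with h0 | h0
  · rcases (wt_nonneg G (f a) (f c)).eq_or_lt with h1 | h1
    · rw [← h0, ← h1]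
      simp only [zero_smul, sub_zero, norm_zero]
      positivity
    · have h2 := dist_le_of_wt_pos hsG.le (h.f_mem a ha) (h.f_mem c hc) h1
      rw [← h0, zero_smul, zero_sub, norm_neg, norm_smul, Real.norm_of_nonneg h1.le]
      rw [← h0, zero_sub, abs_neg, abs_of_nonneg h1.le] at hw
      rw [← h.card_eq] at h2
      calc wt G (f a) (f c) * ‖f c - f a‖ ≤ (6 * ε) * (F.card * (2 * sep G)) := by gcongr
        _ ≤ (24 * F.card + 2) * ε * sep G := by
          nlinarith [mul_nonneg (mul_nonneg hn hε) hsG.le, mul_nonneg hε hsG.le]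
  · have h2 := dist_le_of_wt_pos hsF.le ha hc h0
    have h3 : wt F a c • (c - a) - wt G (f a) (f c) • (f c - f a) =
        (wt F a c - wt G (f a) (f c)) • (c - a) + wt G (f a) (f c) • ((c - f c) - (a - f a)) := by
      rw [sub_smul, smul_sub, smul_sub, smul_sub, smul_sub, smul_sub, smul_sub]
      abel
    have h4 : ‖(c - f c) - (a - f a)‖ ≤ 2 * ε := by
      have h5 := h.df a ha
      have h6 := h.df c hc
      rw [dist_eq_norm] at h5 h6
      calc ‖(c - f c) - (a - f a)‖ ≤ ‖c - f c‖ + ‖a - f a‖ := norm_sub_le _ _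
        _ ≤ 2 * ε := by linarith
    have h7 := S06071.wt_le hsG.le (h.f_mem a ha) (h.f_mem c hc)
    rw [h3]
    calc ‖(wt F a c - wt G (f a) (f c)) • (c - a) + wt G (f a) (f c) • ((c - f c) - (a - f a))‖
        ≤ ‖(wt F a c - wt G (f a) (f c)) • (c - a)‖ +
          ‖wt G (f a) (f c) • ((c - f c) - (a - f a))‖ := norm_add_le _ _
      _ = |wt F a c - wt G (f a) (f c)| * ‖c - a‖ +
          wt G (f a) (f c) * ‖(c - f c) - (a - f a)‖ := by
          rw [norm_smul, norm_smul, Real.norm_eq_abs, Real.norm_of_nonneg (wt_nonneg _ _ _)]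
      _ ≤ (6 * ε) * (F.card * (2 * (2 * sep G))) + sep G * (2 * ε) := by
          gcongr
          exact h2.trans (by gcongr)
      _ = (24 * F.card + 2) * ε * sep G := by ring

theorem Mat.tot_le {F G : Finset X} {ε : ℝ} {f g : X → X} (h : Mat F G ε f g) (hε : 0 ≤ ε)
    (hF : 2 ≤ F.card) {a : X} (ha : a ∈ F) :
    |tot G (f a) - tot F a| ≤ F.card * (6 * ε) := by
  have hG : 2 ≤ G.card := h.card_eq ▸ hF
  have h1 : tot G (f a) - tot F a = ∑ c ∈ F, (wt G (f a) (f c) - wt F a c) := by
    unfold tot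
    rw [h.sum_eq, Finset.sum_sub_distrib]
  rw [h1]
  refine (Finset.abs_sum_le_sum_abs _ _).trans ?_
  have h2 : ∀ c ∈ F, |wt G (f a) (f c) - wt F a c| ≤ 6 * ε := by
    intro c hc
    rw [abs_sub_comm]
    exact h.abs_wt_le hε hF hG ha hc
  refine (Finset.sum_le_sum h2).trans ?_
  rw [Finset.sum_const, nsmul_eq_mul]

theorem Mat.dis_le {F G : Finset X} {ε : ℝ} {f g : X → X} (h : Mat F G ε f g) (hε : 0 ≤ ε)
    (hF : 2 ≤ F.card) (hFG : sep F ≤ 2 * sep G) {a : X} (ha : a ∈ F) :
    ‖dis F a - dis G (f a)‖ ≤ F.card * ((24 * F.card + 2) * ε * sep G) := by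
  have h1 : dis F a - dis G (f a) =
      ∑ c ∈ F, (wt F a c • (c - a) - wt G (f a) (f c) • (f c - f a)) := by
    unfold dis
    rw [h.sum_eq, Finset.sum_sub_distrib]
  rw [h1]
  refine (norm_sum_le_of_le _ (fun c hc => h.term_le hε hF hFG ha hc)).trans ?_
  rw [Finset.sum_const, nsmul_eq_mul]

theorem Mat.phi_le {F G : Finset X} {ε : ℝ} {f g : X → X} (h : Mat F G ε f g) (hε : 0 ≤ ε)
    (hF : 2 ≤ F.card) (hFG : sep F ≤ 2 * sep G) {a : X} (ha : a ∈ F) :
    dist (phi F a) (phi G (f a)) ≤ (48 * (F.card : ℝ) ^ 2 + 2 * F.card + 1) * ε := by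
  have hG : 2 ≤ G.card := h.card_eq ▸ hF
  have hsF := sep_pos hF
  have hsG := sep_pos hG
  have hfa := h.f_mem a ha
  have htF : 0 < tot F a := lt_of_lt_of_le hsF (sep_le_tot hsF.le ha)
  have htG : 0 < tot G (f a) := lt_of_lt_of_le hsG (sep_le_tot hsG.le hfa)
  have hn : (0 : ℝ) ≤ F.card := by positivity
  set P := (tot F a)⁻¹ • dis F a with hP
  set Q := (tot G (f a))⁻¹ • dis G (f a) with hQ
  have hP1 : tot F a • P = dis F a := by rw [hP, smul_smul, mul_inv_cancel₀ htF.ne', one_smul]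
  have hQ1 : tot G (f a) • Q = dis G (f a) := by
    rw [hQ, smul_smul, mul_inv_cancel₀ htG.ne', one_smul]
  have hP2 : ‖P‖ ≤ F.card * (2 * sep F) := norm_disp_le hsF ha
  have hkey : tot G (f a) • (P - Q) =
      (tot G (f a) - tot F a) • P + (dis F a - dis G (f a)) := by
    rw [smul_sub, hQ1, sub_smul, hP1]
    abel
  have h1 : tot G (f a) * ‖P - Q‖ ≤
      F.card * (6 * ε) * (F.card * (2 * (2 * sep G))) +
        F.card * ((24 * F.card + 2) * ε * sep G) := by
    calc tot G (f a) * ‖P - Q‖ = ‖tot G (f a) • (P - Q)‖ := by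
          rw [norm_smul, Real.norm_of_nonneg htG.le]
      _ = ‖(tot G (f a) - tot F a) • P + (dis F a - dis G (f a))‖ := by rw [hkey]
      _ ≤ ‖(tot G (f a) - tot F a) • P‖ + ‖dis F a - dis G (f a)‖ := norm_add_le _ _
      _ = |tot G (f a) - tot F a| * ‖P‖ + ‖dis F a - dis G (f a)‖ := by
          rw [norm_smul, Real.norm_eq_abs]
      _ ≤ _ := by
          gcongr
          · exact h.tot_le hε hF ha
          · exact hP2.trans (by gcongr)
          · exact h.dis_le hε hF hFG ha
  have h2 : ‖P - Q‖ ≤ (48 * (F.card : ℝ) ^ 2 + 2 * F.card) * ε := by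
    have h3 : sep G * ‖P - Q‖ ≤ tot G (f a) * ‖P - Q‖ :=
      mul_le_mul_of_nonneg_right (sep_le_tot hsG.le hfa) (norm_nonneg _)
    have h4 : sep G * ‖P - Q‖ ≤ sep G * ((48 * (F.card : ℝ) ^ 2 + 2 * F.card) * ε) := by
      refine h3.trans (h1.trans (le_of_eq ?_))
      ring
    exact le_of_mul_le_mul_left h4 hsG
  rw [phi_eq htF, phi_eq htG, dist_eq_norm]
  have h5 : a + P - (f a + Q) = (a - f a) + (P - Q) := by abel
  rw [← hP, ← hQ, h5]
  have h6 := h.df a ha
  rw [dist_eq_norm] at h6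
  calc ‖(a - f a) + (P - Q)‖ ≤ ‖a - f a‖ + ‖P - Q‖ := norm_add_le _ _
    _ ≤ ε + (48 * (F.card : ℝ) ^ 2 + 2 * F.card) * ε := by gcongr
    _ = (48 * (F.card : ℝ) ^ 2 + 2 * F.card + 1) * ε := by ring

open Classical in
/-- The retraction. -/
noncomputable def ret (n : ℕ) (S : Set X) : Set X :=
  if h : S.Finite ∧ S.ncard = n then phi h.1.toFinset '' S else S

theorem ret_of_ne {n : ℕ} {S : Set X} (h : S.ncard ≠ n) : ret n S = S := by
  unfold ret
  rw [dif_neg]
  tauto

theorem ret_of_eq {F : Finset X} : ret F.card (F : Set X) = phi F '' (F : Set X) := by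
  unfold ret
  rw [dif_pos ⟨F.finite_toSet, Set.ncard_coe_finset F⟩]
  simp

theorem card_ret {F : Finset X} (hF : 2 ≤ F.card) :
    (phi F '' (F : Set X)).ncard ≤ F.card - 1 := by
  classical
  obtain ⟨a, ha, b, hb, hab, hd⟩ := exists_sep hF
  have h1 : phi F '' (F : Set X) ⊆ phi F '' ((F.erase b : Finset X) : Set X) := by
    rintro _ ⟨x, hx, rfl⟩
    by_cases hxb : x = b
    · refine ⟨a, by simp [ha, hab], ?_⟩
      rw [hxb]
      exact phi_congr ha hb hd
    · exact ⟨x, by simpa [hxb] using hx, rfl⟩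
  calc (phi F '' (F : Set X)).ncard ≤ (phi F '' ((F.erase b : Finset X) : Set X)).ncard :=
        Set.ncard_le_ncard h1 ((Finset.finite_toSet _).image _)
    _ ≤ ((F.erase b : Finset X) : Set X).ncard := Set.ncard_image_le (Finset.finite_toSet _)
    _ = F.card - 1 := by rw [Set.ncard_coe_finset, Finset.card_erase_of_mem hb]

theorem hd_ne_top {S T : Set X} (hS : S.Nonempty) (hS' : S.Finite) (hT : T.Nonempty)
    (hT' : T.Finite) : Metric.hausdorffEDist S T ≠ ⊤ :=
  Metric.hausdorffEDist_ne_top_of_nonempty_of_bounded hS hT hS'.isBounded hT'.isBounded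

theorem exists_near {S T : Set X} (hS : S.Nonempty) (hS' : S.Finite) (hT : T.Nonempty)
    (hT' : T.Finite) {x : X} (hx : x ∈ S) : ∃ y ∈ T, dist x y ≤ Metric.hausdorffDist S T := by
  obtain ⟨y, hy, hxy⟩ := hT'.isCompact.exists_infDist_eq_dist hT x
  exact ⟨y, hy, hxy ▸ Metric.infDist_le_hausdorffDist_of_mem hx (hd_ne_top hS hS' hT hT')⟩

theorem disp_ret {F : Finset X} (hF : 2 ≤ F.card) :
    Metric.hausdorffDist (phi F '' (F : Set X)) (F : Set X) ≤ F.card * (2 * sep F) := by
  have hs := sep_pos hF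
  apply Metric.hausdorffDist_le_of_mem_dist (by positivity)
  · rintro _ ⟨x, hx, rfl⟩
    exact ⟨x, hx, dist_phi_le hs hx⟩
  · intro x hx
    exact ⟨phi F x, ⟨x, hx, rfl⟩, by rw [dist_comm]; exact dist_phi_le hs hx⟩

/-- The local estimate. -/
theorem ret_local {F G : Finset X} (hF : 2 ≤ F.card) (hFG : F.card = G.card)
    (h : 4 * Metric.hausdorffDist (F : Set X) (G : Set X) < sep F) :
    Metric.hausdorffDist (phi F '' (F : Set X)) (phi G '' (G : Set X)) ≤
      (48 * (F.card : ℝ) ^ 2 + 2 * F.card + 1) * Metric.hausdorffDist (F : Set X) (G : Set X) := by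
  classical
  have hFne : (F : Set X).Nonempty := by
    rw [Finset.coe_nonempty]; exact Finset.card_pos.mp (by omega)
  have hGne : (G : Set X).Nonempty := by
    rw [Finset.coe_nonempty]; exact Finset.card_pos.mp (by omega)
  set d := Metric.hausdorffDist (F : Set X) (G : Set X) with hd
  have hd0 : 0 ≤ d := Metric.hausdorffDist_nonneg
  have hnear : ∀ x ∈ F, ∃ y ∈ G, dist x y ≤ d := fun x hx =>
    exists_near hFne F.finite_toSet hGne G.finite_toSet hx
  choose! f hf hfd using hnear
  have hinj : ∀ x ∈ F, ∀ y ∈ F, f x = f y → x = y := by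
    intro x hx y hy hxy
    by_contra hne
    have h1 := sep_le hx hy hne
    have h2 := hfd x hx
    have h3 := hfd y hy
    have h4 : dist x y ≤ dist x (f x) + dist y (f x) := dist_triangle_right _ _ _
    rw [← hxy] at h3
    linarith
  have himg : F.image f = G := by
    apply Finset.eq_of_subset_of_card_le
    · intro y hy
      obtain ⟨x, hx, rfl⟩ := Finset.mem_image.mp hy
      exact hf x hx
    · rw [Finset.card_image_of_injOn (fun x hx y hy hxy => hinj x hx y hy hxy), hFG]
  have hsurj : ∀ y ∈ G, ∃ x ∈ F, f x = y := by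
    intro y hy
    rw [← himg] at hy
    exact Finset.mem_image.mp hy
  choose! g hg hfg using hsurj
  have hM : Mat F G d f g := {
    f_mem := hf
    g_mem := hg
    gf := fun x hx => hinj _ (hg _ (hf x hx)) _ hx (hfg _ (hf x hx))
    fg := hfg
    df := hfd }
  have hsep : sep F ≤ 2 * sep G := by
    have h1 := hM.symm.sep_le (hFG ▸ hF)
    linarith
  have hmain : ∀ x ∈ F, dist (phi F x) (phi G (f x)) ≤
      (48 * (F.card : ℝ) ^ 2 + 2 * F.card + 1) * d := fun x hx => hM.phi_le hd0 hF hsep hx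
  apply Metric.hausdorffDist_le_of_mem_dist (by positivity)
  · rintro _ ⟨x, hx, rfl⟩
    exact ⟨phi G (f x), ⟨f x, hf x hx, rfl⟩, hmain x hx⟩
  · rintro _ ⟨y, hy, rfl⟩
    refine ⟨phi F (g y), ⟨g y, hg y hy, rfl⟩, ?_⟩
    have := hmain (g y) (hg y hy)
    rw [hfg y hy, dist_comm] at this
    exact this

theorem ret_nonempty {n : ℕ} {S : Set X} (h : S.Nonempty) : (ret n S).Nonempty := by
  unfold ret
  split_ifs
  · exact h.image _
  · exact h

theorem ret_finite {n : ℕ} {S : Set X} (h : S.Finite) : (ret n S).Finite := by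
  unfold ret
  split_ifs
  · exact h.image _
  · exact h

/-- Displacement bound for the retraction in terms of the distance to a set `T` such that the
local estimate does not apply. -/
theorem disp_le {n : ℕ} (hn : 2 ≤ n) {S : Set X} (hS : S.Finite) {d : ℝ} (hd : 0 ≤ d)
    (h : ∀ F : Finset X, (F : Set X) = S → F.card = n → sep F ≤ 4 * d) :
    Metric.hausdorffDist (ret n S) S ≤ 8 * n * d := by
  obtain ⟨F, rfl⟩ := hS.exists_finset_coe
  by_cases hc : F.card = n
  · subst hc
    rw [ret_of_eq]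
    refine (disp_ret hn).trans ?_
    have := h F rfl rfl
    calc (F.card : ℝ) * (2 * sep F) ≤ F.card * (2 * (4 * d)) := by gcongr
      _ = 8 * F.card * d := by ring
  · rw [ret_of_ne (by rwa [Set.ncard_coe_finset]), Metric.hausdorffDist_self_zero]
    positivity

/-- Pigeonhole: if `F` has more points than `T` then `sep F ≤ 2 d_H(F,T)`. -/
theorem sep_le_of_card {F : Finset X} {T : Set X} (hF : F.Nonempty) (hT : T.Nonempty)
    (hT' : T.Finite) (h : T.ncard < F.card) :
    sep F ≤ 2 * Metric.hausdorffDist (F : Set X) T := by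
  classical
  obtain ⟨G, rfl⟩ := hT'.exists_finset_coe
  have hnear : ∀ x ∈ F, ∃ y ∈ G, dist x y ≤ Metric.hausdorffDist (F : Set X) (G : Set X) :=
    fun x hx => exists_near (by simpa using hF) F.finite_toSet hT G.finite_toSet hx
  choose! f hf hfd using hnear
  rw [Set.ncard_coe_finset] at h
  obtain ⟨x, hx, y, hy, hxy, hfxy⟩ := Finset.exists_ne_map_eq_of_card_lt_of_maps_to h hf
  have h1 := sep_le hx hy hxy
  have h2 := hfd x hx
  have h3 := hfd y hy
  have h4 : dist x y ≤ dist x (f x) + dist y (f x) := dist_triangle_right _ _ _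
  rw [← hfxy] at h3
  linarith

theorem ret_lipschitz {n : ℕ} (hn : 2 ≤ n) {S T : Set X} (hS : S.Nonempty) (hS' : S.Finite)
    (hSn : S.ncard ≤ n) (hT : T.Nonempty) (hT' : T.Finite) (hTn : T.ncard ≤ n) :
    Metric.hausdorffDist (ret n S) (ret n T) ≤
      (48 * (n : ℝ) ^ 2 + 16 * n + 1) * Metric.hausdorffDist S T := by
  set d := Metric.hausdorffDist S T with hd
  have hd0 : 0 ≤ d := Metric.hausdorffDist_nonneg
  have hn0 : (0 : ℝ) ≤ n := by positivity
  -- the crude estimate
  have crude : (∀ F : Finset X, (F : Set X) = S → F.card = n → sep F ≤ 4 * d) →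
      (∀ F : Finset X, (F : Set X) = T → F.card = n → sep F ≤ 4 * d) →
      Metric.hausdorffDist (ret n S) (ret n T) ≤ (48 * (n : ℝ) ^ 2 + 16 * n + 1) * d := by
    intro h1 h2
    have e1 := disp_le hn hS' hd0 h1
    have e2 := disp_le hn hT' hd0 h2
    have e3 : Metric.hausdorffDist (ret n S) (ret n T) ≤
        Metric.hausdorffDist (ret n S) S + Metric.hausdorffDist S (ret n T) :=
      Metric.hausdorffDist_triangle (hd_ne_top (ret_nonempty hS) (ret_finite hS') hS hS')
    have e4 : Metric.hausdorffDist S (ret n T) ≤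
        Metric.hausdorffDist S T + Metric.hausdorffDist T (ret n T) :=
      Metric.hausdorffDist_triangle (hd_ne_top hS hS' hT hT')
    rw [Metric.hausdorffDist_comm (s := T) (t := ret n T), ← hd] at e4
    nlinarith [mul_nonneg (sq_nonneg (n : ℝ)) hd0]
  by_cases hS1 : ∀ F : Finset X, (F : Set X) = S → F.card = n → sep F ≤ 4 * d
  · by_cases hT1 : ∀ F : Finset X, (F : Set X) = T → F.card = n → sep F ≤ 4 * d
    · exact crude hS1 hT1
    · push Not at hT1
      obtain ⟨G, rfl, hG, hsep⟩ := hT1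
      obtain ⟨F, rfl⟩ := hS'.exists_finset_coe
      have hFc : F.card = n := by
        by_contra hne
        have hlt : (F : Set X).ncard < G.card := by
          rw [Set.ncard_coe_finset] at hSn ⊢
          omega
        have := sep_le_of_card (by simpa using hT) hS F.finite_toSet hlt
        rw [Metric.hausdorffDist_comm, ← hd] at this
        linarith
      have hFG : G.card = F.card := by omega
      have h1 := ret_local (F := G) (G := F) (by omega) hFG
        (by rw [Metric.hausdorffDist_comm, ← hd]; exact hsep)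
      rw [Metric.hausdorffDist_comm (s := (G : Set X)) (t := (F : Set X)), ← hd,
        Metric.hausdorffDist_comm] at h1
      subst hFc
      rw [ret_of_eq]
      have h2 : ret F.card (G : Set X) = phi G '' (G : Set X) := by
        rw [← hFG]; exact ret_of_eq
      rw [h2]
      rw [hFG] at h1
      refine h1.trans ?_
      nlinarith [mul_nonneg hn0 hd0]
  · push Not at hS1
    obtain ⟨F, rfl, hF, hsep⟩ := hS1
    obtain ⟨G, rfl⟩ := hT'.exists_finset_coe
    have hGc : G.card = n := by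
      by_contra hne
      have hlt : (G : Set X).ncard < F.card := by
        rw [Set.ncard_coe_finset] at hTn ⊢
        omega
      have := sep_le_of_card (by simpa using hS) hT G.finite_toSet hlt
      rw [← hd] at this
      linarith
    have hFG : F.card = G.card := by omega
    have h1 := ret_local (F := F) (G := G) (by omega) hFG (by rw [← hd]; exact hsep)
    rw [← hd] at h1
    subst hF
    rw [ret_of_eq]
    have h2 : ret F.card (G : Set X) = phi G '' (G : Set X) := by
      rw [hFG]; exact ret_of_eq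
    rw [h2]
    refine h1.trans ?_
    nlinarith [mul_nonneg hn0 hd0]

end defs

/-- For every real Banach space X and n ≥ 2, some map sends nonempty sets of at most n points to nonempty sets of at most n−1 points, fixes the latter, and is Lipschitz for the Hausdorff distance. -/
theorem result :
    ∀ (X : Type) [NormedAddCommGroup X] [NormedSpace ℝ X] [CompleteSpace X] (n : ℕ), 2 ≤ n →
      ∃ (r : Set X → Set X) (L : ℝ),
        (∀ S : Set X, S.Nonempty → S.Finite → S.ncard ≤ n →
          (r S).Nonempty ∧ (r S).Finite ∧ (r S).ncard ≤ n - 1) ∧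
        (∀ S : Set X, S.Nonempty → S.Finite → S.ncard ≤ n - 1 → r S = S) ∧
        (∀ S T : Set X, S.Nonempty → S.Finite → S.ncard ≤ n →
          T.Nonempty → T.Finite → T.ncard ≤ n →
          Metric.hausdorffDist (r S) (r T) ≤ L * Metric.hausdorffDist S T) := by
  intro X _ _ _ n hn
  refine ⟨ret n, 48 * (n : ℝ) ^ 2 + 16 * n + 1, ?_, ?_, ?_⟩
  · intro S hS hS' hSn
    refine ⟨ret_nonempty hS, ret_finite hS', ?_⟩
    obtain ⟨F, rfl⟩ := hS'.exists_finset_coe
    by_cases hc : F.card = n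
    · subst hc
      rw [ret_of_eq]
      exact card_ret hn
    · rw [ret_of_ne (by rwa [Set.ncard_coe_finset])]
      rw [Set.ncard_coe_finset] at hSn ⊢
      omega
  · intro S hS hS' hSn
    exact ret_of_ne (by omega)
  · intro S T hS hS' hSn hT hT' hTn
    exact ret_lipschitz hn hS hS' hSn hT hT' hTn

end Pool.Agent.S06071
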