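import Pool.Statements.S06560
import Pool.Agent.Lib.MP_eb1abe_an.Final

set_option autoImplicit false
open Pool Pool.MP_eb1abe_an

namespace Pool.Agent.S06560

/-- The negation of the preceding statement: Every degree d≥2 holomorphic self-map of P² (in homogeneous coordinates) is hyperbolic on every compact totally invariant set disjoint from its postcritical set: continuous invariant splitting over the natural extension, uniformly expanding/contracting. -/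
theorem result :
    ¬ (∀ (d : ℕ), 2 ≤ d → ∀ (F : Fin 3 → MvPolynomial (Fin 3) ℂ), (∀ i, (F i).IsHomogeneous d) →
  (∀ x : Fin 3 → ℂ, (∀ i, MvPolynomial.eval x (F i) = 0) → x = 0) →
  ∀ Φ : (Fin 3 → ℂ) → (Fin 3 → ℂ), (∀ x i, Φ x i = MvPolynomial.eval x (F i)) →
  ∀ K : Set (Fin 3 → ℂ), (0 : Fin 3 → ℂ) ∉ K →
  (∀ v ∈ K, ∀ t : ℂ, t ≠ 0 → t • v ∈ K) →
  IsClosed (insert (0 : Fin 3 → ℂ) K) →
  (∀ v : Fin 3 → ℂ, v ≠ 0 → (Φ v ∈ K ↔ v ∈ K)) →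
  Disjoint K (closure {w : Fin 3 → ℂ | ∃ n : ℕ, 1 ≤ n ∧ ∃ c : Fin 3 → ℂ, c ≠ 0 ∧
      Matrix.det (Matrix.of fun i j => MvPolynomial.eval c (MvPolynomial.pderiv j (F i))) = 0 ∧
      w = (Φ^[n]) c}) →
  ∀ H : Set (ℕ → Fin 3 → ℂ), H = {u | ∀ k, u k ∈ K ∧ ∃ t : ℂ, Φ (u (k + 1)) = t • u k} →
  ∃ Eu Es : (ℕ → Fin 3 → ℂ) → Submodule ℂ (Fin 3 → ℂ),
    (∀ u ∈ H, ∀ u' ∈ H, (∀ k, ∃ t : ℂ, u' k = t • u k) → Eu u' = Eu u ∧ Es u' = Es u) ∧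
    (∀ u ∈ H, u 0 ∈ Eu u ∧ u 0 ∈ Es u ∧ Eu u ⊔ Es u = ⊤ ∧
        Eu u ⊓ Es u = Submodule.span ℂ {u 0}) ∧
    (∀ u ∈ H, ∀ w : Fin 3 → ℂ,
        (w ∈ Eu u → fderiv ℂ Φ (u 0) w ∈ Eu (fun k => if k = 0 then Φ (u 0) else u (k - 1))) ∧
        (w ∈ Es u → fderiv ℂ Φ (u 0) w ∈ Es (fun k => if k = 0 then Φ (u 0) else u (k - 1)))) ∧
    (∀ u ∈ H, ∀ U : ℕ → ℕ → Fin 3 → ℂ, (∀ m, U m ∈ H) →
        (∀ k, Filter.Tendsto (fun m => U m k) Filter.atTop (nhds (u k))) →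
        (∀ᶠ m in Filter.atTop, Module.finrank ℂ (Eu (U m)) = Module.finrank ℂ (Eu u) ∧
            Module.finrank ℂ (Es (U m)) = Module.finrank ℂ (Es u)) ∧
        (∀ w ∈ Eu u, ∃ W : ℕ → Fin 3 → ℂ, (∀ m, W m ∈ Eu (U m)) ∧
            Filter.Tendsto W Filter.atTop (nhds w)) ∧
        (∀ w ∈ Es u, ∃ W : ℕ → Fin 3 → ℂ, (∀ m, W m ∈ Es (U m)) ∧
            Filter.Tendsto W Filter.atTop (nhds w))) ∧
    ∃ c C lam mu : ℝ, 0 < c ∧ 0 < C ∧ 1 < lam ∧ mu < 1 ∧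
      ∀ u ∈ H, ∀ n : ℕ, 1 ≤ n → ∀ w : Fin 3 → ℂ,
        (w ∈ Eu u →
          c * lam ^ n * (Metric.infDist w (Set.range fun t : ℂ => t • u 0) / ‖u 0‖) ≤
            Metric.infDist (fderiv ℂ (Φ^[n]) (u 0) w) (Set.range fun t : ℂ => t • (Φ^[n]) (u 0)) /
              ‖(Φ^[n]) (u 0)‖) ∧
        (w ∈ Es u →
          Metric.infDist (fderiv ℂ (Φ^[n]) (u 0) w) (Set.range fun t : ℂ => t • (Φ^[n]) (u 0)) /
              ‖(Φ^[n]) (u 0)‖ ≤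
            C * mu ^ n * (Metric.infDist w (Set.range fun t : ℂ => t • u 0) / ‖u 0‖))) := by
  intro h
  obtain ⟨a, ha, X, V, hL⟩ := Pool.Agent.Lib.MP_eb1abe_an.exists_leafData
  have hκ0 : (0 : ℝ) < 1 / 2 ^ 60 := by positivity
  have hκ : (1 / 2 ^ 60 : ℝ) ≤ 1 / 2 ^ 60 := le_rfl
  have key := h 2 le_rfl (Pool.Agent.Lib.MP_eb1abe_an.PF a (1 / 2 ^ 60))
    (Pool.Agent.Lib.MP_eb1abe_an.PF_hom a (1 / 2 ^ 60))
    (fun x hx => Pool.Agent.Lib.MP_eb1abe_an.FF_eq_zero ha hκ0 hκ (funext fun i => by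
      rw [← Pool.Agent.Lib.MP_eb1abe_an.PF_eval]; exact hx i))
    (Pool.Agent.Lib.MP_eb1abe_an.FF a (1 / 2 ^ 60))
    (fun x i => (Pool.Agent.Lib.MP_eb1abe_an.PF_eval a (1 / 2 ^ 60) x i).symm)
    (Pool.Agent.Lib.MP_eb1abe_an.KK a (1 / 2 ^ 60) X V)
    (fun h0 => h0.1 rfl)
    (fun v hv t ht => Pool.Agent.Lib.MP_eb1abe_an.KK_smul hv ht)
    (Pool.Agent.Lib.MP_eb1abe_an.KK_closed ha hκ0 hκ hL)
    (fun v hv => Pool.Agent.Lib.MP_eb1abe_an.KK_inv ha hκ0 hκ hL hv)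
    (Pool.Agent.Lib.MP_eb1abe_an.KK_disjoint ha hκ0 hκ hL)
    _ rfl
  exact Pool.Agent.Lib.MP_eb1abe_an.no_splitting a ha (1 / 2 ^ 60) _ rfl
    (Pool.Agent.Lib.MP_eb1abe_an.KK a (1 / 2 ^ 60) X V)
    (fun t ht => Pool.Agent.Lib.MP_eb1abe_an.KK_axis hL ht) _ rfl key

end Pool.Agent.S06560
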