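import Pool.Statements.S07079

set_option autoImplicit false
open Pool Pool.MP_09fd01_co

namespace Pool.Agent.S07079

/-- rows of the adjacency matrix of the first graph, as bit masks -/
def rowA (i : Fin 15) : ℕ :=
  [30, 15365, 963, 545, 20481, 520, 900, 836, 708, 492, 14338, 13314, 27666, 7170, 4112].getD i.val 0

/-- rows of the adjacency matrix of the second graph, as bit masks -/
def rowB (i : Fin 15) : ℕ :=
  [9284, 30732, 75, 6, 2016, 80, 53, 1808, 1680, 1424, 913, 28674, 26626, 22531, 14338].getD i.val 0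

/-- the first graph: 15 vertices, 31 edges, no vertex of degree 5 -/
def gA : SimpleGraph (Fin 15) where
  Adj i j := (rowA i).testBit j.val = true
  symm := ⟨by decide +kernel⟩
  loopless := ⟨by decide +kernel⟩

/-- the second graph: 15 vertices, 31 edges, two vertices of degree 5 -/
def gB : SimpleGraph (Fin 15) where
  Adj i j := (rowB i).testBit j.val = true
  symm := ⟨by decide +kernel⟩
  loopless := ⟨by decide +kernel⟩

instance : DecidableRel gA.Adj := fun i j =>
  inferInstanceAs (Decidable ((rowA i).testBit j.val = true))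

instance : DecidableRel gB.Adj := fun i j =>
  inferInstanceAs (Decidable ((rowB i).testBit j.val = true))

/-- the minimum dominating sets of `gA` -/
def fA (i : Fin 15) : Finset (Fin 15) :=
  ![{0, 9, 12}, {1, 4, 9}, {1, 9, 12}, {1, 9, 14}, {2, 3, 12}, {2, 5, 12}, {2, 9, 12}, {3, 6, 12},
    {3, 7, 12}, {3, 8, 12}, {3, 9, 12}, {4, 9, 10}, {4, 9, 11}, {4, 9, 12}, {4, 9, 13}] i

/-- the minimum dominating sets of `gB` -/
def fB (i : Fin 15) : Finset (Fin 15) :=
  ![{0, 1, 4}, {1, 2, 4}, {1, 4, 6}, {1, 4, 10}, {1, 4, 13}, {1, 5, 10}, {1, 6, 7}, {1, 6, 8},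
    {1, 6, 9}, {1, 6, 10}, {2, 4, 11}, {2, 4, 12}, {2, 4, 13}, {2, 4, 14}, {3, 4, 13}] i

/-- the dominating sets -/
def Dom (g : SimpleGraph (Fin 15)) (S : Finset (Fin 15)) : Prop :=
  ∀ v, v ∈ S ∨ ∃ u ∈ S, g.Adj u v

/-- Every nonempty set of at most three elements is of the form `{a, b, c}`. -/
lemma exists_triple (S : Finset (Fin 15)) (hS : S.card ≤ 3) (hne : S.Nonempty) :
    ∃ a b c, S = {a, b, c} := by
  obtain ⟨x, hx⟩ := hne
  have h0 : S.card ≠ 0 := by
    intro h
    rw [Finset.card_eq_zero] at h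
    simp [h] at hx
  have : S.card = 1 ∨ S.card = 2 ∨ S.card = 3 := by omega
  rcases this with h | h | h
  · obtain ⟨a, ha⟩ := Finset.card_eq_one.1 h
    exact ⟨a, a, a, by simp [ha]⟩
  · obtain ⟨a, b, -, hab⟩ := Finset.card_eq_two.1 h
    exact ⟨a, a, b, by simp [hab]⟩
  · obtain ⟨a, b, c, -, -, -, habc⟩ := Finset.card_eq_three.1 h
    exact ⟨a, b, c, habc⟩

/-- Boolean domination test for `{a, b, c}` -/
def domTest (row : Fin 15 → ℕ) (a b c : Fin 15) : Bool :=
  (row a ||| row b ||| row c ||| 1 <<< a.val ||| 1 <<< b.val ||| 1 <<< c.val) == 32767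

lemma domTest_of (row : Fin 15 → ℕ) (a b c : Fin 15)
    (hrow : ∀ i, row i < 32768)
    (h : ∀ v : Fin 15, (v = a ∨ v = b ∨ v = c) ∨
      ((row a).testBit v.val = true ∨ (row b).testBit v.val = true ∨
        (row c).testBit v.val = true)) : domTest row a b c = true := by
  unfold domTest
  rw [beq_iff_eq]
  apply Nat.eq_of_testBit_eq
  intro i
  by_cases hi : i < 15
  · have h2 : Nat.testBit 32767 i = true := by
      interval_cases i <;> decide
    rw [h2]
    have h3 := h ⟨i, hi⟩
    simp only [Nat.testBit_or, Nat.one_shiftLeft, Nat.testBit_two_pow]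
    rcases h3 with (h3 | h3 | h3) | (h3 | h3 | h3)
    · simp [← h3]
    · simp [← h3]
    · simp [← h3]
    · simp only [] at h3; simp [h3]
    · simp only [] at h3; simp [h3]
    · simp only [] at h3; simp [h3]
  · have h15 : 2 ^ 15 ≤ 2 ^ i := Nat.pow_le_pow_right (by norm_num) (by omega)
    have hlt : ∀ x : ℕ, x < 32768 → x.testBit i = false := by
      intro x hx
      apply Nat.testBit_lt_two_pow
      have : (2:ℕ) ^ 15 = 32768 := by norm_num
      omega
    have hs : ∀ x : Fin 15, (1 <<< x.val).testBit i = false := by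
      intro x
      rw [Nat.one_shiftLeft, Nat.testBit_two_pow]
      have := x.isLt
      simp
      omega
    simp only [Nat.testBit_or, hlt _ (hrow a), hlt _ (hrow b), hlt _ (hrow c), hs,
      hlt 32767 (by norm_num), Bool.or_false]

lemma keyA : ∀ a b c : Fin 15, domTest rowA a b c = true → ∃ i, fA i = {a, b, c} := by
  decide +kernel

lemma keyB : ∀ a b c : Fin 15, domTest rowB a b c = true → ∃ i, fB i = {a, b, c} := by
  decide +kernel

lemma nonempty_of_dom (g : SimpleGraph (Fin 15)) (S : Finset (Fin 15)) (h : Dom g S) :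
    S.Nonempty := by
  rcases h 0 with h | ⟨u, hu, -⟩
  · exact ⟨0, h⟩
  · exact ⟨u, hu⟩

lemma smallA (S : Finset (Fin 15)) (h : Dom gA S) (hS : S.card ≤ 3) : ∃ i, fA i = S := by
  obtain ⟨a, b, c, rfl⟩ := exists_triple S hS (nonempty_of_dom _ _ h)
  apply keyA
  apply domTest_of rowA a b c (by decide +kernel)
  intro v
  rcases h v with h | ⟨u, hu, huv⟩
  · left
    simpa using h
  · right
    change (rowA u).testBit v.val = true at huv
    simp only [Finset.mem_insert, Finset.mem_singleton] at hu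
    rcases hu with rfl | rfl | rfl
    · exact Or.inl huv
    · exact Or.inr (Or.inl huv)
    · exact Or.inr (Or.inr huv)

lemma smallB (S : Finset (Fin 15)) (h : Dom gB S) (hS : S.card ≤ 3) : ∃ i, fB i = S := by
  obtain ⟨a, b, c, rfl⟩ := exists_triple S hS (nonempty_of_dom _ _ h)
  apply keyB
  apply domTest_of rowB a b c (by decide +kernel)
  intro v
  rcases h v with h | ⟨u, hu, huv⟩
  · left
    simpa using h
  · right
    change (rowB u).testBit v.val = true at huv
    simp only [Finset.mem_insert, Finset.mem_singleton] at hu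
    rcases hu with rfl | rfl | rfl
    · exact Or.inl huv
    · exact Or.inr (Or.inl huv)
    · exact Or.inr (Or.inr huv)

lemma domA : ∀ i, Dom gA (fA i) := by
  unfold Dom
  decide +kernel

lemma domB : ∀ i, Dom gB (fB i) := by
  unfold Dom
  decide +kernel

lemma cardA : ∀ i, (fA i).card = 3 := by decide +kernel

lemma cardB : ∀ i, (fB i).card = 3 := by decide +kernel

lemma injA : Function.Injective fA := by
  unfold Function.Injective
  decide +kernel

lemma injB : Function.Injective fB := by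
  unfold Function.Injective
  decide +kernel

/-- The statement that `S` is a minimum dominating set, as in the frozen statement. -/
def IsMin (g : SimpleGraph (Fin 15)) (S : Finset (Fin 15)) : Prop :=
  (∀ v, v ∈ S ∨ ∃ u ∈ S, g.Adj u v) ∧
    ∀ T : Finset (Fin 15), (∀ v, v ∈ T ∨ ∃ u ∈ T, g.Adj u v) → S.card ≤ T.card

lemma isMinA (S : Finset (Fin 15)) : IsMin gA S ↔ ∃ i, fA i = S := by
  constructor
  · rintro ⟨h1, h2⟩
    exact smallA S h1 (by rw [← cardA 0]; exact h2 _ (domA 0))
  · rintro ⟨i, rfl⟩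
    refine ⟨domA i, fun T hT => ?_⟩
    by_contra hlt
    push Not at hlt
    rw [cardA] at hlt
    obtain ⟨j, hj⟩ := smallA T hT (by omega)
    rw [← hj, cardA] at hlt
    omega

lemma isMinB (S : Finset (Fin 15)) : IsMin gB S ↔ ∃ i, fB i = S := by
  constructor
  · rintro ⟨h1, h2⟩
    exact smallB S h1 (by rw [← cardB 0]; exact h2 _ (domB 0))
  · rintro ⟨i, rfl⟩
    refine ⟨domB i, fun T hT => ?_⟩
    by_contra hlt
    push Not at hlt
    rw [cardB] at hlt
    obtain ⟨j, hj⟩ := smallB T hT (by omega)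
    rw [← hj, cardB] at hlt
    omega

noncomputable def eA : Fin 15 ≃ {S : Finset (Fin 15) // IsMin gA S} :=
  Equiv.ofBijective (fun i => ⟨fA i, (isMinA _).2 ⟨i, rfl⟩⟩) (by
    constructor
    · intro i j hij
      exact injA (Subtype.ext_iff.1 hij)
    · rintro ⟨S, hS⟩
      obtain ⟨i, hi⟩ := (isMinA S).1 hS
      exact ⟨i, Subtype.ext hi⟩)

noncomputable def eB : Fin 15 ≃ {S : Finset (Fin 15) // IsMin gB S} :=
  Equiv.ofBijective (fun i => ⟨fB i, (isMinB _).2 ⟨i, rfl⟩⟩) (by
    constructor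
    · intro i j hij
      exact injB (Subtype.ext_iff.1 hij)
    · rintro ⟨S, hS⟩
      obtain ⟨i, hi⟩ := (isMinB S).1 hS
      exact ⟨i, Subtype.ext hi⟩)

lemma adjA : ∀ a b : Fin 15, gB.Adj a b ↔
    ∃ u v, u ∈ fA a ∧ v ∉ fA a ∧ gA.Adj u v ∧ fA b = insert v ((fA a).erase u) := by
  decide +kernel

lemma adjB : ∀ a b : Fin 15, gA.Adj a b ↔
    ∃ u v, u ∈ fB a ∧ v ∉ fB a ∧ gB.Adj u v ∧ fB b = insert v ((fB a).erase u) := by
  decide +kernel

/-- `g'` is (a labelled copy of) the gamma-graph of `g`. -/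
def Step (g g' : SimpleGraph (Fin 15)) : Prop :=
  ∃ e : Fin 15 ≃ {S : Finset (Fin 15) //
      (∀ v, v ∈ S ∨ ∃ u ∈ S, g.Adj u v) ∧
        ∀ T : Finset (Fin 15), (∀ v, v ∈ T ∨ ∃ u ∈ T, g.Adj u v) → S.card ≤ T.card},
    ∀ a b, g'.Adj a b ↔
      ∃ u v, u ∈ (e a).1 ∧ v ∉ (e a).1 ∧ g.Adj u v ∧ (e b).1 = insert v ((e a).1.erase u)

lemma stepAB : Step gA gB := ⟨eA, adjA⟩

lemma stepBA : Step gB gA := ⟨eB, adjB⟩

lemma not_iso : IsEmpty (gB ≃g gA) := by
  constructor
  intro φ
  have h1 : gB.degree 1 = 5 ∨ gB.degree 2 = 5 ∨ gB.degree 4 = 5 ∨ gB.degree 13 = 5 := by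
    decide +kernel
  have h2 : ∀ y, gA.degree y ≠ 5 := by decide +kernel
  rcases h1 with h | h | h | h
  · exact h2 (φ 1) (by rw [SimpleGraph.Iso.degree_eq]; exact h)
  · exact h2 (φ 2) (by rw [SimpleGraph.Iso.degree_eq]; exact h)
  · exact h2 (φ 4) (by rw [SimpleGraph.Iso.degree_eq]; exact h)
  · exact h2 (φ 13) (by rw [SimpleGraph.Iso.degree_eq]; exact h)

/-- There is a finite graph whose iterated γ-graph sequence (γ-sets as vertices, adjacent when one slides to the other along an edge) eventually repeats up to isomorphism with some period, yet is not eventually constant. -/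
theorem result :
    ∃ (k : ℕ → ℕ) (G : ∀ n, SimpleGraph (Fin (k n))),
      (∀ n, ∃ e : Fin (k (n + 1)) ≃
          {S : Finset (Fin (k n)) //
            (∀ v, v ∈ S ∨ ∃ u ∈ S, (G n).Adj u v) ∧
            ∀ T : Finset (Fin (k n)),
              (∀ v, v ∈ T ∨ ∃ u ∈ T, (G n).Adj u v) → S.card ≤ T.card},
        ∀ a b, (G (n + 1)).Adj a b ↔
          ∃ u v, u ∈ (e a).1 ∧ v ∉ (e a).1 ∧ (G n).Adj u v ∧
            (e b).1 = insert v ((e a).1.erase u)) ∧
      ∃ m p : ℕ, 0 < p ∧ Nonempty (G (m + p) ≃g G m) ∧ IsEmpty (G (m + 1) ≃g G m) := by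
  refine ⟨fun _ => 15, fun n => if n % 2 = 0 then gA else gB, ?_, 0, 2, by norm_num, ?_, ?_⟩
  · intro n
    rcases Nat.mod_two_eq_zero_or_one n with h | h
    · have h' : ¬ (n + 1) % 2 = 0 := by omega
      change Step (if n % 2 = 0 then gA else gB) (if (n + 1) % 2 = 0 then gA else gB)
      rw [if_pos h, if_neg h']
      exact stepAB
    · have h0 : ¬ n % 2 = 0 := by omega
      have h' : (n + 1) % 2 = 0 := by omega
      change Step (if n % 2 = 0 then gA else gB) (if (n + 1) % 2 = 0 then gA else gB)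
      rw [if_neg h0, if_pos h']
      exact stepBA
  · exact ⟨by simpa using SimpleGraph.Iso.refl⟩
  · simpa using not_iso

end Pool.Agent.S07079
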