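import Pool.Statements.S07563
import Pool.Agent.Lib.MP_1f24c5_co.G.GFinal

set_option autoImplicit false
open Pool Pool.MP_1f24c5_co

namespace Pool.Agent.S07563

/-- There is an infinite word over {0,1,2} in which no factor uv with u, v of equal length at least 2 has u and v containing each letter the same number of times. -/
theorem result :
    ∃ w : ℕ → Fin 3, ∀ i n : ℕ, 2 ≤ n →
      ¬ (∀ a : Fin 3,
          ((Finset.range n).filter (fun k => w (i + k) = a)).card =
          ((Finset.range n).filter (fun k => w (i + n + k) = a)).card) := by
  exact Makela.Gadget.word

end Pool.Agent.S07563
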