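import Pool.Statements.S07919
import Pool.Agent.Lib.MP_2ffb02_co.BlocksB
-- import your own Pool.Agent.* helpers here

set_option autoImplicit false
open Pool Pool.MP_2ffb02_co

namespace Pool.Agent.S07919

/-- There is a set of integer lattice points with no three distinct points collinear, and a constant c>0, such that for all large N the box [-N,N]^2 contains at least cN points of the set. -/
theorem result :
    ∃ A : Set (ℤ × ℤ),
      (∀ p ∈ A, ∀ q ∈ A, ∀ r ∈ A, p ≠ q → p ≠ r → q ≠ r →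
        (q.1 - p.1) * (r.2 - p.2) - (q.2 - p.2) * (r.1 - p.1) ≠ 0) ∧
      ∃ c : ℝ, 0 < c ∧ ∃ N₀ : ℕ, ∀ N : ℕ, N₀ ≤ N →
        c * (N : ℝ) ≤
          ((A ∩ {p : ℤ × ℤ | |p.1| ≤ (N : ℤ) ∧ |p.2| ≤ (N : ℤ)}).ncard : ℝ) := by
  obtain ⟨j0, h⟩ := NTIL.exists_good
  exact NTIL.infinite_of_finite NTIL.H j0 (1 / 10) NTIL.H_pos (by norm_num) h

end Pool.Agent.S07919
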