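import Pool.Statements.S07940

set_option autoImplicit false
open Pool Pool.MP_30b0f7_co

namespace Pool.Agent.S07940

/-! ### Path metrics of weighted trees -/

section Tree

open SimpleGraph

set_option linter.unusedSectionVars false

variable {V : Type} [DecidableEq V] {T : SimpleGraph V} {w : Sym2 V → ℝ} {d : V → V → ℝ}

/-- first vertex of a walk in a set -/
lemma exists_first (S : Set V) : ∀ {z x : V} (p : T.Walk z x), x ∈ S →
    ∃ (m : V) (q : T.Walk z m), m ∈ S ∧ (∀ v ∈ q.support, v ∈ S → v = m) ∧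
      (∀ v ∈ q.support, v ∈ p.support) ∧ (p.IsPath → q.IsPath)
  | _, _, .nil, hx => ⟨_, .nil, hx, by simp, by simp, fun _ => Walk.IsPath.nil⟩
  | z, _, .cons h p, hx => by
    by_cases hz : z ∈ S
    · exact ⟨z, .nil, hz, by simp, by simp, fun _ => Walk.IsPath.nil⟩
    · obtain ⟨m, q, hm, h1, h2, h3⟩ := exists_first S p hx
      refine ⟨m, .cons h q, hm, ?_, ?_, ?_⟩
      · intro v hv hvS
        rw [Walk.support_cons, List.mem_cons] at hv
        rcases hv with rfl | hv
        · exact absurd hvS hz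
        · exact h1 v hv hvS
      · intro v hv
        rw [Walk.support_cons, List.mem_cons] at hv ⊢
        rcases hv with rfl | hv
        · exact Or.inl rfl
        · exact Or.inr (h2 v hv)
      · intro hp
        rw [Walk.cons_isPath_iff] at hp ⊢
        exact ⟨h3 hp.1, fun hmem => hp.2 (h2 _ hmem)⟩

variable (hT : T.IsTree) (hw : ∀ e ∈ T.edgeSet, 0 < w e)
  (hd : ∀ (x y : V) (p : T.Walk x y), p.IsPath → d x y = (p.edges.map w).sum)

include hd in
lemma d_split {x y z : V} (p : T.Walk x y) (hp : p.IsPath) (hz : z ∈ p.support) :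
    d x y = d x z + d z y := by
  rw [hd x y p hp, hd x z _ (hp.takeUntil hz), hd z y _ (hp.dropUntil hz), ← List.sum_append,
    ← List.map_append, ← Walk.edges_append, Walk.take_spec]

include hd in
lemma d_self (x : V) : d x x = 0 := by
  rw [hd x x .nil Walk.IsPath.nil]; simp

include hT in
lemma exists_path (x y : V) : ∃ p : T.Walk x y, p.IsPath := by
  obtain ⟨p, hp, _⟩ := hT.existsUnique_path x y
  exact ⟨p, hp⟩

include hT hd in
lemma d_symm (x y : V) : d x y = d y x := by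
  obtain ⟨p, hp⟩ := exists_path hT x y
  rw [hd x y p hp, hd y x _ hp.reverse, Walk.edges_reverse, List.map_reverse, List.sum_reverse]

include hT hd hw in
lemma d_nonneg (x y : V) : 0 ≤ d x y := by
  obtain ⟨p, hp⟩ := exists_path hT x y
  rw [hd x y p hp]
  apply List.sum_nonneg
  intro r hr
  obtain ⟨e, he, rfl⟩ := List.mem_map.mp hr
  exact (hw e (p.edges_subset_edgeSet he)).le

include hd in
lemma d_concat {x y z : V} (p : T.Walk x z) (q : T.Walk z y) (hp : p.IsPath) (hq : q.IsPath)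
    (h : ∀ v ∈ p.support, v ∈ q.support → v = z) : d x y = d x z + d z y := by
  have hpq : (p.append q).IsPath := by
    rw [Walk.isPath_def, Walk.support_append, List.nodup_append]
    refine ⟨hp.support_nodup, ?_, ?_⟩
    · exact hq.support_nodup.tail
    · intro v hv v' hv' hvv
      subst hvv
      have hvq : v ∈ q.support := List.mem_of_mem_tail hv'
      have := h v hv hvq
      subst this
      have hnd := hq.support_nodup
      rw [← Walk.cons_tail_support] at hnd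
      exact (List.nodup_cons.mp hnd).1 hv'
  rw [hd x y _ hpq, hd x z p hp, hd z y q hq, Walk.edges_append, List.map_append, List.sum_append]

include hT hd in
/-- the median of three vertices -/
lemma exists_median (x y z : V) (P : T.Walk x y) (hP : P.IsPath) :
    ∃ m ∈ P.support, d z x = d z m + d m x ∧ d z y = d z m + d m y := by
  obtain ⟨p, hp⟩ := exists_path hT z x
  obtain ⟨m, q, hm, h1, h2, h3⟩ := exists_first {v | v ∈ P.support} p
    (by simp : x ∈ {v | v ∈ P.support})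
  have hm' : m ∈ P.support := hm
  refine ⟨m, hm', ?_, ?_⟩
  · exact d_split hd p hp (h2 m q.end_mem_support)
  · refine d_concat hd q (P.dropUntil m hm') (h3 hp) (hP.dropUntil hm') ?_
    intro v hv hv'
    exact h1 v hv (P.support_dropUntil_subset_support hm' hv')

include hT hw hd in
lemma d_tri (x y z : V) : d x y ≤ d x z + d z y := by
  obtain ⟨P, hP⟩ := exists_path hT x y
  obtain ⟨m, hm, h1, h2⟩ := exists_median hT hd x y z P hP
  have h3 := d_split hd P hP hm
  have h4 := d_nonneg hT hw hd z m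
  have h5 := d_symm hT hd x z
  have h6 := d_symm hT hd x m
  linarith

include hT hw hd in
/-- the four point condition -/
lemma four_point (x y z t : V) :
    d x y + d z t ≤ max (d x z + d y t) (d x t + d y z) := by
  obtain ⟨P, hP⟩ := exists_path hT x y
  obtain ⟨m, hm, h1, h2⟩ := exists_median hT hd x y z P hP
  obtain ⟨m', hm', h1', h2'⟩ := exists_median hT hd x y t P hP
  have s := d_split hd P hP hm
  have s' := d_split hd P hP hm'
  have e1 := d_symm hT hd x z
  have e2 := d_symm hT hd y z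
  have e3 := d_symm hT hd x t
  have e4 := d_symm hT hd y t
  have e5 := d_symm hT hd x m
  have e6 := d_symm hT hd y m
  have e7 := d_symm hT hd x m'
  have e8 := d_symm hT hd y m'
  have e9 := d_symm hT hd m m'
  have e10 := d_symm hT hd m' t
  have k1 := d_tri hT hw hd z t m
  have k2 := d_tri hT hw hd m t m'
  have hcase : m' ∈ (P.takeUntil m hm).support ∨ m' ∈ (P.dropUntil m hm).support := by
    rw [← Walk.mem_support_append_iff, Walk.take_spec]; exact hm'
  rcases hcase with hc | hc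
  · have s3 := d_split hd _ (hP.takeUntil hm) hc
    exact le_max_of_le_left (by linarith)
  · have s3 := d_split hd _ (hP.dropUntil hm) hc
    exact le_max_of_le_right (by linarith)

include hd in
/-- leaving a ball, a path meets a vertex on the sphere -/
lemma gate {c q : V} {r : ℝ} (hr : 0 ≤ r)
    (hball : ∀ x y : V, T.Adj x y → d c x < r → d c y ≤ r) (hT : T.IsTree) (hq : r < d c q) :
    ∃ x, d c x = r ∧ d c q = r + d x q := by
  obtain ⟨P, hP⟩ := exists_path hT c q
  obtain ⟨e, he, h1, h2⟩ := P.exists_boundary_dart {v | d c v ≤ r}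
    (by rw [Set.mem_ofPred_eq, d_self hd]; exact hr) (by rw [Set.mem_ofPred_eq]; exact not_le.mpr hq)
  rw [Set.mem_ofPred_eq] at h1 h2
  have h3 : d c e.fst = r := by
    refine le_antisymm h1 ?_
    by_contra hlt
    exact h2 (hball _ _ e.adj (not_le.mp hlt))
  refine ⟨e.fst, h3, ?_⟩
  rw [← h3]
  exact d_split hd P hP (P.dart_fst_mem_support_of_mem_darts he)

end Tree

/-! ### Intersections of balls -/

lemma ball_inter {V : Type} {d : V → V → ℝ} (symm : ∀ x y, d x y = d y x)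
    (nonneg : ∀ x y, 0 ≤ d x y) (tri : ∀ x y z, d x y ≤ d x z + d z y)
    (fp : ∀ x y z t, d x y + d z t ≤ max (d x z + d y t) (d x t + d y z))
    {c₁ c₂ : V} {r₁ r₂ : ℝ}
    (g₁ : ∀ q, r₁ < d c₁ q → ∃ x, d c₁ x = r₁ ∧ d c₁ q = r₁ + d x q)
    (g₂ : ∀ q, r₂ < d c₂ q → ∃ x, d c₂ x = r₂ ∧ d c₂ q = r₂ + d x q)
    {M₁ M₂ M : ℝ}
    (hM₁ : ∀ a b, d c₁ a ≤ r₁ → d c₁ b ≤ r₁ → d a b ≤ M₁)
    (hM₁' : ∃ a b, d c₁ a ≤ r₁ ∧ d c₁ b ≤ r₁ ∧ d a b = M₁)
    (hM₂ : ∀ a b, d c₂ a ≤ r₂ → d c₂ b ≤ r₂ → d a b ≤ M₂)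
    (hM₂' : ∃ a b, d c₂ a ≤ r₂ ∧ d c₂ b ≤ r₂ ∧ d a b = M₂)
    (hM : ∀ a b, d c₁ a ≤ r₁ → d c₂ b ≤ r₂ → d a b ≤ M)
    (hM' : ∃ a b, d c₁ a ≤ r₁ ∧ d c₂ b ≤ r₂ ∧ d a b = M)
    {τ : ℝ} (h0 : 0 ≤ τ) (h1 : τ ≤ M₁) (h2 : τ ≤ M₂) (h3 : τ ≤ M₁ + M₂ - M) :
    ∃ x y, d c₁ x ≤ r₁ ∧ d c₂ x ≤ r₂ ∧ d c₁ y ≤ r₁ ∧ d c₂ y ≤ r₂ ∧ τ ≤ d x y := by
  obtain ⟨a₁, b₁, ha₁, hb₁, hab₁⟩ := hM₁'
  obtain ⟨a₂, b₂, ha₂, hb₂, hab₂⟩ := hM₂'
  obtain ⟨p, q, hp, hq, hpq⟩ := hM'
  by_cases hc1 : M ≤ M₂
  · have key : ∀ a, d c₁ a ≤ r₁ → d c₂ a ≤ r₂ := by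
      intro a ha
      have e1 := hM a a₂ ha ha₂
      have e2 := hM a b₂ ha hb₂
      rcases le_max_iff.mp (fp c₂ a a₂ b₂) with h | h <;> linarith
    exact ⟨a₁, b₁, ha₁, key _ ha₁, hb₁, key _ hb₁, by linarith⟩
  by_cases hc2 : M ≤ M₁
  · have key : ∀ a, d c₂ a ≤ r₂ → d c₁ a ≤ r₁ := by
      intro a ha
      have e1 := hM a₁ a ha₁ ha
      have e2 := hM b₁ a hb₁ ha
      have e3 := symm a₁ a
      have e4 := symm b₁ a
      rcases le_max_iff.mp (fp c₁ a a₁ b₁) with h | h <;> linarith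
    exact ⟨a₂, b₂, key _ ha₂, ha₂, key _ hb₂, hb₂, by linarith⟩
  rw [not_le] at hc1 hc2
  have hq1 : r₁ < d c₁ q := by
    by_contra h
    have := hM₁ p q hp (not_lt.mp h)
    linarith
  have hp2 : r₂ < d c₂ p := by
    by_contra h
    have := hM₂ p q (not_lt.mp h) hq
    linarith
  obtain ⟨x, hx1, hx2⟩ := g₁ q hq1
  obtain ⟨y, hy1, hy2⟩ := g₂ p hp2
  -- properties of the gates
  have gx : ∀ a, d c₁ a ≤ r₁ → d a x + d x q ≤ d a q := by
    intro a ha
    have s1 := symm a c₁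
    have s2 := symm x c₁
    have s3 := symm x a
    have t1 := tri x q a
    have n1 := nonneg a x
    rcases le_max_iff.mp (fp a x c₁ q) with h | h <;> linarith
  have gy : ∀ b, d c₂ b ≤ r₂ → d b y + d y p ≤ d b p := by
    intro a ha
    have s1 := symm a c₂
    have s2 := symm y c₂
    have s3 := symm y a
    have t1 := tri y p a
    have n1 := nonneg a y
    rcases le_max_iff.mp (fp a y c₂ p) with h | h <;> linarith
  have hx3 : d x q = M - M₁ := by
    have u1 : d x q ≤ M - M₁ := by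
      have v1 := gx a₁ ha₁
      have v2 := gx b₁ hb₁
      have v3 := hM a₁ q ha₁ hq
      have v4 := hM b₁ q hb₁ hq
      have v5 := symm x a₁
      have v6 := symm x b₁
      rcases le_max_iff.mp (fp c₁ x a₁ b₁) with h | h <;> linarith
    have u2 := tri p q x
    have u3 := hM₁ p x hp hx1.le
    linarith
  have hy3 : d y p = M - M₂ := by
    have u1 : d y p ≤ M - M₂ := by
      have v1 := gy a₂ ha₂
      have v2 := gy b₂ hb₂
      have v3 := hM p a₂ hp ha₂
      have v4 := hM p b₂ hp hb₂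
      have v5 := symm y a₂
      have v6 := symm y b₂
      have v7 := symm p a₂
      have v8 := symm p b₂
      rcases le_max_iff.mp (fp c₂ y a₂ b₂) with h | h <;> linarith
    have u2 := tri p q y
    have u3 := hM₂ y q hy1.le hq
    have u4 := symm p y
    linarith
  have hpx : d p x = M₁ := by
    have u1 := tri p q x
    have u2 := hM₁ p x hp hx1.le
    linarith
  have hqy : d y q = M₂ := by
    have u1 := tri p q y
    have u2 := hM₂ y q hy1.le hq
    have u4 := symm p y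
    linarith
  have hxy1 : d x y ≤ M₁ + M₂ - M := by
    have s1 := symm x p
    have s2 := symm y p
    rcases le_max_iff.mp (fp x y p q) with h | h <;> linarith
  have hxy2 : M₁ + M₂ - M ≤ d x y := by
    have u1 := tri p x y
    have u2 := symm p y
    have u3 := symm y x
    linarith
  refine ⟨x, y, hx1.le, ?_, ?_, hy1.le, by linarith⟩
  · have s1 := symm x y
    rcases le_max_iff.mp (fp c₂ x y q) with h | h <;> linarith
  · have s1 := symm p x
    have s2 := symm x y
    have s3 := symm y p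
    have s4 := symm x p
    rcases le_max_iff.mp (fp c₁ y x p) with h | h <;> linarith

/-! ### The combinatorial core -/

/-- In an induced 4-cycle `a b c d` the two largest radii belong to opposite vertices. -/
lemma c4 {ab bc cd da ac bd a b c d : ℝ} (hab : ab ≤ max a b) (hbc : bc ≤ max b c)
    (hcd : cd ≤ max c d) (hda : da ≤ max d a) (hac : max a c < ac) (hbd : max b d < bd)
    (h : ac + bd ≤ max (ab + cd) (da + bc)) :
    (b < a ∧ d < a ∧ b < c ∧ d < c) ∨ (a < b ∧ a < d ∧ c < b ∧ c < d) := by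
  have h1 : max a c + max b d < max a b + max c d ∨ max a c + max b d < max d a + max b c := by
    rcases le_max_iff.mp h with h | h
    · left; linarith
    · right; linarith
  rcases le_total a b with e1 | e1 <;> rcases le_total b c with e2 | e2 <;>
  rcases le_total c d with e3 | e3 <;> rcases le_total d a with e4 | e4 <;>
  rcases le_total a c with e5 | e5 <;> rcases le_total b d with e6 | e6 <;>
  simp only [max_eq_left, max_eq_right, e1, e2, e3, e4, e5, e6] at h1 <;>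
  rcases h1 with h1 | h1 <;>
  first
  | (exfalso; linarith)
  | (left; refine ⟨?_, ?_, ?_, ?_⟩ <;> linarith)
  | (right; refine ⟨?_, ?_, ?_, ?_⟩ <;> linarith)

/-- Three balls and three points forming a 3-cycle do not exist in a tree. -/
lemma no_three {x12 x13 x23 y11 y12 y13 y21 y22 y23 y31 y32 y33 U1 U2 U3 : ℝ}
    (h12 : y12 ≤ U1) (h13 : y13 ≤ U1) (h11 : U1 < y11)
    (h21 : y21 ≤ U2) (h23 : y23 ≤ U2) (h22 : U2 < y22)
    (h31 : y31 ≤ U3) (h32 : y32 ≤ U3) (h33 : U3 < y33)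
    (q1 : y11 + x23 ≤ max (y12 + x13) (y13 + x12))
    (q2 : y22 + x13 ≤ max (y21 + x23) (y23 + x12))
    (q3 : y33 + x12 ≤ max (y31 + x23) (y32 + x13)) : False := by
  rcases le_max_iff.mp q1 with q1 | q1 <;> rcases le_max_iff.mp q2 with q2 | q2 <;>
  rcases le_max_iff.mp q3 with q3 | q3 <;> linarith

/-- tolerances of the nine intervals -/
def tol : Fin 9 → ℤ := ![11, 26, 100, 4, 1, 14, 5, 13, 21]

/-- left endpoints -/
def lo : Fin 9 → ℤ := ![0, -7, 4, 4, 13, -7, 14, 7, -13]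

/-- right endpoints -/
def hi : Fin 9 → ℤ := ![18, 19, 14, 8, 14, 7, 19, 20, 13]

/-- the tolerance graph of the nine intervals -/
def G : SimpleGraph (Fin 9) where
  Adj i j := i ≠ j ∧ min (tol i) (tol j) ≤ min (hi i) (hi j) - max (lo i) (lo j)
  symm := ⟨fun i j h => ⟨h.1.symm, by
    rw [min_comm (tol j), min_comm (hi j), max_comm (lo j)]; exact h.2⟩⟩
  loopless := ⟨fun _ h => h.1 rfl⟩

instance : DecidableRel G.Adj := fun i j =>
  inferInstanceAs (Decidable (i ≠ j ∧ min (tol i) (tol j) ≤ min (hi i) (hi j) - max (lo i) (lo j)))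

section Core

variable {x : Fin 9 → Fin 9 → ℝ} {u : Fin 9 → ℝ} (symm : ∀ i j, x i j = x j i)
  (fp : ∀ i j k l, x i j + x k l ≤ max (x i k + x j l) (x i l + x j k))
  (adj : ∀ i j, i ≠ j → (G.Adj i j ↔ x i j ≤ max (u i) (u j)))

include symm fp adj in
lemma c4x (a b c d : Fin 9) (h : G.Adj a b ∧ G.Adj b c ∧ G.Adj c d ∧ G.Adj d a ∧
    a ≠ c ∧ ¬ G.Adj a c ∧ b ≠ d ∧ ¬ G.Adj b d) :
    (u b < u a ∧ u d < u a ∧ u b < u c ∧ u d < u c) ∨
      (u a < u b ∧ u a < u d ∧ u c < u b ∧ u c < u d) := by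
  obtain ⟨hab, hbc, hcd, hda, hac, hac', hbd, hbd'⟩ := h
  refine c4 ((adj _ _ hab.ne).mp hab) ((adj _ _ hbc.ne).mp hbc) ((adj _ _ hcd.ne).mp hcd)
    ((adj _ _ hda.ne).mp hda) (not_le.mp fun h => hac' ((adj _ _ hac).mpr h))
    (not_le.mp fun h => hbd' ((adj _ _ hbd).mpr h)) ?_
  have := fp a c b d
  rwa [symm a d, symm c b] at this

include symm fp adj in
lemma threex (b₁ b₂ b₃ p₁ p₂ p₃ : Fin 9)
    (h : (G.Adj b₁ p₂ ∧ G.Adj b₁ p₃ ∧ b₁ ≠ p₁ ∧ ¬ G.Adj b₁ p₁) ∧
      (G.Adj b₂ p₁ ∧ G.Adj b₂ p₃ ∧ b₂ ≠ p₂ ∧ ¬ G.Adj b₂ p₂) ∧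
      (G.Adj b₃ p₁ ∧ G.Adj b₃ p₂ ∧ b₃ ≠ p₃ ∧ ¬ G.Adj b₃ p₃))
    (o12 : u p₂ < u b₁) (o13 : u p₃ < u b₁) (o21 : u p₁ < u b₂) (o23 : u p₃ < u b₂)
    (o31 : u p₁ < u b₃) (o32 : u p₂ < u b₃) : False := by
  obtain ⟨⟨h12, h13, h11, h11'⟩, ⟨h21, h23, h22, h22'⟩, ⟨h31, h32, h33, h33'⟩⟩ := h
  have y12 := (adj _ _ h12.ne).mp h12
  have y13 := (adj _ _ h13.ne).mp h13
  have y21 := (adj _ _ h21.ne).mp h21
  have y23 := (adj _ _ h23.ne).mp h23
  have y31 := (adj _ _ h31.ne).mp h31
  have y32 := (adj _ _ h32.ne).mp h32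
  rw [max_eq_left o12.le] at y12
  rw [max_eq_left o13.le] at y13
  rw [max_eq_left o21.le] at y21
  rw [max_eq_left o23.le] at y23
  rw [max_eq_left o31.le] at y31
  rw [max_eq_left o32.le] at y32
  have y11 : u b₁ < x b₁ p₁ := lt_of_le_of_lt (le_max_left _ _)
    (not_le.mp fun h => h11' ((adj _ _ h11).mpr h))
  have y22 : u b₂ < x b₂ p₂ := lt_of_le_of_lt (le_max_left _ _)
    (not_le.mp fun h => h22' ((adj _ _ h22).mpr h))
  have y33 : u b₃ < x b₃ p₃ := lt_of_le_of_lt (le_max_left _ _)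
    (not_le.mp fun h => h33' ((adj _ _ h33).mpr h))
  have q1 := fp b₁ p₁ p₂ p₃
  have q2 := fp b₂ p₂ p₁ p₃
  have q3 := fp b₃ p₃ p₁ p₂
  rw [symm p₂ p₁] at q2
  rw [symm p₃ p₂, symm p₃ p₁] at q3
  exact no_three y12 y13 y11 y21 y23 y22 y31 y32 y33 q1 q2 q3

include symm fp adj in
theorem core : False := by
  have C1 := c4x symm fp adj 1 3 2 4 (by decide)
  have C2 := c4x symm fp adj 8 3 1 5 (by decide)
  have C3 := c4x symm fp adj 0 8 5 1 (by decide)
  have C4 := c4x symm fp adj 7 4 1 6 (by decide)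
  have C5 := c4x symm fp adj 0 7 6 1 (by decide)
  have hA := threex symm fp adj 3 0 4 7 2 8 (by decide)
  have hB := threex symm fp adj 8 7 2 4 3 0 (by decide)
  rcases C1 with C1 | C1 <;> rcases C2 with C2 | C2 <;> rcases C3 with C3 | C3 <;>
  rcases C4 with C4 | C4 <;> rcases C5 with C5 | C5 <;>
  first
  | (exfalso; linarith [C1.1, C1.2.1, C1.2.2.1, C1.2.2.2, C2.1, C2.2.1, C2.2.2.1, C2.2.2.2])
  | (exfalso; linarith [C2.1, C2.2.1, C2.2.2.1, C2.2.2.2, C3.1, C3.2.1, C3.2.2.1, C3.2.2.2])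
  | (exfalso; linarith [C1.1, C1.2.1, C1.2.2.1, C1.2.2.2, C4.1, C4.2.1, C4.2.2.1, C4.2.2.2])
  | (exfalso; linarith [C4.1, C4.2.1, C4.2.2.1, C4.2.2.2, C5.1, C5.2.1, C5.2.2.1, C5.2.2.2])
  | (apply hA <;> linarith)
  | (apply hB <;> linarith)

end Core

/-- The negation of the preceding statement: Every finite tolerance graph (intervals, positive tolerances, edge iff overlap length ≥ smaller tolerance) has a bounded NeST representation: neighborhood subtrees of a weighted tree, edge iff the intersection diameter ≥ smaller tolerance, each tolerance ≤ its subtree's diameter. -/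
theorem result :
    ¬ (∀ (n : ℕ) (G : SimpleGraph (Fin n)),
      (∃ (a b t : Fin n → ℝ), (∀ i, a i ≤ b i) ∧ (∀ i, 0 < t i) ∧
        ∀ i j, i ≠ j →
          (G.Adj i j ↔ min (t i) (t j) ≤ min (b i) (b j) - max (a i) (a j))) →
      ∃ (m : ℕ) (T : SimpleGraph (Fin m)) (w : Sym2 (Fin m) → ℝ)
        (d : Fin m → Fin m → ℝ) (c : Fin n → Fin m) (r t : Fin n → ℝ),
        T.IsTree ∧
        (∀ e ∈ T.edgeSet, 0 < w e) ∧
        (∀ (x y : Fin m) (p : T.Walk x y), p.IsPath → d x y = (p.edges.map w).sum) ∧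
        (∀ i, 0 ≤ r i ∧ 0 ≤ t i) ∧
        (∀ i (x y : Fin m), T.Adj x y → d (c i) x < r i → d (c i) y ≤ r i) ∧
        (∀ i, ∃ x y : Fin m, d (c i) x ≤ r i ∧ d (c i) y ≤ r i ∧ t i ≤ d x y) ∧
        ∀ i j, i ≠ j →
          (G.Adj i j ↔ ∃ x y : Fin m,
            d (c i) x ≤ r i ∧ d (c j) x ≤ r j ∧
            d (c i) y ≤ r i ∧ d (c j) y ≤ r j ∧
            min (t i) (t j) ≤ d x y)) := by
  intro h
  obtain ⟨m, T, w, d, c, r, t, hT, hw, hd, hrt, hball, hdiam, hadj⟩ := h 9 G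
    ⟨fun i => (lo i : ℝ), fun i => (hi i : ℝ), fun i => (tol i : ℝ), by
      intro i
      have : ∀ i, lo i ≤ hi i := by decide
      beta_reduce
      exact_mod_cast this i, by
      intro i
      have : ∀ i, 0 < tol i := by decide
      beta_reduce
      exact_mod_cast this i, by
      intro i j hij
      have e : G.Adj i j ↔ min (tol i) (tol j) ≤ min (hi i) (hi j) - max (lo i) (lo j) :=
        ⟨fun h => h.2, fun h => ⟨hij, h⟩⟩
      rw [e]
      beta_reduce
      norm_cast⟩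
  have symm := d_symm hT hd
  have nonneg := d_nonneg hT hw hd
  have tri := d_tri hT hw hd
  have fp := four_point hT hw hd
  have hc : ∀ i, d (c i) (c i) ≤ r i := fun i => by rw [d_self hd]; exact (hrt i).1
  have hmax : ∀ i j, ∃ p q, d (c i) p ≤ r i ∧ d (c j) q ≤ r j ∧
      ∀ a b, d (c i) a ≤ r i → d (c j) b ≤ r j → d a b ≤ d p q := by
    intro i j
    classical
    obtain ⟨⟨p, q⟩, h1, h2⟩ := Finset.exists_max_image
      (Finset.univ.filter fun pq : Fin m × Fin m => d (c i) pq.1 ≤ r i ∧ d (c j) pq.2 ≤ r j)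
      (fun pq => d pq.1 pq.2) ⟨(c i, c j), by simp [hc]⟩
    rw [Finset.mem_filter] at h1
    refine ⟨p, q, h1.2.1, h1.2.2, fun a b ha hb => ?_⟩
    exact h2 (a, b) (by simp [ha, hb])
  choose P Q hP hQ hPQ using hmax
  have hMsymm : ∀ i j, d (P i j) (Q i j) = d (P j i) (Q j i) := by
    intro i j
    have h1 := hPQ j i _ _ (hQ i j) (hP i j)
    have h2 := hPQ i j _ _ (hQ j i) (hP j i)
    rw [symm (Q i j)] at h1
    rw [symm (Q j i)] at h2
    exact le_antisymm h1 h2
  have hM4 : ∀ i j k l, d (P i j) (Q i j) + d (P k l) (Q k l) ≤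
      max (d (P i k) (Q i k) + d (P j l) (Q j l)) (d (P i l) (Q i l) + d (P j k) (Q j k)) := by
    intro i j k l
    have h1 := hPQ i k _ _ (hP i j) (hP k l)
    have h2 := hPQ j l _ _ (hQ i j) (hQ k l)
    have h3 := hPQ i l _ _ (hP i j) (hQ k l)
    have h4 := hPQ j k _ _ (hQ i j) (hP k l)
    rcases le_max_iff.mp (fp (P i j) (Q i j) (P k l) (Q k l)) with h | h
    · exact le_max_of_le_left (by linarith)
    · exact le_max_of_le_right (by linarith)
  refine core (x := fun i j => d (P i j) (Q i j) - d (P i i) (Q i i) - d (P j j) (Q j j))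
    (u := fun i => - t i) (fun i j => by rw [hMsymm i j]; ring) ?_ ?_
  · intro i j k l
    rcases le_max_iff.mp (hM4 i j k l) with h | h
    · exact le_max_of_le_left (by linarith)
    · exact le_max_of_le_right (by linarith)
  · intro i j hij
    rw [hadj i j hij, max_neg_neg]
    constructor
    · rintro ⟨x, y, hxi, hxj, hyi, hyj, hxy⟩
      have h1 := hPQ i i _ _ hxi (hP i j)
      have h2 := hPQ i i _ _ hyi (hP i j)
      have h3 := hPQ j j _ _ hxj (hQ i j)
      have h4 := hPQ j j _ _ hyj (hQ i j)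
      rcases le_max_iff.mp (fp x y (P i j) (Q i j)) with h | h <;> linarith
    · intro h
      have hti : t i ≤ d (P i i) (Q i i) := by
        obtain ⟨x, y, hx, hy, hxy⟩ := hdiam i
        exact hxy.trans (hPQ i i _ _ hx hy)
      have htj : t j ≤ d (P j j) (Q j j) := by
        obtain ⟨x, y, hx, hy, hxy⟩ := hdiam j
        exact hxy.trans (hPQ j j _ _ hx hy)
      obtain ⟨x, y, h1, h2, h3, h4, h5⟩ := ball_inter (τ := min (t i) (t j)) symm nonneg tri fp
        (fun q hq => gate hd (hrt i).1 (hball i) hT hq)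
        (fun q hq => gate hd (hrt j).1 (hball j) hT hq)
        (hPQ i i) ⟨P i i, Q i i, hP i i, hQ i i, rfl⟩
        (hPQ j j) ⟨P j j, Q j j, hP j j, hQ j j, rfl⟩
        (hPQ i j) ⟨P i j, Q i j, hP i j, hQ i j, rfl⟩
        (le_min (hrt i).2 (hrt j).2) ((min_le_left _ _).trans hti) ((min_le_right _ _).trans htj)
        (by linarith)
      exact ⟨x, y, h1, h2, h3, h4, h5⟩

end Pool.Agent.S07940
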