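import Pool.Statements.S08280
import Pool.Agent.Lib.MP_3e6a92_co.Final

set_option autoImplicit false
open Pool Pool.MP_3e6a92_co

namespace Pool.Agent.S08280

/-- The negation of the preceding statement: For every planar convex body K, the supremum of densities of periodic packings by isometric copies of K is attained by some periodic packing, and the infimum of densities of periodic coverings is attained by some periodic covering. -/
theorem result :
    ¬ (∀ K : Set (EuclideanSpace ℝ (Fin 2)), Convex ℝ K → IsCompact K → (interior K).Nonempty →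
    (sSup {d : ℝ | ∃ n : ℕ, ∃ g : Fin n → (EuclideanSpace ℝ (Fin 2) ≃ᵢ EuclideanSpace ℝ (Fin 2)),
        ∃ u w : EuclideanSpace ℝ (Fin 2),
        LinearIndependent ℝ ![u, w] ∧
        (∀ i j : Fin n, ∀ a b c e : ℤ, (i, a, b) ≠ (j, c, e) →
          Disjoint (interior ((fun x => g i x + ((a : ℝ) • u + (b : ℝ) • w)) '' K))
                   (interior ((fun x => g j x + ((c : ℝ) • u + (e : ℝ) • w)) '' K))) ∧
        d = (n : ℝ) * (MeasureTheory.volume K).toReal
              / (MeasureTheory.volume (parallelepiped ![u, w])).toReal}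
      ∈ {d : ℝ | ∃ n : ℕ, ∃ g : Fin n → (EuclideanSpace ℝ (Fin 2) ≃ᵢ EuclideanSpace ℝ (Fin 2)),
        ∃ u w : EuclideanSpace ℝ (Fin 2),
        LinearIndependent ℝ ![u, w] ∧
        (∀ i j : Fin n, ∀ a b c e : ℤ, (i, a, b) ≠ (j, c, e) →
          Disjoint (interior ((fun x => g i x + ((a : ℝ) • u + (b : ℝ) • w)) '' K))
                   (interior ((fun x => g j x + ((c : ℝ) • u + (e : ℝ) • w)) '' K))) ∧
        d = (n : ℝ) * (MeasureTheory.volume K).toReal
              / (MeasureTheory.volume (parallelepiped ![u, w])).toReal}) ∧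
    (sInf {d : ℝ | ∃ n : ℕ, ∃ g : Fin n → (EuclideanSpace ℝ (Fin 2) ≃ᵢ EuclideanSpace ℝ (Fin 2)),
        ∃ u w : EuclideanSpace ℝ (Fin 2),
        LinearIndependent ℝ ![u, w] ∧
        (∀ p : EuclideanSpace ℝ (Fin 2), ∃ i : Fin n, ∃ a b : ℤ,
          p ∈ (fun x => g i x + ((a : ℝ) • u + (b : ℝ) • w)) '' K) ∧
        d = (n : ℝ) * (MeasureTheory.volume K).toReal
              / (MeasureTheory.volume (parallelepiped ![u, w])).toReal}
      ∈ {d : ℝ | ∃ n : ℕ, ∃ g : Fin n → (EuclideanSpace ℝ (Fin 2) ≃ᵢ EuclideanSpace ℝ (Fin 2)),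
        ∃ u w : EuclideanSpace ℝ (Fin 2),
        LinearIndependent ℝ ![u, w] ∧
        (∀ p : EuclideanSpace ℝ (Fin 2), ∃ i : Fin n, ∃ a b : ℤ,
          p ∈ (fun x => g i x + ((a : ℝ) • u + (b : ℝ) • w)) '' K) ∧
        d = (n : ℝ) * (MeasureTheory.volume K).toReal
              / (MeasureTheory.volume (parallelepiped ![u, w])).toReal})) := by
  intro h
  obtain ⟨K, h1, h2, h3, h4⟩ := Pool.Agent.MP3e.exists_disc
  exact h4 (h K h1 h2 h3).1

end Pool.Agent.S08280
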