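import Pool.Statements.S08825

set_option autoImplicit false
set_option linter.unusedSectionVars false
set_option linter.style.haveILetI false
set_option linter.unusedVariables false

open Pool Pool.MP_5651c1_co

namespace Pool.Agent.S08825

open Finset

variable {V : Type} [Fintype V] [DecidableEq V]

/-- A nonempty vertex set is connected when it has no proper nonempty part closed under adjacency. -/
def Conn (G : SimpleGraph V) (S : Finset V) : Prop :=
  S.Nonempty ∧ ∀ A : Finset V, A ⊆ S → A.Nonempty →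
    (∀ u ∈ A, ∀ v ∈ S, G.Adj u v → v ∈ A) → S ⊆ A

theorem conn_singleton (G : SimpleGraph V) (v : V) : Conn G {v} := by
  refine ⟨singleton_nonempty v, ?_⟩
  intro A hA hne _
  obtain ⟨a, ha⟩ := hne
  have : a = v := by simpa using hA ha
  subst this
  simpa using ha

/-- If `T` is connected and meets `A`, and `A` is closed under adjacency inside some `S ⊇ T`, then `T ⊆ A`. -/
theorem Conn.subset_of_closed_in {G : SimpleGraph V} {T : Finset V} (hT : Conn G T) {A S : Finset V}
    (hTS : T ⊆ S) (hne : (A ∩ T).Nonempty)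
    (hcl : ∀ u ∈ A, ∀ v ∈ S, G.Adj u v → v ∈ A) : T ⊆ A := by
  have h := hT.2 (A ∩ T) inter_subset_right hne (by
    intro u hu v hv huv
    exact mem_inter.2 ⟨hcl u (mem_inter.1 hu).1 v (hTS hv) huv, hv⟩)
  exact fun x hx => (mem_inter.1 (h hx)).1

theorem conn_of_star {G : SimpleGraph V} {S₀ S : Finset V} (h0 : Conn G S₀) (h0S : S₀ ⊆ S)
    (h : ∀ v ∈ S, ∃ T : Finset V, T ⊆ S ∧ Conn G T ∧ v ∈ T ∧ (S₀ ∩ T).Nonempty) : Conn G S := by
  refine ⟨h0.1.mono h0S, ?_⟩
  intro A hA hne hcl
  have key : S₀ ⊆ A := by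
    obtain ⟨v, hv⟩ := hne
    obtain ⟨T, hTS, hT, hvT, x, hx⟩ := h v (hA hv)
    have hTA : T ⊆ A := hT.subset_of_closed_in hTS ⟨v, mem_inter.2 ⟨hv, hvT⟩⟩ hcl
    exact h0.subset_of_closed_in h0S
      ⟨x, mem_inter.2 ⟨hTA (mem_inter.1 hx).2, (mem_inter.1 hx).1⟩⟩ hcl
  intro v hv
  obtain ⟨T, hTS, hT, hvT, x, hx⟩ := h v hv
  exact hT.subset_of_closed_in hTS
    ⟨x, mem_inter.2 ⟨key (mem_inter.1 hx).1, (mem_inter.1 hx).2⟩⟩ hcl hvT

theorem conn_union_of_adj {G : SimpleGraph V} {S T : Finset V} (hS : Conn G S) (hT : Conn G T)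
    {u v : V} (hu : u ∈ S) (hv : v ∈ T) (huv : G.Adj u v) : Conn G (S ∪ T) := by
  refine ⟨hS.1.mono subset_union_left, ?_⟩
  intro A hA hne hcl
  have hSA : S ⊆ A ↔ T ⊆ A := by
    constructor
    · intro h
      exact hT.subset_of_closed_in subset_union_right
        ⟨v, mem_inter.2 ⟨hcl u (h hu) v (mem_union_right _ hv) huv, hv⟩⟩ hcl
    · intro h
      exact hS.subset_of_closed_in subset_union_left
        ⟨u, mem_inter.2 ⟨hcl v (h hv) u (mem_union_left _ hu) huv.symm, hu⟩⟩ hcl
  obtain ⟨x, hx⟩ := hne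
  rcases mem_union.1 (hA hx) with h | h
  · have h1 : S ⊆ A := hS.subset_of_closed_in subset_union_left ⟨x, mem_inter.2 ⟨hx, h⟩⟩ hcl
    exact union_subset h1 (hSA.1 h1)
  · have h1 : T ⊆ A := hT.subset_of_closed_in subset_union_right ⟨x, mem_inter.2 ⟨hx, h⟩⟩ hcl
    exact union_subset (hSA.2 h1) h1

theorem Conn.subset_of_closed {G : SimpleGraph V} {F : Finset V} (hF : Conn G F) {W X : Finset V}
    (hdisj : Disjoint F X) (hne : (W ∩ F).Nonempty)
    (hcl : ∀ u ∈ W, ∀ v, v ∉ X → G.Adj u v → v ∈ W) : F ⊆ W := by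
  have h := hF.2 (W ∩ F) inter_subset_right hne (by
    intro u hu v hv huv
    exact mem_inter.2 ⟨hcl u (mem_inter.1 hu).1 v (fun hx => (disjoint_left.1 hdisj hv hx)) huv, hv⟩)
  exact fun x hx => (mem_inter.1 (h hx)).1

theorem Conn.induce_connected {G : SimpleGraph V} {S : Finset V} (hS : Conn G S) :
    (G.induce (S : Set V)).Connected := by
  classical
  haveI : Nonempty (S : Set V) := by
    obtain ⟨x, hx⟩ := hS.1
    exact ⟨⟨x, hx⟩⟩
  refine ⟨?_⟩
  intro a b
  let A : Finset V := univ.filter (fun v => ∃ h : v ∈ (S : Set V), (G.induce (S : Set V)).Reachable a ⟨v, h⟩)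
  have hA : S ⊆ A := by
    refine hS.2 A ?_ ⟨a.1, ?_⟩ ?_
    · intro v hv
      obtain ⟨h, _⟩ := (mem_filter.1 hv).2
      exact h
    · exact mem_filter.2 ⟨mem_univ _, a.2, SimpleGraph.Reachable.refl _⟩
    · intro u hu v hv huv
      obtain ⟨h, hr⟩ := (mem_filter.1 hu).2
      refine mem_filter.2 ⟨mem_univ _, hv, hr.trans (SimpleGraph.Adj.reachable ?_)⟩
      exact huv
  obtain ⟨h, hr⟩ := (mem_filter.1 (hA b.2)).2
  exact hr

/-- A family of connected, pairwise disjoint, pairwise adjacent vertex sets. -/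
structure Covey (G : SimpleGraph V) (𝒞 : Finset (Finset V)) : Prop where
  conn : ∀ C ∈ 𝒞, Conn G C
  disj : ∀ C ∈ 𝒞, ∀ D ∈ 𝒞, C ≠ D → Disjoint C D
  adj : ∀ C ∈ 𝒞, ∀ D ∈ 𝒞, C ≠ D → ∃ u ∈ C, ∃ v ∈ D, G.Adj u v

theorem Covey.insert {G : SimpleGraph V} {𝒞 : Finset (Finset V)} (h : Covey G 𝒞) {T : Finset V}
    (hT : Conn G T) (hd : ∀ C ∈ 𝒞, Disjoint C T) (ha : ∀ C ∈ 𝒞, ∃ u ∈ C, ∃ v ∈ T, G.Adj u v) :
    Covey G (insert T 𝒞) := by
  refine ⟨?_, ?_, ?_⟩
  · intro C hC
    rcases mem_insert.1 hC with rfl | hC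
    · exact hT
    · exact h.conn C hC
  · intro C hC D hD hne
    rcases mem_insert.1 hC with rfl | hC'
    · rcases mem_insert.1 hD with rfl | hD'
      · exact absurd rfl hne
      · exact (hd D hD').symm
    · rcases mem_insert.1 hD with rfl | hD'
      · exact hd C hC'
      · exact h.disj C hC' D hD' hne
  · intro C hC D hD hne
    rcases mem_insert.1 hC with rfl | hC'
    · rcases mem_insert.1 hD with rfl | hD'
      · exact absurd rfl hne
      · obtain ⟨u, hu, v, hv, huv⟩ := ha D hD'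
        exact ⟨v, hv, u, hu, huv.symm⟩
    · rcases mem_insert.1 hD with rfl | hD'
      · exact ha C hC'
      · exact h.adj C hC' D hD' hne

theorem Covey.mono {G : SimpleGraph V} {𝒞 𝒟 : Finset (Finset V)} (h : Covey G 𝒞) (hs : 𝒟 ⊆ 𝒞) :
    Covey G 𝒟 :=
  ⟨fun C hC => h.conn C (hs hC), fun C hC D hD => h.disj C (hs hC) D (hs hD),
    fun C hC D hD => h.adj C (hs hC) D (hs hD)⟩

theorem Covey.not_mem {G : SimpleGraph V} {𝒞 : Finset (Finset V)} {T : Finset V}
    (hT : Conn G T) (hd : ∀ C ∈ 𝒞, Disjoint C T) : T ∉ 𝒞 := by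
  intro h
  have := hd T h
  rw [disjoint_self] at this
  exact hT.1.ne_empty this

theorem Covey.minor {G : SimpleGraph V} {𝒞 : Finset (Finset V)} (h : Covey G 𝒞) {t : ℕ}
    (ht : t ≤ 𝒞.card) : ∃ f : Fin t → Set V,
            (∀ i, (G.induce (f i)).Connected) ∧
            (∀ i j, i ≠ j → Disjoint (f i) (f j)) ∧
            (∀ i j, i ≠ j → ∃ u ∈ f i, ∃ v ∈ f j, G.Adj u v) := by
  classical
  obtain ⟨𝒟, hD, hcard⟩ := exists_subset_card_eq ht
  have h' := h.mono hD
  let e : 𝒟 ≃ Fin t := Fintype.equivFinOfCardEq (by simpa using hcard)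
  refine ⟨fun i => ((e.symm i : Finset V) : Set V), ?_, ?_, ?_⟩
  · intro i
    exact (h'.conn _ (e.symm i).2).induce_connected
  · intro i j hij
    rw [Finset.disjoint_coe]
    refine h'.disj _ (e.symm i).2 _ (e.symm j).2 ?_
    intro hc
    exact hij (e.symm.injective (Subtype.ext hc))
  · intro i j hij
    obtain ⟨u, hu, v, hv, huv⟩ := h'.adj _ (e.symm i).2 _ (e.symm j).2 (by
      intro hc
      exact hij (e.symm.injective (Subtype.ext hc)))
    exact ⟨u, hu, v, hv, huv⟩


/-- number of ordered adjacent pairs inside `W` -/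
def dd (G : SimpleGraph V) [DecidableRel G.Adj] (W : Finset V) : ℕ :=
  ∑ u ∈ W, (W.filter (fun w => G.Adj u w)).card

theorem dd_insert (G : SimpleGraph V) [DecidableRel G.Adj] {v : V} {W : Finset V} (hv : v ∉ W) :
    dd G (insert v W) = dd G W + 2 * (W.filter (fun w => G.Adj v w)).card := by
  classical
  unfold dd
  rw [sum_insert hv]
  have h1 : ((insert v W).filter (fun w => G.Adj v w)) = W.filter (fun w => G.Adj v w) := by
    rw [filter_insert, if_neg (G.loopless.irrefl v)]
  have h2 : ∀ u ∈ W, ((insert v W).filter (fun w => G.Adj u w)).card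
      = (W.filter (fun w => G.Adj u w)).card + (if G.Adj v u then 1 else 0) := by
    intro u hu
    rw [filter_insert]
    by_cases h : G.Adj u v
    · rw [if_pos h, if_pos h.symm, card_insert_of_notMem]
      intro hc
      exact hv (mem_filter.1 hc).1
    · rw [if_neg h, if_neg (fun h' => h h'.symm), add_zero]
  rw [h1, sum_congr rfl h2, sum_add_distrib, ← card_filter]
  ring

theorem mader (G : SimpleGraph V) [DecidableRel G.Adj] (t : ℕ) : ∀ (N : ℕ) (W : Finset V),
    W.card = N → W.Nonempty → 2 ^ t * W.card ≤ dd G W →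
    ∃ 𝒞 : Finset (Finset V), Covey G 𝒞 ∧ 𝒞.card = t ∧ ∀ C ∈ 𝒞, C ⊆ W := by
  classical
  induction t with
  | zero =>
    intro N W _ _ _
    exact ⟨∅, ⟨by simp, by simp, by simp⟩, by simp, by simp⟩
  | succ t ih =>
    intro N
    induction N using Nat.strong_induction_on with
    | _ N ihN =>
    intro W hN hW hdd
    obtain ⟨w, hw⟩ := hW
    -- candidates
    let q : Finset V → ℕ := fun U =>
      dd G (W \ U) + 2 * ((W \ U).filter (fun v => ∃ u ∈ U, G.Adj u v)).card
    let P : Finset V → Prop := fun U => Conn G U ∧ 2 ^ (t + 1) * ((W \ U).card + 1) ≤ q U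
    let cand := W.powerset.filter P
    have hwc : ({w} : Finset V) ∈ cand := by
      refine mem_filter.2 ⟨mem_powerset.2 (singleton_subset_iff.2 hw), conn_singleton G w, ?_⟩
      have hW1 : W = insert w (W \ {w}) := by
        rw [← erase_eq, insert_erase hw]
      have hnot : w ∉ W \ {w} := by simp
      have e1 : (W \ {w}).card + 1 = W.card := by
        rw [← card_insert_of_notMem hnot, ← hW1]
      have e2 : dd G W = dd G (W \ {w}) + 2 * ((W \ {w}).filter (fun v => G.Adj w v)).card := by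
        conv_lhs => rw [hW1]
        exact dd_insert G hnot
      have e3 : ((W \ {w}).filter (fun v => ∃ u ∈ ({w} : Finset V), G.Adj u v))
          = ((W \ {w}).filter (fun v => G.Adj w v)) := by
        apply filter_congr
        intro x _
        simp
      show 2 ^ (t + 1) * ((W \ {w}).card + 1) ≤ dd G (W \ {w}) + 2 * ((W \ {w}).filter (fun v => ∃ u ∈ ({w} : Finset V), G.Adj u v)).card
      rw [e1, e3, ← e2]
      exact hdd
    obtain ⟨U, hUc, hUmax⟩ := exists_max_image cand (fun U => U.card) ⟨_, hwc⟩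
    obtain ⟨hUW, hUconn, hUq⟩ := mem_filter.1 hUc
    have hUW := mem_powerset.1 hUW
    let H := (W \ U).filter (fun v => ∃ u ∈ U, G.Adj u v)
    have hqU : q U = dd G (W \ U) + 2 * H.card := rfl
    by_cases hH : H.Nonempty
    · -- every vertex of H has many neighbours in H
      have hdeg : ∀ v ∈ H, 2 ^ t ≤ (H.filter (fun w => G.Adj v w)).card := by
        intro v hv
        obtain ⟨hvWU, u, huU, huv⟩ := mem_filter.1 hv
        have hvW : v ∈ W := (mem_sdiff.1 hvWU).1
        have hvU : v ∉ U := (mem_sdiff.1 hvWU).2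
        -- U' = insert v U
        have hconn' : Conn G (insert v U) := by
          have := conn_union_of_adj (conn_singleton G v) hUconn (mem_singleton_self v) huU huv.symm
          rw [insert_eq]
          exact this
        have hnotP : ¬ (2 ^ (t + 1) * ((W \ insert v U).card + 1) ≤ q (insert v U)) := by
          intro hc
          have hmem : insert v U ∈ cand :=
            mem_filter.2 ⟨mem_powerset.2 (insert_subset hvW hUW), hconn', hc⟩
          have := hUmax _ hmem
          rw [card_insert_of_notMem hvU] at this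
          omega
        let W₁ := W \ insert v U
        have hvW1 : v ∉ W₁ := by simp [W₁]
        have hWU : W \ U = insert v W₁ := by
          ext x
          simp only [W₁, mem_sdiff, mem_insert]
          constructor
          · rintro ⟨h1, h2⟩
            by_cases hx : x = v
            · exact Or.inl hx
            · exact Or.inr ⟨h1, fun h => h.elim hx h2⟩
          · rintro (h | ⟨h1, h2⟩)
            · subst h
              exact ⟨hvW, hvU⟩
            · exact ⟨h1, fun h => h2 (Or.inr h)⟩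
        have e1 : (W \ U).card = W₁.card + 1 := by
          rw [hWU, card_insert_of_notMem hvW1]
        have e2 : dd G (W \ U) = dd G W₁ + 2 * (W₁.filter (fun w => G.Adj v w)).card := by
          rw [hWU]
          exact dd_insert G hvW1
        have e3 : H.card = (W₁.filter (fun x => ∃ u ∈ U, G.Adj u x)).card + 1 := by
          show ((W \ U).filter (fun v => ∃ u ∈ U, G.Adj u v)).card = _
          rw [hWU, filter_insert, if_pos ⟨u, huU, huv⟩, card_insert_of_notMem]
          intro hc
          exact hvW1 (mem_filter.1 hc).1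
        have e4 : (W₁.filter (fun x => ∃ u ∈ insert v U, G.Adj u x))
            = (W₁.filter (fun x => G.Adj v x)) ∪ (W₁.filter (fun x => ∃ u ∈ U, G.Adj u x)) := by
          rw [← filter_or]
          apply filter_congr
          intro x _
          simp
        have e5 : (W₁.filter (fun x => G.Adj v x)) ∩ (W₁.filter (fun x => ∃ u ∈ U, G.Adj u x))
            = H.filter (fun w => G.Adj v w) := by
          ext x
          simp only [H, mem_inter, mem_filter, hWU, mem_insert]
          constructor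
          · rintro ⟨⟨h1, h2⟩, _, h3⟩
            exact ⟨⟨Or.inr h1, h3⟩, h2⟩
          · rintro ⟨⟨h1, h3⟩, h2⟩
            rcases h1 with h1 | h1
            · subst h1
              exact absurd h2 (G.loopless.irrefl x)
            · exact ⟨⟨h1, h2⟩, h1, h3⟩
        have e6 := card_union_add_card_inter (W₁.filter (fun x => G.Adj v x)) (W₁.filter (fun x => ∃ u ∈ U, G.Adj u x))
        rw [← e4, e5] at e6
        have e7 : q (insert v U) = dd G W₁ + 2 * (W₁.filter (fun x => ∃ u ∈ insert v U, G.Adj u x)).card := rfl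
        have e8 : 2 ^ (t + 1) * ((W \ U).card + 1) = 2 ^ (t + 1) * (W₁.card + 1) + 2 * 2 ^ t := by
          rw [e1]; ring
        have e9 : W \ insert v U = W₁ := rfl
        rw [e9, e7] at hnotP
        rw [e8, hqU, e2, e3] at hUq
        omega
      have hddH : 2 ^ t * H.card ≤ dd G H := by
        unfold dd
        calc 2 ^ t * H.card = ∑ v ∈ H, 2 ^ t := by rw [sum_const, smul_eq_mul, mul_comm]
          _ ≤ _ := sum_le_sum hdeg
      obtain ⟨𝒞, hC, hcard, hsub⟩ := ih H.card H rfl hH hddH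
      have hHWU : H ⊆ W \ U := filter_subset _ _
      have hdis : ∀ C ∈ 𝒞, Disjoint C U := by
        intro C hC'
        rw [disjoint_left]
        intro x hx
        exact (mem_sdiff.1 (hHWU (hsub C hC' hx))).2
      refine ⟨insert U 𝒞, hC.insert hUconn hdis ?_, ?_, ?_⟩
      · intro C hC'
        obtain ⟨x, hx⟩ := (hC.conn C hC').1
        obtain ⟨_, u, hu, hux⟩ := mem_filter.1 (hsub C hC' hx)
        exact ⟨x, hx, u, hu, hux.symm⟩
      · rw [card_insert_of_notMem (Covey.not_mem hUconn hdis), hcard]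
      · intro C hC'
        rcases mem_insert.1 hC' with rfl | hC'
        · exact hUW
        · exact (hsub C hC').trans (hHWU.trans sdiff_subset)
    · rw [not_nonempty_iff_eq_empty] at hH
      rw [hqU, hH, card_empty] at hUq
      have hne : (W \ U).Nonempty := by
        by_contra hc
        rw [not_nonempty_iff_eq_empty] at hc
        rw [hc] at hUq
        simp [dd] at hUq
      have hlt : (W \ U).card < N := by
        rw [← hN]
        apply card_lt_card
        rw [Finset.ssubset_iff_subset_ne]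
        refine ⟨sdiff_subset, ?_⟩
        intro hc
        obtain ⟨x, hx⟩ := hUconn.1
        have : x ∈ W \ U := by rw [hc]; exact hUW hx
        exact (mem_sdiff.1 this).2 hx
      obtain ⟨𝒞, hC, hcard, hsub⟩ := ihN _ hlt (W \ U) rfl hne (by
        have : 2 ^ (t + 1) * (W \ U).card ≤ 2 ^ (t + 1) * ((W \ U).card + 1) :=
          Nat.mul_le_mul_left _ (Nat.le_succ _)
        omega)
      exact ⟨𝒞, hC, hcard, fun C hC' => (hsub C hC').trans sdiff_subset⟩

theorem sum_degree_le (G : SimpleGraph V) [DecidableRel G.Adj] (t : ℕ) (hV : 0 < Fintype.card V)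
    (hfree : ∀ 𝒞 : Finset (Finset V), Covey G 𝒞 → 𝒞.card < t) :
    ∑ v, G.degree v ≤ 2 ^ t * Fintype.card V := by
  classical
  by_contra hcon
  have hne : (univ : Finset V).Nonempty := by
    rw [← card_pos, card_univ]; exact hV
  obtain ⟨𝒞, hC, hcard, _⟩ := mader G t (univ : Finset V).card univ rfl hne (by
    have : dd G univ = ∑ v, G.degree v := by
      unfold dd
      apply sum_congr rfl
      intro v _
      rw [← SimpleGraph.card_neighborFinset_eq_degree]
      congr 1
      ext x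
      simp
    rw [this, card_univ]
    omega)
  have := hfree 𝒞 hC
  omega

/-- `U` is a connected component of `G - X` with more than half of the vertices. -/
structure Big (G : SimpleGraph V) (X U : Finset V) : Prop where
  conn : Conn G U
  disj : Disjoint U X
  closed : ∀ u ∈ U, ∀ v, v ∉ X → G.Adj u v → v ∈ U
  large : Fintype.card V < 2 * U.card

theorem Big.inter_nonempty {G : SimpleGraph V} {X X' U U' : Finset V} (h : Big G X U)
    (h' : Big G X' U') : (U ∩ U').Nonempty := by
  rw [← card_pos]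
  have h1 := card_union_add_card_inter U U'
  have h2 : (U ∪ U').card ≤ Fintype.card V := card_le_univ _
  have h3 := h.large
  have h4 := h'.large
  omega

theorem Big.subset {G : SimpleGraph V} {X X' U U' : Finset V} (h : Big G X U)
    (h' : Big G X' U') (hX : X ⊆ X') : U' ⊆ U :=
  h'.conn.subset_of_closed (h'.disj.mono_right hX) (h.inter_nonempty h') h.closed

/-- The least cost of a connected set inside `U` that contains `v` and meets `A`. -/
noncomputable def dst (G : SimpleGraph V) (c : V → ℕ) (U A : Finset V) (v : V) : ℕ :=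
  sInf {m | ∃ T : Finset V, T ⊆ U ∧ Conn G T ∧ v ∈ T ∧ (A ∩ T).Nonempty ∧ m = ∑ x ∈ T, c x}

theorem dst_le {G : SimpleGraph V} {c : V → ℕ} {U A T : Finset V} {v : V} (hTU : T ⊆ U)
    (hT : Conn G T) (hv : v ∈ T) (hA : (A ∩ T).Nonempty) : dst G c U A v ≤ ∑ x ∈ T, c x :=
  Nat.sInf_le ⟨T, hTU, hT, hv, hA, rfl⟩

theorem dst_spec {G : SimpleGraph V} {c : V → ℕ} {U A : Finset V} {v : V} (hU : Conn G U)
    (hAU : (A ∩ U).Nonempty) (hv : v ∈ U) :
    ∃ T : Finset V, T ⊆ U ∧ Conn G T ∧ v ∈ T ∧ (A ∩ T).Nonempty ∧ dst G c U A v = ∑ x ∈ T, c x := by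
  have : dst G c U A v ∈ {m | ∃ T : Finset V, T ⊆ U ∧ Conn G T ∧ v ∈ T ∧ (A ∩ T).Nonempty ∧ m = ∑ x ∈ T, c x} :=
    Nat.sInf_mem ⟨_, U, Subset.refl U, hU, hv, hAU, rfl⟩
  exact this

theorem dst_adj {G : SimpleGraph V} {c : V → ℕ} {U A : Finset V} {u v : V} (hU : Conn G U)
    (hAU : (A ∩ U).Nonempty) (hu : u ∈ U) (hv : v ∈ U) (huv : G.Adj u v) :
    dst G c U A v ≤ dst G c U A u + c v := by
  obtain ⟨T, hTU, hT, huT, hTA, hd⟩ := dst_spec (c := c) hU hAU hu
  rw [hd]
  have h1 : Conn G (T ∪ {v}) := conn_union_of_adj hT (conn_singleton G v) huT (mem_singleton_self v) huv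
  have h2 := dst_le (c := c) (A := A) (v := v) (union_subset hTU (singleton_subset_iff.2 hv)) h1
    (mem_union_right _ (mem_singleton_self v)) (hTA.mono (inter_subset_inter_left subset_union_left))
  refine h2.trans ?_
  have h3 := sum_union_inter (f := c) (s₁ := T) (s₂ := {v})
  rw [sum_singleton] at h3
  omega

theorem dst_self {G : SimpleGraph V} {c : V → ℕ} {U A : Finset V} {a : V} (ha : a ∈ A) (haU : a ∈ U) :
    dst G c U A a ≤ c a := by
  have := dst_le (G := G) (c := c) (A := A) (singleton_subset_iff.2 haU) (conn_singleton G a) (mem_singleton_self a)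
    ⟨a, mem_inter.2 ⟨ha, mem_singleton_self a⟩⟩
  simpa using this

theorem sum_union_le' (c : V → ℕ) (A B : Finset V) :
    ∑ v ∈ A ∪ B, c v ≤ ∑ v ∈ A, c v + ∑ v ∈ B, c v := by
  have h3 := sum_union_inter (f := c) (s₁ := A) (s₂ := B)
  omega

theorem sum_biUnion_le' (c : V → ℕ) (𝒞 : Finset (Finset V)) (f : Finset V → Finset V) :
    ∑ v ∈ 𝒞.biUnion f, c v ≤ ∑ C ∈ 𝒞, ∑ v ∈ f C, c v := by
  classical
  induction 𝒞 using Finset.induction_on with
  | empty => simp
  | insert C 𝒞 hC ih =>
    rw [biUnion_insert, sum_insert hC]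
    exact (sum_union_le' c _ _).trans (Nat.add_le_add_left ih _)

/-- A cheap level set. -/
theorem exists_level (c : V → ℕ) (U : Finset V) (d : V → ℕ) (M : ℕ) (hM : 1 ≤ M) :
    ∃ x, 1 ≤ x ∧ x ≤ M ∧
      M * ∑ v ∈ U.filter (fun v => x ≤ d v ∧ d v < x + c v), c v ≤ ∑ v, c v ^ 2 := by
  classical
  by_contra hcon
  push Not at hcon
  have h1 : ∑ x ∈ Icc 1 M, (∑ v ∈ U.filter (fun v => x ≤ d v ∧ d v < x + c v), c v) ≤ ∑ v, c v ^ 2 := by
    calc ∑ x ∈ Icc 1 M, (∑ v ∈ U.filter (fun v => x ≤ d v ∧ d v < x + c v), c v)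
        = ∑ x ∈ Icc 1 M, ∑ v ∈ U, (if (x ≤ d v ∧ d v < x + c v) then c v else 0) := by
          apply sum_congr rfl
          intro x _
          rw [sum_filter]
      _ = ∑ v ∈ U, ∑ x ∈ Icc 1 M, (if (x ≤ d v ∧ d v < x + c v) then c v else 0) := sum_comm
      _ ≤ ∑ v ∈ U, c v ^ 2 := by
          apply sum_le_sum
          intro v _
          rw [← sum_filter, sum_const, smul_eq_mul, pow_two]
          apply Nat.mul_le_mul_right
          have : (Icc 1 M).filter (fun x => x ≤ d v ∧ d v < x + c v) ⊆ Ioc (d v - c v) (d v) := by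
            intro x hx
            obtain ⟨hx1, hx2, hx3⟩ := mem_filter.1 hx
            rw [mem_Icc] at hx1
            rw [mem_Ioc]
            omega
          calc _ ≤ (Ioc (d v - c v) (d v)).card := card_le_card this
            _ = d v - (d v - c v) := by rw [Nat.card_Ioc]
            _ ≤ c v := by omega
      _ ≤ ∑ v, c v ^ 2 := sum_le_sum_of_subset (subset_univ _)
  have h2 : M * (∑ v, c v ^ 2) + 1 ≤ M * ∑ x ∈ Icc 1 M, (∑ v ∈ U.filter (fun v => x ≤ d v ∧ d v < x + c v), c v) := by
    rw [mul_sum (Icc 1 M)]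
    have hlt : ∑ x ∈ Icc 1 M, (∑ v, c v ^ 2) < ∑ x ∈ Icc 1 M, M * (∑ v ∈ U.filter (fun v => x ≤ d v ∧ d v < x + c v), c v) := by
      apply sum_lt_sum_of_nonempty
      · exact ⟨1, mem_Icc.2 ⟨le_refl 1, hM⟩⟩
      · intro x hx
        rw [mem_Icc] at hx
        exact hcon x hx.1 hx.2
    rw [sum_const, smul_eq_mul, Nat.card_Icc, Nat.add_sub_cancel] at hlt
    exact hlt
  have h3 := Nat.mul_le_mul_left M h1
  omega

/-- The states of the descent. -/
structure Good (G : SimpleGraph V) (c : V → ℕ) (R : ℕ) (𝒞 : Finset (Finset V)) (X U : Finset V) : Prop where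
  covey : Covey G 𝒞
  cover : ∀ x ∈ X, ∃ C ∈ 𝒞, x ∈ C
  cost : ∀ C ∈ 𝒞, ∑ v ∈ X ∩ C, c v ≤ R
  disjU : ∀ C ∈ 𝒞, Disjoint C U
  big : Big G X U

theorem Good.cost_le {G : SimpleGraph V} {c : V → ℕ} {R : ℕ} {𝒞 : Finset (Finset V)} {X U : Finset V}
    (h : Good G c R 𝒞 X U) : ∑ v ∈ X, c v ≤ 𝒞.card * R := by
  classical
  have h1 : X ⊆ 𝒞.biUnion (fun C => X ∩ C) := by
    intro x hx
    obtain ⟨C, hC, hxC⟩ := h.cover x hx
    exact mem_biUnion.2 ⟨C, hC, mem_inter.2 ⟨hx, hxC⟩⟩
  calc ∑ v ∈ X, c v ≤ ∑ v ∈ 𝒞.biUnion (fun C => X ∩ C), c v := sum_le_sum_of_subset h1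
    _ ≤ ∑ C ∈ 𝒞, ∑ v ∈ X ∩ C, c v := sum_biUnion_le' c 𝒞 _
    _ ≤ ∑ C ∈ 𝒞, R := sum_le_sum h.cost
    _ = 𝒞.card * R := by rw [sum_const, smul_eq_mul]

theorem step (G : SimpleGraph V) (c : V → ℕ) (t M R B D₀ : ℕ) (hM : 1 ≤ M)
    (hΔ : ∀ v, c v ≤ D₀)
    (hbig : ∀ X : Finset V, ∑ v ∈ X, c v ≤ B → ∃ U, Big G X U)
    (hfree : ∀ 𝒞 : Finset (Finset V), Covey G 𝒞 → 𝒞.card < t)
    (hR1 : D₀ + t * M ≤ R)
    (hR2 : t * (∑ v, c v ^ 2) ≤ M * R)
    (hB : t * R + R ≤ B)
    {𝒞 : Finset (Finset V)} {X U : Finset V} (h : Good G c R 𝒞 X U) :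
    ∃ (𝒞' : Finset (Finset V)) (X' U' : Finset V), Good G c R 𝒞' X' U' ∧
      𝒞'.card + X'.card + 3 * U'.card < 𝒞.card + X.card + 3 * U.card := by
  classical
  -- attachment sets
  let At : Finset V → Finset V := fun C => U.filter (fun v => ∃ w ∈ C, G.Adj w v)
  have hAtU : ∀ C, At C ⊆ U := fun C => filter_subset _ _
  have hcX : ∑ v ∈ X, c v ≤ t * R :=
    h.cost_le.trans (Nat.mul_le_mul_right _ (hfree _ h.covey).le)
  by_cases hcase : ∃ C ∈ 𝒞, At C = ∅
  · -- remove `C`
    obtain ⟨C, hC, hempty⟩ := hcase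
    have hno : ∀ u ∈ U, ∀ v ∈ C, ¬ G.Adj u v := by
      intro u hu v hv huv
      have : u ∈ At C := mem_filter.2 ⟨hu, v, hv, huv.symm⟩
      rw [hempty] at this
      exact absurd this (notMem_empty _)
    refine ⟨𝒞.erase C, X \ C, U, ⟨h.covey.mono (erase_subset _ _), ?_, ?_, ?_, ?_⟩, ?_⟩
    · intro x hx
      obtain ⟨hx1, hx2⟩ := mem_sdiff.1 hx
      obtain ⟨C', hC', hxC'⟩ := h.cover x hx1
      refine ⟨C', mem_erase.2 ⟨?_, hC'⟩, hxC'⟩
      rintro rfl
      exact hx2 hxC'
    · intro C' hC'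
      refine le_trans (sum_le_sum_of_subset ?_) (h.cost C' (mem_of_mem_erase hC'))
      exact inter_subset_inter_right sdiff_subset
    · intro C' hC'
      exact h.disjU C' (mem_of_mem_erase hC')
    · refine ⟨h.big.conn, h.big.disj.mono_right sdiff_subset, ?_, h.big.large⟩
      intro u hu v hv huv
      by_cases hvX : v ∈ X
      · have hvC : v ∈ C := by
          by_contra hc
          exact hv (mem_sdiff.2 ⟨hvX, hc⟩)
        exact absurd huv (hno u hu v hvC)
      · exact h.big.closed u hu v hvX huv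
    · have h1 := card_erase_lt_of_mem hC
      have h2 : (X \ C).card ≤ X.card := card_le_card sdiff_subset
      omega
  · push Not at hcase
    have hAtne : ∀ C ∈ 𝒞, (At C ∩ U).Nonempty := by
      intro C hC
      rw [inter_eq_left.2 (hAtU C)]
      exact hcase C hC
    let d : Finset V → V → ℕ := fun C => dst G c U (At C)
    choose xx hxx1 hxx2 hxx3 using fun C : Finset V => exists_level c U (d C) M hM
    let Zf : Finset V → Finset V := fun C => U.filter (fun v => xx C ≤ d C v ∧ d C v < xx C + c v)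
    let Z := 𝒞.biUnion Zf
    have hcZ : ∑ v ∈ Z, c v ≤ R := by
      have h1 : M * ∑ v ∈ Z, c v ≤ M * R := by
        calc M * ∑ v ∈ Z, c v ≤ M * ∑ C ∈ 𝒞, ∑ v ∈ Zf C, c v :=
              Nat.mul_le_mul_left _ (sum_biUnion_le' c 𝒞 Zf)
          _ = ∑ C ∈ 𝒞, M * ∑ v ∈ Zf C, c v := mul_sum ..
          _ ≤ ∑ C ∈ 𝒞, ∑ v, c v ^ 2 := sum_le_sum (fun C _ => hxx3 C)
          _ = 𝒞.card * ∑ v, c v ^ 2 := by rw [sum_const, smul_eq_mul]
          _ ≤ t * ∑ v, c v ^ 2 := Nat.mul_le_mul_right _ (hfree _ h.covey).le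
          _ ≤ M * R := hR2
      exact Nat.le_of_mul_le_mul_left h1 hM
    have hZU : Z ⊆ U := by
      intro z hz
      obtain ⟨C, _, hzC⟩ := mem_biUnion.1 hz
      exact (mem_filter.1 hzC).1
    obtain ⟨F, hF⟩ := hbig (X ∪ Z) ((sum_union_le' c X Z).trans (by omega))
    have hFU : F ⊆ U := h.big.subset hF subset_union_left
    obtain ⟨u, huF⟩ := hF.conn.1
    have huU : u ∈ U := hFU huF
    by_cases hin : ∀ C ∈ 𝒞, d C u < xx C
    · -- new branch set
      have hT : ∀ C ∈ 𝒞, ∃ T : Finset V, T ⊆ U ∧ Conn G T ∧ u ∈ T ∧ (At C ∩ T).Nonempty ∧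
          d C u = ∑ x ∈ T, c x := fun C hC => dst_spec (c := c) h.big.conn (hAtne C hC) huU
      choose! Tf hTU hTc huT hTA hTd using hT
      let T := insert u (𝒞.biUnion Tf)
      have hTT : T ⊆ U := by
        apply insert_subset huU
        intro x hx
        obtain ⟨C, hC, hxC⟩ := mem_biUnion.1 hx
        exact hTU C hC hxC
      have hTconn : Conn G T := by
        refine conn_of_star (conn_singleton G u) (singleton_subset_iff.2 (mem_insert_self _ _)) ?_
        intro v hv
        rcases mem_insert.1 hv with rfl | hv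
        · exact ⟨{v}, singleton_subset_iff.2 (mem_insert_self _ _), conn_singleton G v,
            mem_singleton_self v, ⟨v, by simp⟩⟩
        · obtain ⟨C, hC, hvC⟩ := mem_biUnion.1 hv
          refine ⟨Tf C, ?_, hTc C hC, hvC, ⟨u, mem_inter.2 ⟨mem_singleton_self u, huT C hC⟩⟩⟩
          exact (subset_biUnion_of_mem Tf hC).trans (subset_insert _ _)
      have hcT : ∑ v ∈ T, c v ≤ R := by
        have h1 : ∑ v ∈ T, c v ≤ c u + ∑ v ∈ 𝒞.biUnion Tf, c v := by
          have : T = {u} ∪ 𝒞.biUnion Tf := rfl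
          rw [this]
          refine (sum_union_le' c _ _).trans ?_
          rw [sum_singleton]
        have h2 : ∑ v ∈ 𝒞.biUnion Tf, c v ≤ t * M := by
          calc ∑ v ∈ 𝒞.biUnion Tf, c v ≤ ∑ C ∈ 𝒞, ∑ v ∈ Tf C, c v := sum_biUnion_le' c 𝒞 Tf
            _ ≤ ∑ C ∈ 𝒞, M := by
                apply sum_le_sum
                intro C hC
                rw [← hTd C hC]
                exact (hin C hC).le.trans (hxx2 C)
            _ = 𝒞.card * M := by rw [sum_const, smul_eq_mul]
            _ ≤ t * M := Nat.mul_le_mul_right _ (hfree _ h.covey).le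
        have h3 := hΔ u
        omega
      have hcXT : ∑ v ∈ X ∪ T, c v ≤ B := (sum_union_le' c X T).trans (by omega)
      obtain ⟨U', hU'⟩ := hbig (X ∪ T) hcXT
      have hU'U : U' ⊆ U := h.big.subset hU' subset_union_left
      have hU'T : Disjoint U' T := hU'.disj.mono_right subset_union_right
      have hdT : ∀ C ∈ 𝒞, Disjoint C T := fun C hC => (h.disjU C hC).mono_right hTT
      have hTnot : T ∉ 𝒞 := Covey.not_mem hTconn hdT
      refine ⟨insert T 𝒞, X ∪ T, U', ⟨h.covey.insert hTconn hdT ?_, ?_, ?_, ?_, hU'⟩, ?_⟩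
      · intro C hC
        obtain ⟨a, ha⟩ := hTA C hC
        obtain ⟨ha1, ha2⟩ := mem_inter.1 ha
        obtain ⟨_, w, hw, hwa⟩ := mem_filter.1 ha1
        exact ⟨w, hw, a, mem_insert_of_mem (mem_biUnion.2 ⟨C, hC, ha2⟩), hwa⟩
      · intro x hx
        rcases mem_union.1 hx with hx | hx
        · obtain ⟨C, hC, hxC⟩ := h.cover x hx
          exact ⟨C, mem_insert_of_mem hC, hxC⟩
        · exact ⟨T, mem_insert_self _ _, hx⟩
      · intro C hC
        rcases mem_insert.1 hC with rfl | hC
        · exact (sum_le_sum_of_subset inter_subset_right).trans hcT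
        · refine (sum_le_sum_of_subset ?_).trans (h.cost C hC)
          intro x hx
          obtain ⟨hx1, hx2⟩ := mem_inter.1 hx
          rcases mem_union.1 hx1 with hx1 | hx1
          · exact mem_inter.2 ⟨hx1, hx2⟩
          · exact absurd hx1 (disjoint_left.1 (hdT C hC) hx2)
      · intro C hC
        rcases mem_insert.1 hC with rfl | hC
        · exact hU'T.symm
        · exact (h.disjU C hC).mono_right hU'U
      · rw [card_insert_of_notMem hTnot]
        have h1 : (X ∪ T).card ≤ X.card + T.card := card_union_le _ _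
        have h2 : U'.card + T.card ≤ U.card := by
          rw [← card_union_of_disjoint hU'T]
          exact card_le_card (union_subset hU'U hTT)
        have h3 : 1 ≤ T.card := card_pos.2 hTconn.1
        omega
    · -- extend a branch set
      push Not at hin
      obtain ⟨C, hC, huC⟩ := hin
      have hFZ : ∀ v ∈ F, v ∉ Zf C := by
        intro v hv hvZ
        exact disjoint_left.1 hF.disj hv (mem_union_right _ (mem_biUnion.2 ⟨C, hC, hvZ⟩))
      have hout : ∀ v ∈ F, xx C ≤ d C v → xx C + c v ≤ d C v := by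
        intro v hv hxv
        by_contra hc
        push Not at hc
        exact hFZ v hv (mem_filter.2 ⟨hFU hv, hxv, hc⟩)
      have hFout : F ⊆ F.filter (fun v => xx C + c v ≤ d C v) := by
        refine hF.conn.2 _ (filter_subset _ _) ⟨u, mem_filter.2 ⟨huF, hout u huF huC⟩⟩ ?_
        intro w hw v hv hwv
        obtain ⟨hwF, hwd⟩ := mem_filter.1 hw
        refine mem_filter.2 ⟨hv, hout v hv ?_⟩
        by_contra hc
        push Not at hc
        have := dst_adj (c := c) (A := At C) h.big.conn (hAtne C hC) (hFU hv) (hFU hwF) hwv.symm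
        have e1 : d C w = dst G c U (At C) w := rfl
        have e2 : d C v = dst G c U (At C) v := rfl
        omega
      have hFAt : ∀ a ∈ At C, a ∉ F := by
        intro a ha haF
        have h1 := (mem_filter.1 (hFout haF)).2
        have h2 := dst_self (G := G) (c := c) ha (hAtU C ha)
        have h3 := hxx1 C
        have e1 : d C a = dst G c U (At C) a := rfl
        omega
      -- the absorbed part
      let D := U.filter (fun v => ∃ S : Finset V, S ⊆ U \ F ∧ Conn G S ∧ v ∈ S ∧ (At C ∩ S).Nonempty)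
      have hDU : D ⊆ U := filter_subset _ _
      have hDF : ∀ v ∈ D, v ∉ F := by
        intro v hv
        obtain ⟨_, S, hS, _, hvS, _⟩ := mem_filter.1 hv
        exact (mem_sdiff.1 (hS hvS)).2
      have hSD : ∀ S : Finset V, S ⊆ U \ F → Conn G S → (At C ∩ S).Nonempty → S ⊆ D := by
        intro S hS hSc hSA v hv
        exact mem_filter.2 ⟨(mem_sdiff.1 (hS hv)).1, S, hS, hSc, hv, hSA⟩
      have hAtD : At C ⊆ D := by
        intro a ha
        refine hSD {a} ?_ (conn_singleton G a) ⟨a, mem_inter.2 ⟨ha, mem_singleton_self a⟩⟩ (mem_singleton_self a)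
        exact singleton_subset_iff.2 (mem_sdiff.2 ⟨hAtU C ha, hFAt a ha⟩)
      have hDne : 1 ≤ D.card := by
        have := (hAtne C hC).mono inter_subset_left
        exact card_pos.2 (this.mono hAtD)
      have hCconn := h.covey.conn C hC
      have hCD : Conn G (C ∪ D) := by
        refine conn_of_star hCconn subset_union_left ?_
        intro v hv
        rcases mem_union.1 hv with hv | hv
        · exact ⟨C, subset_union_left, hCconn, hv, by rw [inter_self]; exact hCconn.1⟩
        · obtain ⟨_, S, hS, hSc, hvS, hSA⟩ := mem_filter.1 hv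
          have hSsub := hSD S hS hSc hSA
          obtain ⟨a, ha⟩ := hSA
          obtain ⟨ha1, ha2⟩ := mem_inter.1 ha
          obtain ⟨_, w, hw, hwa⟩ := mem_filter.1 ha1
          refine ⟨C ∪ S, union_subset_union_right hSsub, conn_union_of_adj hCconn hSc hw ha2 hwa,
            mem_union_right _ hvS, ?_⟩
          rw [inter_eq_left.2 subset_union_left]
          exact hCconn.1
      let X' := (X \ C) ∪ (Z ∩ D)
      have hcX' : ∑ v ∈ X', c v ≤ B := by
        have h1 : ∑ v ∈ X', c v ≤ ∑ v ∈ X ∪ Z, c v :=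
          sum_le_sum_of_subset (union_subset_union sdiff_subset inter_subset_left)
        have h2 := sum_union_le' c X Z
        omega
      obtain ⟨U', hU'⟩ := hbig X' hcX'
      have hUD : ∀ w ∈ U \ D, ∀ v, v ∉ X' → G.Adj w v → v ∈ U \ D := by
        intro w hw v hv hwv
        obtain ⟨hwU, hwD⟩ := mem_sdiff.1 hw
        have hvU : v ∈ U := by
          by_cases hvX : v ∈ X
          · have hvC : v ∈ C := by
              by_contra hc
              exact hv (mem_union_left _ (mem_sdiff.2 ⟨hvX, hc⟩))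
            exact absurd (hAtD (mem_filter.2 ⟨hwU, v, hvC, hwv.symm⟩)) hwD
          · exact h.big.closed w hwU v hvX hwv
        refine mem_sdiff.2 ⟨hvU, ?_⟩
        intro hvD
        have hvZ : v ∉ Z := fun hvZ => hv (mem_union_right _ (mem_inter.2 ⟨hvZ, hvD⟩))
        have hvX : v ∉ X := disjoint_left.1 h.big.disj hvU
        by_cases hwF : w ∈ F
        · have : v ∈ F := hF.closed w hwF v (fun hc => (mem_union.1 hc).elim hvX hvZ) hwv
          exact hDF v hvD this
        · obtain ⟨_, S, hS, hSc, hvS, hSA⟩ := mem_filter.1 hvD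
          apply hwD
          refine hSD (S ∪ {w}) ?_ (conn_union_of_adj hSc (conn_singleton G w) hvS (mem_singleton_self w) hwv.symm)
            (hSA.mono (inter_subset_inter_left subset_union_left)) (mem_union_right _ (mem_singleton_self w))
          exact union_subset hS (singleton_subset_iff.2 (mem_sdiff.2 ⟨hwU, hwF⟩))
      have hU'UD : U' ⊆ U \ D := by
        refine hU'.conn.subset_of_closed hU'.disj ?_ hUD
        obtain ⟨y, hy⟩ := hF.inter_nonempty hU'
        obtain ⟨hy1, hy2⟩ := mem_inter.1 hy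
        exact ⟨y, mem_inter.2 ⟨mem_sdiff.2 ⟨hFU hy1, fun hyD => hDF y hyD hy1⟩, hy2⟩⟩
      have hU'U : U' ⊆ U := hU'UD.trans sdiff_subset
      have hU'D : Disjoint U' D := by
        rw [disjoint_left]
        intro x hx
        exact (mem_sdiff.1 (hU'UD hx)).2
      have herase : ∀ C' ∈ 𝒞.erase C, Disjoint C' (C ∪ D) := by
        intro C' hC'
        obtain ⟨hne, hC'⟩ := mem_erase.1 hC'
        rw [disjoint_union_right]
        exact ⟨h.covey.disj C' hC' C hC hne, (h.disjU C' hC').mono_right hDU⟩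
      refine ⟨insert (C ∪ D) (𝒞.erase C), X', U',
        ⟨(h.covey.mono (erase_subset _ _)).insert hCD herase ?_, ?_, ?_, ?_, hU'⟩, ?_⟩
      · intro C' hC'
        obtain ⟨hne, hC'⟩ := mem_erase.1 hC'
        obtain ⟨a, ha, b, hb, hab⟩ := h.covey.adj C' hC' C hC hne
        exact ⟨a, ha, b, mem_union_left _ hb, hab⟩
      · intro x hx
        rcases mem_union.1 hx with hx | hx
        · obtain ⟨hx1, hx2⟩ := mem_sdiff.1 hx
          obtain ⟨C', hC', hxC'⟩ := h.cover x hx1
          refine ⟨C', mem_insert_of_mem (mem_erase.2 ⟨?_, hC'⟩), hxC'⟩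
          rintro rfl
          exact hx2 hxC'
        · exact ⟨C ∪ D, mem_insert_self _ _, mem_union_right _ (mem_inter.1 hx).2⟩
      · intro C' hC'
        rcases mem_insert.1 hC' with rfl | hC'
        · refine (sum_le_sum_of_subset ?_).trans hcZ
          intro x hx
          obtain ⟨hx1, hx2⟩ := mem_inter.1 hx
          rcases mem_union.1 hx1 with hx1 | hx1
          · obtain ⟨hxX, hxC⟩ := mem_sdiff.1 hx1
            rcases mem_union.1 hx2 with hx2 | hx2
            · exact absurd hx2 hxC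
            · exact absurd hxX (disjoint_left.1 h.big.disj (hDU hx2))
          · exact (mem_inter.1 hx1).1
        · obtain ⟨hne, hC'⟩ := mem_erase.1 hC'
          refine (sum_le_sum_of_subset ?_).trans (h.cost C' hC')
          intro x hx
          obtain ⟨hx1, hx2⟩ := mem_inter.1 hx
          rcases mem_union.1 hx1 with hx1 | hx1
          · exact mem_inter.2 ⟨(mem_sdiff.1 hx1).1, hx2⟩
          · exact absurd (hDU (mem_inter.1 hx1).2) (disjoint_left.1 (h.disjU C' hC') hx2)
      · intro C' hC'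
        rcases mem_insert.1 hC' with rfl | hC'
        · rw [disjoint_union_left]
          exact ⟨(h.disjU C hC).mono_right hU'U, hU'D.symm⟩
        · exact (h.disjU C' (mem_of_mem_erase hC')).mono_right hU'U
      · have h1 : (insert (C ∪ D) (𝒞.erase C)).card ≤ 𝒞.card := by
          refine (card_insert_le _ _).trans ?_
          rw [card_erase_add_one hC]
        have h2 : X'.card ≤ X.card + D.card := by
          refine (card_union_le _ _).trans ?_
          exact Nat.add_le_add (card_le_card sdiff_subset) (card_le_card inter_subset_right)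
        have h3 : U'.card + D.card ≤ U.card := by
          rw [← card_union_of_disjoint hU'D]
          exact card_le_card (union_subset hU'U hDU)
        omega

theorem no_state (G : SimpleGraph V) (c : V → ℕ) (t M R B D₀ : ℕ) (hM : 1 ≤ M)
    (hΔ : ∀ v, c v ≤ D₀)
    (hbig : ∀ X : Finset V, ∑ v ∈ X, c v ≤ B → ∃ U, Big G X U)
    (hfree : ∀ 𝒞 : Finset (Finset V), Covey G 𝒞 → 𝒞.card < t)
    (hR1 : D₀ + t * M ≤ R)
    (hR2 : t * (∑ v, c v ^ 2) ≤ M * R)
    (hB : t * R + R ≤ B) (N : ℕ) :
    ∀ (𝒞 : Finset (Finset V)) (X U : Finset V), Good G c R 𝒞 X U →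
      𝒞.card + X.card + 3 * U.card = N → False := by
  induction N using Nat.strong_induction_on with
  | _ N ih =>
    intro 𝒞 X U h hN
    obtain ⟨𝒞', X', U', h', hlt⟩ := step G c t M R B D₀ hM hΔ hbig hfree hR1 hR2 hB h
    exact ih _ (by omega) 𝒞' X' U' h' rfl

/-- Path-pairability. -/
def PP (G : SimpleGraph V) : Prop :=
  ∀ (k : ℕ) (s r : Fin k → V), Function.Injective (Sum.elim s r) →
    ∃ p : (i : Fin k) → G.Walk (s i) (r i),
      (∀ i, (p i).IsPath) ∧ ∀ i j, i ≠ j → ∀ e ∈ (p i).edges, e ∉ (p j).edges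

theorem closed_small {G : SimpleGraph V} [DecidableRel G.Adj] (hP : PP G) {X W : Finset V}
    (hWX : Disjoint W X) (hcl : ∀ u ∈ W, ∀ v, v ∉ X → G.Adj u v → v ∈ W) :
    W.card ≤ ∑ v ∈ X, G.degree v ∨ (univ \ (X ∪ W)).card ≤ ∑ v ∈ X, G.degree v := by
  classical
  by_contra hcon
  push Not at hcon
  obtain ⟨h1, h2⟩ := hcon
  obtain ⟨W₁, hW₁, hc1⟩ := exists_subset_card_eq (Nat.succ_le_of_lt h1)
  obtain ⟨W₂, hW₂, hc2⟩ := exists_subset_card_eq (Nat.succ_le_of_lt h2)
  let e₁ : W₁ ≃ Fin (∑ v ∈ X, G.degree v).succ := Fintype.equivFinOfCardEq (by simpa using hc1)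
  let e₂ : W₂ ≃ Fin (∑ v ∈ X, G.degree v).succ := Fintype.equivFinOfCardEq (by simpa using hc2)
  let s : Fin (∑ v ∈ X, G.degree v).succ → V := fun i => (e₁.symm i : V)
  let r : Fin (∑ v ∈ X, G.degree v).succ → V := fun i => (e₂.symm i : V)
  have hs : ∀ i, s i ∈ W := fun i => hW₁ (e₁.symm i).2
  have hr : ∀ i, r i ∉ X ∧ r i ∉ W := by
    intro i
    have := (mem_sdiff.1 (hW₂ (e₂.symm i).2)).2
    rw [mem_union, not_or] at this
    exact this
  have hinj : Function.Injective (Sum.elim s r) := by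
    refine Function.Injective.sumElim ?_ ?_ ?_
    · intro i j hij
      exact e₁.symm.injective (Subtype.ext hij)
    · intro i j hij
      exact e₂.symm.injective (Subtype.ext hij)
    · intro i j hij
      exact (hr j).2 (hij ▸ hs i)
  obtain ⟨p, _, hpe⟩ := hP _ s r hinj
  have hd : ∀ i, ∃ d ∈ (p i).darts, d.fst ∈ W ∧ d.snd ∈ X := by
    intro i
    obtain ⟨d, hd, h1, h2⟩ := (p i).exists_boundary_dart (W : Set V) (by exact_mod_cast hs i)
      (by exact_mod_cast (hr i).2)
    refine ⟨d, hd, by exact_mod_cast h1, ?_⟩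
    by_contra hc
    exact h2 (by exact_mod_cast hcl d.fst (by exact_mod_cast h1) d.snd hc d.adj)
  choose d hd1 hd2 hd3 using hd
  let f : Fin (∑ v ∈ X, G.degree v).succ → (Σ _ : V, V) := fun i => ⟨(d i).snd, (d i).fst⟩
  have hf : ∀ i ∈ (univ : Finset (Fin (∑ v ∈ X, G.degree v).succ)),
      f i ∈ X.sigma (fun x => G.neighborFinset x) := by
    intro i _
    rw [mem_sigma]
    exact ⟨hd3 i, by rw [SimpleGraph.mem_neighborFinset]; exact (d i).adj.symm⟩
  have hfi : Set.InjOn f (univ : Finset (Fin (∑ v ∈ X, G.degree v).succ)) := by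
    intro i _ j _ hij
    by_contra hne
    have h1 : (d i).edge ∈ (p i).edges := by
      rw [SimpleGraph.Walk.edges]
      exact List.mem_map_of_mem (hd1 i)
    have h2 : (d j).edge ∈ (p j).edges := by
      rw [SimpleGraph.Walk.edges]
      exact List.mem_map_of_mem (hd1 j)
    have h3 : (d i).snd = (d j).snd := congrArg Sigma.fst hij
    have h4 : (d i).fst = (d j).fst := by
      have := hij
      simp only [f, Sigma.mk.injEq, heq_eq_eq] at this
      exact this.2
    have h5 : (d i).edge = (d j).edge := by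
      unfold SimpleGraph.Dart.edge
      rw [h3, h4]
    exact hpe i j hne _ h1 (h5 ▸ h2)
  have hcard := card_le_card_of_injOn f hf hfi
  rw [card_univ, Fintype.card_fin, card_sigma] at hcard
  simp only [SimpleGraph.card_neighborFinset_eq_degree] at hcard
  omega

theorem degree_pos {G : SimpleGraph V} [DecidableRel G.Adj] (hP : PP G) (hV : 2 ≤ Fintype.card V)
    (v : V) : 1 ≤ G.degree v := by
  classical
  by_contra hc
  have h0 : G.degree v = 0 := by omega
  have hno : ∀ w, ¬ G.Adj v w := by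
    intro w hw
    have : w ∈ G.neighborFinset v := by rw [SimpleGraph.mem_neighborFinset]; exact hw
    have h1 : 0 < (G.neighborFinset v).card := card_pos.2 ⟨w, this⟩
    rw [SimpleGraph.card_neighborFinset_eq_degree] at h1
    omega
  have h := closed_small hP (X := ∅) (W := {v}) (disjoint_empty_right _) (by
    intro u hu w _ huw
    rw [mem_singleton.1 hu] at huw
    exact absurd huw (hno w))
  rw [sum_empty, card_singleton, empty_union, card_univ_sdiff, card_singleton] at h
  omega

theorem exists_big {G : SimpleGraph V} [DecidableRel G.Adj] (hP : PP G) (hV : 2 ≤ Fintype.card V)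
    {X : Finset V} (hX : 4 * ∑ v ∈ X, G.degree v < Fintype.card V) : ∃ U, Big G X U := by
  classical
  set σ := ∑ v ∈ X, G.degree v with hσ
  have hXσ : X.card ≤ σ := by
    rw [card_eq_sum_ones, hσ]
    exact sum_le_sum (fun v _ => degree_pos hP hV v)
  let cl : Finset V → Prop := fun W => Disjoint W X ∧ (∀ u ∈ W, ∀ v, v ∉ X → G.Adj u v → v ∈ W)
  let cand := (univ : Finset V).powerset.filter (fun W => cl W ∧ σ < W.card)
  have hmem : (univ \ X) ∈ cand := by
    refine mem_filter.2 ⟨mem_powerset.2 (subset_univ _), ⟨sdiff_disjoint, ?_⟩, ?_⟩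
    · intro u _ v hv _
      exact mem_sdiff.2 ⟨mem_univ _, hv⟩
    · rw [card_univ_sdiff]
      omega
  obtain ⟨U, hU, hmin⟩ := exists_min_image cand (fun W => W.card) ⟨_, hmem⟩
  obtain ⟨_, ⟨hUX, hUcl⟩, hUσ⟩ := mem_filter.1 hU
  have hUbig : Fintype.card V ≤ σ + X.card + U.card := by
    rcases closed_small hP hUX hUcl with h | h
    · omega
    · have h1 : (univ \ (X ∪ U)).card = Fintype.card V - (X ∪ U).card := card_univ_sdiff _
      have h2 : (X ∪ U).card ≤ X.card + U.card := card_union_le _ _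
      omega
  refine ⟨U, ⟨?_, hUX, hUcl, by omega⟩⟩
  refine ⟨card_pos.1 (by omega), ?_⟩
  intro A hA hne hAcl
  by_contra hUA
  have hsub : A ⊂ U := ⟨hA, hUA⟩
  have hAclosed : cl A := by
    refine ⟨hUX.mono_left hA, ?_⟩
    intro u hu v hv huv
    exact hAcl u hu v (hUcl u (hA hu) v hv huv) huv
  have hBclosed : cl (U \ A) := by
    refine ⟨hUX.mono_left sdiff_subset, ?_⟩
    intro u hu v hv huv
    obtain ⟨huU, huA⟩ := mem_sdiff.1 hu
    refine mem_sdiff.2 ⟨hUcl u huU v hv huv, ?_⟩
    intro hvA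
    exact huA (hAcl v hvA u huU huv.symm)
  have h1 : A.card ≤ σ := by
    by_contra hc
    push Not at hc
    have := hmin A (mem_filter.2 ⟨mem_powerset.2 (subset_univ _), hAclosed, hc⟩)
    have := card_lt_card hsub
    omega
  have h2 : (U \ A).card ≤ σ := by
    by_contra hc
    push Not at hc
    have h3 := hmin (U \ A) (mem_filter.2 ⟨mem_powerset.2 (subset_univ _), hBclosed, hc⟩)
    have h4 : (U \ A).card = U.card - A.card := card_sdiff_of_subset hA
    have h5 : 0 < A.card := card_pos.2 hne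
    omega
  have h4 : (U \ A).card = U.card - A.card := card_sdiff_of_subset hA
  omega

theorem core (t : ℕ) (G : SimpleGraph V) [DecidableRel G.Adj] (hV : 2 ≤ Fintype.card V) (hP : PP G)
    (hfree : ∀ 𝒞 : Finset (Finset V), Covey G 𝒞 → 𝒞.card < t) :
    ∃ v : V, Fintype.card V ≤ 1024 * 2 ^ t * (t + 1) ^ 4 * G.degree v := by
  classical
  by_contra hcon
  push Not at hcon
  have hsum := sum_degree_le G t (by omega) hfree
  set n := Fintype.card V with hn
  set a := 2 ^ t with ha
  set s := t + 1 with hs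
  have ha1 : 1 ≤ a := Nat.one_le_two_pow
  have hs1 : 1 ≤ s := by omega
  obtain ⟨v₀⟩ : Nonempty V := Fintype.card_pos_iff.1 (by omega)
  have hs2 : 1 ≤ s ^ 2 := Nat.one_le_pow _ _ hs1
  have hs4 : s ^ 2 ≤ s ^ 4 := Nat.pow_le_pow_right hs1 (by norm_num)
  have hs24 : s ^ 4 = s ^ 2 * s ^ 2 := by ring
  have has : s ^ 4 ≤ a * s ^ 4 := Nat.le_mul_of_pos_left _ ha1
  have hK : 16 * s ^ 2 ≤ 1024 * a * s ^ 4 := by
    rw [mul_assoc]
    omega
  have hn0 : 16 * s ^ 2 < n := by
    have h1 := hcon v₀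
    have h2 := degree_pos hP hV v₀
    have h3 : 1024 * a * s ^ 4 * 1 ≤ 1024 * a * s ^ 4 * G.degree v₀ := Nat.mul_le_mul_left _ h2
    omega
  set q := n / (16 * s ^ 2) with hq
  have hq1 : 1 ≤ q := (Nat.one_le_div_iff (by omega)).2 hn0.le
  have hqn : q * (16 * s ^ 2) ≤ n := Nat.div_mul_le_self _ _
  have hnq : n ≤ 32 * s ^ 2 * q := by
    have h1 : n < (q + 1) * (16 * s ^ 2) := (Nat.div_lt_iff_lt_mul (by omega)).1 (Nat.lt_succ_self _)
    nlinarith
  -- degrees are at most `q`
  have hΔ : ∀ v, G.degree v ≤ q := by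
    intro v
    have h1 := hcon v
    have h2 : 1024 * a * s ^ 4 * G.degree v ≤ 1024 * a * s ^ 4 * q := by
      have h3 : 32 * s ^ 2 * q ≤ 1024 * a * s ^ 4 * q := by
        apply Nat.mul_le_mul_right
        rw [mul_assoc 1024]
        omega
      omega
    exact Nat.le_of_mul_le_mul_left h2 (by positivity)
  -- sum of squares
  have hS : ∑ v, G.degree v ^ 2 ≤ q ^ 2 := by
    have h1 : 1024 * a * s ^ 4 * ∑ v, G.degree v ^ 2 ≤ 1024 * a * s ^ 4 * q ^ 2 := by
      calc 1024 * a * s ^ 4 * ∑ v, G.degree v ^ 2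
          = ∑ v, (1024 * a * s ^ 4 * G.degree v) * G.degree v := by
            rw [mul_sum]
            apply sum_congr rfl
            intro v _
            ring
        _ ≤ ∑ v, n * G.degree v := sum_le_sum (fun v _ => Nat.mul_le_mul_right _ (hcon v).le)
        _ = n * ∑ v, G.degree v := by rw [mul_sum]
        _ ≤ n * (a * n) := Nat.mul_le_mul_left _ hsum
        _ = a * (n * n) := by ring
        _ ≤ a * ((32 * s ^ 2 * q) * (32 * s ^ 2 * q)) :=
            Nat.mul_le_mul_left _ (Nat.mul_le_mul hnq hnq)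
        _ = 1024 * a * s ^ 4 * q ^ 2 := by ring
    exact Nat.le_of_mul_le_mul_left h1 (by positivity)
  have hbig : ∀ X : Finset V, ∑ v ∈ X, G.degree v ≤ 2 * s ^ 2 * q → ∃ U, Big G X U := by
    intro X hX
    apply exists_big hP hV
    have : q * (16 * s ^ 2) = 8 * (2 * s ^ 2 * q) := by ring
    omega
  obtain ⟨U, hU⟩ := hbig ∅ (by simp)
  refine no_state G (fun v => G.degree v) t q (2 * s * q) (2 * s ^ 2 * q) q hq1 hΔ hbig hfree ?_ ?_ ?_ _
    ∅ ∅ U ⟨⟨by simp, by simp, by simp⟩, by simp, by simp, by simp, hU⟩ rfl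
  · rw [hs]; nlinarith
  · calc t * ∑ v, G.degree v ^ 2 ≤ t * q ^ 2 := Nat.mul_le_mul_left _ hS
      _ ≤ (2 * s) * q ^ 2 := Nat.mul_le_mul_right _ (by omega)
      _ = q * (2 * s * q) := by ring
  · rw [hs]
    apply le_of_eq
    ring

/-- For every t there is c>0 such that every finite path-pairable graph on n≥2 vertices with no K_t minor has a vertex of degree at least c·n. -/
theorem result :
    ∀ t : ℕ, ∃ c : ℝ, 0 < c ∧
      ∀ (V : Type) [Fintype V] (G : SimpleGraph V) [DecidableRel G.Adj],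
        2 ≤ Fintype.card V →
        (∀ (k : ℕ) (s r : Fin k → V), Function.Injective (Sum.elim s r) →
          ∃ p : (i : Fin k) → G.Walk (s i) (r i),
            (∀ i, (p i).IsPath) ∧
            ∀ i j, i ≠ j → ∀ e ∈ (p i).edges, e ∉ (p j).edges) →
        (¬ ∃ f : Fin t → Set V,
            (∀ i, (G.induce (f i)).Connected) ∧
            (∀ i j, i ≠ j → Disjoint (f i) (f j)) ∧
            (∀ i j, i ≠ j → ∃ u ∈ f i, ∃ v ∈ f j, G.Adj u v)) →
        ∃ v : V, c * (Fintype.card V : ℝ) ≤ (G.degree v : ℝ) := by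
  intro t
  have hK : (0 : ℝ) < 1024 * 2 ^ t * (t + 1) ^ 4 := by positivity
  refine ⟨(1024 * 2 ^ t * (t + 1) ^ 4 : ℝ)⁻¹, inv_pos.2 hK, ?_⟩
  intro V _ G _ hV hP hminor
  classical
  obtain ⟨v, hv⟩ := core t G hV hP (by
    intro 𝒞 hC
    by_contra hc
    push Not at hc
    exact hminor (hC.minor hc))
  refine ⟨v, ?_⟩
  rw [inv_mul_le_iff₀ hK]
  exact_mod_cast hv

end Pool.Agent.S08825
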