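-- Proof of frozen statement S09124 (disproof of the bound `separation dimension ≥ log₂ χ - c`).
-- We build graphs with separation dimension at most 4 and arbitrarily large chromatic number:
-- a Descartes type construction, where the vertex set of the top level is a vertex-Ramsey
-- structure for pairs of linear orders.
import Pool.Statements.S09124

set_option autoImplicit false
open Pool Pool.MP_6142e4_co

namespace Pool.Agent.S09124

/-- A map of a finite set to a linear order can be replaced by a real valued map. -/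
theorem exists_real_rep {V L : Type} [Finite V] [LinearOrder L] (p : V → L) :
    ∃ q : V → ℝ, ∀ a b, p a < p b ↔ q a < q b := by
  classical
  have _inst := Fintype.ofFinite V
  refine ⟨fun a => ((Finset.univ.filter (fun c => p c < p a)).card : ℝ), ?_⟩
  intro a b
  constructor
  · intro h
    have h1 : (Finset.univ.filter (fun c => p c < p a)) ⊂
        (Finset.univ.filter (fun c => p c < p b)) := by
      rw [Finset.ssubset_iff_of_subset]
      · exact ⟨a, by simp [h], by simp⟩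
      · intro c hc
        simp only [Finset.mem_filter, Finset.mem_univ, true_and] at hc ⊢
        exact hc.trans h
    have h2 := Finset.card_lt_card h1
    simp only [Nat.cast_lt]
    exact h2
  · intro h
    by_contra hn
    push Not at hn
    have h1 : (Finset.univ.filter (fun c => p c < p b)) ⊆
        (Finset.univ.filter (fun c => p c < p a)) := by
      intro c hc
      simp only [Finset.mem_filter, Finset.mem_univ, true_and] at hc ⊢
      exact lt_of_lt_of_le hc hn
    have h2 := Finset.card_le_card h1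
    have h3 : (Finset.univ.filter (fun c => p c < p a)).card <
        (Finset.univ.filter (fun c => p c < p b)).card := by
      simp only [Nat.cast_lt] at h
      exact h
    omega

/-- Vertex-Ramsey property for finite sets with two linear orders. -/
theorem ramsey {V : Type} [Finite V] (p q : V → ℝ) (hp : Function.Injective p)
    (hq : Function.Injective q) (k : ℕ) :
    ∃ (X : Type) (_ : Finite X) (P Q : X → ℝ), Function.Injective P ∧ Function.Injective Q ∧
      ∀ c : X → ℕ, (∀ x, c x < k) → ∃ f : V → X, (∀ a b, p a < p b → P (f a) < P (f b)) ∧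
        (∀ a b, q a < q b → Q (f a) < Q (f b)) ∧ ∀ a b, c (f a) = c (f b) := by
  induction k with
  | zero =>
    refine ⟨Unit, inferInstance, fun _ => 0, fun _ => 0, Function.injective_of_subsingleton _,
      Function.injective_of_subsingleton _, ?_⟩
    intro c hc
    exact absurd (hc ()) (Nat.not_lt_zero _)
  | succ k ih =>
    obtain ⟨X, hX, P, Q, hP, hQ, hR⟩ := ih
    obtain ⟨P', hP'⟩ := exists_real_rep (V := V × X) (L := ℝ ×ₗ ℝ)
      (fun z => toLex (p z.1, P z.2))
    obtain ⟨Q', hQ'⟩ := exists_real_rep (V := V × X) (L := ℝ ×ₗ ℝ)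
      (fun z => toLex (q z.1, Q z.2))
    refine ⟨V × X, inferInstance, P', Q', ?_, ?_, ?_⟩
    · intro z w h
      have h1 := (hP' z w).not.mpr (by rw [h]; exact lt_irrefl _)
      have h2 := (hP' w z).not.mpr (by rw [h]; exact lt_irrefl _)
      have h3 := le_antisymm (not_lt.mp h2) (not_lt.mp h1)
      have h4 := toLex.injective h3
      simp only [Prod.mk.injEq] at h4
      exact Prod.ext (hp h4.1) (hP h4.2)
    · intro z w h
      have h1 := (hQ' z w).not.mpr (by rw [h]; exact lt_irrefl _)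
      have h2 := (hQ' w z).not.mpr (by rw [h]; exact lt_irrefl _)
      have h3 := le_antisymm (not_lt.mp h2) (not_lt.mp h1)
      have h4 := toLex.injective h3
      simp only [Prod.mk.injEq] at h4
      exact Prod.ext (hq h4.1) (hQ h4.2)
    · intro c hc
      by_cases h : ∃ a, ∀ x, c (a, x) ≠ k
      · obtain ⟨a, ha⟩ := h
        obtain ⟨f, hf1, hf2, hf3⟩ := hR (fun x => c (a, x))
          (fun x => by have h1 := hc (a, x); have h2 := ha x; omega)
        refine ⟨fun v => (a, f v), ?_, ?_, hf3⟩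
        · intro u v huv
          rw [← hP', Prod.Lex.toLex_lt_toLex]
          exact Or.inr ⟨rfl, hf1 u v huv⟩
        · intro u v huv
          rw [← hQ', Prod.Lex.toLex_lt_toLex]
          exact Or.inr ⟨rfl, hf2 u v huv⟩
      · push Not at h
        choose g hg using h
        refine ⟨fun v => (v, g v), ?_, ?_, ?_⟩
        · intro u v huv
          rw [← hP', Prod.Lex.toLex_lt_toLex]
          exact Or.inl huv
        · intro u v huv
          rw [← hQ', Prod.Lex.toLex_lt_toLex]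
          exact Or.inl huv
        · intro u v
          rw [hg, hg]

/-- `a, b` both before `x, y`. -/
def Bef {V : Type} (p : V → ℝ) (a b x y : V) : Prop :=
  p a < p x ∧ p a < p y ∧ p b < p x ∧ p b < p y

def Sep {V : Type} (p : V → ℝ) (a b x y : V) : Prop := Bef p a b x y ∨ Bef p x y a b

/-- The pairs `a, b` and `x, y` are separated by one of four maps. -/
def SepAny {V : Type} (p1 p2 p3 p4 : V → ℝ) (a b x y : V) : Prop :=
  Sep p1 a b x y ∨ Sep p2 a b x y ∨ Sep p3 a b x y ∨ Sep p4 a b x y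

/-- `w` is not between `u` and `v`. -/
def Out {V : Type} (p : V → ℝ) (w u v : V) : Prop :=
  (p w < p u ∧ p w < p v) ∨ (p u < p w ∧ p v < p w)

/-- `w` avoids the pair `u, v`. -/
def Avoid {V : Type} (p1 p2 p3 p4 : V → ℝ) (w u v : V) : Prop :=
  (p1 w < p1 u ∧ p1 w < p1 v) ∨ (p2 w < p2 u ∧ p2 w < p2 v) ∨ Out p3 w u v ∨ Out p4 w u v

/-- The inductive invariant. -/
def Good (k : ℕ) : Prop :=
  ∃ (V : Type) (_ : Finite V) (G : SimpleGraph V) (p1 p2 p3 p4 : V → ℝ),
    Function.Injective p3 ∧ Function.Injective p4 ∧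
    (∀ a b x y, G.Adj a b → G.Adj x y → a ≠ x → a ≠ y → b ≠ x → b ≠ y →
      SepAny p1 p2 p3 p4 a b x y) ∧
    (∀ w u v, G.Adj u v → w ≠ u → w ≠ v → Avoid p1 p2 p3 p4 w u v) ∧
    ¬ G.Colorable k

theorem SepAny.symm {V : Type} {p1 p2 p3 p4 : V → ℝ} {a b x y : V}
    (h : SepAny p1 p2 p3 p4 a b x y) : SepAny p1 p2 p3 p4 x y a b := by
  unfold SepAny Sep at *; tauto

theorem Sep.swap_left {V : Type} {p : V → ℝ} {a b x y : V} (h : Sep p a b x y) :
    Sep p b a x y := by
  unfold Sep Bef at *; tauto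

theorem Sep.swap_right {V : Type} {p : V → ℝ} {a b x y : V} (h : Sep p a b x y) :
    Sep p a b y x := by
  unfold Sep Bef at *; tauto

theorem SepAny.swap_left {V : Type} {p1 p2 p3 p4 : V → ℝ} {a b x y : V}
    (h : SepAny p1 p2 p3 p4 a b x y) : SepAny p1 p2 p3 p4 b a x y := by
  rcases h with h | h | h | h
  · exact Or.inl h.swap_left
  · exact Or.inr (Or.inl h.swap_left)
  · exact Or.inr (Or.inr (Or.inl h.swap_left))
  · exact Or.inr (Or.inr (Or.inr h.swap_left))

theorem SepAny.swap_right {V : Type} {p1 p2 p3 p4 : V → ℝ} {a b x y : V}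
    (h : SepAny p1 p2 p3 p4 a b x y) : SepAny p1 p2 p3 p4 a b y x := by
  rcases h with h | h | h | h
  · exact Or.inl h.swap_right
  · exact Or.inr (Or.inl h.swap_right)
  · exact Or.inr (Or.inr (Or.inl h.swap_right))
  · exact Or.inr (Or.inr (Or.inr h.swap_right))

theorem Avoid.swap {V : Type} {p1 p2 p3 p4 : V → ℝ} {w u v : V}
    (h : Avoid p1 p2 p3 p4 w u v) : Avoid p1 p2 p3 p4 w v u := by
  unfold Avoid Out at *; tauto

theorem good_zero : Good 0 := by
  refine ⟨Unit, inferInstance, ⊥, fun _ => 0, fun _ => 0, fun _ => 0, fun _ => 0,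
    Function.injective_of_subsingleton _, Function.injective_of_subsingleton _, ?_, ?_, ?_⟩
  · intro a b x y hab
    exact absurd hab (by simp)
  · intro w u v huv
    exact absurd huv (by simp)
  · rintro ⟨C⟩
    exact Fin.elim0 (C ())

/-- Adjacency of the next graph. -/
def adj' {V X : Type} (G : SimpleGraph V) (S : Set (V → X)) :
    X ⊕ (S × V) → X ⊕ (S × V) → Prop
  | Sum.inl _, Sum.inl _ => False
  | Sum.inl x, Sum.inr (f, v) => f.1 v = x
  | Sum.inr (f, v), Sum.inl x => f.1 v = x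
  | Sum.inr (f, v), Sum.inr (g, w) => f = g ∧ G.Adj v w

/-- The next graph. -/
def next {V X : Type} (G : SimpleGraph V) (S : Set (V → X)) : SimpleGraph (X ⊕ (S × V)) where
  Adj := adj' G S
  symm := ⟨by
    rintro (x | ⟨f, v⟩) (y | ⟨g, w⟩) h
    · exact h
    · exact h
    · exact h
    · exact ⟨h.1.symm, h.2.symm⟩⟩
  loopless := ⟨by
    rintro (x | ⟨f, v⟩) h
    · exact h
    · exact G.loopless.irrefl _ h.2⟩

theorem next_edge {V X : Type} (G : SimpleGraph V) (S : Set (V → X)) (a b : X ⊕ (S × V))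
    (h : (next G S).Adj a b) :
    (∃ (f : S) (w : V), a = Sum.inl (f.1 w) ∧ b = Sum.inr (f, w)) ∨
    (∃ (f : S) (w : V), b = Sum.inl (f.1 w) ∧ a = Sum.inr (f, w)) ∨
    (∃ (f : S) (u v : V), G.Adj u v ∧ a = Sum.inr (f, u) ∧ b = Sum.inr (f, v)) := by
  rcases a with x | ⟨f, v⟩ <;> rcases b with y | ⟨g, w⟩
  · exact h.elim
  · exact Or.inl ⟨g, w, by rw [show x = g.1 w from (show g.1 w = x from h).symm], rfl⟩
  · exact Or.inr (Or.inl ⟨f, v, by rw [show y = f.1 v from (show f.1 v = y from h).symm], rfl⟩)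
  · obtain ⟨h1, h2⟩ := (show f = g ∧ G.Adj v w from h)
    subst h1
    exact Or.inr (Or.inr ⟨f, v, w, h2, rfl, rfl⟩)

theorem good_succ {k : ℕ} (hk : Good k) : Good (k + 1) := by
  classical
  obtain ⟨V, hV, G, p1, p2, p3, p4, hp3, hp4, hsep, hav, hcol⟩ := hk
  obtain ⟨X, hX, P, Q, hP, hQ, hR⟩ := ramsey p3 p4 hp3 hp4 (k + 1)
  let S : Set (V → X) := {f | (∀ a b, p3 a < p3 b → P (f a) < P (f b)) ∧
        (∀ a b, p4 a < p4 b → Q (f a) < Q (f b))}
  have hS3 : ∀ (f : S) (a b : V), p3 a < p3 b → P (f.1 a) < P (f.1 b) := fun f => f.2.1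
  have hS4 : ∀ (f : S) (a b : V), p4 a < p4 b → Q (f.1 a) < Q (f.1 b) := fun f => f.2.2
  have hinj : ∀ (f : S), Function.Injective f.1 := by
    intro f a b hab
    apply hp3
    rcases lt_trichotomy (p3 a) (p3 b) with h | h | h
    · have := hS3 f a b h
      rw [hab] at this
      exact absurd this (lt_irrefl _)
    · exact h
    · have := hS3 f b a h
      rw [hab] at this
      exact absurd this (lt_irrefl _)
  obtain ⟨N, ⟨e⟩⟩ := Finite.exists_equiv_fin S
  -- two opposite positive numberings of `S`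
  obtain ⟨e1, e2, he1, he2, he3⟩ : ∃ e1 e2 : S → ℝ, (∀ f, 0 < e1 f) ∧ (∀ f, 0 < e2 f) ∧
      (∀ f g, f ≠ g → (e1 f < e1 g ∧ e2 g < e2 f) ∨ (e1 g < e1 f ∧ e2 f < e2 g)) := by
    refine ⟨fun f => ((e f : ℕ) : ℝ) + 1, fun f => (N : ℝ) - ((e f : ℕ) : ℝ), ?_, ?_, ?_⟩
    · intro f
      positivity
    · intro f
      have : ((e f : ℕ) : ℝ) < N := by exact_mod_cast (e f).2
      linarith
    · intro f g hfg
      have hne : (e f : ℕ) ≠ (e g : ℕ) := by
        intro h
        exact hfg (e.injective (Fin.ext h))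
      rcases Nat.lt_or_gt_of_ne hne with h | h
      · left
        have : ((e f : ℕ) : ℝ) < ((e g : ℕ) : ℝ) := by exact_mod_cast h
        constructor <;> linarith
      · right
        have : ((e g : ℕ) : ℝ) < ((e f : ℕ) : ℝ) := by exact_mod_cast h
        constructor <;> linarith
  obtain ⟨q1, hq1⟩ := exists_real_rep (V := X ⊕ (S × V)) (L := ℝ ×ₗ ℝ)
      (Sum.elim (fun _ => toLex (0, 0)) (fun z => toLex (e1 z.1, p1 z.2)))
  obtain ⟨q2, hq2⟩ := exists_real_rep (V := X ⊕ (S × V)) (L := ℝ ×ₗ ℝ)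
      (Sum.elim (fun _ => toLex (0, 0)) (fun z => toLex (e2 z.1, p2 z.2)))
  obtain ⟨q3, hq3⟩ := exists_real_rep (V := X ⊕ (S × V)) (L := ℝ ×ₗ ℝ)
      (Sum.elim (fun x => toLex (P x, 0)) (fun z => toLex (P (z.1.1 z.2), e1 z.1)))
  obtain ⟨q4, hq4⟩ := exists_real_rep (V := X ⊕ (S × V)) (L := ℝ ×ₗ ℝ)
      (Sum.elim (fun x => toLex (Q x, 0)) (fun z => toLex (Q (z.1.1 z.2), e2 z.1)))
  -- comparison facts
  have a1 : ∀ (x : X) (f : S) (v : V), q1 (Sum.inl x) < q1 (Sum.inr (f, v)) := by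
    intro x f v
    rw [← hq1]
    simp only [Sum.elim_inl, Sum.elim_inr, Prod.Lex.toLex_lt_toLex]
    exact Or.inl (he1 f)
  have a2 : ∀ (f g : S) (v w : V), e1 f < e1 g → q1 (Sum.inr (f, v)) < q1 (Sum.inr (g, w)) := by
    intro f g v w h
    rw [← hq1]
    simp only [Sum.elim_inr, Prod.Lex.toLex_lt_toLex]
    exact Or.inl h
  have a3 : ∀ (f : S) (v w : V), p1 v < p1 w → q1 (Sum.inr (f, v)) < q1 (Sum.inr (f, w)) := by
    intro f v w h
    rw [← hq1]
    simp only [Sum.elim_inr, Prod.Lex.toLex_lt_toLex]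
    exact Or.inr ⟨trivial, h⟩
  have b1 : ∀ (x : X) (f : S) (v : V), q2 (Sum.inl x) < q2 (Sum.inr (f, v)) := by
    intro x f v
    rw [← hq2]
    simp only [Sum.elim_inl, Sum.elim_inr, Prod.Lex.toLex_lt_toLex]
    exact Or.inl (he2 f)
  have b2 : ∀ (f g : S) (v w : V), e2 f < e2 g → q2 (Sum.inr (f, v)) < q2 (Sum.inr (g, w)) := by
    intro f g v w h
    rw [← hq2]
    simp only [Sum.elim_inr, Prod.Lex.toLex_lt_toLex]
    exact Or.inl h
  have b3 : ∀ (f : S) (v w : V), p2 v < p2 w → q2 (Sum.inr (f, v)) < q2 (Sum.inr (f, w)) := by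
    intro f v w h
    rw [← hq2]
    simp only [Sum.elim_inr, Prod.Lex.toLex_lt_toLex]
    exact Or.inr ⟨trivial, h⟩
  have c1 : ∀ (x : X) (f : S) (v : V), P x < P (f.1 v) →
      q3 (Sum.inl x) < q3 (Sum.inr (f, v)) := by
    intro x f v h
    rw [← hq3]
    simp only [Sum.elim_inl, Sum.elim_inr, Prod.Lex.toLex_lt_toLex]
    exact Or.inl h
  have c2 : ∀ (x : X) (f : S) (v : V), P (f.1 v) < P x →
      q3 (Sum.inr (f, v)) < q3 (Sum.inl x) := by
    intro x f v h
    rw [← hq3]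
    simp only [Sum.elim_inl, Sum.elim_inr, Prod.Lex.toLex_lt_toLex]
    exact Or.inl h
  have c3 : ∀ (f g : S) (v w : V), P (f.1 v) < P (g.1 w) →
      q3 (Sum.inr (f, v)) < q3 (Sum.inr (g, w)) := by
    intro f g v w h
    rw [← hq3]
    simp only [Sum.elim_inr, Prod.Lex.toLex_lt_toLex]
    exact Or.inl h
  have c4 : ∀ (x y : X), P x < P y → q3 (Sum.inl x) < q3 (Sum.inl y) := by
    intro x y h
    rw [← hq3]
    simp only [Sum.elim_inl, Prod.Lex.toLex_lt_toLex]
    exact Or.inl h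
  have c5 : ∀ (f g : S) (v w : V), f.1 v = g.1 w → e1 f < e1 g →
      q3 (Sum.inr (f, v)) < q3 (Sum.inr (g, w)) := by
    intro f g v w h1 h
    rw [← hq3]
    simp only [Sum.elim_inr, Prod.Lex.toLex_lt_toLex]
    exact Or.inr ⟨by rw [h1], h⟩
  have c6 : ∀ (f : S) (v : V), q3 (Sum.inl (f.1 v)) < q3 (Sum.inr (f, v)) := by
    intro f v
    rw [← hq3]
    simp only [Sum.elim_inl, Sum.elim_inr, Prod.Lex.toLex_lt_toLex]
    exact Or.inr ⟨trivial, he1 f⟩
  have d1 : ∀ (x : X) (f : S) (v : V), Q x < Q (f.1 v) →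
      q4 (Sum.inl x) < q4 (Sum.inr (f, v)) := by
    intro x f v h
    rw [← hq4]
    simp only [Sum.elim_inl, Sum.elim_inr, Prod.Lex.toLex_lt_toLex]
    exact Or.inl h
  have d2 : ∀ (x : X) (f : S) (v : V), Q (f.1 v) < Q x →
      q4 (Sum.inr (f, v)) < q4 (Sum.inl x) := by
    intro x f v h
    rw [← hq4]
    simp only [Sum.elim_inl, Sum.elim_inr, Prod.Lex.toLex_lt_toLex]
    exact Or.inl h
  have d3 : ∀ (f g : S) (v w : V), Q (f.1 v) < Q (g.1 w) →
      q4 (Sum.inr (f, v)) < q4 (Sum.inr (g, w)) := by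
    intro f g v w h
    rw [← hq4]
    simp only [Sum.elim_inr, Prod.Lex.toLex_lt_toLex]
    exact Or.inl h
  have d4 : ∀ (x y : X), Q x < Q y → q4 (Sum.inl x) < q4 (Sum.inl y) := by
    intro x y h
    rw [← hq4]
    simp only [Sum.elim_inl, Prod.Lex.toLex_lt_toLex]
    exact Or.inl h
  have d5 : ∀ (f g : S) (v w : V), f.1 v = g.1 w → e2 f < e2 g →
      q4 (Sum.inr (f, v)) < q4 (Sum.inr (g, w)) := by
    intro f g v w h1 h
    rw [← hq4]
    simp only [Sum.elim_inr, Prod.Lex.toLex_lt_toLex]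
    exact Or.inr ⟨by rw [h1], h⟩
  have d6 : ∀ (f : S) (v : V), q4 (Sum.inl (f.1 v)) < q4 (Sum.inr (f, v)) := by
    intro f v
    rw [← hq4]
    simp only [Sum.elim_inl, Sum.elim_inr, Prod.Lex.toLex_lt_toLex]
    exact Or.inr ⟨trivial, he2 f⟩
  refine ⟨X ⊕ (S × V), inferInstance, next G S, q1, q2, q3, q4, ?_, ?_, ?_, ?_, ?_⟩
  · -- injectivity of `q3`
    have key : ∀ a b, a ≠ b → q3 a < q3 b ∨ q3 b < q3 a := by
      rintro (x | ⟨f, v⟩) (y | ⟨g, w⟩) hab
      · have hne : P x ≠ P y := fun h => hab (by rw [hP h])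
        rcases lt_or_gt_of_ne hne with h | h
        · exact Or.inl (c4 _ _ h)
        · exact Or.inr (c4 _ _ h)
      · by_cases hx : x = g.1 w
        · subst hx
          exact Or.inl (c6 g w)
        · have hne : P x ≠ P (g.1 w) := fun h => hx (hP h)
          rcases lt_or_gt_of_ne hne with h | h
          · exact Or.inl (c1 _ _ _ h)
          · exact Or.inr (c2 _ _ _ h)
      · by_cases hx : y = f.1 v
        · subst hx
          exact Or.inr (c6 f v)
        · have hne : P y ≠ P (f.1 v) := fun h => hx (hP h)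
          rcases lt_or_gt_of_ne hne with h | h
          · exact Or.inr (c1 _ _ _ h)
          · exact Or.inl (c2 _ _ _ h)
      · by_cases hx : f.1 v = g.1 w
        · have hfg : f ≠ g := by
            intro h
            subst h
            exact hab (by rw [hinj f hx])
          rcases he3 f g hfg with h | h
          · exact Or.inl (c5 _ _ _ _ hx h.1)
          · exact Or.inr (c5 _ _ _ _ hx.symm h.1)
        · have hne : P (f.1 v) ≠ P (g.1 w) := fun h => hx (hP h)
          rcases lt_or_gt_of_ne hne with h | h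
          · exact Or.inl (c3 _ _ _ _ h)
          · exact Or.inr (c3 _ _ _ _ h)
    intro a b h
    by_contra hne
    rcases key a b hne with h1 | h1
    · rw [h] at h1
      exact lt_irrefl _ h1
    · rw [h] at h1
      exact lt_irrefl _ h1
  · -- injectivity of `q4`
    have key : ∀ a b, a ≠ b → q4 a < q4 b ∨ q4 b < q4 a := by
      rintro (x | ⟨f, v⟩) (y | ⟨g, w⟩) hab
      · have hne : Q x ≠ Q y := fun h => hab (by rw [hQ h])
        rcases lt_or_gt_of_ne hne with h | h
        · exact Or.inl (d4 _ _ h)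
        · exact Or.inr (d4 _ _ h)
      · by_cases hx : x = g.1 w
        · subst hx
          exact Or.inl (d6 g w)
        · have hne : Q x ≠ Q (g.1 w) := fun h => hx (hQ h)
          rcases lt_or_gt_of_ne hne with h | h
          · exact Or.inl (d1 _ _ _ h)
          · exact Or.inr (d2 _ _ _ h)
      · by_cases hx : y = f.1 v
        · subst hx
          exact Or.inr (d6 f v)
        · have hne : Q y ≠ Q (f.1 v) := fun h => hx (hQ h)
          rcases lt_or_gt_of_ne hne with h | h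
          · exact Or.inr (d1 _ _ _ h)
          · exact Or.inl (d2 _ _ _ h)
      · by_cases hx : f.1 v = g.1 w
        · have hfg : f ≠ g := by
            intro h
            subst h
            exact hab (by rw [hinj f hx])
          rcases he3 f g hfg with h | h
          · exact Or.inr (d5 _ _ _ _ hx.symm h.2)
          · exact Or.inl (d5 _ _ _ _ hx h.2)
        · have hne : Q (f.1 v) ≠ Q (g.1 w) := fun h => hx (hQ h)
          rcases lt_or_gt_of_ne hne with h | h
          · exact Or.inl (d3 _ _ _ _ h)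
          · exact Or.inr (d3 _ _ _ _ h)
    intro a b h
    by_contra hne
    rcases key a b hne with h1 | h1
    · rw [h] at h1
      exact lt_irrefl _ h1
    · rw [h] at h1
      exact lt_irrefl _ h1
  · -- separation
    have hMM : ∀ (f g : S) (w z : V), f.1 w ≠ g.1 z →
        SepAny q1 q2 q3 q4 (Sum.inl (f.1 w)) (Sum.inr (f, w)) (Sum.inl (g.1 z))
          (Sum.inr (g, z)) := by
      intro f g w z h
      have h' : P (f.1 w) ≠ P (g.1 z) := fun h1 => h (hP h1)
      rcases lt_or_gt_of_ne h' with h1 | h1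
      · exact Or.inr (Or.inr (Or.inl (Or.inl ⟨c4 _ _ h1, c1 _ _ _ h1, c2 _ _ _ h1,
          c3 _ _ _ _ h1⟩)))
      · exact Or.inr (Or.inr (Or.inl (Or.inr ⟨c4 _ _ h1, c1 _ _ _ h1, c2 _ _ _ h1,
          c3 _ _ _ _ h1⟩)))
    have hMI : ∀ (f g : S) (w u v : V), G.Adj u v → (f, w) ≠ (g, u) → (f, w) ≠ (g, v) →
        SepAny q1 q2 q3 q4 (Sum.inl (f.1 w)) (Sum.inr (f, w)) (Sum.inr (g, u))
          (Sum.inr (g, v)) := by
      intro f g w u v huv hu hv
      by_cases hfg : f = g
      · subst hfg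
        have hwu : w ≠ u := fun h => hu (by rw [h])
        have hwv : w ≠ v := fun h => hv (by rw [h])
        rcases hav w u v huv hwu hwv with h | h | (h | h) | (h | h)
        · exact Or.inl (Or.inl ⟨a1 _ _ _, a1 _ _ _, a3 _ _ _ h.1, a3 _ _ _ h.2⟩)
        · exact Or.inr (Or.inl (Or.inl ⟨b1 _ _ _, b1 _ _ _, b3 _ _ _ h.1, b3 _ _ _ h.2⟩))
        · have h1 := hS3 f _ _ h.1
          have h2 := hS3 f _ _ h.2
          exact Or.inr (Or.inr (Or.inl (Or.inl ⟨c1 _ _ _ h1, c1 _ _ _ h2, c3 _ _ _ _ h1,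
            c3 _ _ _ _ h2⟩)))
        · have h1 := hS3 f _ _ h.1
          have h2 := hS3 f _ _ h.2
          exact Or.inr (Or.inr (Or.inl (Or.inr ⟨c2 _ _ _ h1, c3 _ _ _ _ h1, c2 _ _ _ h2,
            c3 _ _ _ _ h2⟩)))
        · have h1 := hS4 f _ _ h.1
          have h2 := hS4 f _ _ h.2
          exact Or.inr (Or.inr (Or.inr (Or.inl ⟨d1 _ _ _ h1, d1 _ _ _ h2, d3 _ _ _ _ h1,
            d3 _ _ _ _ h2⟩)))
        · have h1 := hS4 f _ _ h.1
          have h2 := hS4 f _ _ h.2
          exact Or.inr (Or.inr (Or.inr (Or.inr ⟨d2 _ _ _ h1, d3 _ _ _ _ h1, d2 _ _ _ h2,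
            d3 _ _ _ _ h2⟩)))
      · rcases he3 f g hfg with h | h
        · exact Or.inl (Or.inl ⟨a1 _ _ _, a1 _ _ _, a2 _ _ _ _ h.1, a2 _ _ _ _ h.1⟩)
        · exact Or.inr (Or.inl (Or.inl ⟨b1 _ _ _, b1 _ _ _, b2 _ _ _ _ h.2, b2 _ _ _ _ h.2⟩))
    have hII : ∀ (f g : S) (u v x y : V), G.Adj u v → G.Adj x y → (f, u) ≠ (g, x) →
        (f, u) ≠ (g, y) → (f, v) ≠ (g, x) → (f, v) ≠ (g, y) →
        SepAny q1 q2 q3 q4 (Sum.inr (f, u)) (Sum.inr (f, v)) (Sum.inr (g, x))
          (Sum.inr (g, y)) := by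
      intro f g u v x y huv hxy h1 h2 h3 h4
      by_cases hfg : f = g
      · subst hfg
        have h1' : u ≠ x := fun h => h1 (by rw [h])
        have h2' : u ≠ y := fun h => h2 (by rw [h])
        have h3' : v ≠ x := fun h => h3 (by rw [h])
        have h4' : v ≠ y := fun h => h4 (by rw [h])
        rcases hsep u v x y huv hxy h1' h2' h3' h4' with (h | h) | (h | h) | (h | h) | (h | h)
        · obtain ⟨i1, i2, i3, i4⟩ := h
          exact Or.inl (Or.inl ⟨a3 _ _ _ i1, a3 _ _ _ i2, a3 _ _ _ i3, a3 _ _ _ i4⟩)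
        · obtain ⟨i1, i2, i3, i4⟩ := h
          exact Or.inl (Or.inr ⟨a3 _ _ _ i1, a3 _ _ _ i2, a3 _ _ _ i3, a3 _ _ _ i4⟩)
        · obtain ⟨i1, i2, i3, i4⟩ := h
          exact Or.inr (Or.inl (Or.inl ⟨b3 _ _ _ i1, b3 _ _ _ i2, b3 _ _ _ i3, b3 _ _ _ i4⟩))
        · obtain ⟨i1, i2, i3, i4⟩ := h
          exact Or.inr (Or.inl (Or.inr ⟨b3 _ _ _ i1, b3 _ _ _ i2, b3 _ _ _ i3, b3 _ _ _ i4⟩))
        · obtain ⟨i1, i2, i3, i4⟩ := h
          exact Or.inr (Or.inr (Or.inl (Or.inl ⟨c3 _ _ _ _ (hS3 f _ _ i1),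
            c3 _ _ _ _ (hS3 f _ _ i2), c3 _ _ _ _ (hS3 f _ _ i3), c3 _ _ _ _ (hS3 f _ _ i4)⟩)))
        · obtain ⟨i1, i2, i3, i4⟩ := h
          exact Or.inr (Or.inr (Or.inl (Or.inr ⟨c3 _ _ _ _ (hS3 f _ _ i1),
            c3 _ _ _ _ (hS3 f _ _ i2), c3 _ _ _ _ (hS3 f _ _ i3), c3 _ _ _ _ (hS3 f _ _ i4)⟩)))
        · obtain ⟨i1, i2, i3, i4⟩ := h
          exact Or.inr (Or.inr (Or.inr (Or.inl ⟨d3 _ _ _ _ (hS4 f _ _ i1),
            d3 _ _ _ _ (hS4 f _ _ i2), d3 _ _ _ _ (hS4 f _ _ i3), d3 _ _ _ _ (hS4 f _ _ i4)⟩)))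
        · obtain ⟨i1, i2, i3, i4⟩ := h
          exact Or.inr (Or.inr (Or.inr (Or.inr ⟨d3 _ _ _ _ (hS4 f _ _ i1),
            d3 _ _ _ _ (hS4 f _ _ i2), d3 _ _ _ _ (hS4 f _ _ i3), d3 _ _ _ _ (hS4 f _ _ i4)⟩)))
      · rcases he3 f g hfg with h | h
        · exact Or.inl (Or.inl ⟨a2 _ _ _ _ h.1, a2 _ _ _ _ h.1, a2 _ _ _ _ h.1, a2 _ _ _ _ h.1⟩)
        · exact Or.inl (Or.inr ⟨a2 _ _ _ _ h.1, a2 _ _ _ _ h.1, a2 _ _ _ _ h.1, a2 _ _ _ _ h.1⟩)
    intro a b x y hab hxy n1 n2 n3 n4
    rcases next_edge G S a b hab with ⟨f, w, rfl, rfl⟩ | ⟨f, w, rfl, rfl⟩ | ⟨f, u, v, huv, rfl, rfl⟩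
      <;> rcases next_edge G S x y hxy with ⟨g, z, rfl, rfl⟩ | ⟨g, z, rfl, rfl⟩ |
        ⟨g, s, t, hst, rfl, rfl⟩
    · exact hMM f g w z (fun h => n1 (by rw [h]))
    · exact (hMM f g w z (fun h => n2 (by rw [h]))).swap_right
    · exact hMI f g w s t hst (fun h => n3 (by rw [h])) (fun h => n4 (by rw [h]))
    · exact (hMM f g w z (fun h => n3 (by rw [h]))).swap_left
    · exact (hMM f g w z (fun h => n4 (by rw [h]))).swap_left.swap_right
    · exact (hMI f g w s t hst (fun h => n1 (by rw [h])) (fun h => n2 (by rw [h]))).swap_left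
    · exact (hMI g f z u v huv (fun h => n2 (by rw [h])) (fun h => n4 (by rw [h]))).symm
    · exact (hMI g f z u v huv (fun h => n1 (by rw [h])) (fun h => n3 (by rw [h]))).symm.swap_right
    · exact hII f g u v s t huv hst (fun h => n1 (by rw [h])) (fun h => n2 (by rw [h]))
        (fun h => n3 (by rw [h])) (fun h => n4 (by rw [h]))
  · -- avoidance
    have hM : ∀ (a : X ⊕ (S × V)) (f : S) (w : V), a ≠ Sum.inl (f.1 w) → a ≠ Sum.inr (f, w) →
        Avoid q1 q2 q3 q4 a (Sum.inl (f.1 w)) (Sum.inr (f, w)) := by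
      intro a f w h1 h2
      rcases a with x | ⟨g, z⟩
      · have hne : P x ≠ P (f.1 w) := fun h => h1 (by rw [hP h])
        rcases lt_or_gt_of_ne hne with h | h
        · exact Or.inr (Or.inr (Or.inl (Or.inl ⟨c4 _ _ h, c1 _ _ _ h⟩)))
        · exact Or.inr (Or.inr (Or.inl (Or.inr ⟨c4 _ _ h, c2 _ _ _ h⟩)))
      · by_cases hk : g.1 z = f.1 w
        · have hgf : g ≠ f := by
            intro h
            subst h
            exact h2 (by rw [hinj g hk])
          rcases he3 g f hgf with h | h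
          · refine Or.inr (Or.inr (Or.inr (Or.inr ⟨?_, d5 _ _ _ _ hk.symm h.2⟩)))
            rw [← hk]
            exact d6 g z
          · refine Or.inr (Or.inr (Or.inl (Or.inr ⟨?_, c5 _ _ _ _ hk.symm h.1⟩)))
            rw [← hk]
            exact c6 g z
        · have hne : P (g.1 z) ≠ P (f.1 w) := fun h => hk (hP h)
          rcases lt_or_gt_of_ne hne with h | h
          · exact Or.inr (Or.inr (Or.inl (Or.inl ⟨c2 _ _ _ h, c3 _ _ _ _ h⟩)))
          · exact Or.inr (Or.inr (Or.inl (Or.inr ⟨c1 _ _ _ h, c3 _ _ _ _ h⟩)))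
    intro a x y hxy h1 h2
    rcases next_edge G S x y hxy with ⟨f, w, rfl, rfl⟩ | ⟨f, w, rfl, rfl⟩ | ⟨f, u, v, huv, rfl, rfl⟩
    · exact hM a f w h1 h2
    · exact (hM a f w h2 h1).swap
    · rcases a with x | ⟨g, z⟩
      · exact Or.inl ⟨a1 _ _ _, a1 _ _ _⟩
      · by_cases hgf : g = f
        · subst hgf
          have hzu : z ≠ u := fun h => h1 (by rw [h])
          have hzv : z ≠ v := fun h => h2 (by rw [h])
          rcases hav z u v huv hzu hzv with h | h | (h | h) | (h | h)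
          · exact Or.inl ⟨a3 _ _ _ h.1, a3 _ _ _ h.2⟩
          · exact Or.inr (Or.inl ⟨b3 _ _ _ h.1, b3 _ _ _ h.2⟩)
          · exact Or.inr (Or.inr (Or.inl (Or.inl ⟨c3 _ _ _ _ (hS3 g _ _ h.1),
              c3 _ _ _ _ (hS3 g _ _ h.2)⟩)))
          · exact Or.inr (Or.inr (Or.inl (Or.inr ⟨c3 _ _ _ _ (hS3 g _ _ h.1),
              c3 _ _ _ _ (hS3 g _ _ h.2)⟩)))
          · exact Or.inr (Or.inr (Or.inr (Or.inl ⟨d3 _ _ _ _ (hS4 g _ _ h.1),
              d3 _ _ _ _ (hS4 g _ _ h.2)⟩)))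
          · exact Or.inr (Or.inr (Or.inr (Or.inr ⟨d3 _ _ _ _ (hS4 g _ _ h.1),
              d3 _ _ _ _ (hS4 g _ _ h.2)⟩)))
        · rcases he3 g f hgf with h | h
          · exact Or.inl ⟨a2 _ _ _ _ h.1, a2 _ _ _ _ h.1⟩
          · exact Or.inr (Or.inl ⟨b2 _ _ _ _ h.2, b2 _ _ _ _ h.2⟩)
  · -- chromatic number
    rintro ⟨C⟩
    obtain ⟨f, hf1, hf2, hf3⟩ := hR (fun x => (C (Sum.inl x) : ℕ)) (fun x => (C (Sum.inl x)).2)
    let F : S := ⟨f, hf1, hf2⟩
    apply hcol
    by_cases hne : Nonempty V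
    · obtain ⟨v0⟩ := hne
      have hav' : ∀ v, C (Sum.inr (F, v)) ≠ C (Sum.inl (f v0)) := by
        intro v h
        have h1 : (next G S).Adj (Sum.inl (f v)) (Sum.inr (F, v)) := (rfl : F.1 v = f v)
        have h2 := C.valid h1
        apply h2
        rw [h]
        exact Fin.ext (hf3 v v0)
      -- recolor with `{c // c ≠ c0}`
      have hC : G.Coloring {c : Fin (k + 1) // c ≠ C (Sum.inl (f v0))} := by
        refine SimpleGraph.Coloring.mk (fun v => ⟨C (Sum.inr (F, v)), hav' v⟩) ?_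
        intro u v huv h
        have h1 : (next G S).Adj (Sum.inr (F, u)) (Sum.inr (F, v)) := ⟨rfl, huv⟩
        exact C.valid h1 (congrArg Subtype.val h)
      have h3 := hC.colorable
      have h4 : Fintype.card {c : Fin (k + 1) // c ≠ C (Sum.inl (f v0))} = k := by
        simp [Fintype.card_subtype_compl]
      rwa [h4] at h3
    · have : IsEmpty V := not_nonempty_iff.mp hne
      exact ⟨SimpleGraph.Coloring.mk (fun v => (this.false v).elim)
        (fun {v} => (this.false v).elim)⟩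

theorem good_all (k : ℕ) : Good k := by
  induction k with
  | zero => exact good_zero
  | succ k ih => exact good_succ ih

/-- Graphs of separation dimension at most four with arbitrarily large chromatic number. -/
theorem four_dim (k : ℕ) : ∃ (n : ℕ) (G : SimpleGraph (Fin n)),
    (∃ f : Fin 4 → Fin n → ℝ,
        ∀ a b x y : Fin n, G.Adj a b → G.Adj x y →
          a ≠ x → a ≠ y → b ≠ x → b ≠ y →
          ∃ i : Fin 4,
            max (f i a) (f i b) < min (f i x) (f i y) ∨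
            max (f i x) (f i y) < min (f i a) (f i b)) ∧ ¬ G.Colorable k := by
  obtain ⟨V, hV, G, p1, p2, p3, p4, hp3, hp4, hsep, hav, hcol⟩ := good_all k
  obtain ⟨n, ⟨e⟩⟩ := Finite.exists_equiv_fin V
  refine ⟨n, G.comap e.symm, ⟨![fun v => p1 (e.symm v), fun v => p2 (e.symm v),
    fun v => p3 (e.symm v), fun v => p4 (e.symm v)], ?_⟩, ?_⟩
  · intro a b x y hab hxy n1 n2 n3 n4
    have conv : ∀ (p : V → ℝ) (a b x y : V), Sep p a b x y →
        (max (p a) (p b) < min (p x) (p y) ∨ max (p x) (p y) < min (p a) (p b)) := by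
      intro p a b x y h
      simp only [max_lt_iff, lt_min_iff]
      rcases h with ⟨h1, h2, h3, h4⟩ | ⟨h1, h2, h3, h4⟩
      · exact Or.inl ⟨⟨h1, h3⟩, ⟨h2, h4⟩⟩
      · exact Or.inr ⟨⟨h1, h3⟩, ⟨h2, h4⟩⟩
    have h := hsep (e.symm a) (e.symm b) (e.symm x) (e.symm y) hab hxy
      (fun h => n1 (e.symm.injective h)) (fun h => n2 (e.symm.injective h))
      (fun h => n3 (e.symm.injective h)) (fun h => n4 (e.symm.injective h))
    rcases h with h | h | h | h
    · exact ⟨0, conv _ _ _ _ _ h⟩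
    · exact ⟨1, conv _ _ _ _ _ h⟩
    · exact ⟨2, conv _ _ _ _ _ h⟩
    · exact ⟨3, conv _ _ _ _ _ h⟩
  · rintro ⟨C⟩
    apply hcol
    refine ⟨SimpleGraph.Coloring.mk (fun v => C (e v)) ?_⟩
    intro u v huv
    apply C.valid
    simpa using huv

/-- The negation of the preceding statement: There is a constant c such that for every finite graph G, any d vertex orderings separating every pair of disjoint edges satisfy d ≥ log₂ χ(G) − c, i.e. separation dimension ≥ log₂ χ(G) − c. -/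
theorem result :
    ¬ (∃ c : ℝ, ∀ (n : ℕ) (G : SimpleGraph (Fin n)) (d : ℕ),
      (∃ f : Fin d → Fin n → ℝ,
        ∀ a b x y : Fin n, G.Adj a b → G.Adj x y →
          a ≠ x → a ≠ y → b ≠ x → b ≠ y →
          ∃ i : Fin d,
            max (f i a) (f i b) < min (f i x) (f i y) ∨
            max (f i x) (f i y) < min (f i a) (f i b)) →
      Real.logb 2 (G.chromaticNumber.toNat : ℝ) - c ≤ (d : ℝ)) := by
  rintro ⟨c, hc⟩
  obtain ⟨m, hm⟩ := exists_nat_gt (4 + c)
  obtain ⟨n, G, hf, hG⟩ := four_dim (2 ^ m)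
  have h1 := hc n G 4 hf
  have hfin : G.chromaticNumber ≠ ⊤ :=
    SimpleGraph.chromaticNumber_ne_top_iff_exists.mpr ⟨n, by
      simpa using G.colorable_of_fintype⟩
  have h2 : 2 ^ m ≤ G.chromaticNumber.toNat := by
    by_contra hlt
    push Not at hlt
    apply hG
    have h3 : G.Colorable G.chromaticNumber.toNat := by
      have h4 : G.chromaticNumber ≤ (G.chromaticNumber.toNat : ℕ∞) := by
        rw [ENat.natCast_toNat hfin]
      exact SimpleGraph.chromaticNumber_le_iff_colorable.mp h4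
    exact h3.mono hlt.le
  have h3 : (m : ℝ) ≤ Real.logb 2 (G.chromaticNumber.toNat : ℝ) := by
    have h4 : ((2 : ℝ) ^ m) ≤ (G.chromaticNumber.toNat : ℝ) := by exact_mod_cast h2
    rw [Real.le_logb_iff_rpow_le (by norm_num) (lt_of_lt_of_le (by positivity) h4)]
    rw [Real.rpow_natCast]
    exact h4
  norm_num at h1
  linarith

end Pool.Agent.S09124
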