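import Pool.Statements.S09402
import Pool.Agent.Lib.MP_6f5d36_co.Nine

set_option autoImplicit false
open scoped Classical
open Pool Pool.MP_6f5d36_co

namespace Pool.Agent.S09402

/-- The negation of the preceding statement: For every n there are n points in the plane, no three collinear and no four on a circle, with exactly n−1 distinct distances, such that for each i from 1 to n−1 some distance occurs between exactly i pairs. -/
theorem result :
    ¬ (∀ n : ℕ, ∃ S : Finset (EuclideanSpace ℝ (Fin 2)),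
      S.card = n ∧
      (∀ p ∈ S, ∀ q ∈ S, ∀ r ∈ S, p ≠ q → p ≠ r → q ≠ r →
        ¬ Collinear ℝ ({p, q, r} : Set (EuclideanSpace ℝ (Fin 2)))) ∧
      (∀ a ∈ S, ∀ b ∈ S, ∀ c ∈ S, ∀ d ∈ S,
        a ≠ b → a ≠ c → a ≠ d → b ≠ c → b ≠ d → c ≠ d →
        ¬ EuclideanGeometry.Cospherical ({a, b, c, d} : Set (EuclideanSpace ℝ (Fin 2)))) ∧
      (S.offDiag.image (fun p => dist p.1 p.2)).card = n - 1 ∧
      ∀ i ∈ Finset.Icc 1 (n - 1), ∃ d : ℝ,
        (S.offDiag.filter (fun p => dist p.1 p.2 = d)).card = 2 * i) := by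
  exact CR.frozen_of 9 (by norm_num) CR.nine

end Pool.Agent.S09402
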