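import Pool.Statements.S09684

set_option autoImplicit false
open Pool Pool.MP_7c785d_co

namespace Pool.Agent.S09684

/-- The edge list of the counterexample: the graph obtained from `K_6` on the hubs `0, ..., 5` by
subdividing once each edge inside `{0, 1}` and each edge inside `{2, 3, 4, 5}`.  The vertex `6`
subdivides `01`, and `7, ..., 12` subdivide the six edges inside `{2, 3, 4, 5}`. -/
def edges : List (Fin 13 × Fin 13) :=
  [(0,2),(0,3),(0,4),(0,5),(1,2),(1,3),(1,4),(1,5),
   (6,0),(6,1),(7,2),(7,3),(8,2),(8,4),(9,2),(9,5),(10,3),(10,4),(11,3),(11,5),(12,4),(12,5)]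

/-- Boolean adjacency. -/
def adjB (a b : Fin 13) : Bool := edges.contains (a, b) || edges.contains (b, a)

/-- The counterexample graph. -/
def G : SimpleGraph (Fin 13) where
  Adj a b := adjB a b = true
  symm := ⟨by decide⟩
  loopless := ⟨by decide⟩

instance : DecidableRel G.Adj := fun a b => inferInstanceAs (Decidable (adjB a b = true))

/-- Branch-set index of each vertex in a `K_6` minor model. -/
def br : Fin 13 → Fin 6 := ![0, 1, 2, 3, 4, 5, 1, 3, 4, 5, 4, 5, 5]

/-- Centre (hub) of each branch set. -/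
def ctr : Fin 6 → Fin 13 := ![0, 1, 2, 3, 4, 5]

theorem br_ctr : ∀ i, br (ctr i) = i := by decide

theorem adj_ctr : ∀ v : Fin 13, v ≠ ctr (br v) → G.Adj (ctr (br v)) v := by decide

theorem minor_edges : ∀ i j : Fin 6, i ≠ j → ∃ u v : Fin 13, br u = i ∧ br v = j ∧ G.Adj u v := by
  decide

theorem no_triangle : ∀ a b c : Fin 13, ¬ (G.Adj a b ∧ G.Adj b c ∧ G.Adj a c) := by decide

/-- Subdivision vertices are pairwise non-adjacent. -/
theorem sub_indep : ∀ a b : Fin 13, 6 ≤ a.val → 6 ≤ b.val → ¬ G.Adj a b := by decide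

/-- A subdivision vertex has at most two neighbours. -/
theorem sub_deg : ∀ t x y z : Fin 13, 6 ≤ t.val → G.Adj t x → G.Adj t y → G.Adj t z →
    x = y ∨ x = z ∨ y = z := by decide

/-- Hubs of different parts are adjacent. -/
theorem hub_adj : ∀ a b : Fin 13, a.val < 2 → 2 ≤ b.val → b.val < 6 → G.Adj a b := by decide

/-- An induced connected subgraph all of whose vertices are subdivision vertices is a point. -/
theorem single (S : Set (Fin 13)) (hS : (G.induce S).Connected) (h6 : ∀ v ∈ S, 6 ≤ v.val)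
    (a b : Fin 13) (ha : a ∈ S) (hb : b ∈ S) : a = b := by
  by_contra hab
  have hr : (G.induce S).Reachable ⟨a, ha⟩ ⟨b, hb⟩ := hS.preconnected _ _
  obtain ⟨w⟩ := hr
  cases w with
  | nil => exact hab rfl
  | @cons _ c _ h _ =>
    have h1 : G.Adj a c.1 := h
    exact sub_indep a c.1 (h6 a ha) (h6 c.1 c.2) h1

/-- There are three indices on the opposite side. -/
theorem opp : ∀ i : Fin 6, ∃ j1 j2 j3 : Fin 6, j1 ≠ j2 ∧ j1 ≠ j3 ∧
    j2 ≠ j3 ∧ ¬ (i.val < 3 ↔ j1.val < 3) ∧ ¬ (i.val < 3 ↔ j2.val < 3) ∧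
    ¬ (i.val < 3 ↔ j3.val < 3) := by decide

/-- There are three indices on the same side. -/
theorem same : ∀ i : Fin 6, ∃ j1 j2 j3 : Fin 6, j1 ≠ j2 ∧ j1 ≠ j3 ∧
    j2 ≠ j3 ∧ (i.val < 3 ↔ j1.val < 3) ∧ (i.val < 3 ↔ j2.val < 3) ∧
    (i.val < 3 ↔ j3.val < 3) := by decide

/-- The `K_6` minor model of the counterexample. -/
theorem hasK6 : ∃ B : Fin 6 → Set (Fin 13),
    (∀ i, (G.induce (B i)).Connected) ∧
    (∀ i j, i ≠ j → Disjoint (B i) (B j)) ∧
    (∀ i j, i ≠ j → ∃ u ∈ B i, ∃ v ∈ B j, G.Adj u v) := by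
  refine ⟨fun i => {v | br v = i}, ?_, ?_, ?_⟩
  · intro i
    have hc : ctr i ∈ {v : Fin 13 | br v = i} := br_ctr i
    rw [SimpleGraph.connected_iff_exists_forall_reachable]
    refine ⟨⟨ctr i, hc⟩, ?_⟩
    rintro ⟨v, hv⟩
    by_cases e : v = ctr i
    · subst e; exact SimpleGraph.Reachable.refl _
    · apply SimpleGraph.Adj.reachable
      have hv' : br v = i := hv
      have := adj_ctr v (by rw [hv']; exact e)
      rw [hv'] at this
      exact this
  · intro i j hij
    rw [Set.disjoint_left]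
    intro v hv hv'
    exact hij (hv.symm.trans hv')
  · intro i j hij
    obtain ⟨u, v, hu, hv, ha⟩ := minor_edges i j hij
    exact ⟨u, hu, v, hv, ha⟩

theorem result :
    ¬ (∀ (V : Type) [Fintype V] (G : SimpleGraph V),
      (∃ B : Fin 6 → Set V,
          (∀ i, (G.induce (B i)).Connected) ∧
          (∀ i j, i ≠ j → Disjoint (B i) (B j)) ∧
          (∀ i j, i ≠ j → ∃ u ∈ B i, ∃ v ∈ B j, G.Adj u v)) →
      (∃ a b c : V, G.Adj a b ∧ G.Adj b c ∧ G.Adj a c) ∨
      (∃ B : Fin 6 → Set V,
          (∀ i, (G.induce (B i)).Connected) ∧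
          (∀ i j, i ≠ j → Disjoint (B i) (B j)) ∧
          (∀ i j, i ≠ j →
            ((∃ u ∈ B i, ∃ v ∈ B j, G.Adj u v) ↔ ¬ (i.val < 3 ↔ j.val < 3))))) := by
  intro H
  rcases H (Fin 13) G hasK6 with ⟨a, b, c, h⟩ | ⟨B, hconn, hdisj, hadj⟩
  · exact no_triangle a b c h
  · -- each branch set contains a hub
    have hub : ∀ i, ∃ v ∈ B i, v.val < 6 := by
      intro i
      by_contra hno
      push Not at hno
      obtain ⟨⟨t, ht⟩⟩ := (hconn i).nonempty
      have hsing : ∀ v ∈ B i, v = t := fun v hv => single (B i) (hconn i) hno v t hv ht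
      -- three branch sets on the other side
      obtain ⟨j1, j2, j3, h12, h13, h23, o1, o2, o3⟩ := opp i
      have key : ∀ j : Fin 6, ¬ (i.val < 3 ↔ j.val < 3) → ∃ v ∈ B j, G.Adj t v := by
        intro j hj
        have hij : i ≠ j := by rintro rfl; exact hj Iff.rfl
        obtain ⟨u, hu, v, hv, huv⟩ := (hadj i j hij).2 hj
        rw [hsing u hu] at huv
        exact ⟨v, hv, huv⟩
      obtain ⟨v1, hv1, a1⟩ := key j1 o1
      obtain ⟨v2, hv2, a2⟩ := key j2 o2
      obtain ⟨v3, hv3, a3⟩ := key j3 o3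
      rcases sub_deg t v1 v2 v3 (hno t ht) a1 a2 a3 with h | h | h
      · subst h; exact (Set.disjoint_left.1 (hdisj j1 j2 h12)) hv1 hv2
      · subst h; exact (Set.disjoint_left.1 (hdisj j1 j3 h13)) hv1 hv3
      · subst h; exact (Set.disjoint_left.1 (hdisj j2 j3 h23)) hv2 hv3
    choose h hB h6 using hub
    have hinj : Function.Injective h := by
      intro i j hij
      by_contra hne
      exact (Set.disjoint_left.1 (hdisj i j hne)) (hB i) (hij ▸ hB j)
    -- hubs on the same side are not adjacent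
    have hnadj : ∀ i j : Fin 6, (i.val < 3 ↔ j.val < 3) → ¬ G.Adj (h i) (h j) := by
      intro i j hs ha
      have hij : i ≠ j := by
        rintro rfl; exact G.loopless.irrefl _ ha
      exact ((hadj i j hij).1 ⟨h i, hB i, h j, hB j, ha⟩) hs
    -- no hub of the small part is used
    have hno : ∀ i : Fin 6, 2 ≤ (h i).val := by
      intro i
      by_contra hlt
      push Not at hlt
      have hall : ∀ j : Fin 6, (i.val < 3 ↔ j.val < 3) → (h j).val < 2 := by
        intro j hs
        by_contra hge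
        push Not at hge
        exact hnadj i j hs (hub_adj _ _ hlt hge (h6 j))
      obtain ⟨j1, j2, j3, h12, h13, h23, o1, o2, o3⟩ := same i
      have b1 := hall j1 o1
      have b2 := hall j2 o2
      have b3 := hall j3 o3
      have n12 : (h j1).val ≠ (h j2).val := fun e => h12 (hinj (Fin.ext e))
      have n13 : (h j1).val ≠ (h j3).val := fun e => h13 (hinj (Fin.ext e))
      have n23 : (h j2).val ≠ (h j3).val := fun e => h23 (hinj (Fin.ext e))
      omega
    -- six hubs among four
    let f : Fin 6 → Fin 4 := fun i => ⟨(h i).val - 2, by have := h6 i; have := hno i; omega⟩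
    have hf : Function.Injective f := by
      intro i j hij
      apply hinj
      apply Fin.ext
      have e : (h i).val - 2 = (h j).val - 2 := congrArg Fin.val hij
      have := hno i
      have := hno j
      omega
    have hc := Fintype.card_le_of_injective f hf
    simp at hc

end Pool.Agent.S09684
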