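import Pool.Statements.S09891
import Pool.Agent.Lib.MP_86b854_co.Main

set_option autoImplicit false
open Pool Pool.MP_86b854_co

namespace Pool.Agent.S09891

/-- Every finite triangle-free graph that can be drawn in the plane without crossings is (7,2)-choosable: from any 7-colour lists one can choose 2 colours per vertex so that adjacent vertices get disjoint pairs. -/
theorem result :
    ∀ (V : Type) [Fintype V] (G : SimpleGraph V),
      G.CliqueFree 3 →
      (∃ (p : V → ℝ × ℝ) (γ : ∀ u v : V, Path (p u) (p v)),
          Function.Injective p ∧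
          (∀ u v : V, G.Adj u v → Function.Injective ⇑(γ u v)) ∧
          (∀ (u v z : V) (a : unitInterval), G.Adj u v → γ u v a = p z → a = 0 ∨ a = 1) ∧
          (∀ (u v w x : V) (a b : unitInterval), G.Adj u v → G.Adj w x →
              Sym2.mk (u, v) ≠ Sym2.mk (w, x) → γ u v a = γ w x b → a = 0 ∨ a = 1)) →
      ∀ L : V → Finset ℕ, (∀ v, (L v).card = 7) →
        ∃ f : V → Finset ℕ, (∀ v, f v ⊆ L v ∧ (f v).card = 2) ∧
          ∀ u v, G.Adj u v → Disjoint (f u) (f v) := by
  intro V _ G hG hD L hL
  exact C7.choosable_drawn V G hG hD L hL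

end Pool.Agent.S09891
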