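import Pool.Statements.S10499
import Pool.Agent.Lib.MP_a1b8b7_co.D.Fin

set_option autoImplicit false
open Pool Pool.MP_a1b8b7_co

namespace Pool.Agent.S10499

/-- For every ε>0 and all large n, every graph on n vertices or its complement contains at least (1/20−ε)n² triangles, any two distinct ones sharing at most one vertex (i.e. edge-disjoint). -/
theorem result :
    ∀ ε : ℝ, 0 < ε → ∃ N : ℕ, ∀ n : ℕ, N ≤ n → ∀ G : SimpleGraph (Fin n),
      ∃ H : SimpleGraph (Fin n), (H = G ∨ H = Gᶜ) ∧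
        ∃ P : Finset (Finset (Fin n)),
          (∀ t ∈ P, H.IsNClique 3 t) ∧
          (∀ t ∈ P, ∀ s ∈ P, t ≠ s → (t ∩ s).card ≤ 1) ∧
          ((1 : ℝ) / 20 - ε) * (n : ℝ) ^ 2 ≤ (P.card : ℝ) :=
  HR.jacobson_of_model HR.Dat.model

end Pool.Agent.S10499
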