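import Pool.Statements.S10957
import Pool.Agent.Lib.MP_b6048d_co.F.AsmG
import Pool.Agent.Lib.MP_b6048d_co.F.AsmE

set_option autoImplicit false
open Pool Pool.MP_b6048d_co

namespace Pool.Agent.S10957

/-- For every graph with chromatic number exactly aleph_0, if S is the set of its cycle lengths, then the limsup as N→∞ of (1/log N) times the sum of 1/m over m in S with m<N equals 1. -/
theorem result :
    ∀ (V : Type) (G : SimpleGraph V),
      G.chromaticNumber = ⊤ → Nonempty (G.Coloring ℕ) →
      Filter.limsup
        (fun N : ℕ =>
          (1 / Real.log (N : ℝ)) *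
            ∑ m ∈ Finset.range N,
              ({n : ℕ | ∃ (v : V) (p : G.Walk v v), p.IsCycle ∧ p.length = n}).indicator
                (fun k : ℕ => (1 : ℝ) / (k : ℝ)) m)
        Filter.atTop = 1 := by
  intro V G hG _
  exact Pool.Agent.Lib.MP_b6048d_co.F.final_of_color
    Pool.Agent.Lib.MP_b6048d_co.F.colorThm' V G hG

end Pool.Agent.S10957
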