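import Pool.Statements.S11006

set_option autoImplicit false
open scoped Pointwise
open Pool Pool.MP_b7cbb2_co

namespace Pool.Agent.S11006

/-- The six vertices of the octahedron `{x ∈ [0,1]^3 : 1 ≤ x₀ + x₁ + x₂ ≤ 2}`. -/
def V : Finset (Fin 3 → ℤ) :=
  {![1, 0, 0], ![0, 1, 0], ![0, 0, 1], ![1, 1, 0], ![1, 0, 1], ![0, 1, 1]}

/-- The octahedron as a convex hull. -/
def P : Set (Fin 3 → ℝ) :=
  convexHull ℝ ((fun v : Fin 3 → ℤ => fun j => ((v j : ℤ) : ℝ)) '' (V : Set (Fin 3 → ℤ)))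

lemma P_convex : Convex ℝ P := convex_convexHull ℝ _

lemma mem_of_V {v : Fin 3 → ℤ} (hv : v ∈ V) : (fun j => ((v j : ℤ) : ℝ)) ∈ P :=
  subset_convexHull ℝ _ ⟨v, hv, rfl⟩

lemma p100 : (![1, 0, 0] : Fin 3 → ℝ) ∈ P := by
  have h := mem_of_V (v := ![1, 0, 0]) (by decide)
  convert h using 1
  ext j; fin_cases j <;> simp
lemma p010 : (![0, 1, 0] : Fin 3 → ℝ) ∈ P := by
  have h := mem_of_V (v := ![0, 1, 0]) (by decide)
  convert h using 1
  ext j; fin_cases j <;> simp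
lemma p001 : (![0, 0, 1] : Fin 3 → ℝ) ∈ P := by
  have h := mem_of_V (v := ![0, 0, 1]) (by decide)
  convert h using 1
  ext j; fin_cases j <;> simp
lemma p110 : (![1, 1, 0] : Fin 3 → ℝ) ∈ P := by
  have h := mem_of_V (v := ![1, 1, 0]) (by decide)
  convert h using 1
  ext j; fin_cases j <;> simp
lemma p101 : (![1, 0, 1] : Fin 3 → ℝ) ∈ P := by
  have h := mem_of_V (v := ![1, 0, 1]) (by decide)
  convert h using 1
  ext j; fin_cases j <;> simp
lemma p011 : (![0, 1, 1] : Fin 3 → ℝ) ∈ P := by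
  have h := mem_of_V (v := ![0, 1, 1]) (by decide)
  convert h using 1
  ext j; fin_cases j <;> simp

/-- four-point convex combinations -/
lemma comb4 {S : Set (Fin 3 → ℝ)} (hS : Convex ℝ S) {p q r s : Fin 3 → ℝ}
    (hp : p ∈ S) (hq : q ∈ S) (hr : r ∈ S) (hs : s ∈ S) {a b c d : ℝ}
    (ha : 0 ≤ a) (hb : 0 ≤ b) (hc : 0 ≤ c) (hd : 0 ≤ d) (h : a + b + c + d = 1) :
    a • p + b • q + c • r + d • s ∈ S := by
  have := hS.sum_mem (t := Finset.univ) (w := ![a, b, c, d]) (z := ![p, q, r, s])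
    (by intro i _; fin_cases i <;> simpa) (by simp [Fin.sum_univ_four, h])
    (by intro i _; fin_cases i <;> simpa)
  simpa [Fin.sum_univ_four] using this

lemma mem_P_iff (x : Fin 3 → ℝ) : x ∈ P ↔
    (0 ≤ x 0 ∧ x 0 ≤ 1) ∧ (0 ≤ x 1 ∧ x 1 ≤ 1) ∧ (0 ≤ x 2 ∧ x 2 ≤ 1) ∧
      1 ≤ x 0 + x 1 + x 2 ∧ x 0 + x 1 + x 2 ≤ 2 := by
  constructor
  · intro hx
    have hsub : P ⊆ {x : Fin 3 → ℝ | (0 ≤ x 0 ∧ x 0 ≤ 1) ∧ (0 ≤ x 1 ∧ x 1 ≤ 1) ∧
        (0 ≤ x 2 ∧ x 2 ≤ 1) ∧ 1 ≤ x 0 + x 1 + x 2 ∧ x 0 + x 1 + x 2 ≤ 2} := by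
      apply convexHull_min
      · rintro _ ⟨v, hv, rfl⟩
        simp only [V, Finset.coe_insert, Finset.coe_singleton, Set.mem_insert_iff,
          Set.mem_singleton_iff] at hv
        rcases hv with rfl | rfl | rfl | rfl | rfl | rfl <;> simp <;> norm_num
      · intro u hu v hv a b ha hb hab
        simp only [Set.mem_ofPred_eq, Pi.add_apply, Pi.smul_apply, smul_eq_mul] at *
        obtain ⟨⟨hu1, hu2⟩, ⟨hu3, hu4⟩, ⟨hu5, hu6⟩, hu7, hu8⟩ := hu
        obtain ⟨⟨hv1, hv2⟩, ⟨hv3, hv4⟩, ⟨hv5, hv6⟩, hv7, hv8⟩ := hv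
        have hb' : b = 1 - a := by linarith
        subst hb'
        refine ⟨⟨?_, ?_⟩, ⟨?_, ?_⟩, ⟨?_, ?_⟩, ?_, ?_⟩ <;> nlinarith
    exact hsub hx
  · rintro ⟨⟨h1, h2⟩, ⟨h3, h4⟩, ⟨h5, h6⟩, h7, h8⟩
    rcases le_total (x 0 + x 1) 1 with hab | hab <;> rcases le_total (x 0 + x 2) 1 with hac | hac
    · -- tetrahedron e0, e1+e2, e2, e1
      have := comb4 P_convex p100 p011 p001 p010 (a := x 0) (b := x 0 + x 1 + x 2 - 1)
        (c := 1 - x 0 - x 1) (d := 1 - x 0 - x 2) (by linarith) (by linarith) (by linarith)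
        (by linarith) (by ring)
      convert this using 1
      ext j; fin_cases j <;> simp <;> ring
    · -- a+b ≤ 1, a+c ≥ 1 : e0, e1+e2, e0+e2, e2
      have := comb4 P_convex p100 p011 p101 p001 (a := 1 - x 2) (b := x 1)
        (c := x 0 + x 2 - 1) (d := 1 - x 0 - x 1) (by linarith) (by linarith) (by linarith)
        (by linarith) (by ring)
      convert this using 1
      ext j; fin_cases j <;> simp <;> ring
    · -- a+b ≥ 1, a+c ≤ 1 : e0, e1+e2, e0+e1, e1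
      have := comb4 P_convex p100 p011 p110 p010 (a := 1 - x 1) (b := x 2)
        (c := x 0 + x 1 - 1) (d := 1 - x 0 - x 2) (by linarith) (by linarith) (by linarith)
        (by linarith) (by ring)
      convert this using 1
      ext j; fin_cases j <;> simp <;> ring
    · -- a+b ≥ 1, a+c ≥ 1 : e0, e1+e2, e0+e1, e0+e2
      have := comb4 P_convex p100 p011 p110 p101 (a := 2 - x 0 - x 1 - x 2) (b := 1 - x 0)
        (c := x 0 + x 1 - 1) (d := x 0 + x 2 - 1) (by linarith) (by linarith) (by linarith)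
        (by linarith) (by ring)
      convert this using 1
      ext j; fin_cases j <;> simp <;> ring

/-- lattice points of the dilates -/
lemma mem_smul_P_iff (m : ℕ) (x : Fin 3 → ℤ) :
    (fun j => ((x j : ℤ) : ℝ)) ∈ (m : ℝ) • P ↔
    (0 ≤ x 0 ∧ x 0 ≤ m) ∧ (0 ≤ x 1 ∧ x 1 ≤ m) ∧ (0 ≤ x 2 ∧ x 2 ≤ m) ∧
      (m : ℤ) ≤ x 0 + x 1 + x 2 ∧ x 0 + x 1 + x 2 ≤ 2 * m := by
  rcases Nat.eq_zero_or_pos m with rfl | hm
  · have hne : P.Nonempty := ⟨_, p100⟩
    rw [Nat.cast_zero, Set.zero_smul_set hne]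
    simp only [Set.mem_zero]
    constructor
    · intro h
      have h0 := congrFun h 0
      have h1 := congrFun h 1
      have h2 := congrFun h 2
      simp at h0 h1 h2
      simp [h0, h1, h2]
    · rintro ⟨⟨h1, h2⟩, ⟨h3, h4⟩, ⟨h5, h6⟩, h7, h8⟩
      simp at h2 h4 h6
      funext j
      fin_cases j
      · simp; omega
      · simp; omega
      · simp; omega
  · have hm' : (0 : ℝ) < m := by exact_mod_cast hm
    rw [Set.mem_smul_set_iff_inv_smul_mem₀ hm'.ne', mem_P_iff]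
    simp only [Pi.smul_apply, smul_eq_mul]
    have e : ∀ a b : ℝ, (m : ℝ)⁻¹ * a ≤ b ↔ a ≤ m * b := by
      intro a b
      rw [inv_mul_le_iff₀ hm']
    have e' : ∀ a b : ℝ, b ≤ (m : ℝ)⁻¹ * a ↔ m * b ≤ a := by
      intro a b
      rw [le_inv_mul_iff₀ hm']
    rw [← mul_add, ← mul_add]
    simp only [e, e', mul_zero, mul_one]
    constructor
    · rintro ⟨⟨h1, h2⟩, ⟨h3, h4⟩, ⟨h5, h6⟩, h7, h8⟩
      refine ⟨⟨?_, ?_⟩, ⟨?_, ?_⟩, ⟨?_, ?_⟩, ?_, ?_⟩
      · exact_mod_cast h1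
      · exact_mod_cast h2
      · exact_mod_cast h3
      · exact_mod_cast h4
      · exact_mod_cast h5
      · exact_mod_cast h6
      · exact_mod_cast h7
      · have : ((x 0 + x 1 + x 2 : ℤ) : ℝ) ≤ ((2 * m : ℤ) : ℝ) := by
          push_cast; linarith
        exact_mod_cast this
    · rintro ⟨⟨h1, h2⟩, ⟨h3, h4⟩, ⟨h5, h6⟩, h7, h8⟩
      refine ⟨⟨?_, ?_⟩, ⟨?_, ?_⟩, ⟨?_, ?_⟩, ?_, ?_⟩
      · exact_mod_cast h1
      · exact_mod_cast h2
      · exact_mod_cast h3
      · exact_mod_cast h4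
      · exact_mod_cast h5
      · exact_mod_cast h6
      · exact_mod_cast h7
      · have : ((x 0 + x 1 + x 2 : ℤ) : ℝ) ≤ ((2 * m : ℤ) : ℝ) := by
          exact_mod_cast h8
        push_cast at this; linarith


/-! ### Counting: the identity element -/

lemma sum_abs (k : ℕ) (n : ℕ) : 
    2 * ∑ b ∈ Finset.range (k + n), |(k : ℤ) - b| = k * (k + 1) + (n - 1) * n := by
  induction n with
  | zero =>
    simp only [add_zero]
    induction k with
    | zero => simp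
    | succ k ih =>
      have h1 : ∑ b ∈ Finset.range k, |((k + 1 : ℕ) : ℤ) - b| 
          = ∑ b ∈ Finset.range k, (|(k : ℤ) - b| + 1) := by
        apply Finset.sum_congr rfl
        intro b hb
        have hb' : b < k := Finset.mem_range.mp hb
        have : (b : ℤ) < k := by exact_mod_cast hb'
        push_cast
        rw [abs_of_nonneg (by linarith), abs_of_nonneg (by linarith)]
        ring
      rw [Finset.sum_range_succ, h1, Finset.sum_add_distrib, mul_add, mul_add, ih]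
      simp
      push_cast
      ring
  | succ n ih =>
    rw [← add_assoc, Finset.sum_range_succ, mul_add, ih]
    have : |(k : ℤ) - ((k + n : ℕ) : ℤ)| = n := by
      push_cast
      rw [show (k : ℤ) - (k + n) = -n by ring, abs_neg, Nat.abs_cast]
    rw [this]
    push_cast
    ring

lemma sum_two (M : ℤ) (n : ℕ) :
    3 * ∑ a ∈ Finset.range n, (((M - a) * (M - a + 1)) + (a : ℤ) * (a + 1))
      = M * (M + 1) * (M + 2) - (M - n) * (M - n + 1) * (M - n + 2) + (n - 1) * n * (n + 1) := by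
  induction n with
  | zero => simp
  | succ n ih =>
    rw [Finset.sum_range_succ, mul_add, ih]
    push_cast
    ring

/-- the set of lattice points -/
def L (m : ℕ) : Set (Fin 3 → ℤ) :=
  {x | (0 ≤ x 0 ∧ x 0 ≤ m) ∧ (0 ≤ x 1 ∧ x 1 ≤ m) ∧ (0 ≤ x 2 ∧ x 2 ≤ m) ∧
      (m : ℤ) ≤ x 0 + x 1 + x 2 ∧ x 0 + x 1 + x 2 ≤ 2 * m}

/-- the same set as a finset -/
noncomputable def LF (m : ℕ) : Finset (Fin 3 → ℤ) :=
  ((Finset.range (m + 1) ×ˢ Finset.range (m + 1)).sigma (fun p =>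
    Finset.Icc (max 0 ((m : ℤ) - p.1 - p.2)) (min (m : ℤ) (2 * m - p.1 - p.2)))).image
    (fun q => ![(q.1.1 : ℤ), (q.1.2 : ℤ), q.2])

lemma L_eq (m : ℕ) : L m = (LF m : Set (Fin 3 → ℤ)) := by
  ext x
  simp only [L, LF, Set.mem_ofPred_eq, Finset.coe_image, Set.mem_image, Finset.mem_coe,
    Finset.mem_sigma, Finset.mem_product, Finset.mem_range, Finset.mem_Icc, max_le_iff,
    le_min_iff]
  constructor
  · rintro ⟨⟨h1, h2⟩, ⟨h3, h4⟩, ⟨h5, h6⟩, h7, h8⟩
    refine ⟨⟨((x 0).toNat, (x 1).toNat), x 2⟩, ⟨⟨?_, ?_⟩, ⟨?_, ?_⟩, ⟨?_, ?_⟩⟩, ?_⟩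
    · simp; omega
    · simp; omega
    · simp; omega
    · simp; omega
    · simp; omega
    · simp; omega
    · funext j
      fin_cases j
      · simp; omega
      · simp; omega
      · simp
  · rintro ⟨⟨⟨a, b⟩, c⟩, ⟨⟨h1, h2⟩, ⟨h3, h4⟩, ⟨h5, h6⟩⟩, rfl⟩
    simp at *
    omega

lemma card_LF (m : ℕ) : 3 * ((LF m).card : ℤ) = 3 * (m + 1) ^ 3 - m * (m + 1) * (m + 2) := by
  have h1 : (LF m).card = ∑ p ∈ Finset.range (m + 1) ×ˢ Finset.range (m + 1),
      (Finset.Icc (max 0 ((m : ℤ) - p.1 - p.2)) (min (m : ℤ) (2 * m - p.1 - p.2))).card := by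
    rw [LF, Finset.card_image_of_injective, Finset.card_sigma]
    rintro ⟨⟨a, b⟩, c⟩ ⟨⟨a', b'⟩, c'⟩ h
    have h0 := congrFun h 0
    have h1 := congrFun h 1
    have h2 := congrFun h 2
    simp at h0 h1 h2
    subst h0 h1 h2
    rfl
  have h2 : ((LF m).card : ℤ) = ∑ a ∈ Finset.range (m + 1), ∑ b ∈ Finset.range (m + 1),
      ((m : ℤ) + 1 - |((m - a : ℕ) : ℤ) - b|) := by
    rw [h1, Finset.sum_product]
    push_cast
    apply Finset.sum_congr rfl
    intro a ha
    apply Finset.sum_congr rfl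
    intro b hb
    have ha' : a < m + 1 := Finset.mem_range.mp ha
    have hb' : b < m + 1 := Finset.mem_range.mp hb
    simp only [Int.card_Icc]
    rcases le_total (a + b) m with h | h
    · rw [max_eq_right (by omega), min_eq_left (by omega), abs_of_nonneg (by omega)]
      omega
    · rw [max_eq_left (by omega), min_eq_right (by omega), abs_of_nonpos (by omega)]
      omega
  have h3 : ∀ a ∈ Finset.range (m + 1), 2 * ∑ b ∈ Finset.range (m + 1),
      ((m : ℤ) + 1 - |((m - a : ℕ) : ℤ) - b|) =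
      2 * (m + 1) ^ 2 - (((m : ℤ) - a) * (m - a + 1) + (a : ℤ) * (a + 1)) := by
    intro a ha
    have ha' : a < m + 1 := Finset.mem_range.mp ha
    have := sum_abs (m - a) (a + 1)
    rw [show m - a + (a + 1) = m + 1 by omega] at this
    rw [Finset.sum_sub_distrib, mul_sub, this, Nat.cast_sub (by omega)]
    simp
    ring
  have h4 : 2 * ((LF m).card : ℤ) = ∑ a ∈ Finset.range (m + 1),
      (2 * (m + 1 : ℤ) ^ 2 - (((m : ℤ) - a) * (m - a + 1) + (a : ℤ) * (a + 1))) := by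
    rw [h2, Finset.mul_sum]
    exact Finset.sum_congr rfl h3
  have h5 := sum_two (m : ℤ) (m + 1)
  rw [Finset.sum_sub_distrib] at h4
  simp only [Finset.sum_const, Finset.card_range, nsmul_eq_mul] at h4
  push_cast at h4 h5
  nlinarith [h4, h5]


lemma ncard_L (m : ℕ) : 3 * ((L m).ncard : ℤ) = 3 * (m + 1) ^ 3 - m * (m + 1) * (m + 2) := by
  rw [L_eq, Set.ncard_coe_finset]
  exact card_LF m

/-! ### Counting: the rotations -/

/-- the set of lattice points fixed by the rotation -/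
def D (m : ℕ) : Set (Fin 3 → ℤ) := {x | x ∈ L m ∧ x 0 = x 1 ∧ x 1 = x 2}

lemma ncard_D (m : ℕ) : ((D m).ncard : ℤ) = (2 * m / 3 : ℤ) - ((m + 2) / 3 : ℤ) + 1 := by
  have h : D m = ((Finset.Icc (((m : ℤ) + 2) / 3) (2 * m / 3)).image 
      (fun a : ℤ => ![a, a, a]) : Finset (Fin 3 → ℤ)) := by
    ext x
    simp only [D, L, Set.mem_ofPred_eq, Finset.coe_image, Set.mem_image, Finset.mem_coe,
      Finset.mem_Icc]
    constructor
    · rintro ⟨⟨⟨h1, h2⟩, ⟨h3, h4⟩, ⟨h5, h6⟩, h7, h8⟩, h9, h10⟩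
      refine ⟨x 0, ⟨by omega, by omega⟩, ?_⟩
      funext j
      fin_cases j
      · simp
      · simp; omega
      · simp; omega
    · rintro ⟨a, ⟨h1, h2⟩, rfl⟩
      simp
      omega
  rw [h, Set.ncard_coe_finset, Finset.card_image_of_injective, Int.card_Icc]
  · omega
  · intro a b hab
    simpa using congrFun hab 0

/-! ### The group action -/

/-- the cyclic permutation matrix -/
def A : Matrix (Fin 3) (Fin 3) ℤ := !![0, 1, 0; 0, 0, 1; 1, 0, 0]
/-- its inverse -/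
def B : Matrix (Fin 3) (Fin 3) ℤ := !![0, 0, 1; 1, 0, 0; 0, 1, 0]

lemma AB : A * B = 1 := by decide
lemma BA : B * A = 1 := by decide

/-- the rotations as invertible matrices -/
def R : Fin 3 → Matrix.GeneralLinearGroup (Fin 3) ℤ :=
  ![1, ⟨A, B, AB, BA⟩, ⟨B, A, BA, AB⟩]

lemma R_mul : ∀ a b : Fin 3, R (a + b) = R a * R b := by decide

/-- the group -/
abbrev G : Type := Multiplicative (ZMod 3)

/-- the action -/
def rho : G →* Matrix.GeneralLinearGroup (Fin 3) ℤ where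
  toFun := fun k => R (Multiplicative.toAdd k : ZMod 3)
  map_one' := rfl
  map_mul' := fun _ _ => R_mul _ _


/-! ### Power series -/

open PowerSeries in
lemma coeff_mul_one_sub_X_pow (f : PowerSeries ℤ) (k n : ℕ) :
    PowerSeries.coeff (R := ℤ) n (f * (1 - PowerSeries.X ^ k)) =
      PowerSeries.coeff (R := ℤ) n f - 
        if k ≤ n then PowerSeries.coeff (R := ℤ) (n - k) f else 0 := by
  rw [mul_sub, mul_one, map_sub, PowerSeries.coeff_mul_X_pow']

lemma series_one (f : ℕ → ℤ) (hf : ∀ m, 3 * f m = 3 * (m + 1) ^ 3 - m * (m + 1) * (m + 2)) :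
    PowerSeries.mk f * (1 - PowerSeries.X) ^ 4 =
      1 + 2 * PowerSeries.X + PowerSeries.X ^ 2 := by
  have e : PowerSeries.mk f * (1 - PowerSeries.X) ^ 4 =
      PowerSeries.mk f * (1 - PowerSeries.X ^ 1) * (1 - PowerSeries.X ^ 1) * 
        (1 - PowerSeries.X ^ 1) * (1 - PowerSeries.X ^ 1) := by ring
  rw [e]
  ext n
  simp only [coeff_mul_one_sub_X_pow, PowerSeries.coeff_mk]
  have f0 := hf 0
  have f1 := hf 1
  have f2 := hf 2
  have f3 := hf 3
  norm_num at f0 f1 f2 f3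
  have e2 : (2 : PowerSeries ℤ) * PowerSeries.X = PowerSeries.C (R := ℤ) 2 * PowerSeries.X := by
    simp
  rw [e2]
  simp only [map_add, PowerSeries.coeff_one, PowerSeries.coeff_C_mul, PowerSeries.coeff_X,
    PowerSeries.coeff_X_pow]
  match n with
  | 0 => simp; omega
  | 1 => simp; omega
  | 2 => simp; omega
  | 3 => simp; omega
  | n + 4 =>
    have g0 := hf (n + 4)
    have g1 := hf (n + 3)
    have g2 := hf (n + 2)
    have g3 := hf (n + 1)
    have g4 := hf n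
    push_cast at g0 g1 g2 g3 g4
    have k1 : 1 ≤ n + 4 := by omega
    have k2 : 1 ≤ n + 3 := by omega
    have k3 : 1 ≤ n + 2 := by omega
    have k4 : 1 ≤ n + 1 := by omega
    simp only [show n + 4 - 1 = n + 3 by omega, show n + 3 - 1 = n + 2 by omega,
      show n + 2 - 1 = n + 1 by omega, show n + 1 - 1 = n by omega, if_pos k1, if_pos k2,
      if_pos k3, if_pos k4, show n + 4 ≠ 0 by omega, show n + 4 ≠ 1 by omega,
      show n + 4 ≠ 2 by omega, if_false]
    nlinarith [g0, g1, g2, g3, g4]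

lemma series_rot (f : ℕ → ℤ) (hf : ∀ m : ℕ, f m = (2 * m / 3 : ℤ) - ((m + 2) / 3 : ℤ) + 1) :
    PowerSeries.mk f * (1 - PowerSeries.X) * (1 - PowerSeries.X ^ 3) =
      1 - PowerSeries.X + PowerSeries.X ^ 2 := by
  have e : PowerSeries.mk f * (1 - PowerSeries.X) * (1 - PowerSeries.X ^ 3) =
      PowerSeries.mk f * (1 - PowerSeries.X ^ 1) * (1 - PowerSeries.X ^ 3) := by ring
  rw [e]
  ext n
  simp only [coeff_mul_one_sub_X_pow, PowerSeries.coeff_mk]
  have f0 := hf 0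
  have f1 := hf 1
  have f2 := hf 2
  have f3 := hf 3
  norm_num at f0 f1 f2 f3
  simp only [map_add, map_sub, PowerSeries.coeff_one, PowerSeries.coeff_X,
    PowerSeries.coeff_X_pow]
  match n with
  | 0 => simp; omega
  | 1 => simp; omega
  | 2 => simp; omega
  | 3 => simp; omega
  | n + 4 =>
    have g0 := hf (n + 4)
    have g1 := hf (n + 3)
    have g3 := hf (n + 1)
    have g4 := hf n
    push_cast at g0 g1 g3 g4
    simp only [show n + 4 - 1 = n + 3 by omega, show n + 4 - 3 = n + 1 by omega,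
      show n + 1 - 1 = n by omega, show n + 4 ≠ 0 by omega, show n + 4 ≠ 1 by omega,
      show n + 4 ≠ 2 by omega, if_false, show 1 ≤ n + 4 by omega, show 3 ≤ n + 4 by omega,
      show 1 ≤ n + 1 by omega, if_true]
    have a1 : 2 * ((n : ℤ) + 4) / 3 = 2 * (n + 1) / 3 + 2 := by omega
    have a2 : ((n : ℤ) + 4 + 2) / 3 = (n + 1 + 2) / 3 + 1 := by omega
    have a3 : 2 * ((n : ℤ) + 3) / 3 = 2 * n / 3 + 2 := by omega
    have a4 : ((n : ℤ) + 3 + 2) / 3 = (n + 2) / 3 + 1 := by omega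
    linarith

lemma det_one : (Matrix.det (1 - (Polynomial.X : Polynomial ℤ) •
    ((1 : Matrix (Fin 3) (Fin 3) ℤ)).map Polynomial.C) : Polynomial ℤ) = 
      (1 - Polynomial.X) ^ 3 := by
  rw [Matrix.det_fin_three]
  simp
  ring

lemma det_A : (Matrix.det (1 - (Polynomial.X : Polynomial ℤ) •
    (A).map Polynomial.C) : Polynomial ℤ) = 1 - Polynomial.X ^ 3 := by
  rw [Matrix.det_fin_three]
  simp [A]
  ring

lemma det_B : (Matrix.det (1 - (Polynomial.X : Polynomial ℤ) •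
    (B).map Polynomial.C) : Polynomial ℤ) = 1 - Polynomial.X ^ 3 := by
  rw [Matrix.det_fin_three]
  simp [B]
  ring


/-! ### Fixed points -/

lemma mulVec_A (x : Fin 3 → ℤ) : Matrix.mulVec A x = x ↔ x 0 = x 1 ∧ x 1 = x 2 := by
  constructor
  · intro h
    have h0 := congrFun h 0
    have h1 := congrFun h 1
    simp [A, Matrix.mulVec, dotProduct, Fin.sum_univ_three] at h0 h1
    exact ⟨h0.symm, h1.symm⟩
  · rintro ⟨h0, h1⟩
    funext j
    fin_cases j <;> simp [A, Matrix.mulVec, dotProduct, Fin.sum_univ_three] <;> omega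

lemma mulVec_B (x : Fin 3 → ℤ) : Matrix.mulVec B x = x ↔ x 0 = x 1 ∧ x 1 = x 2 := by
  constructor
  · intro h
    have h0 := congrFun h 0
    have h1 := congrFun h 1
    simp [B, Matrix.mulVec, dotProduct, Fin.sum_univ_three] at h0 h1
    omega
  · rintro ⟨h0, h1⟩
    funext j
    fin_cases j <;> simp [B, Matrix.mulVec, dotProduct, Fin.sum_univ_three] <;> omega

/-- the equivariant series, by its definition -/
noncomputable def Phi (g : G) : PowerSeries ℤ :=
  PowerSeries.mk (fun m : ℕ =>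
    ((Set.ncard {x : Fin 3 → ℤ |
      (fun j => ((x j : ℤ) : ℝ)) ∈ (m : ℝ) • P ∧
      Matrix.mulVec (rho g : Matrix (Fin 3) (Fin 3) ℤ) x = x} : ℕ) : ℤ))
    * (1 - PowerSeries.X)
    * ((Matrix.det (1 - (Polynomial.X : Polynomial ℤ) •
        (rho g : Matrix (Fin 3) (Fin 3) ℤ).map Polynomial.C) : Polynomial ℤ) : PowerSeries ℤ)

lemma Phi_one : Phi 1 = 1 + 2 * PowerSeries.X + PowerSeries.X ^ 2 := by
  rw [Phi, map_one, Units.val_one, det_one]
  have h : ∀ m : ℕ, {x : Fin 3 → ℤ | (fun j => ((x j : ℤ) : ℝ)) ∈ (m : ℝ) • P ∧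
      Matrix.mulVec (1 : Matrix (Fin 3) (Fin 3) ℤ) x = x} = L m := by
    intro m
    ext x
    simp only [Set.mem_ofPred_eq, mem_smul_P_iff, Matrix.one_mulVec, and_true, L]
  simp only [h]
  rw [← series_one (fun m => ((L m).ncard : ℤ)) ncard_L]
  simp
  ring

lemma Phi_of_fix (g : G) (h1 : ∀ x : Fin 3 → ℤ,
    Matrix.mulVec (rho g : Matrix (Fin 3) (Fin 3) ℤ) x = x ↔ x 0 = x 1 ∧ x 1 = x 2)
    (h2 : (Matrix.det (1 - (Polynomial.X : Polynomial ℤ) •
      (rho g : Matrix (Fin 3) (Fin 3) ℤ).map Polynomial.C) : Polynomial ℤ)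
        = 1 - Polynomial.X ^ 3) :
    Phi g = 1 - PowerSeries.X + PowerSeries.X ^ 2 := by
  rw [Phi, h2]
  have h : ∀ m : ℕ, {x : Fin 3 → ℤ | (fun j => ((x j : ℤ) : ℝ)) ∈ (m : ℝ) • P ∧
      Matrix.mulVec (rho g : Matrix (Fin 3) (Fin 3) ℤ) x = x} = D m := by
    intro m
    ext x
    simp only [Set.mem_ofPred_eq, mem_smul_P_iff, h1, L, D]
  simp only [h]
  rw [← series_rot (fun m => ((D m).ncard : ℤ)) ncard_D]
  simp

lemma Phi_A : Phi (Multiplicative.ofAdd (1 : ZMod 3)) = 1 - PowerSeries.X + PowerSeries.X ^ 2 :=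
  Phi_of_fix _ mulVec_A det_A

lemma Phi_B : Phi (Multiplicative.ofAdd (2 : ZMod 3)) = 1 - PowerSeries.X + PowerSeries.X ^ 2 :=
  Phi_of_fix _ mulVec_B det_B

lemma G_cases (g : G) : g = 1 ∨ g = Multiplicative.ofAdd (1 : ZMod 3) ∨
    g = Multiplicative.ofAdd (2 : ZMod 3) := by
  revert g
  decide

lemma sum_G (f : G → ℤ) : ∑ g : G, f g = f 1 + f (Multiplicative.ofAdd (1 : ZMod 3)) +
    f (Multiplicative.ofAdd (2 : ZMod 3)) :=
  Fin.sum_univ_three f

lemma V_inv : ∀ g : G, ∀ v ∈ V,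
    Matrix.mulVec (rho g : Matrix (Fin 3) (Fin 3) ℤ) v ∈ V := by
  decide

lemma vectorSpan_P : vectorSpan ℝ P = ⊤ := by
  rw [eq_top_iff]
  intro x _
  have e0 : (![1, 0, 0] : Fin 3 → ℝ) ∈ vectorSpan ℝ P := by
    have := vsub_mem_vectorSpan ℝ p110 p010
    convert this using 1
    ext j; fin_cases j <;> simp
  have e1 : (![0, 1, 0] : Fin 3 → ℝ) ∈ vectorSpan ℝ P := by
    have := vsub_mem_vectorSpan ℝ p110 p100
    convert this using 1
    ext j; fin_cases j <;> simp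
  have e2 : (![0, 0, 1] : Fin 3 → ℝ) ∈ vectorSpan ℝ P := by
    have := vsub_mem_vectorSpan ℝ p101 p100
    convert this using 1
    ext j; fin_cases j <;> simp
  have h : x = x 0 • (![1, 0, 0] : Fin 3 → ℝ) + x 1 • (![0, 1, 0] : Fin 3 → ℝ) + 
      x 2 • (![0, 0, 1] : Fin 3 → ℝ) := by
    funext j
    fin_cases j <;> simp
  rw [h]
  exact Submodule.add_mem _ (Submodule.add_mem _ (Submodule.smul_mem _ _ e0)
    (Submodule.smul_mem _ _ e1)) (Submodule.smul_mem _ _ e2)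

/-- The negation of the preceding statement: For any finite group acting linearly on Z^n and invariant lattice polytope P whose equivariant h*-series is a polynomial, every coefficient with positive h*_i has nonzero sum over the group, i.e. contains the trivial representation. -/
theorem result :
    ¬ (∀ (G : Type) [Group G] [Fintype G] (n : ℕ)
      (ρ : G →* Matrix.GeneralLinearGroup (Fin n) ℤ)
      (V : Finset (Fin n → ℤ)) (P : Set (Fin n → ℝ)),
      V.Nonempty →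
      (∀ g : G, ∀ v ∈ V,
        Matrix.mulVec (ρ g : Matrix (Fin n) (Fin n) ℤ) v ∈ V) →
      P = convexHull ℝ
        ((fun v : Fin n → ℤ => fun j => ((v j : ℤ) : ℝ)) '' (V : Set (Fin n → ℤ))) →
      ∀ (d : ℕ) (ι : (Fin d → ℤ) →ₗ[ℤ] (Fin n → ℤ))
        (σ : G → Matrix (Fin d) (Fin d) ℤ) (Φ : G → PowerSeries ℤ),
      Function.Injective ι →
      (∀ x : Fin n → ℤ,
        (∃ y : Fin d → ℤ, ι y = x) ↔
          (fun j => ((x j : ℤ) : ℝ)) ∈ vectorSpan ℝ P) →
      (∀ (g : G) (y : Fin d → ℤ),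
        ι (Matrix.mulVec (σ g) y) =
          Matrix.mulVec (ρ g : Matrix (Fin n) (Fin n) ℤ) (ι y)) →
      (∀ g : G, Φ g =
        PowerSeries.mk (fun m : ℕ =>
          ((Set.ncard {x : Fin n → ℤ |
              (fun j => ((x j : ℤ) : ℝ)) ∈ (m : ℝ) • P ∧
              Matrix.mulVec (ρ g : Matrix (Fin n) (Fin n) ℤ) x = x} : ℕ) : ℤ))
        * (1 - PowerSeries.X)
        * ((Matrix.det (1 - (Polynomial.X : Polynomial ℤ) •
              (σ g).map Polynomial.C) : Polynomial ℤ) : PowerSeries ℤ)) →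
      (∃ N : ℕ, ∀ g : G, ∀ i : ℕ, N ≤ i →
        PowerSeries.coeff (R := ℤ) i (Φ g) = 0) →
      ∀ i : ℕ, 0 < PowerSeries.coeff (R := ℤ) i (Φ 1) →
        (∑ g : G, PowerSeries.coeff (R := ℤ) i (Φ g)) ≠ 0) := by
  intro H
  have e2 : (2 : PowerSeries ℤ) * PowerSeries.X = PowerSeries.C (R := ℤ) 2 * PowerSeries.X := by
    simp
  refine H G 3 rho V P ⟨![1, 0, 0], by decide⟩ V_inv rfl 3 LinearMap.id
    (fun g => (rho g : Matrix (Fin 3) (Fin 3) ℤ)) Phi Function.injective_id ?_ ?_ ?_ ?_ 1 ?_ ?_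
  · intro x
    rw [vectorSpan_P]
    simp
  · intro g y
    rfl
  · intro g
    rfl
  · refine ⟨3, ?_⟩
    intro g i hi
    have h0 : i ≠ 0 := by omega
    have h1 : i ≠ 1 := by omega
    have h2 : i ≠ 2 := by omega
    rcases G_cases g with rfl | rfl | rfl
    · rw [Phi_one, e2]
      simp only [map_add, PowerSeries.coeff_one, PowerSeries.coeff_C_mul, PowerSeries.coeff_X,
        PowerSeries.coeff_X_pow, h0, h1, h2, if_false, mul_zero, add_zero]
    · rw [Phi_A]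
      simp [PowerSeries.coeff_one, PowerSeries.coeff_X,
        PowerSeries.coeff_X_pow, h0, h1, h2]
    · rw [Phi_B]
      simp [PowerSeries.coeff_one, PowerSeries.coeff_X,
        PowerSeries.coeff_X_pow, h0, h1, h2]
  · rw [Phi_one, e2]
    simp only [map_add, PowerSeries.coeff_one, PowerSeries.coeff_C_mul, PowerSeries.coeff_X,
        PowerSeries.coeff_X_pow]
    norm_num
  · rw [sum_G, Phi_one, Phi_A, Phi_B, e2]
    simp only [map_add, map_sub, PowerSeries.coeff_one, PowerSeries.coeff_C_mul,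
        PowerSeries.coeff_X, PowerSeries.coeff_X_pow]
    norm_num

end Pool.Agent.S11006
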