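import Pool.Statements.S11022
import Pool.Agent.Lib.MP_b8a58d_co.Forest

set_option autoImplicit false
open Pool Pool.MP_b8a58d_co

namespace Pool.Agent.S11022

open Pool.Agent.Lib.MP_b8a58d_co

/-- The negation of the preceding statement: Every forest of k rooted trees can be placed bijectively on any equally large planar point set with no three collinear, each root at its own prescribed distinct point, so that straight edges with no common endpoint do not meet. -/
theorem result :
    ¬ (∀ (k : ℕ) (V : Type) [Fintype V] (G : SimpleGraph V) (r : Fin k → V),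
      G.IsAcyclic →
      (∀ v : V, ∃ i : Fin k, G.Reachable (r i) v) →
      (∀ i j : Fin k, G.Reachable (r i) (r j) → i = j) →
      ∀ (P : Finset (EuclideanSpace ℝ (Fin 2))) (p : Fin k → EuclideanSpace ℝ (Fin 2)),
        P.card = Fintype.card V →
        (∀ a ∈ P, ∀ b ∈ P, ∀ c ∈ P, a ≠ b → a ≠ c → b ≠ c → ¬ Collinear ℝ {a, b, c}) →
        Function.Injective p →
        (∀ i, p i ∈ P) →
        ∃ f : V → EuclideanSpace ℝ (Fin 2),
          Function.Injective f ∧ (∀ v, f v ∈ P) ∧ (∀ i, f (r i) = p i) ∧
          ∀ u v x y : V, G.Adj u v → G.Adj x y → u ≠ x → u ≠ y → v ≠ x → v ≠ y →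
            Disjoint (segment ℝ (f u) (f v)) (segment ℝ (f x) (f y))) := by
  intro H
  have hinj : Function.Injective (fun i : Fin 16 => pt (i : ℕ)) := fun i j h =>
    Fin.ext (pt_injective i.isLt j.isLt h)
  have hroot : Function.Injective (fun i : Fin 4 => pt (root i : ℕ)) := by
    intro i j h
    have h1 : root i = root j := hinj h
    have h2 := congrArg rt h1
    rwa [rt_root, rt_root] at h2
  obtain ⟨f, hf, hfP, hfr, hfd⟩ := H 4 (Fin 16) forest root forest_acyclic
    (fun v => ⟨rt v, reachable_root v⟩)
    (fun i j h => by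
      have h1 := rt_reachable h
      rwa [rt_root, rt_root] at h1)
    (Finset.univ.map ⟨fun i : Fin 16 => pt (i : ℕ), hinj⟩) (fun i => pt (root i : ℕ))
    (by rw [Finset.card_map]; rfl)
    (by
      intro a ha b hb c hc hab hac hbc
      rw [Finset.mem_map] at ha hb hc
      obtain ⟨i, -, rfl⟩ := ha
      obtain ⟨j, -, rfl⟩ := hb
      obtain ⟨k, -, rfl⟩ := hc
      exact not_collinear i.isLt j.isLt k.isLt (fun h => hab (by rw [Fin.ext h]))
        (fun h => hac (by rw [Fin.ext h])) (fun h => hbc (by rw [Fin.ext h])))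
    hroot
    (fun i => Finset.mem_map.2 ⟨root i, Finset.mem_univ _, rfl⟩)
  have hex : ∀ v : Fin 16, ∃ i : Fin 16, pt (i : ℕ) = f v := by
    intro v
    obtain ⟨i, -, hi⟩ := Finset.mem_map.1 (hfP v)
    exact ⟨i, hi⟩
  choose s hs using hex
  have hsinj : Function.Injective s := by
    intro u v h
    apply hf
    rw [← hs u, ← hs v, h]
  refine no_placement hsinj ?_ ?_
  · intro i hi
    apply hinj
    change pt (s i : ℕ) = pt (i : ℕ)
    rw [hs i]
    have h1 := hfr (rt i)
    rw [← eq_root i hi] at h1
    exact h1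
  · intro u v hu hv
    by_contra hb
    rw [Bool.not_eq_false] at hb
    obtain ⟨n1, n2, n3, n4⟩ := crossB_ne hb
    have hd := hfd (par u) u (par v) v (par_adj hu) (par_adj hv)
      (fun h => n1 (by rw [h])) (fun h => n2 (by rw [h])) (fun h => n3 (by rw [h]))
      (fun h => n4 (by rw [h]))
    rw [← hs (par u), ← hs u, ← hs (par v), ← hs v] at hd
    exact not_disjoint_of_crossB hb hd

end Pool.Agent.S11022
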