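import Pool.Statements.S11543
import Pool.Agent.Lib.MP_cf885c_co.Main

set_option autoImplicit false
open Pool Pool.MP_cf885c_co

namespace Pool.Agent.S11543

/-- For every colouring of the rationals with finitely many colours there are nonzero rationals a, b, c with b ≠ c such that a+b, a+c, a+b+c, a+bc, ab, ac, a(b+c), abc all have the same colour. -/
theorem result :
    ∀ (r : ℕ) (χ : ℚ → Fin r), ∃ a b c : ℚ,
      a ≠ 0 ∧ b ≠ 0 ∧ c ≠ 0 ∧ b ≠ c ∧
      χ (a + c) = χ (a + b) ∧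
      χ (a + (b + c)) = χ (a + b) ∧
      χ (a + b * c) = χ (a + b) ∧
      χ (a * b) = χ (a + b) ∧
      χ (a * c) = χ (a + b) ∧
      χ (a * (b + c)) = χ (a + b) ∧
      χ (a * (b * c)) = χ (a + b) := by
  intro r χ
  obtain ⟨a, b, c, ha, hb, hc, hbc, s, -, h1, h2, h3, h4, h5, h6, h7, h8⟩ :=
    Pool.Agent.Lib.MP_cf885c_co.pattern χ
  exact ⟨a, b, c, ha, hb.ne', hc.ne', hbc, h2.trans h1.symm, h3.trans h1.symm,
    h4.trans h1.symm, h5.trans h1.symm, h6.trans h1.symm, h7.trans h1.symm, h8.trans h1.symm⟩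

end Pool.Agent.S11543
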