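-- Proof of the frozen statement S11608 (negation of unique factorization for hereditary properties).
-- Counterexample: PP = edgeless graphs together with all graphs on at most 2 vertices,
-- QQ = bipartite graphs together with all graphs on at most 4 vertices.
-- Both are irreducible, and PP * PP * PP = PP * QQ.
import Pool.Statements.S11608

set_option autoImplicit false
open Pool Pool.MP_d1f9c8_co

namespace Pool.Agent.S11608

/-- closed under (not necessarily induced) subgraphs -/
def Her (P : (n : ℕ) → SimpleGraph (Fin n) → Prop) : Prop :=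
  ∀ (a b : ℕ) (G : SimpleGraph (Fin a)) (H : SimpleGraph (Fin b)) (f : H →g G),
    Function.Injective f → P a G → P b H

/-- membership in `P` of a graph on an arbitrary vertex type -/
def InP (P : (n : ℕ) → SimpleGraph (Fin n) → Prop) {V : Type} (G : SimpleGraph V) : Prop :=
  ∃ (r : ℕ) (K : SimpleGraph (Fin r)), P r K ∧ Nonempty (G ≃g K)

/-- `P` is the product of `A` and `B` -/
def Prod2 (P A B : (n : ℕ) → SimpleGraph (Fin n) → Prop) : Prop :=
  ∀ (n : ℕ) (G : SimpleGraph (Fin n)),
    (P n G ↔ ∃ S : Set (Fin n), InP A (G.induce S) ∧ InP B (G.induce Sᶜ))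

lemma InP.mono {P : (n : ℕ) → SimpleGraph (Fin n) → Prop} (hP : Her P) {V W : Type}
    {G : SimpleGraph V} {H : SimpleGraph W} (hG : InP P G) (f : H →g G)
    (hf : Function.Injective f) : InP P H := by
  obtain ⟨r, K, hK, ⟨e⟩⟩ := hG
  have hinj : Function.Injective (fun w => e (f w)) := e.injective.comp hf
  have : Finite W := Finite.of_injective _ hinj
  let eW : W ≃ Fin (Nat.card W) := Finite.equivFin W
  refine ⟨Nat.card W, H.map eW.toEmbedding, ?_, ⟨SimpleGraph.Iso.map eW H⟩⟩
  refine hP r (Nat.card W) K (H.map eW.toEmbedding)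
    ((e.toHom.comp f).comp (SimpleGraph.Iso.map eW H).symm.toHom) ?_ hK
  exact (e.injective.comp hf).comp (SimpleGraph.Iso.map eW H).symm.injective

lemma InP.mono' {P : (n : ℕ) → SimpleGraph (Fin n) → Prop} (hP : Her P) {V W : Type}
    {G : SimpleGraph V} {H : SimpleGraph W} (hG : InP P G) (f : W → V)
    (hadj : ∀ a b, H.Adj a b → G.Adj (f a) (f b))
    (hf : Function.Injective f) : InP P H :=
  InP.mono hP hG ⟨f, fun {a b} => hadj a b⟩ hf

lemma InP_fin {P : (n : ℕ) → SimpleGraph (Fin n) → Prop} (hP : Her P) {n : ℕ}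
    (G : SimpleGraph (Fin n)) : InP P G ↔ P n G := by
  constructor
  · rintro ⟨r, K, hK, ⟨e⟩⟩
    exact hP r n K G e.toHom e.injective hK
  · intro h
    exact ⟨n, G, h, ⟨SimpleGraph.Iso.refl⟩⟩

/-- the join of two graphs -/
def joinG {V W : Type} (G : SimpleGraph V) (H : SimpleGraph W) : SimpleGraph (V ⊕ W) where
  Adj x y := match x, y with
    | Sum.inl a, Sum.inl b => G.Adj a b
    | Sum.inr a, Sum.inr b => H.Adj a b
    | Sum.inl _, Sum.inr _ => True
    | Sum.inr _, Sum.inl _ => True
  symm := ⟨by
    rintro (a | a) (b | b) h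
    · exact G.adj_symm h
    · trivial
    · trivial
    · exact H.adj_symm h⟩
  loopless := ⟨by
    rintro (a | a) h
    · exact G.loopless.irrefl a h
    · exact H.loopless.irrefl a h⟩

/-- a product contains the join of a member of the first factor and one of the second -/
lemma join_mem {P A B : (n : ℕ) → SimpleGraph (Fin n) → Prop} (hA : Her A) (hB : Her B)
    (h : Prod2 P A B) {V W : Type} {G : SimpleGraph V} {H : SimpleGraph W}
    (hG : InP A G) (hH : InP B H) : InP P (joinG G H) := by
  have hV : Finite V := by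
    obtain ⟨r, K, -, ⟨e⟩⟩ := hG
    exact Finite.of_injective _ e.injective
  have hW : Finite W := by
    obtain ⟨r, K, -, ⟨e⟩⟩ := hH
    exact Finite.of_injective _ e.injective
  let e : V ⊕ W ≃ Fin (Nat.card (V ⊕ W)) := Finite.equivFin _
  refine ⟨Nat.card (V ⊕ W), (joinG G H).map e.toEmbedding, ?_, ⟨SimpleGraph.Iso.map e _⟩⟩
  rw [h]
  refine ⟨{v | (e.symm v).isLeft}, ?_, ?_⟩
  · refine InP.mono' hA hG (fun v => (e.symm v.1).getLeft v.2) ?_ ?_
    · rintro ⟨v, hv⟩ ⟨w, hw⟩ hvw
      simp only [SimpleGraph.comap_adj, Function.Embedding.subtype_apply,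
        SimpleGraph.map_adj] at hvw
      obtain ⟨x, y, hxy, hx, hy⟩ := hvw
      simp only [Equiv.coe_toEmbedding] at hx hy
      subst hx hy
      simp only [Set.mem_ofPred_eq, Equiv.symm_apply_apply] at hv hw
      rcases x with x | x
      · rcases y with y | y
        · have : G.Adj x y := hxy
          simpa using this
        · simp at hw
      · simp at hv
    · rintro ⟨v, hv⟩ ⟨w, hw⟩ hvw
      simp only [Set.mem_ofPred_eq] at hv hw
      apply Subtype.ext
      apply e.symm.injective
      have h1 : Sum.inl ((e.symm v).getLeft hv) = e.symm v := Sum.inl_getLeft _ _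
      have h2 : Sum.inl ((e.symm w).getLeft hw) = e.symm w := Sum.inl_getLeft _ _
      have h3 : (e.symm v).getLeft hv = (e.symm w).getLeft hw := hvw
      change e.symm v = e.symm w
      rw [← h1, ← h2, h3]
  · have key : ∀ v ∈ ({v | (e.symm v).isLeft} : Set (Fin (Nat.card (V ⊕ W))))ᶜ,
        (e.symm v).isRight := by
      intro v hv
      simpa using hv
    refine InP.mono' hB hH (fun v => (e.symm v.1).getRight (key _ v.2)) ?_ ?_
    · rintro ⟨v, hv⟩ ⟨w, hw⟩ hvw
      simp only [SimpleGraph.comap_adj, Function.Embedding.subtype_apply,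
        SimpleGraph.map_adj] at hvw
      obtain ⟨x, y, hxy, hx, hy⟩ := hvw
      simp only [Equiv.coe_toEmbedding] at hx hy
      subst hx hy
      have hv' := key _ hv
      have hw' := key _ hw
      simp only [Equiv.symm_apply_apply] at hv' hw'
      rcases x with x | x
      · simp at hv'
      · rcases y with y | y
        · simp at hw'
        · have : H.Adj x y := hxy
          simpa using this
    · rintro ⟨v, hv⟩ ⟨w, hw⟩ hvw
      apply Subtype.ext
      apply e.symm.injective
      have h1 : Sum.inr ((e.symm v).getRight (key _ hv)) = e.symm v := Sum.inr_getRight _ _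
      have h2 : Sum.inr ((e.symm w).getRight (key _ hw)) = e.symm w := Sum.inr_getRight _ _
      have h3 : (e.symm v).getRight (key _ hv) = (e.symm w).getRight (key _ hw) := hvw
      change e.symm v = e.symm w
      rw [← h1, ← h2, h3]

/-- edgeless graphs, and all graphs on at most two vertices -/
def PP (n : ℕ) (G : SimpleGraph (Fin n)) : Prop := G = ⊥ ∨ n ≤ 2

/-- bipartite graphs, and all graphs on at most four vertices -/
def QQ (n : ℕ) (G : SimpleGraph (Fin n)) : Prop := G.Colorable 2 ∨ n ≤ 4

lemma her_PP : Her PP := by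
  rintro a b G H f hf (h | h)
  · left
    subst h
    ext x y
    simp only [SimpleGraph.bot_adj, iff_false]
    intro hxy
    exact f.map_adj hxy
  · right
    have := Fintype.card_le_of_injective _ hf
    simp only [Fintype.card_fin] at this
    omega

lemma her_QQ : Her QQ := by
  rintro a b G H f hf (h | h)
  · left
    obtain ⟨C⟩ := h
    exact ⟨C.comp f⟩
  · right
    have := Fintype.card_le_of_injective _ hf
    simp only [Fintype.card_fin] at this
    omega

lemma InP_PP {V : Type} [Finite V] (G : SimpleGraph V) :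
    InP PP G ↔ (∀ x y, ¬ G.Adj x y) ∨ Nat.card V ≤ 2 := by
  constructor
  · rintro ⟨r, K, hK, ⟨e⟩⟩
    rcases hK with hK | hK
    · left
      intro x y hxy
      have := e.map_adj_iff.2 hxy
      subst hK
      exact this
    · right
      have := Nat.card_congr e.toEquiv
      simp only [Nat.card_eq_fintype_card, Fintype.card_fin] at this
      omega
  · intro h
    let e : V ≃ Fin (Nat.card V) := Finite.equivFin _
    refine ⟨Nat.card V, G.map e.toEmbedding, ?_, ⟨SimpleGraph.Iso.map e _⟩⟩
    rcases h with h | h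
    · left
      ext x y
      simp only [SimpleGraph.map_adj, SimpleGraph.bot_adj, iff_false]
      rintro ⟨u, v, huv, -, -⟩
      exact h u v huv
    · right
      exact h

lemma InP_QQ {V : Type} [Finite V] (G : SimpleGraph V) :
    InP QQ G ↔ G.Colorable 2 ∨ Nat.card V ≤ 4 := by
  constructor
  · rintro ⟨r, K, hK, ⟨e⟩⟩
    rcases hK with hK | hK
    · left
      obtain ⟨C⟩ := hK
      exact ⟨C.comp e.toHom⟩
    · right
      have := Nat.card_congr e.toEquiv
      simp only [Nat.card_eq_fintype_card, Fintype.card_fin] at this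
      omega
  · intro h
    let e : V ≃ Fin (Nat.card V) := Finite.equivFin _
    refine ⟨Nat.card V, G.map e.toEmbedding, ?_, ⟨SimpleGraph.Iso.map e _⟩⟩
    rcases h with h | h
    · left
      obtain ⟨C⟩ := h
      exact ⟨C.comp (SimpleGraph.Iso.map e G).symm.toHom⟩
    · right
      exact h

/-- the one vertex graph lies in every factor; a form of this for `Unit`-like types -/
lemma InP_one {A : (n : ℕ) → SimpleGraph (Fin n) → Prop} (h : A 1 ⊥) :
    InP A (⊥ : SimpleGraph (Fin 1)) := ⟨1, ⊥, h, ⟨SimpleGraph.Iso.refl⟩⟩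

/-- `PP` cannot contain the join of a two-vertex edgeless graph with a point -/
lemma PP_no (h : InP PP (joinG (⊥ : SimpleGraph (Fin 2)) (⊥ : SimpleGraph (Fin 1)))) : False := by
  rw [InP_PP] at h
  rcases h with h | h
  · exact h (Sum.inl 0) (Sum.inr 0) trivial
  · simp at h

lemma PP_no' (h : InP PP (joinG (⊥ : SimpleGraph (Fin 1)) (⊥ : SimpleGraph (Fin 2)))) : False := by
  rw [InP_PP] at h
  rcases h with h | h
  · exact h (Sum.inl 0) (Sum.inr 0) trivial
  · simp at h

/-- if a set of vertices of an edgeless graph has at least two elements, the factor contains the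
edgeless graph on two vertices -/
lemma two_of_card {A : (n : ℕ) → SimpleGraph (Fin n) → Prop} (hA : Her A) {V : Type}
    (S : Set V) (h : InP A ((⊥ : SimpleGraph V).induce S)) {x y : V}
    (hx : x ∈ S) (hy : y ∈ S) (hxy : x ≠ y) : InP A (⊥ : SimpleGraph (Fin 2)) := by
  refine InP.mono' hA h (fun i => if i = 0 then ⟨x, hx⟩ else ⟨y, hy⟩) ?_ ?_
  · intro a b hab
    exact absurd hab (by simp)
  · intro a b hab
    fin_cases a <;> fin_cases b <;> simp_all

lemma PP_irred (A B : (n : ℕ) → SimpleGraph (Fin n) → Prop) (hA : Her A) (hB : Her B)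
    (hA1 : A 1 ⊥) (hB1 : B 1 ⊥) (h : Prod2 PP A B) : False := by
  have h3 : PP 3 ⊥ := Or.inl rfl
  rw [h] at h3
  obtain ⟨S, hS1, hS2⟩ := h3
  have hpig : (∃ x ∈ S, ∃ y ∈ S, x ≠ y) ∨ (∃ x ∈ Sᶜ, ∃ y ∈ Sᶜ, x ≠ y) := by
    by_cases h0 : (0 : Fin 3) ∈ S <;> by_cases h1 : (1 : Fin 3) ∈ S <;>
      by_cases h2 : (2 : Fin 3) ∈ S
    · exact Or.inl ⟨0, h0, 1, h1, by decide⟩
    · exact Or.inl ⟨0, h0, 1, h1, by decide⟩
    · exact Or.inl ⟨0, h0, 2, h2, by decide⟩
    · exact Or.inr ⟨1, h1, 2, h2, by decide⟩
    · exact Or.inl ⟨1, h1, 2, h2, by decide⟩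
    · exact Or.inr ⟨0, h0, 2, h2, by decide⟩
    · exact Or.inr ⟨0, h0, 1, h1, by decide⟩
    · exact Or.inr ⟨0, h0, 1, h1, by decide⟩
  rcases hpig with ⟨x, hx, y, hy, hxy⟩ | ⟨x, hx, y, hy, hxy⟩
  · exact PP_no (join_mem hA hB h (two_of_card hA S hS1 hx hy hxy) (InP_one hB1))
  · exact PP_no' (join_mem hA hB h (InP_one hA1) (two_of_card hB Sᶜ hS2 hx hy hxy))

/-- a graph with a triangle and at least five vertices is not in `QQ` -/
lemma QQ_no {V : Type} [Finite V] (G : SimpleGraph V) (h : InP QQ G) (h5 : 5 ≤ Nat.card V)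
    {x y z : V} (hxy : G.Adj x y) (hyz : G.Adj y z) (hxz : G.Adj x z) : False := by
  rw [InP_QQ] at h
  rcases h with ⟨⟨C⟩⟩ | h
  · have h1 := C.valid hxy
    have h2 := C.valid hyz
    have h3 := C.valid hxz
    revert h1 h2 h3
    generalize C x = a
    generalize C y = b
    generalize C z = c
    revert a b c
    decide
  · omega

/-- the complete bipartite graph on `Fin 8` -/
def K44 : SimpleGraph (Fin 8) where
  Adj x y := (x.val < 4 ∧ 4 ≤ y.val) ∨ (y.val < 4 ∧ 4 ≤ x.val)
  symm := ⟨fun x y h => h.symm⟩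
  loopless := ⟨fun x h => by omega⟩

/-- the 4-cycle as a complete bipartite graph -/
def C4 : SimpleGraph (Fin 2 ⊕ Fin 2) := joinG ⊥ ⊥

/-- key step: `K2` in one factor is impossible -/
lemma QQ_step (A B : (n : ℕ) → SimpleGraph (Fin n) → Prop) (hA : Her A) (hB : Her B)
    (hB1 : B 1 ⊥) (h : Prod2 QQ A B)
    (hK : InP A (⊤ : SimpleGraph (Fin 2))) : False := by
  have h8 : QQ 8 K44 := by
    left
    refine ⟨SimpleGraph.Coloring.mk (fun x => if x.val < 4 then 0 else 1) ?_⟩
    intro x y hxy
    simp only [K44] at hxy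
    rcases hxy with hxy | hxy
    · have h1 : ¬ y.val < 4 := by omega
      simp [hxy.1, h1]
    · have h1 : ¬ x.val < 4 := by omega
      simp [hxy.1, h1]
  rw [h] at h8
  obtain ⟨S, hS1, hS2⟩ := h8
  -- no three independent vertices in the complement
  have hno3 : ¬ InP B (⊥ : SimpleGraph (Fin 3)) := by
    intro h3
    have := join_mem hA hB h hK h3
    refine QQ_no _ this (by simp) (x := Sum.inl 0) (y := Sum.inl 1) (z := Sum.inr 0) ?_ ?_ ?_
    · show (⊤ : SimpleGraph (Fin 2)).Adj 0 1
      simp
    · trivial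
    · trivial
  have hno4 : ¬ InP A C4 := by
    intro h4
    have := join_mem hA hB h h4 (InP_one hB1)
    refine QQ_no _ this (by simp) (x := Sum.inl (Sum.inl 0)) (y := Sum.inl (Sum.inr 0))
      (z := Sum.inr 0) ?_ ?_ ?_
    · trivial
    · trivial
    · trivial
  -- three vertices on the same side outside of S are impossible
  have hside : ∀ (x y z : Fin 8), x ∉ S → y ∉ S → z ∉ S → x ≠ y → y ≠ z → x ≠ z →
      ((x.val < 4 ∧ y.val < 4 ∧ z.val < 4) ∨ (4 ≤ x.val ∧ 4 ≤ y.val ∧ 4 ≤ z.val)) → False := by
    intro x y z hx hy hz hxy hyz hxz hs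
    apply hno3
    refine InP.mono' hB hS2 (fun i => if i = 0 then ⟨x, hx⟩ else if i = 1 then ⟨y, hy⟩
      else ⟨z, hz⟩) ?_ ?_
    · intro a b hab
      exact absurd hab (by simp)
    · intro a b hab
      fin_cases a <;> fin_cases b <;> simp_all
  -- hence two vertices of S on each side
  have hleft : ∃ x y : Fin 8, x ∈ S ∧ y ∈ S ∧ x ≠ y ∧ x.val < 4 ∧ y.val < 4 := by
    by_contra hcon
    push Not at hcon
    have hc : ∀ x y : Fin 8, x.val < 4 → y.val < 4 → x ≠ y → x ∈ S → y ∉ S := by
      intro x y hx hy hxy hxS hyS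
      exact absurd hy (by have := hcon x y hxS hyS hxy hx; omega)
    by_cases h0 : (0 : Fin 8) ∈ S
    · exact hside 1 2 3 (hc 0 1 (by decide) (by decide) (by decide) h0)
        (hc 0 2 (by decide) (by decide) (by decide) h0)
        (hc 0 3 (by decide) (by decide) (by decide) h0) (by decide) (by decide) (by decide)
        (by decide)
    · by_cases h1 : (1 : Fin 8) ∈ S
      · exact hside 0 2 3 h0
          (hc 1 2 (by decide) (by decide) (by decide) h1)
          (hc 1 3 (by decide) (by decide) (by decide) h1) (by decide) (by decide) (by decide)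
          (by decide)
      · by_cases h2 : (2 : Fin 8) ∈ S
        · exact hside 0 1 3 h0 h1
            (hc 2 3 (by decide) (by decide) (by decide) h2) (by decide) (by decide) (by decide)
            (by decide)
        · exact hside 0 1 2 h0 h1 h2 (by decide) (by decide) (by decide) (by decide)
  have hright : ∃ x y : Fin 8, x ∈ S ∧ y ∈ S ∧ x ≠ y ∧ 4 ≤ x.val ∧ 4 ≤ y.val := by
    by_contra hcon
    push Not at hcon
    have hc : ∀ x y : Fin 8, 4 ≤ x.val → 4 ≤ y.val → x ≠ y → x ∈ S → y ∉ S := by
      intro x y hx hy hxy hxS hyS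
      exact absurd hy (by have := hcon x y hxS hyS hxy hx; omega)
    by_cases h0 : (4 : Fin 8) ∈ S
    · exact hside 5 6 7 (hc 4 5 (by decide) (by decide) (by decide) h0)
        (hc 4 6 (by decide) (by decide) (by decide) h0)
        (hc 4 7 (by decide) (by decide) (by decide) h0) (by decide) (by decide) (by decide)
        (by decide)
    · by_cases h1 : (5 : Fin 8) ∈ S
      · exact hside 4 6 7 h0
          (hc 5 6 (by decide) (by decide) (by decide) h1)
          (hc 5 7 (by decide) (by decide) (by decide) h1) (by decide) (by decide) (by decide)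
          (by decide)
      · by_cases h2 : (6 : Fin 8) ∈ S
        · exact hside 4 5 7 h0 h1
            (hc 6 7 (by decide) (by decide) (by decide) h2) (by decide) (by decide) (by decide)
            (by decide)
        · exact hside 4 5 6 h0 h1 h2 (by decide) (by decide) (by decide) (by decide)
  obtain ⟨x, y, hx, hy, hxy, hx4, hy4⟩ := hleft
  obtain ⟨z, w, hz, hw, hzw, hz4, hw4⟩ := hright
  apply hno4
  have hxz : x ≠ z := by rintro rfl; omega
  have hxw : x ≠ w := by rintro rfl; omega
  have hyz : y ≠ z := by rintro rfl; omega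
  have hyw : y ≠ w := by rintro rfl; omega
  refine InP.mono' hA hS1 (fun i => match i with
    | Sum.inl a => if a = 0 then ⟨x, hx⟩ else ⟨y, hy⟩
    | Sum.inr a => if a = 0 then ⟨z, hz⟩ else ⟨w, hw⟩) ?_ ?_
  · rintro (a | a) (b | b) hab
    · exact absurd hab (by simp [C4, joinG])
    · fin_cases a <;> fin_cases b <;> simp [K44] <;> omega
    · fin_cases a <;> fin_cases b <;> simp [K44] <;> omega
    · exact absurd hab (by simp [C4, joinG])
  · rintro (a | a) (b | b) hab
    · fin_cases a <;> fin_cases b <;> simp_all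
    · fin_cases a <;> fin_cases b <;> simp_all
    · fin_cases a <;> fin_cases b <;> simp_all [eq_comm]
    · fin_cases a <;> fin_cases b <;> simp_all

lemma Prod2.symm {P A B : (n : ℕ) → SimpleGraph (Fin n) → Prop} (h : Prod2 P A B) :
    Prod2 P B A := by
  intro n G
  rw [h]
  constructor
  · rintro ⟨S, h1, h2⟩
    refine ⟨Sᶜ, h2, ?_⟩
    rw [compl_compl]
    exact h1
  · rintro ⟨S, h1, h2⟩
    refine ⟨Sᶜ, h2, ?_⟩
    rw [compl_compl]
    exact h1

lemma top_of_two {A : (n : ℕ) → SimpleGraph (Fin n) → Prop} (hA : Her A) {V : Type}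
    (S : Set V) (h : InP A ((⊤ : SimpleGraph V).induce S)) {x y : V}
    (hx : x ∈ S) (hy : y ∈ S) (hxy : x ≠ y) : InP A (⊤ : SimpleGraph (Fin 2)) := by
  refine InP.mono' hA h (fun i => if i = 0 then ⟨x, hx⟩ else ⟨y, hy⟩) ?_ ?_
  · intro a b hab
    have hab' : a ≠ b := hab
    fin_cases a <;> fin_cases b <;> simp_all [eq_comm]
  · intro a b hab
    fin_cases a <;> fin_cases b <;> simp_all [eq_comm]

lemma QQ_irred (A B : (n : ℕ) → SimpleGraph (Fin n) → Prop) (hA : Her A) (hB : Her B)
    (hA1 : A 1 ⊥) (hB1 : B 1 ⊥) (h : Prod2 QQ A B) : False := by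
  have h4 : QQ 4 ⊤ := Or.inr le_rfl
  rw [h] at h4
  obtain ⟨S, hS1, hS2⟩ := h4
  have hpig : (∃ x ∈ S, ∃ y ∈ S, x ≠ y) ∨ (∃ x ∈ Sᶜ, ∃ y ∈ Sᶜ, x ≠ y) := by
    by_cases h0 : (0 : Fin 4) ∈ S <;> by_cases h1 : (1 : Fin 4) ∈ S <;>
      by_cases h2 : (2 : Fin 4) ∈ S
    · exact Or.inl ⟨0, h0, 1, h1, by decide⟩
    · exact Or.inl ⟨0, h0, 1, h1, by decide⟩
    · exact Or.inl ⟨0, h0, 2, h2, by decide⟩
    · exact Or.inr ⟨1, h1, 2, h2, by decide⟩
    · exact Or.inl ⟨1, h1, 2, h2, by decide⟩
    · exact Or.inr ⟨0, h0, 2, h2, by decide⟩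
    · exact Or.inr ⟨0, h0, 1, h1, by decide⟩
    · exact Or.inr ⟨0, h0, 1, h1, by decide⟩
  rcases hpig with ⟨x, hx, y, hy, hxy⟩ | ⟨x, hx, y, hy, hxy⟩
  · exact QQ_step A B hA hB hB1 h (top_of_two hA S hS1 hx hy hxy)
  · exact QQ_step B A hB hA hA1 h.symm (top_of_two hB Sᶜ hS2 hx hy hxy)

lemma PP_one : PP 1 ⊥ := Or.inl rfl

lemma QQ_one : QQ 1 ⊥ := Or.inr (by norm_num)

/-- among three classes, two are of the same kind -/
lemma pigeon (T U : Fin 3 → Prop) (h : ∀ i, T i ∨ U i) :
    ∃ k : Fin 3, (∀ i, i ≠ k → T i) ∨ (∀ i, i ≠ k → U i) := by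
  have h0 := h 0
  have h1 := h 1
  have h2 := h 2
  by_cases t0 : T 0 <;> by_cases t1 : T 1 <;> by_cases t2 : T 2 <;>
    simp only [t0, t1, t2, false_or, true_or] at h0 h1 h2
  · exact ⟨0, Or.inl (by intro i _; fin_cases i <;> assumption)⟩
  · exact ⟨2, Or.inl (by intro i hi; fin_cases i <;> first | assumption | exact absurd rfl hi)⟩
  · exact ⟨1, Or.inl (by intro i hi; fin_cases i <;> first | assumption | exact absurd rfl hi)⟩
  · exact ⟨0, Or.inr (by intro i hi; fin_cases i <;> first | assumption | exact absurd rfl hi)⟩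
  · exact ⟨0, Or.inl (by intro i hi; fin_cases i <;> first | assumption | exact absurd rfl hi)⟩
  · exact ⟨1, Or.inr (by intro i hi; fin_cases i <;> first | assumption | exact absurd rfl hi)⟩
  · exact ⟨2, Or.inr (by intro i hi; fin_cases i <;> first | assumption | exact absurd rfl hi)⟩
  · exact ⟨0, Or.inr (by intro i _; fin_cases i <;> assumption)⟩

lemma fact1 : ∀ k a b : Fin 3, a ≠ k → b ≠ k →
    ((if a = k + 1 then (0 : Fin 2) else 1) = (if b = k + 1 then 0 else 1)) → a = b := by decide

lemma fact2 : ∀ k : Fin 3, k + 1 ≠ k := by decide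

lemma fact3 : ∀ k : Fin 3, k + 2 ≠ k := by decide

lemma fact4 : ∀ k a : Fin 3, (if a = k then (0 : Fin 2) else 1) = 1 ↔ a = k + 1 ∨ a = k + 2 := by
  decide

lemma fact5 : ∀ i : Fin 3, i ≠ 0 → ∀ a b : Fin 2, (if a = 0 then (1 : Fin 3) else 2) = i →
    (if b = 0 then (1 : Fin 3) else 2) = i → a = b := by decide

lemma prod_eq (n : ℕ) (G : SimpleGraph (Fin n)) :
    (∃ c : Fin n → Fin 3, ∀ i : Fin 3, InP PP (G.induce {v | c v = i})) ↔
    (∃ c : Fin n → Fin 2, InP PP (G.induce {v | c v = 0}) ∧ InP QQ (G.induce {v | c v = 1})) := by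
  constructor
  · rintro ⟨c, hc⟩
    have hc' := fun i => (InP_PP _).1 (hc i)
    obtain ⟨k, hk⟩ := pigeon _ _ hc'
    refine ⟨fun v => if c v = k then 0 else 1, ?_, ?_⟩
    · refine InP.mono' her_PP (hc k) (fun v => ⟨v.1, ?_⟩) ?_ ?_
      · have := v.2
        simp only [Set.mem_ofPred_eq] at this
        by_contra hne
        simp only [Set.mem_ofPred_eq] at hne
        simp [hne] at this
      · intro a b hab
        exact hab
      · intro a b hab
        simp only [Subtype.mk.injEq] at hab
        exact Subtype.ext hab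
    · rw [InP_QQ]
      rcases hk with hk | hk
      · left
        refine ⟨SimpleGraph.Coloring.mk (fun v => if c v.1 = k + 1 then 0 else 1) ?_⟩
        rintro ⟨v, hv⟩ ⟨w, hw⟩ hvw
        simp only [Set.mem_ofPred_eq] at hv hw
        have hv' : c v ≠ k := by
          intro h; simp [h] at hv
        have hw' : c w ≠ k := by
          intro h; simp [h] at hw
        intro heq
        have hsame : c v = c w := fact1 k (c v) (c w) hv' hw' heq
        exact hk (c v) hv' ⟨v, rfl⟩ ⟨w, hsame.symm⟩ hvw
      · right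
        have h1 := hk (k + 1) (fact2 k)
        have h2 := hk (k + 2) (fact3 k)
        have hset : {v : Fin n | (if c v = k then (0 : Fin 2) else 1) = 1} =
            {v | c v = k + 1} ∪ {v | c v = k + 2} := by
          ext v
          simp only [Set.mem_ofPred_eq, Set.mem_union]
          exact fact4 k (c v)
        rw [hset]
        have h3 := Set.ncard_union_le {v : Fin n | c v = k + 1} {v : Fin n | c v = k + 2}
        rw [Nat.card_coe_set_eq] at h1 h2 ⊢
        omega
  · rintro ⟨c, h0, h1⟩
    rw [InP_QQ] at h1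
    rcases h1 with ⟨⟨C⟩⟩ | h1
    · refine ⟨fun v => if h : c v = 1 then (if C ⟨v, h⟩ = 0 then 1 else 2) else 0, ?_⟩
      intro i
      have hkey : ∀ i : Fin 3, i ≠ 0 → InP PP (G.induce {v |
          (if h : c v = 1 then (if C ⟨v, h⟩ = 0 then (1 : Fin 3) else 2) else 0) = i}) := by
        intro i hi
        rw [InP_PP]
        left
        rintro ⟨v, hv⟩ ⟨w, hw⟩ hvw
        simp only [Set.mem_ofPred_eq] at hv hw
        have hv1 : c v = 1 := by
          by_contra hne
          rw [dif_neg hne] at hv
          exact hi hv.symm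
        have hw1 : c w = 1 := by
          by_contra hne
          rw [dif_neg hne] at hw
          exact hi hw.symm
        rw [dif_pos hv1] at hv
        rw [dif_pos hw1] at hw
        have hval := C.valid (v := ⟨v, hv1⟩) (w := ⟨w, hw1⟩) hvw
        exact hval (fact5 i hi _ _ hv hw)
      by_cases hi : i = 0
      · subst hi
        refine InP.mono' her_PP h0 (fun v => ⟨v.1, ?_⟩) ?_ ?_
        · have := v.2
          simp only [Set.mem_ofPred_eq] at this ⊢
          by_contra hne
          have h1 : c v.1 = 1 := by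
            revert hne
            generalize c v.1 = a
            revert a
            decide
          rw [dif_pos h1] at this
          revert this
          generalize C ⟨v.1, h1⟩ = a
          revert a
          decide
        · intro a b hab
          exact hab
        · intro a b hab
          simp only [Subtype.mk.injEq] at hab
          exact Subtype.ext hab
      · exact hkey i hi
    · -- at most four vertices in class 1
      classical
      let T : Finset (Fin n) := Finset.univ.filter (fun v => c v = 1)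
      have hT : T.card ≤ 4 := by
        rw [Nat.card_coe_set_eq] at h1
        have : ({v : Fin n | c v = 1} : Set (Fin n)) = (T : Set (Fin n)) := by
          ext v; simp [T]
        rw [this, Set.ncard_coe_finset] at h1
        exact h1
      obtain ⟨T1, hT1, hT1c⟩ : ∃ T1 ⊆ T, T1.card = min 2 T.card :=
        Finset.exists_subset_card_eq (min_le_right _ _)
      have hT2c : (T \ T1).card ≤ 2 := by
        rw [Finset.card_sdiff_of_subset hT1]
        omega
      refine ⟨fun v => if c v = 1 then (if v ∈ T1 then 1 else 2) else 0, ?_⟩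
      intro i
      by_cases hi : i = 0
      · subst hi
        refine InP.mono' her_PP h0 (fun v => ⟨v.1, ?_⟩) ?_ ?_
        · have := v.2
          simp only [Set.mem_ofPred_eq] at this ⊢
          by_contra hne
          have h1 : c v.1 = 1 := by
            revert hne
            generalize c v.1 = a
            revert a
            decide
          rw [if_pos h1] at this
          split_ifs at this
          · exact absurd this (by decide)
          · exact absurd this (by decide)
        · intro a b hab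
          exact hab
        · intro a b hab
          simp only [Subtype.mk.injEq] at hab
          exact Subtype.ext hab
      · rw [InP_PP]
        right
        rw [Nat.card_coe_set_eq]
        have hi' : i = 1 ∨ i = 2 := by
          revert i; decide
        rcases hi' with rfl | rfl
        · have hsub : ({v : Fin n | (if c v = 1 then (if v ∈ T1 then (1 : Fin 3) else 2) else 0) = 1}
              : Set (Fin n)) ⊆ (T1 : Set (Fin n)) := by
            intro v hv
            simp only [Set.mem_ofPred_eq] at hv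
            split_ifs at hv with h1 h2
            · exact h2
            · exact absurd hv (by decide)
            · exact absurd hv (by decide)
          refine le_trans (Set.ncard_le_ncard hsub (Set.toFinite _)) ?_
          rw [Set.ncard_coe_finset]
          omega
        · have hsub : ({v : Fin n | (if c v = 1 then (if v ∈ T1 then (1 : Fin 3) else 2) else 0) = 2}
              : Set (Fin n)) ⊆ ((T \ T1 : Finset (Fin n)) : Set (Fin n)) := by
            intro v hv
            simp only [Set.mem_ofPred_eq] at hv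
            split_ifs at hv with h1 h2
            · exact absurd hv (by decide)
            · simp [T, h1, h2]
            · exact absurd hv (by decide)
          refine le_trans (Set.ncard_le_ncard hsub (Set.toFinite _)) ?_
          rw [Set.ncard_coe_finset]
          omega

/-- The negation of the preceding statement: Among subgraph-closed classes of finite graphs, with product = vertex partition into parts in the factors, any two factorizations of a class into irreducible factors (contain K1, not a product of two such classes) agree up to reordering. -/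
theorem result :
    ¬ (∀ (m k : ℕ) (Ps : Fin m → (n : ℕ) → SimpleGraph (Fin n) → Prop)
      (Qs : Fin k → (n : ℕ) → SimpleGraph (Fin n) → Prop),
      (∀ i : Fin m,
        (∀ (a b : ℕ) (G : SimpleGraph (Fin a)) (H : SimpleGraph (Fin b)) (f : H →g G),
          Function.Injective f → Ps i a G → Ps i b H) ∧
        Ps i 1 ⊥ ∧
        ∀ A B : (n : ℕ) → SimpleGraph (Fin n) → Prop,
          (∀ (a b : ℕ) (G : SimpleGraph (Fin a)) (H : SimpleGraph (Fin b)) (f : H →g G),
            Function.Injective f → A a G → A b H) →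
          (∀ (a b : ℕ) (G : SimpleGraph (Fin a)) (H : SimpleGraph (Fin b)) (f : H →g G),
            Function.Injective f → B a G → B b H) →
          A 1 ⊥ → B 1 ⊥ →
          ¬ ∀ (n : ℕ) (G : SimpleGraph (Fin n)),
            (Ps i n G ↔ ∃ S : Set (Fin n),
              (∃ (r : ℕ) (K : SimpleGraph (Fin r)), A r K ∧ Nonempty (G.induce S ≃g K)) ∧
              (∃ (r : ℕ) (K : SimpleGraph (Fin r)), B r K ∧ Nonempty (G.induce Sᶜ ≃g K)))) →
      (∀ j : Fin k,
        (∀ (a b : ℕ) (G : SimpleGraph (Fin a)) (H : SimpleGraph (Fin b)) (f : H →g G),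
          Function.Injective f → Qs j a G → Qs j b H) ∧
        Qs j 1 ⊥ ∧
        ∀ A B : (n : ℕ) → SimpleGraph (Fin n) → Prop,
          (∀ (a b : ℕ) (G : SimpleGraph (Fin a)) (H : SimpleGraph (Fin b)) (f : H →g G),
            Function.Injective f → A a G → A b H) →
          (∀ (a b : ℕ) (G : SimpleGraph (Fin a)) (H : SimpleGraph (Fin b)) (f : H →g G),
            Function.Injective f → B a G → B b H) →
          A 1 ⊥ → B 1 ⊥ →
          ¬ ∀ (n : ℕ) (G : SimpleGraph (Fin n)),
            (Qs j n G ↔ ∃ S : Set (Fin n),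
              (∃ (r : ℕ) (K : SimpleGraph (Fin r)), A r K ∧ Nonempty (G.induce S ≃g K)) ∧
              (∃ (r : ℕ) (K : SimpleGraph (Fin r)), B r K ∧ Nonempty (G.induce Sᶜ ≃g K)))) →
      (∀ (n : ℕ) (G : SimpleGraph (Fin n)),
        (∃ c : Fin n → Fin m, ∀ i : Fin m, ∃ (r : ℕ) (K : SimpleGraph (Fin r)),
            Ps i r K ∧ Nonempty (G.induce {v | c v = i} ≃g K)) ↔
        (∃ c : Fin n → Fin k, ∀ j : Fin k, ∃ (r : ℕ) (K : SimpleGraph (Fin r)),
            Qs j r K ∧ Nonempty (G.induce {v | c v = j} ≃g K))) →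
      ∃ σ : Fin m ≃ Fin k, ∀ (i : Fin m) (n : ℕ) (G : SimpleGraph (Fin n)),
        (Ps i n G ↔ Qs (σ i) n G)) := by
  intro h
  have h32 := h 3 2 (fun _ => PP) (fun j => if j = 0 then PP else QQ) ?_ ?_ ?_
  · obtain ⟨σ, -⟩ := h32
    have := Fintype.card_congr σ
    simp at this
  · intro i
    refine ⟨her_PP, PP_one, ?_⟩
    intro A B hA hB hA1 hB1 hprod
    exact PP_irred A B hA hB hA1 hB1 hprod
  · intro j
    by_cases hj : j = 0
    · simp only [hj, if_true]
      refine ⟨her_PP, PP_one, ?_⟩
      intro A B hA hB hA1 hB1 hprod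
      exact PP_irred A B hA hB hA1 hB1 hprod
    · simp only [hj, if_false]
      refine ⟨her_QQ, QQ_one, ?_⟩
      intro A B hA hB hA1 hB1 hprod
      exact QQ_irred A B hA hB hA1 hB1 hprod
  · intro n G
    refine (prod_eq n G).trans (exists_congr fun c => ?_)
    rw [Fin.forall_fin_two]
    exact Iff.rfl

end Pool.Agent.S11608
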