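import Pool.Statements.S11623
import Pool.Agent.Lib.MP_d266db_co.E.All

set_option autoImplicit false
open Pool Pool.MP_d266db_co

namespace Pool.Agent.S11623

/-- For all large n, every oriented graph on n vertices with all in- and out-degrees at least 3n/8 has, for each r such that it has a spanning r-regular subdigraph, r pairwise arc-disjoint directed Hamilton cycles. -/
theorem result :
    ∃ N : ℕ, ∀ n : ℕ, N ≤ n →
      ∀ E : Finset (Fin n × Fin n),
        (∀ u v : Fin n, (u, v) ∈ E → (v, u) ∉ E) →
        (∀ v : Fin n, 3 * n ≤ 8 * (E.filter (fun e => e.1 = v)).card ∧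
                      3 * n ≤ 8 * (E.filter (fun e => e.2 = v)).card) →
        ∀ r : ℕ,
          (∃ H : Finset (Fin n × Fin n), H ⊆ E ∧
            ∀ v : Fin n, (H.filter (fun e => e.1 = v)).card = r ∧
                         (H.filter (fun e => e.2 = v)).card = r) →
          ∃ σ : Fin r → Equiv.Perm (Fin n),
            (∀ i : Fin r, (σ i).IsCycle ∧ (σ i).support = Finset.univ ∧
                ∀ v : Fin n, (v, σ i v) ∈ E) ∧
            ∀ i j : Fin r, i ≠ j → ∀ v : Fin n, σ i v ≠ σ j v := by
  exact Pool.Agent.MPd266dbE.tAllE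

end Pool.Agent.S11623
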