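import Pool.Statements.S12458
import Pool.Agent.MP_f71fe7.Main

set_option autoImplicit false
open Pool Pool.MP_f71fe7_co

namespace Pool.Agent.S12458

/-- The negation of the preceding statement: For every n ≥ 1 there is a set of at most ceil(n/2)+1 mutually non-attacking queens on the n×n board such that every square is occupied or attacked by one of them. -/
theorem result :
    ¬ (∀ n : ℕ, 1 ≤ n → ∃ S : Finset (ℕ × ℕ),
    S ⊆ Finset.range n ×ˢ Finset.range n ∧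
    (∀ p ∈ S, ∀ q ∈ S, p ≠ q →
      ¬ (p.1 = q.1 ∨ p.2 = q.2 ∨ p.1 + p.2 = q.1 + q.2 ∨ p.1 + q.2 = q.1 + p.2)) ∧
    (∀ x ∈ Finset.range n ×ˢ Finset.range n, x ∈ S ∨
      ∃ q ∈ S, x.1 = q.1 ∨ x.2 = q.2 ∨ x.1 + x.2 = q.1 + q.2 ∨ x.1 + q.2 = q.1 + x.2) ∧
    S.card ≤ (n + 1) / 2 + 1) :=
  Pool.Agent.MP_f71fe7.main

end Pool.Agent.S12458
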