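import Pool.Statements.S13377

set_option autoImplicit false
open Pool Pool.MP_717cd6_gt

/-!
# A ZFC regular P-space that is not weakly discretely generated

Sketch of the proof. Let `X` be a set of size continuum carrying a family `S k` (`k` in `II`)
of subsets such that every countable sign pattern is realized by a point of `X`
(an omega_1-independent family); the index set is `II = RR × (Set X × Option X)`, ranked by the
well-order `RR` of type `(2^ℵ₀)^+`. By recursion on the rank we replace `S k`, `k = (r, E, p)`, by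
`T k = (S k ∪ {p}) \ E` whenever `p ∉ E` and `E` is relatively discrete for the topology generated by
countable boxes in the coordinates `T k'` of smaller rank (and by `S k ∪ {p}` otherwise).
A fusion argument along countable conditions (`closing`, `avoid`, `modified_indep`) shows that every
countable sign pattern is still realized by the family `T`. The space is `Option X` with the topology
whose basic clopen sets are the countable boxes in the sets `{none} ∪ some '' T k`. It is a regular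
T1 P-space, `none` is in the closure of the set `A` of all other points, and every relatively discrete
`D ⊆ A` is relatively discrete already with respect to the coordinates of rank `< r` for some `r`
(as `(2^ℵ₀)^+` is regular), so some `T k` is disjoint from `D` and `none` is not in the
closure of `D`.
-/

namespace Pool.Agent.S13377

open Set Cardinal Topology

/-- A condition: a countable set of coordinates with a sign pattern. -/
structure Cond (I : Type) where
  a : Set I
  hc : a.Countable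
  v : I → Prop

/-- Extension of conditions. -/
def Ext {I : Type} (c c' : Cond I) : Prop :=
  c.a ⊆ c'.a ∧ ∀ k ∈ c.a, (c.v k ↔ c'.v k)

theorem Ext.refl {I : Type} (c : Cond I) : Ext c c :=
  ⟨Subset.rfl, fun _ _ => Iff.rfl⟩

theorem Ext.trans {I : Type} {c c' c'' : Cond I} (h : Ext c c') (h' : Ext c' c'') :
    Ext c c'' :=
  ⟨h.1.trans h'.1, fun k hk => (h.2 k hk).trans (h'.2 k (h.1 hk))⟩

/-- The union of a chain of conditions. -/
def supC {I : Type} (c : ℕ → Cond I) : Cond I where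
  a := ⋃ n, (c n).a
  hc := countable_iUnion fun n => (c n).hc
  v := fun k => ∃ n, k ∈ (c n).a ∧ (c n).v k

theorem chain_ext {I : Type} (c : ℕ → Cond I) (h : ∀ n, Ext (c n) (c (n + 1))) :
    ∀ n m, n ≤ m → Ext (c n) (c m) := by
  intro n m hnm
  induction m, hnm using Nat.le_induction with
  | base => exact Ext.refl _
  | succ m _ ih => exact ih.trans (h m)

theorem ext_supC {I : Type} (c : ℕ → Cond I) (h : ∀ n, Ext (c n) (c (n + 1))) (n : ℕ) :
    Ext (c n) (supC c) := by
  refine ⟨subset_iUnion (fun n => (c n).a) n, fun k hk => ⟨fun hv => ⟨n, hk, hv⟩, ?_⟩⟩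
  rintro ⟨m, hkm, hvm⟩
  rcases le_total n m with hnm | hmn
  · exact ((chain_ext c h n m hnm).2 k hk).2 hvm
  · exact ((chain_ext c h m n hmn).2 k hkm).1 hvm

/-- Closing off lemma. -/
theorem closing {I : Type} (Q : I → Cond I → Prop)
    (mono : ∀ j c c', Ext c c' → Q j c → Q j c')
    (ext : ∀ j c, ∃ c', Ext c c' ∧ Q j c') (c : Cond I) :
    ∃ c', Ext c c' ∧ ∀ j ∈ c'.a, Q j c' := by
  rcases isEmpty_or_nonempty I with hI | hI
  · exact ⟨c, Ext.refl c, fun j => (hI.false j).elim⟩
  choose e he1 he2 using ext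
  have L1 : ∀ c : Cond I, ∃ c', Ext c c' ∧ ∀ j ∈ c.a, Q j c' := by
    intro c
    obtain ⟨f, hf⟩ := countable_iff_exists_subset_range.1 c.hc
    let s : ℕ → Cond I := fun n => Nat.rec c (fun n cn => e (f n) cn) n
    have hs : ∀ n, Ext (s n) (s (n + 1)) := fun n => he1 (f n) (s n)
    refine ⟨supC s, ext_supC s hs 0, fun j hj => ?_⟩
    obtain ⟨n, rfl⟩ := hf hj
    exact mono _ _ _ (ext_supC s hs (n + 1)) (he2 (f n) (s n))
  choose g hg1 hg2 using L1
  let t : ℕ → Cond I := fun n => Nat.rec c (fun _ cn => g cn) n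
  have ht : ∀ n, Ext (t n) (t (n + 1)) := fun n => hg1 (t n)
  refine ⟨supC t, ext_supC t ht 0, fun j hj => ?_⟩
  obtain ⟨n, hn⟩ := mem_iUnion.1 hj
  exact mono _ _ _ (ext_supC t ht (n + 1)) (hg2 (t n) j hn)

/-- `E` is relatively discrete with respect to the coordinates in `J`. -/
def IsDisc {I X : Type} (J : Set I) (T : I → Set X) (E : Set X) : Prop :=
  ∀ d ∈ E, ∃ a ⊆ J, a.Countable ∧ ∀ y ∈ E, (∀ k ∈ a, (y ∈ T k ↔ d ∈ T k)) → y = d

/-- Every countable sign pattern is realized. -/
def Indep {I X : Type} (T : I → Set X) : Prop :=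
  ∀ (a : Set I), a.Countable → ∀ v : I → Prop, ∃ x, ∀ k ∈ a, (x ∈ T k ↔ v k)

/-- Avoiding a relatively discrete set. -/
theorem avoid {I X : Type} (J : Set I) (hJ : ¬ J.Countable) (T : I → Set X) (E : Set X)
    (hE : IsDisc J T E) (c : Cond I) :
    ∃ c', Ext c c' ∧ ∀ x ∈ E, ¬ ∀ k ∈ c'.a ∩ J, (x ∈ T k ↔ c'.v k) := by
  classical
  by_cases h : ∀ x ∈ E, ¬ ∀ k ∈ c.a ∩ J, (x ∈ T k ↔ c.v k)
  · exact ⟨c, Ext.refl c, h⟩
  push Not at h
  obtain ⟨d, hdE, hd⟩ := h
  obtain ⟨b, hbJ, hbc, hb⟩ := hE d hdE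
  have : ∃ k ∈ J, k ∉ c.a ∪ b := by
    by_contra hcon
    push Not at hcon
    exact hJ ((c.hc.union hbc).mono hcon)
  obtain ⟨k0, hk0J, hk0⟩ := this
  refine ⟨⟨insert k0 (c.a ∪ b), (c.hc.union hbc).insert k0,
    fun k => if k ∈ c.a then c.v k else if k = k0 then d ∉ T k else d ∈ T k⟩,
    ⟨(subset_union_left).trans (subset_insert _ _), fun k hk => by simp [hk]⟩, ?_⟩
  intro x hxE hx
  have hxd : x = d := by
    apply hb x hxE
    intro k hk
    have hkk0 : k ≠ k0 := by
      rintro rfl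
      exact hk0 (Or.inr hk)
    have h1 := hx k ⟨mem_insert_of_mem _ (Or.inr hk), hbJ hk⟩
    by_cases hka : k ∈ c.a
    · simp only [hka, if_true] at h1
      exact h1.trans (hd k ⟨hka, hbJ hk⟩).symm
    · simpa only [hka, if_false, hkk0] using h1
  have h2 := hx k0 ⟨mem_insert _ _, hk0J⟩
  have hka : k0 ∉ c.a := fun h => hk0 (Or.inl h)
  simp only [hka, if_false, if_true] at h2
  subst hxd
  tauto

/-- Fixed points of local functionals on ranked index types. -/
theorem exists_fix {I X R : Type} [LinearOrder R] [WellFoundedLT R] (rk : I → R)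
    (G : I → (I → Set X) → Set X)
    (hG : ∀ k T₁ T₂, (∀ k', rk k' < rk k → T₁ k' = T₂ k') → G k T₁ = G k T₂) :
    ∃ T : I → Set X, ∀ k, T k = G k T := by
  classical
  have wf : WellFounded (fun k k' : I => rk k < rk k') :=
    InvImage.wf rk (wellFounded_lt)
  refine ⟨wf.fix (fun k rec => G k (fun k' => if h : rk k' < rk k then rec k' h else ∅)), ?_⟩
  intro k
  rw [wf.fix_eq]
  apply hG
  intro k' hk'
  simp [hk']

/-- The modification set at a coordinate. -/
def Mod {I X R : Type} [LinearOrder R] (rk : I → R) (E : I → Set X) (p : I → Option X)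
    (k : I) (T : I → Set X) : Set X :=
  {x | (∃ r, r < rk k) ∧ x ∈ E k ∧ IsDisc {k' | rk k' < rk k} T (E k) ∧ ∀ y ∈ E k, p k ≠ some y}

/-- Existence of the modified family. -/
theorem exists_modified {I X R : Type} [LinearOrder R] [WellFoundedLT R] (rk : I → R)
    (E : I → Set X) (p : I → Option X) (S : I → Set X) :
    ∃ T : I → Set X, ∀ k,
      T k = (S k ∪ {x | (∃ r, r < rk k) ∧ p k = some x}) \ Mod rk E p k T := by
  apply exists_fix rk
    (fun k T => (S k ∪ {x | (∃ r, r < rk k) ∧ p k = some x}) \ Mod rk E p k T)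
  intro k T₁ T₂ h
  have : ∀ T₁ T₂ : I → Set X, (∀ k', rk k' < rk k → T₁ k' = T₂ k') →
      IsDisc {k' | rk k' < rk k} T₁ (E k) → IsDisc {k' | rk k' < rk k} T₂ (E k) := by
    intro T₁ T₂ h hd d hdE
    obtain ⟨a, haJ, hac, ha⟩ := hd d hdE
    refine ⟨a, haJ, hac, fun y hy hyk => ha y hy fun k' hk' => ?_⟩
    rw [h k' (haJ hk')]
    exact hyk k' hk'
  have h2 : Mod rk E p k T₁ = Mod rk E p k T₂ := by
    ext x
    simp only [Mod, mem_ofPred_eq]
    constructor
    · rintro ⟨h1, h2, h3, h4⟩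
      exact ⟨h1, h2, this T₁ T₂ h h3, h4⟩
    · rintro ⟨h1, h2, h3, h4⟩
      exact ⟨h1, h2, this T₂ T₁ (fun k' hk' => (h k' hk').symm) h3, h4⟩
  simp only [h2]

/-- The modified family is still independent. -/
theorem modified_indep {I X R : Type} [LinearOrder R] [WellFoundedLT R] (rk : I → R)
    (hrk : ∀ k : I, (∃ r, r < rk k) → ¬ ({k' | rk k' < rk k} : Set I).Countable)
    (E : I → Set X) (p : I → Option X) (S : I → Set X) (hS : Indep S) (T : I → Set X)
    (hT : ∀ k, T k = (S k ∪ {x | (∃ r, r < rk k) ∧ p k = some x}) \ Mod rk E p k T) :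
    Indep T := by
  intro a ha v
  let M : I → Set X := fun k => {x | (∃ r, r < rk k) ∧ p k = some x} ∪ Mod rk E p k T
  have hM : ∀ k x, x ∉ M k → (x ∈ T k ↔ x ∈ S k) := by
    intro k x hx
    rw [hT k]
    have h1 : x ∉ {x | (∃ r, r < rk k) ∧ p k = some x} := fun h => hx (Or.inl h)
    have h2 : x ∉ Mod rk E p k T := fun h => hx (Or.inr h)
    constructor
    · rintro ⟨h | h, _⟩
      · exact h
      · exact (h1 h).elim
    · intro h
      exact ⟨Or.inl h, h2⟩
  let Q : I → Cond I → Prop := fun j c =>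
    ∀ x ∈ M j, ¬ ∀ k ∈ c.a ∩ {k' | rk k' < rk j}, (x ∈ T k ↔ c.v k)
  obtain ⟨c, hc1, hc2⟩ := closing Q (by
      intro j c c' hcc' h x hx hcon
      apply h x hx
      intro k hk
      rw [hcc'.2 k hk.1]
      exact hcon k ⟨hcc'.1 hk.1, hk.2⟩) (by
      intro j c
      by_cases hj : ∃ r, r < rk j
      · have hJ := hrk j hj
        -- first avoid the point
        have hd1 : IsDisc {k' | rk k' < rk j} T {x | (∃ r, r < rk j) ∧ p j = some x} := by
          rintro d ⟨_, hd⟩
          refine ⟨∅, empty_subset _, countable_empty, ?_⟩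
          rintro y ⟨_, hy⟩ _
          rw [hd] at hy
          exact (Option.some.inj hy).symm
        have hd2 : IsDisc {k' | rk k' < rk j} T (Mod rk E p j T) := by
          rintro d ⟨_, hd, hdisc, _⟩
          obtain ⟨a, haJ, hac, ha⟩ := hdisc d hd
          exact ⟨a, haJ, hac, fun y hy hyk => ha y hy.2.1 hyk⟩
        obtain ⟨c1, hc1, hc1'⟩ := avoid _ hJ T _ hd1 c
        obtain ⟨c2, hc2, hc2'⟩ := avoid _ hJ T _ hd2 c1
        refine ⟨c2, hc1.trans hc2, ?_⟩
        rintro x (hx | hx) hcon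
        · apply hc1' x hx
          intro k hk
          rw [hc2.2 k hk.1]
          exact hcon k ⟨hc2.1 hk.1, hk.2⟩
        · exact hc2' x hx hcon
      · refine ⟨c, Ext.refl c, ?_⟩
        rintro x (hx | hx) _
        · exact hj hx.1
        · exact hj hx.1)
    ⟨a, ha, v⟩
  obtain ⟨x, hx⟩ := hS c.a c.hc c.v
  have key : ∀ r : R, ∀ k ∈ c.a, rk k = r → (x ∈ T k ↔ c.v k) := by
    intro r
    induction r using WellFoundedLT.induction with
    | ind r ih =>
      intro k hk hkr
      have hxM : x ∉ M k := by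
        intro hxM
        apply hc2 k hk x hxM
        rintro k' ⟨hk'a, hk'⟩
        exact ih (rk k') (hkr ▸ hk') k' hk'a rfl
      rw [hM k x hxM]
      exact hx k hk
  refine ⟨x, fun k hk => ?_⟩
  rw [key (rk k) k (hc1.1 hk) rfl]
  exact (hc1.2 k hk).symm

/-- The topology with countable-support boxes in the coordinates `U`. -/
@[reducible] def topo {I Y : Type} (U : I → Set Y) : TopologicalSpace Y where
  IsOpen O := ∀ y ∈ O, ∃ a : Set I, a.Countable ∧ ∀ z, (∀ k ∈ a, (z ∈ U k ↔ y ∈ U k)) → z ∈ O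
  isOpen_univ := fun _ _ => ⟨∅, countable_empty, fun _ _ => mem_univ _⟩
  isOpen_inter := by
    rintro O₁ O₂ h₁ h₂ y ⟨hy₁, hy₂⟩
    obtain ⟨a₁, ha₁, h₁⟩ := h₁ y hy₁
    obtain ⟨a₂, ha₂, h₂⟩ := h₂ y hy₂
    exact ⟨a₁ ∪ a₂, ha₁.union ha₂, fun z hz =>
      ⟨h₁ z fun k hk => hz k (Or.inl hk), h₂ z fun k hk => hz k (Or.inr hk)⟩⟩
  isOpen_sUnion := by
    rintro s hs y ⟨O, hO, hy⟩
    obtain ⟨a, ha, h⟩ := hs O hO y hy
    exact ⟨a, ha, fun z hz => ⟨O, hO, h z hz⟩⟩

theorem isOpen_topo_iff {I Y : Type} (U : I → Set Y) (O : Set Y) :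
    IsOpen[topo U] O ↔
      ∀ y ∈ O, ∃ a : Set I, a.Countable ∧ ∀ z, (∀ k ∈ a, (z ∈ U k ↔ y ∈ U k)) → z ∈ O :=
  Iff.rfl

theorem topo_box {I Y : Type} (U : I → Set Y) (a : Set I) (ha : a.Countable) (y : Y) :
    IsOpen[topo U] {z | ∀ k ∈ a, (z ∈ U k ↔ y ∈ U k)} := by
  rw [isOpen_topo_iff]
  intro w hw
  refine ⟨a, ha, fun z hz k hk => (hz k hk).trans (hw k hk)⟩

theorem topo_box_closed {I Y : Type} (U : I → Set Y) (a : Set I) (ha : a.Countable) (y : Y) :
    IsClosed[topo U] {z | ∀ k ∈ a, (z ∈ U k ↔ y ∈ U k)} := by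
  rw [← @isOpen_compl_iff _ _ (topo U), isOpen_topo_iff]
  intro w hw
  refine ⟨a, ha, fun z hz hz' => hw fun k hk => (hz k hk).symm.trans (hz' k hk)⟩

theorem topo_t3 {I Y : Type} (U : I → Set Y)
    (sep : ∀ y z : Y, y ≠ z → ∃ k, ¬ (y ∈ U k ↔ z ∈ U k)) : @T3Space Y (topo U) := by
  let _ := topo U
  have _ : T0Space Y := by
    rw [t0Space_iff_inseparable]
    intro y z hyz
    by_contra hne
    obtain ⟨k, hk⟩ := sep y z hne
    apply hk
    have h1 := (hyz.mem_open_iff (topo_box U {k} (countable_singleton k) y)).1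
      (fun k _ => Iff.rfl)
    exact (h1 k rfl).symm
  have _ : RegularSpace Y := by
    apply RegularSpace.of_exists_mem_nhds_isClosed_subset
    intro y s hs
    obtain ⟨O, hOs, hO, hy⟩ := mem_nhds_iff.1 hs
    obtain ⟨a, ha, h⟩ := (isOpen_topo_iff U O).1 hO y hy
    refine ⟨{z | ∀ k ∈ a, (z ∈ U k ↔ y ∈ U k)},
      (topo_box U a ha y).mem_nhds (fun k _ => Iff.rfl), topo_box_closed U a ha y, ?_⟩
    intro z hz
    exact hOs (h z hz)
  exact {}

theorem topo_P {I Y : Type} (U : I → Set Y) (O : ℕ → Set Y)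
    (hO : ∀ n, IsOpen[topo U] (O n)) : IsOpen[topo U] (⋂ n, O n) := by
  rw [isOpen_topo_iff]
  intro y hy
  have : ∀ n, ∃ a : Set I, a.Countable ∧ ∀ z, (∀ k ∈ a, (z ∈ U k ↔ y ∈ U k)) → z ∈ O n :=
    fun n => (isOpen_topo_iff U (O n)).1 (hO n) y (mem_iInter.1 hy n)
  choose a ha h using this
  refine ⟨⋃ n, a n, countable_iUnion ha, fun z hz => mem_iInter.2 fun n => h n z fun k hk => ?_⟩
  exact hz k (mem_iUnion.2 ⟨n, hk⟩)

/-- The base type of the family. -/
abbrev B : Type := ℕ → Bool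

/-- The point set. -/
abbrev XX : Type := (ℕ → B) × (ℕ → ℕ → Bool)

theorem mk_B : #B = 𝔠 := by
  simp [B]

theorem mk_XX : #XX = 𝔠 := by
  simp [XX, B, mk_prod]

/-- The original family. -/
def S0 (A : B → Bool) : Set XX := {x | ∃ n, x.2 n = fun m => A (x.1 m)}

theorem S0_indep {I : Type} (A : I → (B → Bool)) (hA : Function.Injective A) :
    Indep (fun k => S0 (A k)) := by
  classical
  intro a ha v
  -- distinguishing points
  have h1 : ∀ kl : I × I, ∃ b : B, A kl.1 ≠ A kl.2 → A kl.1 b ≠ A kl.2 b := by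
    intro kl
    by_cases h : A kl.1 = A kl.2
    · exact ⟨fun _ => false, fun h' => (h' h).elim⟩
    · obtain ⟨b, hb⟩ := Function.ne_iff.1 h
      exact ⟨b, fun _ => hb⟩
  choose b hb using h1
  obtain ⟨u, hu⟩ := countable_iff_exists_subset_range.1 ((ha.prod ha).image b)
  have hinj : ∀ k ∈ a, ∀ l ∈ a, (fun m => A k (u m)) = (fun m => A l (u m)) → k = l := by
    intro k hk l hl h
    by_contra hkl
    have hAkl : A k ≠ A l := fun h' => hkl (hA h')
    have h2 := hb (k, l) hAkl
    obtain ⟨m, hm⟩ := hu (mem_image_of_mem b (show (k, l) ∈ a ×ˢ a from ⟨hk, hl⟩))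
    have h3 := congrFun h m
    simp only [hm] at h3
    exact h2 h3
  -- the set of traces
  let tr : I → (ℕ → Bool) := fun k m => A k (u m)
  have hcount : (tr '' a).Countable := ha.image tr
  obtain ⟨f0, hf0⟩ : ∃ f0 : ℕ → Bool, f0 ∉ tr '' a := by
    by_contra hcon
    push Not at hcon
    have huniv : (univ : Set (ℕ → Bool)) ⊆ tr '' a := fun f _ => hcon f
    have h4 := hcount.mono huniv
    rw [Set.countable_univ_iff] at h4
    have h5 : #(ℕ → Bool) ≤ ℵ₀ := mk_le_aleph0_iff.2 h4
    rw [mk_B] at h5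
    exact absurd h5 (not_le.2 aleph0_lt_continuum)
  have hW : (insert f0 (tr '' {k ∈ a | v k})).Countable :=
    ((ha.mono (sep_subset a v)).image tr).insert f0
  obtain ⟨w, hw⟩ := hW.exists_eq_range (insert_nonempty _ _)
  refine ⟨(u, w), fun k hk => ?_⟩
  constructor
  · rintro ⟨n, hn⟩
    have h6 : w n ∈ insert f0 (tr '' {k ∈ a | v k}) := by
      rw [hw]
      exact mem_range_self n
    have hn' : w n = tr k := hn
    rw [hn'] at h6
    rcases h6 with h6 | ⟨l, ⟨hl, hvl⟩, hlk⟩
    · exact (hf0 (h6 ▸ mem_image_of_mem tr hk)).elim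
    · have : l = k := hinj l hl k hk hlk
      exact this ▸ hvl
  · intro hv
    have h7 : tr k ∈ insert f0 (tr '' {k ∈ a | v k}) :=
      mem_insert_of_mem _ (mem_image_of_mem tr ⟨hk, hv⟩)
    rw [hw] at h7
    obtain ⟨n, hn⟩ := h7
    exact ⟨n, hn⟩

/-- The rank type. -/
abbrev RR : Type := (Order.succ 𝔠).ord.ToType

theorem RR_bdd (s : Set RR) (hs : #s ≤ 𝔠) : ∃ r, ∀ y ∈ s, y < r := by
  rw [← not_isCofinal_iff]
  intro h
  have h1 := Order.cof_le h
  have h2 : Order.cof RR = Order.succ 𝔠 := by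
    rw [Ordinal.cof_toType]
    exact (isRegular_succ aleph0_le_continuum).cof_ord
  rw [h2] at h1
  exact absurd (h1.trans hs) (not_le.2 (Order.lt_succ 𝔠))

/-- The index type. -/
abbrev II : Type := RR × (Set XX × Option XX)

theorem mk_II_le : #II ≤ #(B → Bool) := by
  have h1 : #(B → Bool) = 2 ^ 𝔠 := by
    rw [← Cardinal.power_def, mk_B]
    simp
  have h2 : #RR = Order.succ 𝔠 := by simp [RR]
  have h3 : #(Set XX) = 2 ^ 𝔠 := by rw [mk_set, mk_XX]
  have h4 : #(Option XX) ≤ 2 ^ 𝔠 := by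
    rw [mk_option, mk_XX]
    have : 𝔠 + 1 = 𝔠 := add_one_eq aleph0_le_continuum
    rw [this]
    exact (cantor 𝔠).le
  have h5 : Order.succ 𝔠 ≤ 2 ^ 𝔠 := Order.succ_le_of_lt (cantor 𝔠)
  have h6 : ℵ₀ ≤ (2 : Cardinal) ^ 𝔠 := aleph0_le_continuum.trans (cantor 𝔠).le
  rw [h1, mk_prod, mk_prod]
  simp only [lift_id]
  rw [h2, h3]
  calc Order.succ 𝔠 * (2 ^ 𝔠 * #(Option XX)) ≤ 2 ^ 𝔠 * (2 ^ 𝔠 * 2 ^ 𝔠) :=
        mul_le_mul' h5 (mul_le_mul' le_rfl h4)
    _ = 2 ^ 𝔠 := by rw [mul_eq_self h6, mul_eq_self h6]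

/-- There is a regular T1 topological space in which countable intersections of open sets are open, yet some non-closed set A contains no subset that is discrete in itself and has a closure point outside A. -/
theorem result :
    ∃ (X : Type) (t : TopologicalSpace X),
      T3Space X ∧
      (∀ U : ℕ → Set X, (∀ n, IsOpen (U n)) → IsOpen (⋂ n, U n)) ∧
      ¬ (∀ A : Set X, ¬ IsClosed A →
          ∃ D : Set X, D ⊆ A ∧ DiscreteTopology D ∧ (closure D \ A).Nonempty) := by
  classical
  obtain ⟨A, hA⟩ : ∃ A : II → (B → Bool), Function.Injective A := by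
    obtain ⟨f⟩ := (Cardinal.le_def _ _).1 mk_II_le
    exact ⟨f, f.injective⟩
  let rk : II → RR := fun k => k.1
  let E : II → Set XX := fun k => k.2.1
  let p : II → Option XX := fun k => k.2.2
  obtain ⟨T, hT⟩ := exists_modified rk E p (fun k => S0 (A k))
  have hrk : ∀ k : II, (∃ r, r < rk k) → ¬ ({k' | rk k' < rk k} : Set II).Countable := by
    rintro k ⟨r, hr⟩ hcount
    have hinj : Function.Injective (fun s : Set XX => ((r, (s, none)) : II)) := by
      intro s s' h
      simpa using h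
    have h1 : (range (fun s : Set XX => ((r, (s, none)) : II))).Countable :=
      hcount.mono (by rintro _ ⟨s, rfl⟩; exact hr)
    have h2 : Countable (Set XX) := by
      have h1' := h1.to_subtype
      exact (Equiv.ofInjective _ hinj).injective.countable
    have h3 : #(Set XX) ≤ ℵ₀ := mk_le_aleph0_iff.2 h2
    rw [mk_set, mk_XX] at h3
    exact absurd h3 (not_le.2 (aleph0_lt_continuum.trans (cantor 𝔠)))
  have hI : Indep T := modified_indep rk hrk E p _ (S0_indep A hA) T hT
  let U : II → Set (Option XX) := fun k => {y | ∀ x, y = some x → x ∈ T k}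
  have hU_none : ∀ k, (none : Option XX) ∈ U k := by
    intro k x hx
    simp at hx
  have hU_some : ∀ k x, (some x ∈ U k ↔ x ∈ T k) := by
    intro k x
    constructor
    · intro h
      exact h x rfl
    · intro h y hy
      rw [← Option.some.inj hy]
      exact h
  -- existence of two comparable ranks
  obtain ⟨r1, hr1⟩ := RR_bdd ∅ (by simp)
  obtain ⟨r2, hr2⟩ := RR_bdd {r1} (by
    simp only [mk_singleton]
    exact (one_lt_aleph0.le).trans aleph0_le_continuum)
  have hr12 : r1 < r2 := hr2 r1 rfl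
  have sep : ∀ y z : Option XX, y ≠ z → ∃ k, ¬ (y ∈ U k ↔ z ∈ U k) := by
    have main : ∀ (x : XX) (z : Option XX), some x ≠ z → ∃ k, some x ∉ U k ∧ z ∈ U k := by
      intro x z hxz
      let k : II := (r2, ({x}, z))
      have hx : x ∉ T k := by
        rw [hT k]
        rintro ⟨_, h⟩
        apply h
        refine ⟨⟨r1, hr12⟩, mem_singleton x, ?_, ?_⟩
        · intro d hd
          refine ⟨∅, empty_subset _, countable_empty, fun y hy _ => ?_⟩
          exact (mem_singleton_iff.1 hy).trans (mem_singleton_iff.1 hd).symm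
        · intro y hy hpy
          exact hxz (by rw [← mem_singleton_iff.1 hy]; exact hpy.symm)
      refine ⟨k, fun h => hx ((hU_some k x).1 h), ?_⟩
      rcases z with _ | z
      · exact hU_none k
      · rw [hU_some, hT k]
        refine ⟨Or.inr ⟨⟨r1, hr12⟩, rfl⟩, ?_⟩
        rintro ⟨_, h, _⟩
        have : z = x := h
        exact hxz (by rw [this])
    intro y z hyz
    rcases y with _ | y
    · rcases z with _ | z
      · exact (hyz rfl).elim
      · obtain ⟨k, hk1, hk2⟩ := main z none (by simp)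
        exact ⟨k, fun h => hk1 (h.1 hk2)⟩
    · obtain ⟨k, hk1, hk2⟩ := main y z hyz
      exact ⟨k, fun h => hk1 (h.2 hk2)⟩
  refine ⟨Option XX, topo U, topo_t3 U sep, topo_P U, ?_⟩
  let _ := topo U
  intro hw
  have hnc : ¬ IsClosed (range (some : XX → Option XX)) := by
    intro hcl
    have hop := hcl.isOpen_compl
    obtain ⟨a, ha, h⟩ := (isOpen_topo_iff U _).1 hop none (by simp)
    obtain ⟨x, hx⟩ := hI a ha (fun _ => True)
    have := h (some x) (fun k hk => by
      rw [hU_some]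
      exact ⟨fun _ => hU_none k, fun _ => (hx k hk).2 trivial⟩)
    simp at this
  obtain ⟨D, hDA, hD, y, hyD, hyA⟩ := hw _ hnc
  have hy : y = none := by
    rcases y with _ | y
    · rfl
    · exact (hyA (mem_range_self y)).elim
  subst hy
  -- the discrete set
  let D0 : Set XX := {x | some x ∈ D}
  have hiso : ∀ x : XX, ∃ a : Set II, a.Countable ∧
      (x ∈ D0 → ∀ y ∈ D0, (∀ k ∈ a, (y ∈ T k ↔ x ∈ T k)) → y = x) := by
    intro x
    by_cases hx : x ∈ D0
    · have hsing : IsOpen ({(⟨some x, hx⟩ : D)} : Set D) := isOpen_discrete _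
      obtain ⟨O, hO, hOD⟩ := isOpen_induced_iff.1 hsing
      have hxO : some x ∈ O := by
        have : (⟨some x, hx⟩ : D) ∈ (Subtype.val ⁻¹' O : Set D) := by
          rw [hOD]
          exact mem_singleton _
        exact this
      obtain ⟨a, ha, h⟩ := (isOpen_topo_iff U O).1 hO (some x) hxO
      refine ⟨a, ha, fun _ y hy hyk => ?_⟩
      have hyO : some y ∈ O := h (some y) (fun k hk => by
        rw [hU_some, hU_some]
        exact hyk k hk)
      have : (⟨some y, hy⟩ : D) ∈ (Subtype.val ⁻¹' O : Set D) := hyO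
      rw [hOD] at this
      have h8 : (⟨some y, hy⟩ : D) = ⟨some x, hx⟩ := this
      have h9 := congrArg Subtype.val h8
      exact Option.some.inj h9
    · exact ⟨∅, countable_empty, fun h => (hx h).elim⟩
  choose a ha hiso using hiso
  obtain ⟨r, hr⟩ := RR_bdd (rk '' (⋃ x : XX, a x)) (by
    have hcard : #(rk '' (⋃ x : XX, a x) : Set RR) ≤ #(⋃ x : XX, a x) := mk_image_le
    have h10 : #(⋃ x : XX, a x) ≤ 𝔠 := by
      refine (mk_iUnion_le (fun x : XX => a x)).trans ?_
      rw [mk_XX]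
      have h11 : (⨆ x : XX, #(a x)) ≤ ℵ₀ := by
        apply ciSup_le'
        intro x
        exact mk_le_aleph0_iff.2 (ha x)
      calc 𝔠 * (⨆ x : XX, #(a x)) ≤ 𝔠 * 𝔠 := mul_le_mul' le_rfl (h11.trans aleph0_le_continuum)
        _ = 𝔠 := continuum_mul_self
    exact hcard.trans h10)
  -- a rank above with something below
  obtain ⟨r', hr'⟩ := RR_bdd {r} (by
    simp only [mk_singleton]
    exact (one_lt_aleph0.le).trans aleph0_le_continuum)
  have hrr' : r < r' := hr' r rfl
  let k : II := (r', (D0, none))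
  have hTk : ∀ x ∈ D0, x ∉ T k := by
    intro x hx
    rw [hT k]
    rintro ⟨_, h⟩
    apply h
    refine ⟨⟨r, hrr'⟩, hx, ?_, ?_⟩
    · intro d hd
      refine ⟨a d, ?_, ha d, fun y hy hyk => hiso d hd y hy hyk⟩
      intro k' hk'
      exact (hr (rk k') (mem_image_of_mem rk (mem_iUnion.2 ⟨d, hk'⟩))).trans hrr'
    · intro y _
      simp [p, k]
  have hopen : IsOpen {z : Option XX | ∀ k' ∈ ({k} : Set II), (z ∈ U k' ↔ none ∈ U k')} :=
    topo_box U {k} (countable_singleton k) none
  obtain ⟨z, hz1, hz2⟩ := mem_closure_iff.1 hyD _ hopen (fun k' _ => Iff.rfl)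
  obtain ⟨x, rfl⟩ := hDA hz2
  have h12 := (hz1 k rfl).2 (hU_none k)
  rw [hU_some] at h12
  exact hTk x hz2 h12

end Pool.Agent.S13377
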