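import Pool.Statements.S13531
import Pool.Agent.Lib.MP_8afd67_gt.Final

set_option autoImplicit false
open Pool Pool.MP_8afd67_gt

namespace Pool.Agent.S13531

/-- If a compact connected metric space admits, for every ε>0, a continuous map onto the circle with fibers of diameter <ε, then every nondegenerate open continuous image of it admits such ε-maps onto the circle, or admits them onto [0,1]. -/
theorem result :
    ∀ (X Y : Type) [MetricSpace X] [CompactSpace X] [ConnectedSpace X]
      [MetricSpace Y] [CompactSpace Y] [ConnectedSpace Y] [Nontrivial Y]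
      (g : X → Y), Continuous g → Function.Surjective g → IsOpenMap g →
      (∀ ε : ℝ, 0 < ε → ∃ f : X → Circle, Continuous f ∧ Function.Surjective f ∧
          ∀ z : Circle, Metric.diam (f ⁻¹' {z}) < ε) →
      (∀ ε : ℝ, 0 < ε → ∃ f : Y → Circle, Continuous f ∧ Function.Surjective f ∧
          ∀ z : Circle, Metric.diam (f ⁻¹' {z}) < ε) ∨
      (∀ ε : ℝ, 0 < ε → ∃ f : Y → unitInterval, Continuous f ∧ Function.Surjective f ∧
          ∀ t : unitInterval, Metric.diam (f ⁻¹' {t}) < ε) := by
  intro X Y _ _ _ _ _ _ _ g hg hs ho hX
  exact Pool.Agent.Lib.MP_8afd67_gt.main hg hs ho hX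

end Pool.Agent.S13531
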