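import Pool.Statements.S13596

set_option autoImplicit false
open Pool Pool.MP_94b191_gt

namespace Pool.Agent.S13596

open Topology

noncomputable section

/-- The height profile: zero up to one half, then linear up to one. -/
def zf (t : ℝ) : ℝ := max 0 (2 * t - 1)

/-- The triangle wave with period two. -/
def tri (s : ℝ) : ℝ := Real.arccos (Real.cos (Real.pi * s)) / Real.pi

/-- The sign attached to a Boolean. -/
def sgn (b : Bool) : ℝ := if b then 1 else -1

/-- Blade functions. -/
def hf (m l : ℕ) (b : Bool) (t : ℝ) : ℝ :=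
  t * (1 - (2 * (l : ℝ) + sgn b * zf t) / (2 * (m : ℝ) + 1))

open Classical in
/-- The parametrisation of the space by the harmonic fan. -/
def F (s : OnePoint (ℕ × ℕ × Bool)) (t : ℝ) : ℕ → ℝ
  | 0 => t
  | (m + 1) => ∑ b ∈ (Finset.range (m + 1) ×ˢ (Finset.univ : Finset Bool)),
      if s = (((m, b.1, b.2) : ℕ × ℕ × Bool) : OnePoint (ℕ × ℕ × Bool)) then hf m b.1 b.2 t else 0

lemma zf_cont : Continuous zf := by
  unfold zf; fun_prop

lemma tri_cont : Continuous tri := by
  unfold tri
  exact (Real.continuous_arccos.comp (Real.continuous_cos.comp (by fun_prop))).div_const _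

lemma hf_cont (m l : ℕ) (b : Bool) : Continuous (hf m l b) := by
  unfold hf
  have := zf_cont
  fun_prop

lemma zf_nonneg (t : ℝ) : 0 ≤ zf t := le_max_left _ _

lemma zf_le_one {t : ℝ} (ht : t ≤ 1) : zf t ≤ 1 := by
  unfold zf; apply max_le <;> linarith

lemma tri_add (l : ℕ) {z : ℝ} (h0 : 0 ≤ z) (h1 : z ≤ 1) : tri (2 * l + z) = z := by
  unfold tri
  have : Real.pi * (2 * (l : ℝ) + z) = Real.pi * z + (l : ℝ) * (2 * Real.pi) := by ring
  rw [this, Real.cos_add_nat_mul_two_pi, Real.arccos_cos]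
  · field_simp
  · positivity
  · nlinarith [Real.pi_pos]

lemma tri_sub (l : ℕ) {z : ℝ} (h0 : 0 ≤ z) (h1 : z ≤ 1) : tri (2 * l - z) = z := by
  unfold tri
  have : Real.pi * (2 * (l : ℝ) - z) = (l : ℝ) * (2 * Real.pi) - Real.pi * z := by ring
  rw [this, Real.cos_nat_mul_two_pi_sub, Real.arccos_cos]
  · field_simp
  · positivity
  · nlinarith [Real.pi_pos]

lemma tri_nonneg (s : ℝ) : 0 ≤ tri s := by
  unfold tri
  exact div_nonneg (Real.arccos_nonneg _) Real.pi_pos.le

lemma tri_le_one (s : ℝ) : tri s ≤ 1 := by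
  unfold tri
  rw [div_le_one Real.pi_pos]
  exact Real.arccos_le_pi _

/-- Every nonnegative number is at distance `tri` from an even number. -/
lemma exists_l {m : ℕ} {s : ℝ} (h0 : 0 ≤ s) (h1 : s ≤ 2 * m + 1) :
    ∃ l : ℕ, l ≤ m ∧ ∃ b : Bool, s = 2 * (l : ℝ) + sgn b * tri s := by
  set l : ℕ := ⌈(s - 1) / 2⌉₊ with hl
  have hlm : l ≤ m := by
    rw [hl]; apply Nat.ceil_le.2; linarith
  have hle : (s - 1) / 2 ≤ l := Nat.le_ceil _
  have hlt : (l : ℝ) < (s + 1) / 2 ∨ l = 0 := by
    by_cases h : 0 < (s - 1) / 2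
    · left
      have := Nat.ceil_lt_add_one h.le
      rw [← hl] at this
      linarith
    · right
      rw [hl]
      exact Nat.ceil_eq_zero.2 (not_lt.1 h)
  refine ⟨l, hlm, ?_⟩
  by_cases hs : 2 * (l : ℝ) ≤ s
  · refine ⟨true, ?_⟩
    have h2 : tri s = s - 2 * l := by
      have := tri_add l (z := s - 2 * l) (by linarith) (by linarith)
      rw [show 2 * (l : ℝ) + (s - 2 * l) = s by ring] at this
      exact this
    rw [h2]; simp [sgn]
  · refine ⟨false, ?_⟩
    push Not at hs
    have hlt' : (l : ℝ) < (s + 1) / 2 := by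
      rcases hlt with h | h
      · exact h
      · exfalso; rw [h] at hs; simp at hs; linarith
    have h2 : tri s = 2 * l - s := by
      have := tri_sub l (z := 2 * l - s) (by linarith) (by linarith)
      rw [show 2 * (l : ℝ) - (2 * l - s) = s by ring] at this
      exact this
    rw [h2]; simp [sgn]

/-- Coordinates of a point of the space. -/
lemma F_zero (s : OnePoint (ℕ × ℕ × Bool)) (t : ℝ) : F s t 0 = t := rfl

lemma F_succ (s : OnePoint (ℕ × ℕ × Bool)) (t : ℝ) (m : ℕ) :
    F s t (m + 1) = 0 ∨ ∃ l : ℕ, l ≤ m ∧ ∃ b : Bool, F s t (m + 1) = hf m l b t := by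
  by_cases h : ∃ c ∈ (Finset.range (m + 1) ×ˢ (Finset.univ : Finset Bool)),
      s = (((m, c.1, c.2) : ℕ × ℕ × Bool) : OnePoint (ℕ × ℕ × Bool))
  · right
    obtain ⟨c, hc, hs⟩ := h
    refine ⟨c.1, ?_, c.2, ?_⟩
    · simp at hc; omega
    · show (∑ b ∈ _, _) = _
      rw [Finset.sum_eq_single_of_mem c hc]
      · rw [if_pos hs]
      · intro d _ hd
        rw [if_neg]
        rw [hs]
        intro hcd
        apply hd
        rw [OnePoint.coe_eq_coe] at hcd
        simp only [Prod.mk.injEq, true_and] at hcd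
        exact Prod.ext hcd.1.symm hcd.2.symm
  · left
    push Not at h
    show (∑ b ∈ _, _) = _
    apply Finset.sum_eq_zero
    intro c hc
    rw [if_neg (h c hc)]

lemma F_infty_succ (t : ℝ) (m : ℕ) : F OnePoint.infty t (m + 1) = 0 := by
  show (∑ b ∈ _, _) = _
  apply Finset.sum_eq_zero
  intro c _
  rw [if_neg (OnePoint.infty_ne_coe _)]

lemma F_coe_self {m l : ℕ} (hl : l ≤ m) (b : Bool) (t : ℝ) :
    F (((m, l, b) : ℕ × ℕ × Bool) : OnePoint (ℕ × ℕ × Bool)) t (m + 1) = hf m l b t := by
  show (∑ b ∈ _, _) = _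
  rw [Finset.sum_eq_single_of_mem (l, b)]
  · rw [if_pos rfl]
  · simp; omega
  · intro d _ hd
    rw [if_neg]
    intro hcd
    apply hd
    rw [OnePoint.coe_eq_coe] at hcd
    simp only [Prod.mk.injEq, true_and] at hcd
    exact Prod.ext hcd.1.symm hcd.2.symm

lemma F_coe_ne {m l j : ℕ} (hj : j ≠ m) (b : Bool) (t : ℝ) :
    F (((m, l, b) : ℕ × ℕ × Bool) : OnePoint (ℕ × ℕ × Bool)) t (j + 1) = 0 := by
  show (∑ b ∈ _, _) = _
  apply Finset.sum_eq_zero
  intro c _
  rw [if_neg]
  intro hcd
  rw [OnePoint.coe_eq_coe] at hcd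
  simp only [Prod.mk.injEq] at hcd
  exact hj hcd.1.symm

lemma isClopen_coe (c : ℕ × ℕ × Bool) : IsClopen ({(c : OnePoint (ℕ × ℕ × Bool))} : Set _) := by
  constructor
  · exact isClosed_singleton
  · have : ({(c : OnePoint (ℕ × ℕ × Bool))} : Set _) = (fun x : ℕ × ℕ × Bool => (x : OnePoint _)) '' {c} := by
      simp
    rw [this]
    exact OnePoint.isOpenEmbedding_coe.isOpenMap _ (isOpen_discrete _)

lemma F_cont : Continuous (fun p : OnePoint (ℕ × ℕ × Bool) × ℝ => F p.1 p.2) := by
  classical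
  apply continuous_pi
  intro j
  cases j with
  | zero => exact continuous_snd
  | succ m =>
    show Continuous (fun p : OnePoint (ℕ × ℕ × Bool) × ℝ => ∑ b ∈ _, _)
    apply continuous_finsetSum
    intro c _
    have hcl := isClopen_coe (m, c.1, c.2)
    refine Continuous.if ?_ ?_ ?_
    · intro a ha
      exfalso
      have hcl2 : IsClopen {a : OnePoint (ℕ × ℕ × Bool) × ℝ |
          a.1 = (((m, c.1, c.2) : ℕ × ℕ × Bool) : OnePoint (ℕ × ℕ × Bool))} :=
        hcl.preimage continuous_fst
      rw [hcl2.frontier_eq] at ha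
      exact ha
    · exact (hf_cont _ _ _).comp continuous_snd
    · exact continuous_const

/-- A compact family of paths is uniform. -/
lemma unif_of_family {X S : Type} [MetricSpace X] [TopologicalSpace S] [CompactSpace S]
    (g : S → unitInterval → X) (hg : Continuous (fun p : S × unitInterval => g p.1 p.2))
    (ε : ℝ) (hε : ε > 0) :
    ∃ n : ℕ, ∃ t : Fin (n + 1) → unitInterval,
      t 0 = 0 ∧ t (Fin.last n) = 1 ∧ StrictMono t ∧
        ∀ s : S, ∀ i : Fin n, Metric.diam (g s '' Set.Icc (t i.castSucc) (t i.succ)) ≤ ε := by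
  have heq : Equicontinuous g := by
    intro q u hu
    have h1 : ContinuousOn (Function.uncurry (fun (x : unitInterval) (s : S) => g s x))
        (Set.univ ×ˢ Set.univ) := by
      apply Continuous.continuousOn
      exact hg.comp (continuous_snd.prodMk continuous_fst)
    obtain ⟨v, hv, hv2⟩ := IsCompact.mem_uniformity_of_prod (q := q) (isCompact_univ (X := S)) h1
      (Set.mem_univ _) (symm_le_uniformity hu)
    rw [nhdsWithin_univ] at hv
    filter_upwards [hv] with x hx s
    exact hv2 x hx s (Set.mem_univ _)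
  have hu := CompactSpace.uniformEquicontinuous_of_equicontinuous heq
  rw [Metric.uniformEquicontinuous_iff] at hu
  obtain ⟨δ, hδ, hδ2⟩ := hu ε hε
  obtain ⟨n, hn⟩ := exists_nat_one_div_lt hδ
  refine ⟨n + 1, fun i => ⟨(i : ℕ) / ((n : ℝ) + 1), ?_, ?_⟩, ?_, ?_, ?_, ?_⟩
  · positivity
  · rw [div_le_one (by positivity)]
    have := i.is_lt
    have : (i : ℕ) ≤ n + 1 := by omega
    exact_mod_cast this
  · apply Subtype.ext; simp
  · apply Subtype.ext
    simp only [Fin.val_last, Nat.cast_add, Nat.cast_one]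
    exact div_self (by positivity)
  · intro i j hij
    show (i : ℕ) / ((n : ℝ) + 1) < (j : ℕ) / ((n : ℝ) + 1)
    have : ((i : ℕ) : ℝ) < (j : ℕ) := by exact_mod_cast hij
    gcongr
  · intro s i
    apply Metric.diam_le_of_forall_dist_le hε.le
    rintro _ ⟨x, hx, rfl⟩ _ ⟨y, hy, rfl⟩
    apply le_of_lt
    apply hδ2
    rw [Subtype.dist_eq, Real.dist_eq]
    have hx1 : ((i : ℕ) : ℝ) / ((n : ℝ) + 1) ≤ x := hx.1
    have hx2 : (x : ℝ) ≤ (((i : ℕ) + 1 : ℕ) : ℝ) / ((n : ℝ) + 1) := hx.2
    have hy1 : ((i : ℕ) : ℝ) / ((n : ℝ) + 1) ≤ y := hy.1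
    have hy2 : (y : ℝ) ≤ (((i : ℕ) + 1 : ℕ) : ℝ) / ((n : ℝ) + 1) := hy.2
    have h3 : (((i : ℕ) + 1 : ℕ) : ℝ) / ((n : ℝ) + 1) = ((i : ℕ) : ℝ) / ((n : ℝ) + 1)
        + 1 / ((n : ℝ) + 1) := by
      push_cast; ring
    rw [h3] at hx2 hy2
    rw [abs_lt]
    constructor <;> linarith

/-- A compact space that is a union of a compact family of paths from one point is uniformly
pathwise connected. -/
lemma upc {X S : Type} [MetricSpace X] [TopologicalSpace S] [CompactSpace S]
    (g : S → unitInterval → X) (hg : Continuous (fun p : S × unitInterval => g p.1 p.2)) (c : X)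
    (hc : ∀ s, g s 0 = c) (hsurj : ∀ x, ∃ s t, g s t = x) (a b : X) :
    ∃ P : Set (Path a b),
      (∀ ε : ℝ, ε > 0 → ∃ n : ℕ, ∀ p ∈ P, ∃ t : Fin (n + 1) → unitInterval,
          t 0 = 0 ∧ t (Fin.last n) = 1 ∧ StrictMono t ∧
          ∀ i : Fin n, Metric.diam (⇑p '' Set.Icc (t i.castSucc) (t i.succ)) ≤ ε) ∧
      (⋃ p ∈ P, Set.range ⇑p) = Set.univ := by
  have hpath : ∀ x : X, ∃ q : Path c x, True := by
    intro x
    obtain ⟨s, t, hst⟩ := hsurj x
    refine ⟨⟨⟨fun u => g s (u * t), ?_⟩, ?_, ?_⟩, trivial⟩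
    · exact hg.comp (continuous_const.prodMk (continuous_id.mul continuous_const))
    · simp [hc]
    · simp [hst]
  obtain ⟨qa, -⟩ := hpath a
  obtain ⟨qb, -⟩ := hpath b
  let γ : ∀ s : S, Path c (g s 1) := fun s =>
    ⟨⟨fun u => g s u, hg.comp (continuous_const.prodMk continuous_id)⟩, hc s, rfl⟩
  have hγ : Continuous ↿γ := hg
  let H : S → Path a b := fun s => (qa.symm.trans ((γ s).trans (γ s).symm)).trans qb
  have hH : Continuous ↿H := by
    apply Path.trans_continuous_family
    · apply Path.trans_continuous_family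
      · exact qa.symm.continuous.comp continuous_snd
      · apply Path.trans_continuous_family
        · exact hγ
        · exact Path.symm_continuous_family _ hγ
    · exact qb.continuous.comp continuous_snd
  refine ⟨Set.range H, ?_, ?_⟩
  · intro ε hε
    obtain ⟨n, t, h1, h2, h3, h4⟩ := unif_of_family (fun s u => H s u) hH ε hε
    refine ⟨n, ?_⟩
    rintro _ ⟨s, rfl⟩
    exact ⟨t, h1, h2, h3, h4 s⟩
  · apply Set.eq_univ_of_forall
    intro x
    obtain ⟨s, t, hst⟩ := hsurj x
    simp only [Set.mem_iUnion]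
    refine ⟨H s, ⟨s, rfl⟩, ?_⟩
    have : Set.range (γ s) ⊆ Set.range (H s) := by
      show _ ⊆ Set.range ((qa.symm.trans ((γ s).trans (γ s).symm)).trans qb)
      rw [Path.trans_range, Path.trans_range, Path.trans_range]
      intro y hy
      exact Or.inl (Or.inr (Or.inl hy))
    exact this ⟨t, hst⟩

/-- The parametrising map of the fan with blades of unit length. -/
def G (p : OnePoint (ℕ × ℕ × Bool) × unitInterval) : ℕ → ℝ := F p.1 p.2

lemma G_cont : Continuous G := by
  unfold G
  exact F_cont.comp (continuous_fst.prodMk (continuous_subtype_val.comp continuous_snd))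

/-- The continuum. -/
abbrev XX : Type := ↥(Set.range G)

/-- The points of the continuum. -/
def pt (s : OnePoint (ℕ × ℕ × Bool)) (t : unitInterval) : XX := ⟨G (s, t), ⟨_, rfl⟩⟩

lemma pt_cont : Continuous (fun p : OnePoint (ℕ × ℕ × Bool) × unitInterval => pt p.1 p.2) := by
  unfold pt
  exact Continuous.subtype_mk G_cont _

lemma F_at_zero (s : OnePoint (ℕ × ℕ × Bool)) : F s 0 = fun _ => 0 := by
  funext j
  cases j with
  | zero => rfl
  | succ m =>
    rcases F_succ s 0 m with h | ⟨l, -, b, h⟩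
    · exact h
    · rw [h]; simp [hf]

/-- The hub. -/
def hub : XX := pt OnePoint.infty 0

/-- The top point. -/
def top : XX := pt OnePoint.infty 1

lemma pt_zero (s : OnePoint (ℕ × ℕ × Bool)) : pt s 0 = hub := by
  apply Subtype.ext
  show F s ((0 : unitInterval) : ℝ) = F OnePoint.infty ((0 : unitInterval) : ℝ)
  rw [Set.Icc.coe_zero, F_at_zero, F_at_zero]

lemma coord_zero_mem (x : XX) : 0 ≤ x.1 0 ∧ x.1 0 ≤ 1 := by
  obtain ⟨⟨s, t⟩, hp⟩ := x.2
  rw [← hp]
  exact t.2

lemma coord_succ (x : XX) (m : ℕ) :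
    x.1 (m + 1) = 0 ∨ ∃ l : ℕ, l ≤ m ∧ ∃ b : Bool, x.1 (m + 1) = hf m l b (x.1 0) := by
  obtain ⟨⟨s, t⟩, hp⟩ := x.2
  rw [← hp]
  exact F_succ s t m

lemma eq_hub_of_coord_zero (x : XX) (h : x.1 0 = 0) : x = hub := by
  apply Subtype.ext
  obtain ⟨⟨s, t⟩, hp⟩ := x.2
  rw [← hp] at h ⊢
  have ht : (t : ℝ) = 0 := h
  show F s (t : ℝ) = F OnePoint.infty ((0 : unitInterval) : ℝ)
  rw [ht, F_at_zero, Set.Icc.coe_zero, F_at_zero]

/-- The position function along the zigzag. -/
def phi (m : ℕ) (x : XX) : ℝ := (2 * (m : ℝ) + 1) * (1 - x.1 (m + 1) / x.1 0)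

/-- If the position is an integer strictly below the end then the height is determined. -/
lemma phi_even {m j : ℕ} (hj : j < m) (x : XX) (hx : 0 < x.1 0) (h : phi m x = 2 * ((j : ℝ) + 1)) :
    x.1 0 ≤ 1 / 2 := by
  have hm : (0 : ℝ) < 2 * (m : ℝ) + 1 := by positivity
  have hjm : (j : ℝ) + 1 ≤ m := by exact_mod_cast hj
  rcases coord_succ x m with h0 | ⟨l, hl, b, hl2⟩
  · exfalso
    unfold phi at h
    rw [h0] at h
    simp at h
    linarith
  · have h1 : phi m x = 2 * (l : ℝ) + sgn b * zf (x.1 0) := by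
      unfold phi
      rw [hl2]
      unfold hf
      field_simp
      ring
    rw [h] at h1
    have hz0 := zf_nonneg (x.1 0)
    have hz1 := zf_le_one (coord_zero_mem x).2
    have hz : zf (x.1 0) = 0 := by
      rcases hz0.eq_or_lt with h2 | h2
      · exact h2.symm
      · exfalso
        cases b with
        | true =>
          simp only [sgn, if_true, one_mul] at h1
          have h3 : (l : ℝ) < (j : ℝ) + 1 := by linarith
          have h4 : (j : ℝ) + 1 < (l : ℝ) + 1 := by linarith
          have h3' : l < j + 1 := by exact_mod_cast h3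
          have h4' : j + 1 < l + 1 := by exact_mod_cast h4
          omega
        | false =>
          simp only [sgn] at h1
          norm_num at h1
          have h3 : (j : ℝ) + 1 < (l : ℝ) := by linarith
          have h4 : (l : ℝ) < (j : ℝ) + 1 + 1 := by linarith
          have h3' : j + 1 < l := by exact_mod_cast h3
          have h4' : l < j + 1 + 1 := by exact_mod_cast h4
          omega
    unfold zf at hz
    have := le_max_right 0 (2 * x.1 0 - 1)
    rw [hz] at this
    linarith

lemma phi_odd {m j : ℕ} (hj : j < m) (x : XX) (hx : 0 < x.1 0) (h : phi m x = 2 * (j : ℝ) + 1) :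
    x.1 0 = 1 := by
  have hm : (0 : ℝ) < 2 * (m : ℝ) + 1 := by positivity
  have hjm : (j : ℝ) + 1 ≤ m := by exact_mod_cast hj
  rcases coord_succ x m with h0 | ⟨l, hl, b, hl2⟩
  · exfalso
    unfold phi at h
    rw [h0] at h
    simp at h
    linarith
  · have h1 : phi m x = 2 * (l : ℝ) + sgn b * zf (x.1 0) := by
      unfold phi
      rw [hl2]
      unfold hf
      field_simp
      ring
    rw [h] at h1
    have hz0 := zf_nonneg (x.1 0)
    have hz1 := zf_le_one (coord_zero_mem x).2
    have hz : zf (x.1 0) = 1 := by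
      rcases hz1.eq_or_lt with h2 | h2
      · exact h2
      · exfalso
        cases b with
        | true =>
          simp only [sgn, if_true, one_mul] at h1
          have h3 : (j : ℝ) < (l : ℝ) := by linarith
          have h4 : (l : ℝ) < (j : ℝ) + 1 := by linarith
          have h3' : j < l := by exact_mod_cast h3
          have h4' : l < j + 1 := by exact_mod_cast h4
          omega
        | false =>
          simp only [sgn] at h1
          norm_num at h1
          have h3 : (j : ℝ) < (l : ℝ) := by linarith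
          have h4 : (l : ℝ) < (j : ℝ) + 1 := by linarith
          have h3' : j < l := by exact_mod_cast h3
          have h4' : l < j + 1 := by exact_mod_cast h4
          omega
    unfold zf at hz
    have h5 : (2 * x.1 0 - 1) = 1 := by
      rcases max_choice 0 (2 * x.1 0 - 1) with h6 | h6
      · rw [h6] at hz; norm_num at hz
      · rw [h6] at hz; exact hz
    linarith

/-- Height along the long arc. -/
def hgt (s : ℝ) : ℝ := (1 + min s 0 + tri (max s 0)) / 2

/-- The long arc. -/
def arcF (m : ℕ) (s : ℝ) : ℕ → ℝ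
  | 0 => hgt s
  | (j + 1) => if j = m then hgt s * (1 - max s 0 / (2 * (m : ℝ) + 1)) else 0

lemma hgt_cont : Continuous hgt := by
  unfold hgt
  have := tri_cont
  fun_prop

lemma arcF_cont (m : ℕ) : Continuous (arcF m) := by
  apply continuous_pi
  intro j
  cases j with
  | zero => exact hgt_cont
  | succ j =>
    show Continuous (fun s => if j = m then hgt s * (1 - max s 0 / (2 * (m : ℝ) + 1)) else 0)
    have := hgt_cont
    split_ifs
    · fun_prop
    · fun_prop

lemma arcF_mem (m : ℕ) (s : ℝ) (h0 : -1 ≤ s) (h1 : s ≤ 2 * m + 1) : arcF m s ∈ Set.range G := by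
  have hm : (0 : ℝ) < 2 * (m : ℝ) + 1 := by positivity
  rcases le_total s 0 with hs | hs
  · have ht : tri 0 = 0 := by
      have := tri_add 0 (z := 0) le_rfl zero_le_one
      simpa using this
    have hh : hgt s = (1 + s) / 2 := by
      unfold hgt; rw [min_eq_left hs, max_eq_right hs, ht]; ring
    refine ⟨((((m, 0, true) : ℕ × ℕ × Bool) : OnePoint (ℕ × ℕ × Bool)), ⟨(1 + s) / 2, ?_, ?_⟩), ?_⟩
    · linarith
    · linarith
    · funext j
      cases j with
      | zero => exact hh.symm
      | succ j =>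
        by_cases hj : j = m
        · subst hj
          show F _ _ (j + 1) = (if j = j then _ else _)
          rw [F_coe_self (Nat.zero_le _), if_pos rfl, hh, max_eq_right hs]
          have : zf ((1 + s) / 2) = 0 := by
            unfold zf; apply max_eq_left; linarith
          unfold hf
          simp only [this]
          simp
        · show F _ _ (j + 1) = (if j = m then _ else _)
          rw [F_coe_ne hj, if_neg hj]
  · obtain ⟨l, hl, b, hlb⟩ := exists_l hs h1
    have hh : hgt s = (1 + tri s) / 2 := by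
      unfold hgt; rw [min_eq_right hs, max_eq_left hs]; ring
    have ht0 := tri_nonneg s
    have ht1 := tri_le_one s
    refine ⟨((((m, l, b) : ℕ × ℕ × Bool) : OnePoint (ℕ × ℕ × Bool)), ⟨(1 + tri s) / 2, ?_, ?_⟩), ?_⟩
    · linarith
    · linarith
    · funext j
      cases j with
      | zero => exact hh.symm
      | succ j =>
        by_cases hj : j = m
        · subst hj
          show F _ _ (j + 1) = (if j = j then _ else _)
          rw [F_coe_self hl, if_pos rfl, hh, max_eq_left hs]
          have : zf ((1 + tri s) / 2) = tri s := by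
            unfold zf
            rw [show 2 * ((1 + tri s) / 2) - 1 = tri s by ring]
            exact max_eq_right ht0
          unfold hf
          simp only [this]
          rw [← hlb]
        · show F _ _ (j + 1) = (if j = m then _ else _)
          rw [F_coe_ne hj, if_neg hj]

lemma hgt_pos {s : ℝ} (h : -1 < s) : 0 < hgt s := by
  unfold hgt
  have := tri_nonneg (max s 0)
  have : -1 < min s 0 := lt_min h (by norm_num)
  linarith

lemma arcF_inj (m : ℕ) {s s' : ℝ} (h0 : -1 ≤ s) (h0' : -1 ≤ s') (h : arcF m s = arcF m s') :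
    s = s' := by
  have hm : (0 : ℝ) < 2 * (m : ℝ) + 1 := by positivity
  have hn : hgt (-1) = 0 := by
    unfold hgt
    have ht : tri 0 = 0 := by
      have := tri_add 0 (z := 0) le_rfl zero_le_one
      simpa using this
    norm_num [ht]
  have e0 : hgt s = hgt s' := congrFun h 0
  have e1 : hgt s * (1 - max s 0 / (2 * (m : ℝ) + 1)) =
      hgt s' * (1 - max s' 0 / (2 * (m : ℝ) + 1)) := by
    have := congrFun h (m + 1)
    simpa [arcF] using this
  rcases h0.eq_or_lt with h2 | h2
  · rcases h0'.eq_or_lt with h3 | h3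
    · rw [← h2, ← h3]
    · exfalso
      have := hgt_pos h3
      rw [← e0, ← h2, hn] at this
      exact lt_irrefl _ this
  · have hp := hgt_pos h2
    rw [← e0] at e1
    have e2 := mul_left_cancel₀ hp.ne' e1
    have e3 : max s 0 = max s' 0 := by
      have : max s 0 / (2 * (m : ℝ) + 1) = max s' 0 / (2 * (m : ℝ) + 1) := by linarith
      field_simp at this
      exact this
    have e4 : min s 0 = min s' 0 := by
      unfold hgt at e0
      rw [e3] at e0
      linarith
    have e5 := min_add_max s 0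
    have e6 := min_add_max s' 0
    linarith

/-- The long arc from the hub to the top point. -/
def longArc (m : ℕ) : Path hub top where
  toFun u := ⟨arcF m ((2 * (m : ℝ) + 2) * u - 1), by
    have h0 := u.2.1
    have h1 := u.2.2
    apply arcF_mem
    · have : 0 ≤ (2 * (m : ℝ) + 2) * u := by positivity
      linarith
    · have : (2 * (m : ℝ) + 2) * u ≤ (2 * (m : ℝ) + 2) * 1 := by gcongr
      linarith⟩
  continuous_toFun := by
    apply Continuous.subtype_mk
    exact (arcF_cont m).comp (by fun_prop)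
  source' := by
    apply eq_hub_of_coord_zero
    show hgt ((2 * (m : ℝ) + 2) * ((0 : unitInterval) : ℝ) - 1) = 0
    have ht : tri 0 = 0 := by
      have := tri_add 0 (z := 0) le_rfl zero_le_one
      simpa using this
    unfold hgt
    norm_num [ht]
  target' := by
    have hm : (0 : ℝ) < 2 * (m : ℝ) + 1 := by positivity
    apply Subtype.ext
    show arcF m ((2 * (m : ℝ) + 2) * ((1 : unitInterval) : ℝ) - 1) = F OnePoint.infty ((1 : unitInterval) : ℝ)
    have e : (2 * (m : ℝ) + 2) * ((1 : unitInterval) : ℝ) - 1 = 2 * (m : ℝ) + 1 := by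
      simp; ring
    rw [e]
    funext j
    cases j with
    | zero =>
      show hgt _ = 1
      unfold hgt
      rw [min_eq_right hm.le, max_eq_left hm.le, tri_add m zero_le_one le_rfl]
      norm_num
    | succ j =>
      rw [F_infty_succ]
      show (if j = m then _ else _) = _
      split_ifs
      · rw [max_eq_left hm.le, div_self hm.ne']; simp
      · rfl

lemma longArc_inj (m : ℕ) : Function.Injective (longArc m) := by
  intro u v huv
  have h : arcF m ((2 * (m : ℝ) + 2) * u - 1) = arcF m ((2 * (m : ℝ) + 2) * v - 1) :=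
    congrArg Subtype.val huv
  have h0 := u.2.1
  have h0' := v.2.1
  have := arcF_inj m (by have : 0 ≤ (2 * (m : ℝ) + 2) * u := by positivity
                         linarith) (by have : 0 ≤ (2 * (m : ℝ) + 2) * v := by positivity
                                       linarith) h
  apply Subtype.ext
  have h3 : (2 * (m : ℝ) + 2) * (u : ℝ) = (2 * (m : ℝ) + 2) * (v : ℝ) := by linarith
  exact mul_left_cancel₀ (by positivity) h3

/-- The special point of the long arc. -/
lemma exists_start (m : ℕ) : ∃ u : unitInterval, (longArc m u).1 0 = 1 / 2 ∧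
    (longArc m u).1 (m + 1) = 1 / 2 := by
  have hm : (0 : ℝ) < 2 * (m : ℝ) + 2 := by positivity
  refine ⟨⟨1 / (2 * (m : ℝ) + 2), by positivity, by rw [div_le_one hm]; linarith [Nat.cast_nonneg (α := ℝ) m]⟩, ?_⟩
  have ht : tri 0 = 0 := by
    have := tri_add 0 (z := 0) le_rfl zero_le_one
    simpa using this
  have e : (2 * (m : ℝ) + 2) * (1 / (2 * (m : ℝ) + 2)) - 1 = 0 := by
    field_simp; ring
  have hh : hgt 0 = 1 / 2 := by
    unfold hgt; simp [ht]
  constructor
  · show hgt ((2 * (m : ℝ) + 2) * (1 / (2 * (m : ℝ) + 2)) - 1) = 1 / 2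
    rw [e, hh]
  · show (if m = m then hgt ((2 * (m : ℝ) + 2) * (1 / (2 * (m : ℝ) + 2)) - 1) * (1 - max ((2 * (m : ℝ) + 2) * (1 / (2 * (m : ℝ) + 2)) - 1) 0 / (2 * (m : ℝ) + 1)) else 0) = 1 / 2
    rw [if_pos rfl, e, hh]
    simp

/-- Uniform continuity of a real function on a compact metric space. -/
lemma uc {X : Type} [MetricSpace X] [CompactSpace X] (f : X → ℝ) (hf : Continuous f) :
    ∃ δ : ℝ, 0 < δ ∧ ∀ a b : X, dist a b < δ → |f a - f b| < 1 / 2 := by
  have huc : UniformContinuous f := CompactSpace.uniformContinuous_of_continuous hf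
  rw [Metric.uniformContinuous_iff] at huc
  obtain ⟨δ, hδ, hδ2⟩ := huc (1 / 2) (by norm_num)
  refine ⟨δ, hδ, fun a b hab => ?_⟩
  have := hδ2 (a := a) (b := b) hab
  rwa [Real.dist_eq] at this

/-- Every number of the unit interval lies in a piece of a partition. -/
lemma exists_piece {n : ℕ} (t : Fin (n + 1) → unitInterval) (h0 : t 0 = 0)
    (h1 : t (Fin.last n) = 1) (u : ℝ) (hu0 : 0 ≤ u) (hu1 : u ≤ 1) :
    ∃ i : Fin n, (t i.castSucc : ℝ) ≤ u ∧ u ≤ t i.succ := by
  by_contra hcon
  push Not at hcon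
  have key : ∀ k : ℕ, ∀ hk : k < n + 1, (t ⟨k, hk⟩ : ℝ) ≤ u := by
    intro k
    induction k with
    | zero =>
      intro hk
      have : (⟨0, hk⟩ : Fin (n + 1)) = 0 := rfl
      rw [this, h0]
      exact hu0
    | succ k ih =>
      intro hk
      have h3 := hcon ⟨k, by omega⟩ (ih (by omega))
      exact h3.le
  rcases Nat.eq_zero_or_pos n with hn | hn
  · subst hn
    have : (Fin.last 0) = 0 := rfl
    rw [this, h0] at h1
    exact zero_ne_one h1
  · have h2 := hcon ⟨n - 1, by omega⟩ (key (n - 1) (by omega))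
    have h3 : (Fin.succ ⟨n - 1, by omega⟩ : Fin (n + 1)) = Fin.last n := by
      apply Fin.ext
      simp
      omega
    rw [h3, h1] at h2
    have : ((1 : unitInterval) : ℝ) = 1 := rfl
    rw [this] at h2
    linarith

/-- An injective path from the hub through the special point must oscillate many times. -/
lemma no_short {m n : ℕ} (hnm : n < 2 * m) (p : Path hub top) (hp : Function.Injective p)
    (u₀ : unitInterval) (hu0 : (p u₀).1 0 = 1 / 2) (hu1 : (p u₀).1 (m + 1) = 1 / 2)
    (t : Fin (n + 1) → unitInterval) (ht0 : t 0 = 0) (ht1 : t (Fin.last n) = 1)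
    (hosc : ∀ i : Fin n, ∀ a b : unitInterval, a ∈ Set.Icc (t i.castSucc) (t i.succ) →
      b ∈ Set.Icc (t i.castSucc) (t i.succ) → |(p a).1 0 - (p b).1 0| < 1 / 2) : False := by
  have hm : (0 : ℝ) < 2 * (m : ℝ) + 1 := by positivity
  have hub0 : hub.1 0 = 0 := rfl
  have hu00 : (0 : ℝ) < u₀ := by
    rcases u₀.2.1.eq_or_lt with h | h
    · exfalso
      have h2 : u₀ = 0 := Subtype.ext h.symm
      rw [h2, p.source, hub0] at hu0
      norm_num at hu0
    · exact h
  -- positivity of the height after the special point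
  have hpos : ∀ a : unitInterval, (u₀ : ℝ) ≤ a → 0 < (p a).1 0 := by
    intro a ha
    rcases (coord_zero_mem (p a)).1.eq_or_lt with h | h
    · exfalso
      have h2 := eq_hub_of_coord_zero _ h.symm
      have h3 : p a = p 0 := by rw [h2, p.source]
      have h4 := hp h3
      rw [h4] at ha
      have : ((0 : unitInterval) : ℝ) = 0 := rfl
      linarith
    · exact h
  let q : ℝ → XX := p.extend
  have hq : Continuous q := p.continuous_extend
  have hqv : ∀ u : ℝ, ∀ h : u ∈ Set.Icc (0 : ℝ) 1, q u = p ⟨u, h⟩ := by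
    intro u h
    exact Path.extend_apply p h
  let f : ℝ → ℝ := fun u => phi m (q u)
  have hc : ∀ j : ℕ, Continuous (fun u => (q u).1 j) := fun j =>
    (continuous_apply j).comp (continuous_subtype_val.comp hq)
  have hf : ContinuousOn f (Set.Icc (u₀ : ℝ) 1) := by
    have h2 : ContinuousOn (fun u => (q u).1 (m + 1) / (q u).1 0) (Set.Icc (u₀ : ℝ) 1) := by
      apply ContinuousOn.div (hc _).continuousOn (hc _).continuousOn
      intro u hu
      have hu' : u ∈ Set.Icc (0 : ℝ) 1 := ⟨hu00.le.trans hu.1, hu.2⟩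
      rw [hqv u hu']
      exact (hpos ⟨u, hu'⟩ hu.1).ne'
    exact continuousOn_const.mul (continuousOn_const.sub h2)
  have hfu0 : f u₀ = 0 := by
    show phi m (q u₀) = 0
    rw [hqv u₀ u₀.2]
    unfold phi
    rw [hu0, hu1]; norm_num
  have hf1 : f 1 = 2 * (m : ℝ) + 1 := by
    show phi m (q 1) = _
    rw [hqv 1 ⟨zero_le_one, le_rfl⟩]
    have h2 : p ⟨1, ⟨zero_le_one, le_rfl⟩⟩ = top := p.target
    rw [h2]
    unfold phi
    have h3 : top.1 (m + 1) = 0 := F_infty_succ _ m
    rw [h3]; simp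
  -- intermediate values
  have hiv : ∀ j : Fin (2 * m), ∃ i : Fin n, ∃ u : ℝ, (u₀ : ℝ) ≤ u ∧ u ≤ 1 ∧ f u = (j : ℕ) + 1 ∧
      (t i.castSucc : ℝ) ≤ u ∧ u ≤ t i.succ := by
    intro j
    have h1 := intermediate_value_Icc u₀.2.2 hf
    rw [hfu0, hf1] at h1
    have hj : ((j : ℕ) : ℝ) + 1 ≤ 2 * m := by
      have := j.is_lt
      exact_mod_cast this
    obtain ⟨u, hu, hfu⟩ := h1 (show ((j : ℕ) : ℝ) + 1 ∈ Set.Icc (0 : ℝ) (2 * (m : ℝ) + 1) from
      ⟨by positivity, by linarith⟩)
    obtain ⟨i, hi1, hi2⟩ := exists_piece t ht0 ht1 u (hu00.le.trans hu.1) hu.2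
    exact ⟨i, u, hu.1, hu.2, hfu, hi1, hi2⟩
  choose pc uu hu1' hu2' hu3' hu4' hu5' using hiv
  obtain ⟨j, j', hne, hjj⟩ := Fintype.exists_ne_map_eq_of_card_lt pc (by simpa using hnm)
  -- symmetric core
  have core : ∀ j j' : Fin (2 * m), j < j' → pc j = pc j' → False := by
    intro j j' hlt hjj
    have hle : ((j : ℕ) : ℝ) + 1 ≤ (j' : ℕ) := by
      have : (j : ℕ) + 1 ≤ (j' : ℕ) := hlt
      exact_mod_cast this
    have hsub : Set.uIcc (uu j) (uu j') ⊆ Set.Icc (u₀ : ℝ) 1 := by
      apply Set.uIcc_subset_Icc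
      · exact ⟨hu1' j, hu2' j⟩
      · exact ⟨hu1' j', hu2' j'⟩
    have hsub2 : Set.uIcc (uu j) (uu j') ⊆ Set.Icc (t (pc j).castSucc : ℝ) (t (pc j).succ) := by
      apply Set.uIcc_subset_Icc
      · exact ⟨hu4' j, hu5' j⟩
      · rw [hjj]; exact ⟨hu4' j', hu5' j'⟩
    have h1 := intermediate_value_uIcc (hf.mono hsub)
    have h2 : ((j : ℕ) : ℝ) + 2 ∈ Set.uIcc (f (uu j)) (f (uu j')) := by
      rw [hu3' j, hu3' j', Set.mem_uIcc]
      left
      constructor <;> linarith
    obtain ⟨v, hv, hfv⟩ := h1 h2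
    have hvI := hsub hv
    have hvT := hsub2 hv
    have huI : uu j ∈ Set.Icc (0 : ℝ) 1 := ⟨hu00.le.trans (hu1' j), hu2' j⟩
    have hvI' : v ∈ Set.Icc (0 : ℝ) 1 := ⟨hu00.le.trans hvI.1, hvI.2⟩
    have hd := hosc (pc j) ⟨uu j, huI⟩ ⟨v, hvI'⟩ ⟨hu4' j, hu5' j⟩ ⟨hvT.1, hvT.2⟩
    have hpu : 0 < (p ⟨uu j, huI⟩).1 0 := hpos _ (hu1' j)
    have hpv : 0 < (p ⟨v, hvI'⟩).1 0 := hpos _ hvI.1
    have hfu' : phi m (p ⟨uu j, huI⟩) = (j : ℕ) + 1 := by
      rw [← hqv _ huI]; exact hu3' j
    have hfv' : phi m (p ⟨v, hvI'⟩) = (j : ℕ) + 2 := by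
      rw [← hqv _ hvI']; exact hfv
    have hj'lt := j'.is_lt
    have hltn : (j : ℕ) < (j' : ℕ) := hlt
    rw [abs_lt] at hd
    rcases Nat.even_or_odd' (j : ℕ) with ⟨a, ha | ha⟩
    · have e1 := phi_odd (m := m) (j := a) (by omega) _ hpu (by rw [hfu', ha]; push_cast; ring)
      have e2 := phi_even (m := m) (j := a) (by omega) _ hpv (by rw [hfv', ha]; push_cast; ring)
      linarith
    · have e1 := phi_even (m := m) (j := a) (by omega) _ hpu (by rw [hfu', ha]; push_cast; ring)
      have e2 := phi_odd (m := m) (j := a + 1) (by omega) _ hpv (by rw [hfv', ha]; push_cast; ring)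
      linarith
  rcases lt_or_gt_of_ne hne with h | h
  · exact core j j' h hjj
  · exact core j' j h hjj.symm

end

/-- The negation of the preceding statement: Every continuum in which any two points are joined by a uniform family of paths covering the space has, for any two points, a uniform family of arcs between them covering the union of all arcs joining them. -/
theorem result :
    ¬ (∀ (X : Type) [MetricSpace X] [CompactSpace X] [ConnectedSpace X],
      (∀ a b : X, ∃ P : Set (Path a b),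
          (∀ ε : ℝ, ε > 0 → ∃ n : ℕ, ∀ p ∈ P, ∃ t : Fin (n + 1) → unitInterval,
              t 0 = 0 ∧ t (Fin.last n) = 1 ∧ StrictMono t ∧
              ∀ i : Fin n, Metric.diam (⇑p '' Set.Icc (t i.castSucc) (t i.succ)) ≤ ε) ∧
          (⋃ p ∈ P, Set.range ⇑p) = Set.univ) →
      (∀ a b : X, ∃ P : Set (Path a b),
          (∀ p ∈ P, Function.Injective ⇑p) ∧
          (∀ ε : ℝ, ε > 0 → ∃ n : ℕ, ∀ p ∈ P, ∃ t : Fin (n + 1) → unitInterval,
              t 0 = 0 ∧ t (Fin.last n) = 1 ∧ StrictMono t ∧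
              ∀ i : Fin n, Metric.diam (⇑p '' Set.Icc (t i.castSucc) (t i.succ)) ≤ ε) ∧
          (⋃ p ∈ P, Set.range ⇑p) =
            ⋃ (q : Path a b) (_ : Function.Injective ⇑q), Set.range ⇑q)) := by
  intro H
  let _ : MetricSpace XX := TopologicalSpace.metrizableSpaceMetric XX
  have : CompactSpace XX := isCompact_iff_compactSpace.1 (isCompact_range G_cont)
  have hjoin : ∀ x : XX, Joined hub x := by
    intro x
    obtain ⟨⟨s, t⟩, hst⟩ := x.2
    refine ⟨⟨⟨fun u => pt s (u * t), ?_⟩, ?_, ?_⟩⟩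
    · exact pt_cont.comp (continuous_const.prodMk (continuous_id.mul continuous_const))
    · simp [pt_zero]
    · apply Subtype.ext
      simp only [one_mul]
      exact hst
  have : PathConnectedSpace XX := ⟨⟨hub⟩, fun x y => (hjoin x).symm.trans (hjoin y)⟩
  have : ConnectedSpace XX := inferInstance
  have H1 := H XX (fun a b => upc pt pt_cont hub pt_zero (by
    intro x
    obtain ⟨⟨s, t⟩, hst⟩ := x.2
    exact ⟨s, t, Subtype.ext hst⟩) a b) hub top
  obtain ⟨P, hP1, hP2, hP3⟩ := H1
  -- uniform continuity of the height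
  obtain ⟨δ, hδ, hδ2⟩ := uc (fun x : XX => x.1 0)
    ((continuous_apply 0).comp continuous_subtype_val)
  obtain ⟨n, hn⟩ := hP2 (δ / 2) (by positivity)
  obtain ⟨u, hu0, hu1⟩ := exists_start (n + 1)
  have hmem : longArc (n + 1) u ∈ ⋃ p ∈ P, Set.range ⇑p := by
    rw [hP3]
    simp only [Set.mem_iUnion]
    exact ⟨longArc (n + 1), longArc_inj (n + 1), ⟨u, rfl⟩⟩
  simp only [Set.mem_iUnion] at hmem
  obtain ⟨p, hp, v, hv⟩ := hmem
  obtain ⟨t, ht0, ht1, ht2, ht3⟩ := hn p hp
  refine no_short (m := n + 1) (n := n) (by omega) p (hP1 p hp) v ?_ ?_ t ht0 ht1 ?_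
  · rw [hv]; exact hu0
  · rw [hv]; exact hu1
  · intro i a b ha hb
    have h1 : dist (p a) (p b) ≤ δ / 2 := by
      refine le_trans ?_ (ht3 i)
      apply Metric.dist_le_diam_of_mem
      · exact Metric.isBounded_of_compactSpace
      · exact ⟨a, ha, rfl⟩
      · exact ⟨b, hb, rfl⟩
    exact hδ2 (p a) (p b) (by linarith)

end Pool.Agent.S13596
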