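import Pool.Statements.S13714
import Pool.Agent.Lib.MP_a6ceca_gt.Main
import Pool.Agent.Lib.MP_a6ceca_gt.Tri
import Pool.Agent.Lib.MP_a6ceca_gt.Basic
import Pool.Agent.Lib.MP_a6ceca_gt.Amalg
import Pool.Agent.Lib.MP_a6ceca_gt.Net
import Pool.Agent.Lib.MP_a6ceca_gt.Univ
import Pool.Agent.Lib.MP_a6ceca_gt.HMap
import Pool.Agent.Lib.MP_a6ceca_gt.ParEx
import Pool.Agent.Lib.MP_a6ceca_gt.Shear
import Pool.Agent.Lib.MP_a6ceca_gt.QLim
import Pool.Agent.Lib.MP_a6ceca_gt.Close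
import Pool.Agent.Lib.MP_a6ceca_gt.Coupling
import Pool.Agent.Lib.MP_a6ceca_gt.SurjPath
import Pool.Agent.Lib.MP_a6ceca_gt.Surj
import Pool.Agent.Lib.MP_a6ceca_gt.FibTop
import Pool.Agent.Lib.MP_a6ceca_gt.FibCont
import Pool.Agent.Lib.MP_a6ceca_gt.Ladder
import Pool.Agent.Lib.MP_a6ceca_gt.AIL
import Pool.Agent.Lib.MP_a6ceca_gt.Homeo
import Pool.Agent.Lib.MP_a6ceca_gt.NonHI

set_option autoImplicit false
open TopologicalSpace
open Pool Pool.MP_a6ceca_gt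

namespace Pool.Agent.S13714

/-- The negation of the preceding statement: If a nondegenerate metric continuum X admits a Hausdorff-continuous partition of the plane into copies of X, then X is hereditarily indecomposable and chainable, i.e. X is the pseudo-arc. -/
theorem result :
    ¬ (∀ (X : Type) [TopologicalSpace X] [MetrizableSpace X] [CompactSpace X]
      [ConnectedSpace X] [Nontrivial X],
      (∃ f : EuclideanSpace ℝ (Fin 2) → Set (EuclideanSpace ℝ (Fin 2)),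
        (∀ p, p ∈ f p) ∧
        (∀ p q, q ∈ f p → f q = f p) ∧
        (∀ p, Nonempty (↥(f p) ≃ₜ X)) ∧
        (∀ p, ∀ ε > (0 : ℝ), ∃ δ > (0 : ℝ), ∀ q,
          dist p q < δ → Metric.hausdorffDist (f p) (f q) < ε)) →
      ((∀ A B : Set X, IsClosed A → IsConnected A → IsClosed B → IsConnected B →
          (A ∩ B).Nonempty → A ⊆ B ∨ B ⊆ A) ∧
       (∀ 𝒰 : Set (Set X), (∀ u ∈ 𝒰, IsOpen u) → ⋃₀ 𝒰 = Set.univ →
          ∃ (n : ℕ) (U : Fin n → Set X),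
            (∀ i, IsOpen (U i)) ∧ (⋃ i, U i) = Set.univ ∧
            (∀ i, ∃ u ∈ 𝒰, U i ⊆ u) ∧
            (∀ i j, (U i ∩ U j).Nonempty ↔
              ((i : ℕ) ≤ (j : ℕ) + 1 ∧ (j : ℕ) ≤ (i : ℕ) + 1))))) := by
  have hTri := Agent.Lib.MP_a6ceca_gt.triStmt
  have hBasic := Agent.Lib.MP_a6ceca_gt.basicStmt
  have hAmalg := Agent.Lib.MP_a6ceca_gt.amalgStmt
  have hUniv := Agent.Lib.MP_a6ceca_gt.univStmt hBasic hAmalg Agent.Lib.MP_a6ceca_gt.netStmt
  have hHMap := Agent.Lib.MP_a6ceca_gt.hMapStmt hTri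
  have hPar := Agent.Lib.MP_a6ceca_gt.parExStmt hUniv
  have hShear := Agent.Lib.MP_a6ceca_gt.shearStmt hTri
  have hQ := Agent.Lib.MP_a6ceca_gt.qLimStmt hTri hShear
  have hClose := Agent.Lib.MP_a6ceca_gt.closeStmt hTri hShear hQ
  have hCoup := Agent.Lib.MP_a6ceca_gt.couplingStmt hTri hShear hQ
  have hSurj := Agent.Lib.MP_a6ceca_gt.surjStmt hShear hQ
    (Agent.Lib.MP_a6ceca_gt.surjPathStmt hTri hShear)
  have hTop := Agent.Lib.MP_a6ceca_gt.fibTopStmt hTri hShear hQ hSurj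
  have hCont := Agent.Lib.MP_a6ceca_gt.fibContStmt hQ hClose hSurj hShear
  have hLadder := Agent.Lib.MP_a6ceca_gt.ladderStmt hBasic hAmalg hHMap hShear hCoup
  have hHomeo := Agent.Lib.MP_a6ceca_gt.homeoStmt hQ hClose hSurj hTop hLadder
    Agent.Lib.MP_a6ceca_gt.ailStmt hShear
  exact Agent.Lib.MP_a6ceca_gt.mainNeg hPar hShear hQ hSurj hTop hCont hHomeo
    Agent.Lib.MP_a6ceca_gt.nonHIStmt

end Pool.Agent.S13714
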