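import Pool.Statements.S13788
import Pool.Agent.Lib.MP_b3e290_gt.Tetra
import Pool.Agent.Lib.MP_b3e290_gt.Small

set_option autoImplicit false
open Matrix
open Pool Pool.MP_b3e290_gt

namespace Pool.Agent.S13788

/-- The negation of the preceding statement: In the hyperboloid model of H³, every discrete subgroup of SO⁺(3,1) has quotient diameter at least that of H³ modulo the group generated by the even part of the 3‑5‑3 tetrahedral reflection group and its diagram symmetry. -/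
theorem result :
    ¬ (∀ e : Fin 4 → (Fin 4 → ℝ),
    (∀ i, e i ⬝ᵥ (Matrix.diagonal ![(-1 : ℝ), 1, 1, 1] *ᵥ e i) = 1) →
    e 0 ⬝ᵥ (Matrix.diagonal ![(-1 : ℝ), 1, 1, 1] *ᵥ e 1) = -(1 / 2) →
    e 1 ⬝ᵥ (Matrix.diagonal ![(-1 : ℝ), 1, 1, 1] *ᵥ e 2) = -Real.cos (Real.pi / 5) →
    e 2 ⬝ᵥ (Matrix.diagonal ![(-1 : ℝ), 1, 1, 1] *ᵥ e 3) = -(1 / 2) →
    e 0 ⬝ᵥ (Matrix.diagonal ![(-1 : ℝ), 1, 1, 1] *ᵥ e 2) = 0 →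
    e 0 ⬝ᵥ (Matrix.diagonal ![(-1 : ℝ), 1, 1, 1] *ᵥ e 3) = 0 →
    e 1 ⬝ᵥ (Matrix.diagonal ![(-1 : ℝ), 1, 1, 1] *ᵥ e 3) = 0 →
  ∀ t : Matrix (Fin 4) (Fin 4) ℝ,
    t *ᵥ e 0 = e 3 → t *ᵥ e 1 = e 2 → t *ᵥ e 2 = e 1 → t *ᵥ e 3 = e 0 →
  ∀ Γ : Subgroup (Matrix.GeneralLinearGroup (Fin 4) ℝ),
    (∀ g ∈ Γ,
      (g : Matrix (Fin 4) (Fin 4) ℝ)ᵀ * Matrix.diagonal ![(-1 : ℝ), 1, 1, 1]
          * (g : Matrix (Fin 4) (Fin 4) ℝ) = Matrix.diagonal ![(-1 : ℝ), 1, 1, 1] ∧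
      (g : Matrix (Fin 4) (Fin 4) ℝ).det = 1 ∧
      0 < (g : Matrix (Fin 4) (Fin 4) ℝ) 0 0) →
    DiscreteTopology
      ((fun g : Matrix.GeneralLinearGroup (Fin 4) ℝ => (g : Matrix (Fin 4) (Fin 4) ℝ)) ''
        (Γ : Set (Matrix.GeneralLinearGroup (Fin 4) ℝ))) →
  ∀ c : ℝ, ∀ x₀ y₀ : Fin 4 → ℝ,
    x₀ ⬝ᵥ (Matrix.diagonal ![(-1 : ℝ), 1, 1, 1] *ᵥ x₀) = -1 → 0 < x₀ 0 →
    y₀ ⬝ᵥ (Matrix.diagonal ![(-1 : ℝ), 1, 1, 1] *ᵥ y₀) = -1 → 0 < y₀ 0 →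
    (∀ g ∈ Submonoid.closure
        {m : Matrix (Fin 4) (Fin 4) ℝ |
          (∃ i j : Fin 4,
            m = ((1 : Matrix (Fin 4) (Fin 4) ℝ) - (2 : ℝ) • Matrix.vecMulVec (e i)
                    (Matrix.diagonal ![(-1 : ℝ), 1, 1, 1] *ᵥ e i)) *
                ((1 : Matrix (Fin 4) (Fin 4) ℝ) - (2 : ℝ) • Matrix.vecMulVec (e j)
                    (Matrix.diagonal ![(-1 : ℝ), 1, 1, 1] *ᵥ e j))) ∨ m = t},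
      c ≤ -(x₀ ⬝ᵥ (Matrix.diagonal ![(-1 : ℝ), 1, 1, 1] *ᵥ (g *ᵥ y₀)))) →
    ∀ c' : ℝ, c' < c →
      ∃ x y : Fin 4 → ℝ,
        x ⬝ᵥ (Matrix.diagonal ![(-1 : ℝ), 1, 1, 1] *ᵥ x) = -1 ∧ 0 < x 0 ∧
        y ⬝ᵥ (Matrix.diagonal ![(-1 : ℝ), 1, 1, 1] *ᵥ y) = -1 ∧ 0 < y 0 ∧
        ∀ g ∈ Γ, c' ≤ -(x ⬝ᵥ (Matrix.diagonal ![(-1 : ℝ), 1, 1, 1] *ᵥ
                    ((g : Matrix (Fin 4) (Fin 4) ℝ) *ᵥ y)))) := by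
  intro H
  obtain ⟨Θ, a, b, h0, ha, hb⟩ := Pool.Agent.Lib.MP_b3e290_gt.exists_roots
  have hD : Pool.Agent.Lib.MP_b3e290_gt.Dat Θ a b := ⟨h0, ha, hb⟩
  obtain ⟨x, y, hx, hx0, hy, hy0, hxy⟩ := H Pool.Agent.Lib.MP_b3e290_gt.ee
    Pool.Agent.Lib.MP_b3e290_gt.ee_norm
    Pool.Agent.Lib.MP_b3e290_gt.ee01 Pool.Agent.Lib.MP_b3e290_gt.ee12
    Pool.Agent.Lib.MP_b3e290_gt.ee23 Pool.Agent.Lib.MP_b3e290_gt.ee02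
    Pool.Agent.Lib.MP_b3e290_gt.ee03 Pool.Agent.Lib.MP_b3e290_gt.ee13
    Pool.Agent.Lib.MP_b3e290_gt.tt Pool.Agent.Lib.MP_b3e290_gt.tt0
    Pool.Agent.Lib.MP_b3e290_gt.tt1 Pool.Agent.Lib.MP_b3e290_gt.tt2
    Pool.Agent.Lib.MP_b3e290_gt.tt3
    (Pool.Agent.Lib.MP_b3e290_gt.Gam Θ) (Pool.Agent.Lib.MP_b3e290_gt.Gam_props Θ)
    (Pool.Agent.Lib.MP_b3e290_gt.discrete Θ) 1.428
    Pool.Agent.Lib.MP_b3e290_gt.oo Pool.Agent.Lib.MP_b3e290_gt.v0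
    Pool.Agent.Lib.MP_b3e290_gt.oo_norm Pool.Agent.Lib.MP_b3e290_gt.oo_pos
    Pool.Agent.Lib.MP_b3e290_gt.v0_norm Pool.Agent.Lib.MP_b3e290_gt.v0_pos
    Pool.Agent.Lib.MP_b3e290_gt.lower_bound 1.425 (by norm_num)
  rw [Pool.Agent.Lib.MP_b3e290_gt.bl'_eq] at hx hy
  obtain ⟨g, hg, hg2⟩ := Pool.Agent.Lib.MP_b3e290_gt.small_diam Θ a b hD x y hx hx0 hy hy0
  have h1 := hxy g hg
  rw [Pool.Agent.Lib.MP_b3e290_gt.bl'_eq] at h1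
  linarith

end Pool.Agent.S13788
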