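import Pool.Statements.S14203
import Pool.Agent.TwelveSpheres.Dod

set_option autoImplicit false
open Pool Pool.MP_f22fa8_gt

namespace Pool.Agent.S14203

/-- There are 1<a<b such that for every r in (a,b), some connected component of the space of 12 non-overlapping radius-r spheres touching a unit sphere contains no configuration congruent to the icosahedral (DOD) arrangement. -/
theorem result :
    ∃ a b : ℝ, 1 < a ∧ a < b ∧ ∀ r : ℝ, a < r → r < b →
      ∃ x ∈ {x : Fin 12 → Fin 3 → ℝ |
              (∀ i, ∑ k, (x i k) ^ 2 = (1 + r) ^ 2) ∧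
              ∀ i j, i ≠ j → (2 * r) ^ 2 ≤ ∑ k, (x i k - x j k) ^ 2},
        ∀ y ∈ connectedComponentIn
              {x : Fin 12 → Fin 3 → ℝ |
                (∀ i, ∑ k, (x i k) ^ 2 = (1 + r) ^ 2) ∧
                ∀ i j, i ≠ j → (2 * r) ^ 2 ≤ ∑ k, (x i k - x j k) ^ 2} x,
          ¬ ∃ g : Matrix (Fin 3) (Fin 3) ℝ, g.transpose * g = 1 ∧
              Set.range y =
                {p : Fin 3 → ℝ | ∃ v : Fin 3 → ℝ,
                  (∃ s t : ℝ, (s = 1 ∨ s = -1) ∧
                    (t = (1 + Real.sqrt 5) / 2 ∨ t = -((1 + Real.sqrt 5) / 2)) ∧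
                    (v = ![0, s, t] ∨ v = ![s, t, 0] ∨ v = ![t, 0, s])) ∧
                  p = ((1 + r) / Real.sqrt (1 + ((1 + Real.sqrt 5) / 2) ^ 2)) •
                        Matrix.mulVec g v} := by
  refine ⟨20020241 / 20000000, 10010121 / 10000000, by norm_num, by norm_num, ?_⟩
  intro r h1 h2
  have hr1 : 1 < r := lt_trans (by norm_num) h1
  have hr : 0 < 1 + r := by linarith
  have hc : (1 + r) ^ 2 - 2 * r ^ 2 ≤ (48778721 / 97656250) * (1 + r) ^ 2 := by
    have p1 : 0 < r - 20020241 / 20000000 := by linarith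
    have p2 : 0 < 2 * (r + 20020241 / 20000000)
        - (1 - 48778721 / 97656250) * (2 + r + 20020241 / 20000000) := by linarith
    nlinarith [mul_pos p1 p2]
  have hc' : (4994940780 / 10000000000) * (1 + r) ^ 2 ≤ (1 + r) ^ 2 - 2 * r ^ 2 := by
    have p1 : 0 < 10010121 / 10000000 - r := by linarith
    have p2 : 0 < 2 * (r + 10010121 / 10000000)
        - (1 - 4994940780 / 10000000000) * (2 + r + 10010121 / 10000000) := by linarith
    nlinarith [mul_pos p1 p2]
  refine ⟨TwelveSpheres.wit r, TwelveSpheres.wit_mem hc', fun y hy => ?_⟩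
  exact TwelveSpheres.not_dod hr (TwelveSpheres.component_subset hr hc hc' hy)

end Pool.Agent.S14203
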