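import Pool.Statements.S14318
import Pool.Agent.Lib.MP_018f72_lc.Start

set_option autoImplicit false
open Pool Pool.MP_018f72_lc

namespace Pool.Agent.S14318

/-- The negation of the preceding statement: For every group generated by finitely many elements: deciding, from a finite alphabet and finite forbidden patterns given by words, whether some coloring of the group avoids all patterns is computable iff the group has a free subgroup of finite index. -/
theorem result :
    ¬ (∀ (Γ : Type) [Group Γ] (n : ℕ) (s : Fin n → Γ),
      Subgroup.closure (Set.range s) = ⊤ →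
      (ComputablePred
          (fun I : ℕ × List (List (List (Fin n × Bool) × ℕ)) =>
            ∃ x : Γ → Fin I.1, ∀ g : Γ, ∀ P ∈ I.2,
              ¬ (∀ q ∈ P, ((x (g * FreeGroup.lift s (FreeGroup.mk q.1)) : Fin I.1) : ℕ) = q.2))
        ↔ ∃ H : Subgroup Γ, H.FiniteIndex ∧ IsFreeGroup H)) := by
  intro hall
  obtain ⟨N, hN, hcomp, hbig⟩ := Pool.Agent.Lib.MP_018f72_lc.exists_group
  have h1 := hall (Pool.Agent.Lib.MP_018f72_lc.F2 ⧸ N) 2
    (fun i => QuotientGroup.mk (FreeGroup.of i)) (by
      rw [Subgroup.eq_top_iff']
      intro g
      induction g using QuotientGroup.induction_on with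
      | H w =>
        induction w using FreeGroup.induction_on with
        | C1 => exact one_mem _
        | of i => exact Subgroup.subset_closure ⟨i, rfl⟩
        | inv_of i h => exact inv_mem h
        | mul x y hx hy => exact mul_mem hx hy)
  exact Pool.Agent.Lib.MP_018f72_lc.not_virtually_free N hbig
    (h1.1 (hcomp.of_eq fun I => (Pool.Agent.Lib.MP_018f72_lc.domF_iff N I).symm))

end Pool.Agent.S14318
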