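import Pool.Statements.S14348
import Pool.Agent.Lib.MP_09920c_lc.Main

set_option autoImplicit false
open Pool Pool.MP_09920c_lc

namespace Pool.Agent.S14348

/-- The negation of the preceding statement: There is a graph on a Polish space with coanalytic edge set such that any Borel graph on a Polish space has no finite Borel proper coloring exactly when the first graph maps into it by a Borel homomorphism. -/
theorem result :
    ¬ (∃ (X : Type) (_ : TopologicalSpace X) (_ : PolishSpace X) (_ : MeasurableSpace X)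
      (_ : BorelSpace X) (G : SimpleGraph X),
      MeasureTheory.AnalyticSet ({p : X × X | G.Adj p.1 p.2}ᶜ) ∧
      ∀ (Y : Type) [TopologicalSpace Y] [PolishSpace Y] [MeasurableSpace Y] [BorelSpace Y]
        (H : SimpleGraph Y),
        MeasurableSet {p : Y × Y | H.Adj p.1 p.2} →
        ((∀ n : ℕ, ¬ ∃ c : Y → ℕ, Measurable c ∧ (∀ y, c y < n) ∧
            ∀ x y, H.Adj x y → c x ≠ c y) ↔
          ∃ f : X → Y, Measurable f ∧ ∀ x x', G.Adj x x' → H.Adj (f x) (f x'))) := by
  rintro ⟨X, _, _, _, _, G, _, hG⟩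
  obtain ⟨f1, hf1, hom1⟩ := (hG Pool.Agent.MP_09920c_lc.V1 Pool.Agent.MP_09920c_lc.G1
    (Pool.Agent.MP_09920c_lc.ms_G1 _ _ measurable_fst measurable_snd)).mp
    Pool.Agent.MP_09920c_lc.G1_lower
  obtain ⟨f2, hf2, hom2⟩ := (hG (ℕ → ℕ) Pool.Agent.MP_09920c_lc.G2
    (Pool.Agent.MP_09920c_lc.ms_G2 _ _ measurable_fst measurable_snd)).mp
    Pool.Agent.MP_09920c_lc.G2_lower
  exact (hG (Pool.Agent.MP_09920c_lc.V1 × (ℕ → ℕ)) Pool.Agent.MP_09920c_lc.G12
    (Pool.Agent.MP_09920c_lc.ms_G12 _ _ measurable_fst measurable_snd)).mpr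
    ⟨fun x => (f1 x, f2 x), hf1.prodMk hf2, fun x x' h => ⟨hom1 x x' h, hom2 x x' h⟩⟩ 108
    Pool.Agent.MP_09920c_lc.G12_upper

end Pool.Agent.S14348
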