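import Pool.Statements.S14780
-- import your own Pool.Agent.* helpers here
import Pool.Agent.Burnside.Main
import Pool.Agent.Lib.MP_604f1e_lc.NTwo

set_option autoImplicit false
open Pool Pool.MP_604f1e_lc

namespace Pool.Agent.S14780

/-- The negation of the preceding statement: For every finite alphabet, all positive n and m, and every word w, the set of words congruent to w under the monoid congruence generated by x^n ~ x^(n+m) is accepted by some finite automaton. -/
theorem result :
    ¬ (∀ (A : Type) [Fintype A] (n m : ℕ), 0 < n → 0 < m →
      ∀ w : FreeMonoid A,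
        ∃ (σ : Type) (_ : Fintype σ) (M : DFA A σ),
          M.accepts =
            {v : List A |
              conGen (fun a b : FreeMonoid A => ∃ x : FreeMonoid A, a = x ^ n ∧ b = x ^ (n + m))
                (FreeMonoid.ofList v) w}) := by
  obtain ⟨n, hn, G, _, t, x, hinf, hgen, hexp⟩ := Pool.Agent.Burnside.exists_infinite_burnside
  have hn2 : 2 ≤ n := by
    rcases Nat.lt_or_ge n 2 with h | h
    · exfalso
      have h1 : n = 1 := by
        have := hn.pos
        omega
      subst h1
      have h2 : ∀ g : G, g = 1 := fun g => by
        have := hexp g
        rwa [pow_one] at this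
      have h3 : Finite G := ⟨⟨fun _ => (0 : Fin 1), fun _ => 1, fun g => (h2 g).symm,
        fun i => Subsingleton.elim _ _⟩⟩
      exact not_finite G
    · exact h
  exact Pool.Agent.Lib.MP_604f1e_lc.NTwo.not_all_regular' hn2 hexp t x hgen

end Pool.Agent.S14780
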