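import Pool.Statements.S14829
import Pool.Agent.Lib.MP_673eb1_lc.C50.Main
import Pool.Agent.Lib.MP_673eb1_lc.C50.BR2
import Pool.Agent.Lib.MP_673eb1_lc.Fin

set_option autoImplicit false
open NumberField IsDedekindDomain
open Pool Pool.MP_673eb1_lc

namespace Pool.Agent.S14829

/-- For K totally real or CM, any set W of primes and any ε>0, some W̄ differs from W inside a set of Dirichlet density below ε, and ℤ is existentially definable by one polynomial over the ring of W̄-integers of K. -/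
theorem result :
  ∀ (K : Type) [Field K] [NumberField K],
    (NumberField.IsTotallyReal K ∨
      ∃ F : IntermediateField ℚ K, (∀ φ : K →+* ℂ, ∀ x ∈ F, (φ x).im = 0) ∧
        NumberField.IsTotallyComplex K ∧ Module.finrank F K = 2) →
    ∀ W : Set (HeightOneSpectrum (𝓞 K)),
    ∀ ε : ℝ, 0 < ε →
    ∃ Wbar : Set (HeightOneSpectrum (𝓞 K)),
      (∃ B : Set (HeightOneSpectrum (𝓞 K)), ∃ d : ℝ, d < ε ∧
         Filter.Tendsto (fun s : ℝ =>
           (∑' v : HeightOneSpectrum (𝓞 K),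
              B.indicator (fun w => ((Ideal.absNorm w.asIdeal : ℕ) : ℝ) ^ (-s)) v) /
           (∑' v : HeightOneSpectrum (𝓞 K), ((Ideal.absNorm v.asIdeal : ℕ) : ℝ) ^ (-s)))
           (nhdsWithin 1 (Set.Ioi 1)) (nhds d) ∧
         symmDiff Wbar W ⊆ B) ∧
      ∃ n : ℕ, ∃ f : MvPolynomial (Fin (n+1)) (𝓞 K),
        ∀ x : K, (∀ v ∉ Wbar, v.valuation K x ≤ 1) →
          ((∃ m : ℤ, (m : K) = x) ↔
            ∃ z : Fin (n+1) → K, z 0 = x ∧
              (∀ i, ∀ v ∉ Wbar, v.valuation K (z i) ≤ 1) ∧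
              MvPolynomial.eval₂ (algebraMap (𝓞 K) K) z f = 0) := by
  intro K _ _ hK W ε hε
  exact Pool.Agent.Lib.MP_673eb1_lc.HF.fin_main
    (Pool.Agent.C50.main_of (Pool.Agent.C50.br0_of_br2 Pool.Agent.C50.br2)) K hK W ε hε

end Pool.Agent.S14829
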