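import Pool.Statements.S14895
-- import your own Pool.Agent.* helpers here

set_option autoImplicit false
open Pool Pool.MP_735cdd_lc

namespace Pool.Agent.S14895

open FirstOrder FirstOrder.Language

/-- the language of the frozen statement -/
abbrev LG : FirstOrder.Language := FirstOrder.Language.mk (fun _ => Unit) (fun _ => Empty)

section Grp

variable {G : Type} [Group G]

/-- The elementary Nielsen transformation sending `x k` to `x k * g⁻¹`, where `g` is the square of
`x (k + 1)`, and fixing the other elements of the basis. -/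
theorem exists_transvection (X : Set G) (hgen : Subgroup.closure X = ⊤)
    (hfree : ∀ f : X → G, ∃ φ : G →* G, ∀ x : X, φ x = f x)
    (e : ℕ ↪ X) (k : ℕ) :
    ∃ τ : G ≃* G, τ (e k) = e k * ((e (k + 1) : G) * (e (k + 1) : G))⁻¹ ∧
      ∀ j, j ≠ k → τ (e j) = e j := by
  classical
  set g : G := (e (k + 1) : G) * (e (k + 1) : G) with hg
  obtain ⟨τ, hτ⟩ := hfree (fun z => if z = e k then (e k : G) * g⁻¹ else z)
  obtain ⟨σ, hσ⟩ := hfree (fun z => if z = e k then (e k : G) * g else z)
  have hne : e (k + 1) ≠ e k := fun h => by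
    have := e.injective h
    omega
  have hτg : τ g = g := by
    rw [hg, map_mul, hτ, if_neg hne]
  have hσg : σ g = g := by
    rw [hg, map_mul, hσ, if_neg hne]
  have h1 : τ.comp σ = MonoidHom.id G := by
    apply MonoidHom.eq_of_eqOn_dense hgen
    intro z hz
    have hz' : ((⟨z, hz⟩ : X) : G) = z := rfl
    rw [MonoidHom.comp_apply, ← hz', hσ]
    by_cases h : (⟨z, hz⟩ : X) = e k
    · rw [if_pos h, map_mul, hτg, hτ, if_pos rfl, h]
      simp
    · rw [if_neg h, hτ, if_neg h]
      simp
  have h2 : σ.comp τ = MonoidHom.id G := by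
    apply MonoidHom.eq_of_eqOn_dense hgen
    intro z hz
    have hz' : ((⟨z, hz⟩ : X) : G) = z := rfl
    rw [MonoidHom.comp_apply, ← hz', hτ]
    by_cases h : (⟨z, hz⟩ : X) = e k
    · rw [if_pos h, map_mul, map_inv, hσg, hσ, if_pos rfl, h]
      simp
    · rw [if_neg h, hσ, if_neg h]
      simp
  refine ⟨MonoidHom.toMulEquiv τ σ h2 h1, ?_, ?_⟩
  · change τ (e k) = _
    rw [hτ, if_pos rfl]
  · intro j hj
    change τ (e j) = _
    rw [hτ, if_neg (fun h => hj (e.injective h))]

/-- Each initial segment of `e k * (e (k+1))^(-2)` is the image of the corresponding segment of the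
basis under an automorphism. -/
theorem exists_aut (X : Set G) (hgen : Subgroup.closure X = ⊤)
    (hfree : ∀ f : X → G, ∃ φ : G →* G, ∀ x : X, φ x = f x)
    (e : ℕ ↪ X) (k : ℕ) :
    ∃ α : G ≃* G, (∀ i, i < k → α (e i) = e i * ((e (i + 1) : G) * (e (i + 1) : G))⁻¹) ∧
      ∀ j, k ≤ j → α (e j) = e j := by
  induction k with
  | zero => exact ⟨MulEquiv.refl G, by simp, by simp⟩
  | succ k ih =>
    obtain ⟨α, hα1, hα2⟩ := ih
    obtain ⟨τ, hτ1, hτ2⟩ := exists_transvection X hgen hfree e k
    refine ⟨τ.trans α, ?_, ?_⟩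
    · intro i hi
      rw [MulEquiv.trans_apply]
      rcases Nat.lt_succ_iff_lt_or_eq.mp hi with h | h
      · rw [hτ2 i (by omega), hα1 i h]
      · subst h
        rw [hτ1, map_mul, map_inv, map_mul, hα2 i le_rfl, hα2 (i + 1) (by omega)]
    · intro j hj
      rw [MulEquiv.trans_apply, hτ2 j (by omega), hα2 j (by omega)]

/-- The nested system of equations `g = b k * y^2`, `y = b (k+1) * y'^2`, ... of depth `n`. -/
def Nest (b : ℕ → G) : ℕ → ℕ → G → Prop
  | 0, _, _ => True
  | n + 1, k, g => ∃ y : G, g = b k * (y * y) ∧ Nest b n (k + 1) y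

theorem nest_of_tower (b y : ℕ → G) (h : ∀ k, y k = b k * (y (k + 1) * y (k + 1)))
    (n : ℕ) : ∀ k, Nest b n k (y k) := by
  induction n with
  | zero => intro k; trivial
  | succ n ih => intro k; exact ⟨y (k + 1), h k, ih (k + 1)⟩

/-- The nested system over the basis cannot be solved at all depths. -/
theorem not_nest (htf : ∀ g : G, ∀ n : ℕ, 0 < n → g ^ n = 1 → g = 1)
    (X : Set G) (hgen : Subgroup.closure X = ⊤)
    (hfree : ∀ f : X → G, ∃ φ : G →* G, ∀ x : X, φ x = f x)
    (e : ℕ ↪ X) (d : G) (hd : ∀ n, Nest (fun k => (e k : G)) n 0 d) : False := by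
  classical
  -- the retractions killing all basis elements but one
  have hret : ∀ n : ℕ, ∃ h : G →* G, h (e n) = e n ∧ ∀ z : X, z ≠ e n → h z = 1 := by
    intro n
    obtain ⟨h, hh⟩ := hfree (fun z => if z = e n then (e n : G) else 1)
    refine ⟨h, by rw [hh, if_pos rfl], fun z hz => by rw [hh, if_neg hz]⟩
  choose h hh1 hh2 using hret
  have hfin : ∀ g : G, {n | h n g ≠ 1}.Finite := by
    intro g
    have hg : g ∈ Subgroup.closure X := by rw [hgen]; trivial
    induction hg using Subgroup.closure_induction with
    | mem z hz =>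
      have : {n | h n z ≠ 1} ⊆ {n | e n = ⟨z, hz⟩} := by
        intro n hn
        by_contra hne
        exact hn (hh2 n ⟨z, hz⟩ (fun h' => hne h'.symm))
      refine Set.Finite.subset ?_ this
      apply Set.Subsingleton.finite
      intro a ha b hb
      exact e.injective (ha.trans hb.symm)
    | one => simp
    | mul a b _ _ iha ihb =>
      refine (iha.union ihb).subset ?_
      intro n hn
      by_contra hne
      simp only [Set.mem_union, Set.mem_ofPred_eq, not_or, not_not] at hne
      apply hn
      rw [map_mul, hne.1, hne.2, one_mul]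
    | inv a _ iha =>
      refine iha.subset ?_
      intro n hn
      simpa using hn
  obtain ⟨n, hn⟩ : ∃ n, h n d = 1 := by
    by_contra hcon
    push Not at hcon
    have : {n | h n d ≠ 1} = Set.univ := Set.eq_univ_of_forall hcon
    exact Set.infinite_univ (this ▸ hfin d)
  have hcyc : ∀ g : G, h n g ∈ Subgroup.zpowers (e n : G) := by
    intro g
    have hg : g ∈ Subgroup.closure X := by rw [hgen]; trivial
    induction hg using Subgroup.closure_induction with
    | mem z hz =>
      by_cases hze : (⟨z, hz⟩ : X) = e n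
      · have : h n z = e n := by
          have := hh1 n
          rw [← hze] at this
          simpa [← hze] using this
        rw [this]
        exact Subgroup.mem_zpowers _
      · have : h n z = 1 := hh2 n ⟨z, hz⟩ hze
        rw [this]
        exact Subgroup.one_mem _
    | one => rw [map_one]; exact Subgroup.one_mem _
    | mul a b _ _ iha ihb => rw [map_mul]; exact Subgroup.mul_mem _ iha ihb
    | inv a _ iha => rw [map_inv]; exact Subgroup.inv_mem _ iha
  have hne1 : (e n : G) ≠ 1 := by
    intro h1
    obtain ⟨φ, hφ⟩ := hfree (fun _ => (e (n + 1) : G))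
    have h2 := hφ (e n)
    rw [h1, map_one] at h2
    have h3 : e n = e (n + 1) := Subtype.ext (h1.trans h2)
    have := e.injective h3
    omega
  have key : ∀ m j g, j + m = n → h n g = 1 → Nest (fun k => (e k : G)) (m + 1) j g → False := by
    intro m
    induction m with
    | zero =>
      rintro j g hj hg ⟨y, hy, -⟩
      have hjn : j = n := by omega
      subst hjn
      obtain ⟨t, ht⟩ := Subgroup.mem_zpowers_iff.mp (hcyc y)
      have hy' : h j g = (e j : G) ^ (1 + 2 * t) := by
        have : h j g = h j (e j) * (h j y * h j y) := by rw [hy, map_mul, map_mul]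
        rw [this, hh1, ← ht, ← zpow_add, ← zpow_one_add]
        congr 1
        ring
      rw [hg] at hy'
      have hodd : (1 + 2 * t) ≠ 0 := by omega
      have hnat : (e j : G) ^ (1 + 2 * t).natAbs = 1 := by
        rcases Int.natAbs_eq (1 + 2 * t) with h1 | h1
        · rw [← zpow_natCast, ← h1]; exact hy'.symm
        · rw [← zpow_natCast, ← inv_inj, ← zpow_neg, ← h1, inv_one]; exact hy'.symm
      exact hne1 (htf _ _ (Int.natAbs_pos.mpr hodd) hnat)
    | succ m ih =>
      rintro j g hj hg ⟨y, hy, hN⟩
      refine ih (j + 1) y (by omega) ?_ hN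
      have hjn : e j ≠ e n := fun h' => by
        have := e.injective h'
        omega
      have h1 : h n g = h n y * h n y := by
        rw [hy, map_mul, map_mul, hh2 n (e j) hjn, one_mul]
      rw [hg, ← pow_two] at h1
      exact htf _ 2 (by norm_num) h1.symm
  exact key n 0 d (by omega) hn (hd (n + 1))

end Grp

section Form

/-- The term `b k * (y * y)` where `y` is the last bound variable. -/
def nestTerm (k m : ℕ) : LG.Term ((Unit ⊕ ℕ) ⊕ Fin (m + 1)) :=
  Term.func (l := 3) () ![Term.var (Sum.inl (Sum.inr k)), Term.var (Sum.inr (Fin.last m)),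
    Term.var (Sum.inr (Fin.last m))]

/-- A formula expressing `Nest`. -/
def nestFormula : (n k m : ℕ) → LG.Term ((Unit ⊕ ℕ) ⊕ Fin m) → LG.BoundedFormula (Unit ⊕ ℕ) m
  | 0, _, _, _ => ⊤
  | n + 1, k, m, t =>
    ((BoundedFormula.equal (t.relabel (Sum.map id Fin.castSucc)) (nestTerm k m)) ⊓
      nestFormula n (k + 1) (m + 1) (Term.var (Sum.inr (Fin.last m)))).ex

variable {G : Type} [Group G] [LG.Structure G]

theorem realize_nestFormula
    (hS : ∀ (n : ℕ) (f : LG.Functions n) (xs : Fin n → G),
        Structure.funMap f xs = (List.ofFn xs).prod)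
    (n : ℕ) : ∀ (k m : ℕ) (t : LG.Term ((Unit ⊕ ℕ) ⊕ Fin m)) (v : Unit ⊕ ℕ → G) (xs : Fin m → G),
    (nestFormula n k m t).Realize v xs ↔
      Nest (fun k => v (Sum.inr k)) n k (t.realize (Sum.elim v xs)) := by
  induction n with
  | zero => intro k m t v xs; simp [nestFormula, Nest]
  | succ n ih =>
    intro k m t v xs
    simp only [nestFormula, BoundedFormula.realize_ex, BoundedFormula.realize_inf, ih, Nest]
    apply exists_congr
    intro y
    have h1 : (t.relabel (Sum.map id Fin.castSucc)).realize (Sum.elim v (Fin.snoc xs y : Fin (m + 1) → G))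
        = t.realize (Sum.elim v xs) := by
      rw [Term.realize_relabel]
      congr 1
      ext i
      rcases i with i | i
      · rfl
      · simp
    have h2 : (nestTerm k m).realize (Sum.elim v (Fin.snoc xs y : Fin (m + 1) → G))
        = v (Sum.inr k) * (y * y) := by
      simp only [nestTerm, Term.realize_func]
      rw [hS]
      simp [List.ofFn_succ]
    simp only [BoundedFormula.Realize, h1, h2]
    simp

end Form

/-- Every torsion-free group that is free in its own variety on an infinite basis fails ℵ1-homogeneity: some countable tuples a, b share a type, yet some element c has no d making (c,a) and (d,b) share a type. -/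
theorem result :
  ∀ (G : Type) [Group G],
    (∀ g : G, ∀ n : ℕ, 0 < n → g ^ n = 1 → g = 1) →
    (∃ X : Set G, X.Infinite ∧ Subgroup.closure X = ⊤ ∧
      ∀ f : X → G, ∃ φ : G →* G, ∀ x : X, φ x = f x) →
    ∀ [S : (FirstOrder.Language.mk (fun _ => Unit) (fun _ => Empty)).Structure G],
      (∀ (n : ℕ) (f : (FirstOrder.Language.mk (fun _ => Unit) (fun _ => Empty)).Functions n)
          (xs : Fin n → G),
        FirstOrder.Language.Structure.funMap f xs = (List.ofFn xs).prod) →
      ¬ ∀ a b : ℕ → G,
        (∀ φ : (FirstOrder.Language.mk (fun _ => Unit) (fun _ => Empty)).Formula ℕ,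
          φ.Realize a ↔ φ.Realize b) →
        ∀ c : G, ∃ d : G,
          ∀ ψ : (FirstOrder.Language.mk (fun _ => Unit) (fun _ => Empty)).Formula (Unit ⊕ ℕ),
            ψ.Realize (Sum.elim (fun _ => c) a) ↔ ψ.Realize (Sum.elim (fun _ => d) b) := by
  classical
  intro G _ htf ⟨X, hXinf, hgen, hfree⟩ S hS hhom
  have : Infinite X := hXinf.to_subtype
  let e : ℕ ↪ X := Infinite.natEmbedding X
  let b : ℕ → G := fun k => (e k : G) * ((e (k + 1) : G) * (e (k + 1) : G))⁻¹
  have htype : ∀ φ : LG.Formula ℕ, φ.Realize b ↔ φ.Realize (fun k => (e k : G)) := by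
    intro φ
    obtain ⟨N, hN⟩ : ∃ N, ∀ i ∈ φ.freeVarFinset, i < N := by
      refine ⟨φ.freeVarFinset.sup id + 1, fun i hi => ?_⟩
      have := Finset.le_sup (f := id) hi
      simp only [id] at this
      omega
    obtain ⟨α, hα, -⟩ := exists_aut X hgen hfree e N
    let αL : G ≃[LG] G :=
      { toEquiv := α.toEquiv
        map_fun' := by
          intro n f xs
          change α _ = _
          rw [hS, hS, map_list_prod, List.map_ofFn]
          rfl
        map_rel' := by
          intro n r
          exact r.elim }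
    have h1 : φ.Realize (αL ∘ fun k => (e k : G)) ↔ φ.Realize (fun k => (e k : G)) :=
      StrongHomClass.realize_formula αL φ
    rw [← h1]
    have hv : ∀ (v v' : ℕ → G), (∀ i ∈ φ.freeVarFinset, v i = v' i) →
        (φ.Realize v ↔ φ.Realize v') := by
      intro v v' hvv
      have h2 := BoundedFormula.realize_restrictFreeVar (φ := φ) (f := fun a => (a : ℕ))
        (v := v) (xs := default) v (fun a => rfl)
      have h3 := BoundedFormula.realize_restrictFreeVar (φ := φ) (f := fun a => (a : ℕ))
        (v := v) (xs := default) v' (fun a => hvv a a.2)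
      exact h2.symm.trans h3
    apply hv
    intro i hi
    exact (hα i (hN i hi)).symm
  obtain ⟨d, hd⟩ := hhom b (fun k => (e k : G)) htype (e 0 : G)
  refine not_nest htf X hgen hfree e d ?_
  intro n
  have h1 := hd (nestFormula n 0 0 (Term.var (Sum.inl (Sum.inl ()))))
  unfold Formula.Realize at h1
  rw [realize_nestFormula hS, realize_nestFormula hS] at h1
  refine h1.mp ?_
  simp only [Term.realize_var, Sum.elim_inl, Sum.elim_inr]
  exact nest_of_tower b (fun k => (e k : G)) (fun k => (inv_mul_cancel_right _ _).symm) n 0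

end Pool.Agent.S14895
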