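import Pool.Statements.S15137
import Pool.Agent.Lib.MP_a267a3_lc.M.All

set_option autoImplicit false
open Pool Pool.MP_a267a3_lc

namespace Pool.Agent.S15137

/-- For every algebraically closed field not algebraic over its prime field, the group of permutations of the projective line induced by semilinear bijections of F^2 is a proper closed subgroup of Sym(P^1), and every closed subgroup containing it equals it or is everything. -/
theorem result :
    ∀ (F : Type) [Field F] [IsAlgClosed F],
      ¬ Algebra.IsAlgebraic (⊥ : Subfield F) F →
      ∀ G : Set (Equiv.Perm (Projectivization F (Fin 2 → F))),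
        (∀ σ : Equiv.Perm (Projectivization F (Fin 2 → F)),
          σ ∈ G ↔ ∃ (φ : F ≃+* F)
            (f : (Fin 2 → F) →ₛₗ[φ.toRingHom] (Fin 2 → F))
            (hf : Function.Injective f),
            ⇑σ = Projectivization.map f hf) →
        ((∀ σ : Equiv.Perm (Projectivization F (Fin 2 → F)),
            (∀ A : Finset (Projectivization F (Fin 2 → F)),
              ∃ g ∈ G, ∀ x ∈ A, g x = σ x) → σ ∈ G) ∧
          G ≠ Set.univ ∧
          ∀ H : Subgroup (Equiv.Perm (Projectivization F (Fin 2 → F))),
            (∀ σ : Equiv.Perm (Projectivization F (Fin 2 → F)),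
              (∀ A : Finset (Projectivization F (Fin 2 → F)),
                ∃ h ∈ H, ∀ x ∈ A, h x = σ x) → σ ∈ H) →
            G ⊆ (H : Set (Equiv.Perm (Projectivization F (Fin 2 → F)))) →
            (H : Set (Equiv.Perm (Projectivization F (Fin 2 → F)))) = G ∨ H = ⊤) := by
  intro F _ _ hna
  exact Pool.Agent.MPa267.M.maximal_all F hna

end Pool.Agent.S15137
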