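import Pool.Statements.S15453
-- import your own Pool.Agent.* helpers here
import Pool.Agent.Lib.MP_d9c039_lc.F.All

set_option autoImplicit false
open Pool Pool.MP_d9c039_lc

namespace Pool.Agent.S15453

/-- Every c.e. set A has a c.e. set D of even numbers such that each of A and D, cut at length n, is computable from the other's cut at length n using one of boundedly many partial computable guesses, uniformly in n. -/
theorem result :
    ∀ A : Set ℕ, REPred (fun n : ℕ => n ∈ A) →
      ∃ D : Set ℕ, REPred (fun n : ℕ => n ∈ D) ∧ (∀ n ∈ D, Even n) ∧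
        (∃ φ : List Bool × ℕ →. List Bool, Partrec φ ∧ ∃ c : ℕ, ∀ n : ℕ, ∀ τ : List Bool,
          τ.length = n → (∀ i < n, (τ.getD i false = true ↔ i ∈ D)) →
          ∃ j ≤ c, ∃ σ ∈ φ (τ, j), σ.length = n ∧
            ∀ i < n, (σ.getD i false = true ↔ i ∈ A)) ∧
        (∃ ψ : List Bool × ℕ →. List Bool, Partrec ψ ∧ ∃ c : ℕ, ∀ n : ℕ, ∀ τ : List Bool,
          τ.length = n → (∀ i < n, (τ.getD i false = true ↔ i ∈ A)) →
          ∃ j ≤ c, ∃ σ ∈ ψ (τ, j), σ.length = n ∧
            ∀ i < n, (σ.getD i false = true ↔ i ∈ D)) := by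
  exact Pool.Agent.D9f.full

end Pool.Agent.S15453
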