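import Pool.Statements.S16380
import Pool.Agent.Lib.MP_2a7493_nt.Thirteen

set_option autoImplicit false
open Pool Pool.MP_2a7493_nt

namespace Pool.Agent.S16380

/-- The negation of the preceding statement: For every odd prime p and every f on ZMod p with f(0)=0, f(1)=1, ∣f(a)∣=1 for a≠0, and autocorrelation −1 at each nonzero shift (and p−1 at shift 0), f equals some multiplicative character of ZMod p. -/
theorem result :
    ¬ (∀ p : ℕ, p.Prime → p ≠ 2 →
      ∀ f : ZMod p → ℂ,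
        f 0 = 0 → f 1 = 1 →
        (∀ a : ZMod p, a ≠ 0 → ‖f a‖ = 1) →
        (∀ h : ZMod p, h ≠ 0 →
          ∑ a ∈ Finset.range p, f (a : ZMod p) * starRingEnd ℂ (f ((a : ZMod p) + h)) = -1) →
        (∑ a ∈ Finset.range p, f (a : ZMod p) * starRingEnd ℂ (f (a : ZMod p)) = (p : ℂ) - 1) →
        ∃ χ : MulChar (ZMod p) ℂ, ∀ a : ZMod p, f a = χ a) := by
  intro hall
  obtain ⟨f, h0, h1, h2, h3, h4, h5⟩ := Pool.Agent.Lib.MP_2a7493_nt.exists_fun
  obtain ⟨χ, hχ⟩ := hall 13 (by norm_num) (by norm_num) f h0 h1 h2 h3 h4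
  apply h5
  rw [hχ, hχ, ← map_mul]

end Pool.Agent.S16380
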