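import Pool.Statements.S17002
import Mathlib.NumberTheory.LucasPrimality

set_option autoImplicit false
open Pool Pool.MP_560dd7_nt

namespace Pool.Agent.S17002

/-- Fast modular exponentiation with fuel. -/
def powModF : ℕ → ℕ → ℕ → ℕ → ℕ
  | 0, _, _, m => 1 % m
  | f + 1, a, b, m =>
    bif b == 0 then 1 % m
    else bif b % 2 == 1 then (powModF f (a * a % m) (b / 2) m) * a % m
    else powModF f (a * a % m) (b / 2) m

theorem powModF_eq : ∀ (f a b m : ℕ), b < 2 ^ f → powModF f a b m = a ^ b % m := by
  intro f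
  induction f with
  | zero =>
    intro a b m hb
    have : b = 0 := by simpa using hb
    subst this
    simp [powModF]
  | succ f ih =>
    intro a b m hb
    rw [powModF]
    by_cases h0 : b = 0
    · subst h0
      simp
    · have hb2 : b / 2 < 2 ^ f := by
        rw [Nat.div_lt_iff_lt_mul (by norm_num)]
        rw [pow_succ] at hb
        exact hb
      have hbd : b = 2 * (b / 2) + b % 2 := (Nat.div_add_mod b 2).symm
      have hsq : (a * a % m) ^ (b / 2) % m = (a ^ (2 * (b / 2))) % m := by
        rw [← Nat.pow_mod, pow_mul, pow_two]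
      have h0' : (b == 0) = false := by simpa using h0
      rw [h0', cond_false]
      rcases Nat.mod_two_eq_zero_or_one b with h | h
      · rw [h]
        rw [h, add_zero] at hbd
        have h10 : ((0 : ℕ) == 1) = false := rfl
        rw [h10, cond_false, ih _ _ _ hb2, hsq, ← hbd]
      · rw [h]
        rw [h] at hbd
        have h11 : ((1 : ℕ) == 1) = true := rfl
        rw [h11, cond_true, ih _ _ _ hb2, hsq, Nat.mod_mul_mod, ← pow_succ, ← hbd]

/-- Lucas primality test over the natural numbers. -/
theorem lucas_nat (p a : ℕ) (hp : 1 < p) (h1 : a ^ (p - 1) % p = 1)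
    (hq : ∀ q : ℕ, q.Prime → q ∣ p - 1 → a ^ ((p - 1) / q) % p ≠ 1) : p.Prime := by
  have key : ∀ k : ℕ, ((a : ZMod p) ^ k = 1 ↔ a ^ k % p = 1) := by
    intro k
    have h := ZMod.natCast_eq_natCast_iff' (a ^ k) 1 p
    rw [Nat.mod_eq_of_lt hp] at h
    rw [← h]
    push_cast
    exact Iff.rfl
  refine lucas_primality p (a : ZMod p) ((key _).2 h1) ?_
  intro q hqp hqd h
  exact hq q hqp hqd ((key _).1 h)

theorem prime_2 : Nat.Prime 2 := by norm_num

theorem prime_29 : Nat.Prime 29 := by norm_num

theorem prime_3 : Nat.Prime 3 := by norm_num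

theorem prime_149 : Nat.Prime 149 := by norm_num

theorem prime_17 : Nat.Prime 17 := by norm_num

theorem prime_499 : Nat.Prime 499 := by norm_num

theorem prime_769 : Nat.Prime 769 := by norm_num

theorem prime_834998657 : Nat.Prime 834998657 := by
  refine lucas_nat 834998657 3 (by norm_num) ?_ ?_
  · rw [← powModF_eq 120 3 (834998657 - 1) 834998657 (by norm_num)]
    decide +kernel
  intro q hq hd
  have hfac : 834998657 - 1 = 2 * 2 * 2 * 2 * 2 * 2 * 2 * 17 * 499 * 769 := by norm_num
  rw [hfac] at hd
  have hcases : q = 2 ∨ q = 17 ∨ q = 499 ∨ q = 769 := by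
    rcases (Nat.Prime.dvd_mul hq).1 hd with hd | hd
    swap
    · have := (Nat.prime_dvd_prime_iff_eq hq prime_769).1 hd
      simp [this]
    rcases (Nat.Prime.dvd_mul hq).1 hd with hd | hd
    swap
    · have := (Nat.prime_dvd_prime_iff_eq hq prime_499).1 hd
      simp [this]
    rcases (Nat.Prime.dvd_mul hq).1 hd with hd | hd
    swap
    · have := (Nat.prime_dvd_prime_iff_eq hq prime_17).1 hd
      simp [this]
    rcases (Nat.Prime.dvd_mul hq).1 hd with hd | hd
    swap
    · have := (Nat.prime_dvd_prime_iff_eq hq prime_2).1 hd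
      simp [this]
    rcases (Nat.Prime.dvd_mul hq).1 hd with hd | hd
    swap
    · have := (Nat.prime_dvd_prime_iff_eq hq prime_2).1 hd
      simp [this]
    rcases (Nat.Prime.dvd_mul hq).1 hd with hd | hd
    swap
    · have := (Nat.prime_dvd_prime_iff_eq hq prime_2).1 hd
      simp [this]
    rcases (Nat.Prime.dvd_mul hq).1 hd with hd | hd
    swap
    · have := (Nat.prime_dvd_prime_iff_eq hq prime_2).1 hd
      simp [this]
    rcases (Nat.Prime.dvd_mul hq).1 hd with hd | hd
    swap
    · have := (Nat.prime_dvd_prime_iff_eq hq prime_2).1 hd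
      simp [this]
    rcases (Nat.Prime.dvd_mul hq).1 hd with hd | hd
    swap
    · have := (Nat.prime_dvd_prime_iff_eq hq prime_2).1 hd
      simp [this]
    · have := (Nat.prime_dvd_prime_iff_eq hq prime_2).1 hd
      simp [this]
  rcases hcases with rfl | rfl | rfl | rfl
  · rw [← powModF_eq 120 3 ((834998657 - 1) / 2) 834998657 (by norm_num)]
    decide +kernel
  · rw [← powModF_eq 120 3 ((834998657 - 1) / 17) 834998657 (by norm_num)]
    decide +kernel
  · rw [← powModF_eq 120 3 ((834998657 - 1) / 499) 834998657 (by norm_num)]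
    decide +kernel
  · rw [← powModF_eq 120 3 ((834998657 - 1) / 769) 834998657 (by norm_num)]
    decide +kernel

theorem prime_746488799359 : Nat.Prime 746488799359 := by
  refine lucas_nat 746488799359 7 (by norm_num) ?_ ?_
  · rw [← powModF_eq 120 7 (746488799359 - 1) 746488799359 (by norm_num)]
    decide +kernel
  intro q hq hd
  have hfac : 746488799359 - 1 = 2 * 3 * 149 * 834998657 := by norm_num
  rw [hfac] at hd
  have hcases : q = 2 ∨ q = 3 ∨ q = 149 ∨ q = 834998657 := by
    rcases (Nat.Prime.dvd_mul hq).1 hd with hd | hd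
    swap
    · have := (Nat.prime_dvd_prime_iff_eq hq prime_834998657).1 hd
      simp [this]
    rcases (Nat.Prime.dvd_mul hq).1 hd with hd | hd
    swap
    · have := (Nat.prime_dvd_prime_iff_eq hq prime_149).1 hd
      simp [this]
    rcases (Nat.Prime.dvd_mul hq).1 hd with hd | hd
    swap
    · have := (Nat.prime_dvd_prime_iff_eq hq prime_3).1 hd
      simp [this]
    · have := (Nat.prime_dvd_prime_iff_eq hq prime_2).1 hd
      simp [this]
  rcases hcases with rfl | rfl | rfl | rfl
  · rw [← powModF_eq 120 7 ((746488799359 - 1) / 2) 746488799359 (by norm_num)]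
    decide +kernel
  · rw [← powModF_eq 120 7 ((746488799359 - 1) / 3) 746488799359 (by norm_num)]
    decide +kernel
  · rw [← powModF_eq 120 7 ((746488799359 - 1) / 149) 746488799359 (by norm_num)]
    decide +kernel
  · rw [← powModF_eq 120 7 ((746488799359 - 1) / 834998657) 746488799359 (by norm_num)]
    decide +kernel

theorem prime_43296350362823 : Nat.Prime 43296350362823 := by
  refine lucas_nat 43296350362823 5 (by norm_num) ?_ ?_
  · rw [← powModF_eq 120 5 (43296350362823 - 1) 43296350362823 (by norm_num)]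
    decide +kernel
  intro q hq hd
  have hfac : 43296350362823 - 1 = 2 * 29 * 746488799359 := by norm_num
  rw [hfac] at hd
  have hcases : q = 2 ∨ q = 29 ∨ q = 746488799359 := by
    rcases (Nat.Prime.dvd_mul hq).1 hd with hd | hd
    swap
    · have := (Nat.prime_dvd_prime_iff_eq hq prime_746488799359).1 hd
      simp [this]
    rcases (Nat.Prime.dvd_mul hq).1 hd with hd | hd
    swap
    · have := (Nat.prime_dvd_prime_iff_eq hq prime_29).1 hd
      simp [this]
    · have := (Nat.prime_dvd_prime_iff_eq hq prime_2).1 hd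
      simp [this]
  rcases hcases with rfl | rfl | rfl
  · rw [← powModF_eq 120 5 ((43296350362823 - 1) / 2) 43296350362823 (by norm_num)]
    decide +kernel
  · rw [← powModF_eq 120 5 ((43296350362823 - 1) / 29) 43296350362823 (by norm_num)]
    decide +kernel
  · rw [← powModF_eq 120 5 ((43296350362823 - 1) / 746488799359) 43296350362823 (by norm_num)]
    decide +kernel

theorem prime_15887 : Nat.Prime 15887 := by norm_num

theorem prime_5 : Nat.Prime 5 := by norm_num

theorem prime_7 : Nat.Prime 7 := by norm_num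

theorem prime_503 : Nat.Prime 503 := by norm_num

theorem prime_41 : Nat.Prime 41 := by norm_num

theorem prime_5059 : Nat.Prime 5059 := by norm_num

theorem prime_797 : Nat.Prime 797 := by norm_num

theorem prime_23911 : Nat.Prime 23911 := by
  refine lucas_nat 23911 6 (by norm_num) ?_ ?_
  · rw [← powModF_eq 120 6 (23911 - 1) 23911 (by norm_num)]
    decide +kernel
  intro q hq hd
  have hfac : 23911 - 1 = 2 * 3 * 5 * 797 := by norm_num
  rw [hfac] at hd
  have hcases : q = 2 ∨ q = 3 ∨ q = 5 ∨ q = 797 := by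
    rcases (Nat.Prime.dvd_mul hq).1 hd with hd | hd
    swap
    · have := (Nat.prime_dvd_prime_iff_eq hq prime_797).1 hd
      simp [this]
    rcases (Nat.Prime.dvd_mul hq).1 hd with hd | hd
    swap
    · have := (Nat.prime_dvd_prime_iff_eq hq prime_5).1 hd
      simp [this]
    rcases (Nat.Prime.dvd_mul hq).1 hd with hd | hd
    swap
    · have := (Nat.prime_dvd_prime_iff_eq hq prime_3).1 hd
      simp [this]
    · have := (Nat.prime_dvd_prime_iff_eq hq prime_2).1 hd
      simp [this]
  rcases hcases with rfl | rfl | rfl | rfl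
  · rw [← powModF_eq 120 6 ((23911 - 1) / 2) 23911 (by norm_num)]
    decide +kernel
  · rw [← powModF_eq 120 6 ((23911 - 1) / 3) 23911 (by norm_num)]
    decide +kernel
  · rw [← powModF_eq 120 6 ((23911 - 1) / 5) 23911 (by norm_num)]
    decide +kernel
  · rw [← powModF_eq 120 6 ((23911 - 1) / 797) 23911 (by norm_num)]
    decide +kernel

theorem prime_17839 : Nat.Prime 17839 := by norm_num

theorem prime_499493 : Nat.Prime 499493 := by
  refine lucas_nat 499493 2 (by norm_num) ?_ ?_
  · rw [← powModF_eq 120 2 (499493 - 1) 499493 (by norm_num)]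
    decide +kernel
  intro q hq hd
  have hfac : 499493 - 1 = 2 * 2 * 7 * 17839 := by norm_num
  rw [hfac] at hd
  have hcases : q = 2 ∨ q = 7 ∨ q = 17839 := by
    rcases (Nat.Prime.dvd_mul hq).1 hd with hd | hd
    swap
    · have := (Nat.prime_dvd_prime_iff_eq hq prime_17839).1 hd
      simp [this]
    rcases (Nat.Prime.dvd_mul hq).1 hd with hd | hd
    swap
    · have := (Nat.prime_dvd_prime_iff_eq hq prime_7).1 hd
      simp [this]
    rcases (Nat.Prime.dvd_mul hq).1 hd with hd | hd
    swap
    · have := (Nat.prime_dvd_prime_iff_eq hq prime_2).1 hd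
      simp [this]
    · have := (Nat.prime_dvd_prime_iff_eq hq prime_2).1 hd
      simp [this]
  rcases hcases with rfl | rfl | rfl
  · rw [← powModF_eq 120 2 ((499493 - 1) / 2) 499493 (by norm_num)]
    decide +kernel
  · rw [← powModF_eq 120 2 ((499493 - 1) / 7) 499493 (by norm_num)]
    decide +kernel
  · rw [← powModF_eq 120 2 ((499493 - 1) / 17839) 499493 (by norm_num)]
    decide +kernel

theorem prime_39636533431608593 : Nat.Prime 39636533431608593 := by
  refine lucas_nat 39636533431608593 3 (by norm_num) ?_ ?_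
  · rw [← powModF_eq 120 3 (39636533431608593 - 1) 39636533431608593 (by norm_num)]
    decide +kernel
  intro q hq hd
  have hfac : 39636533431608593 - 1 = 2 * 2 * 2 * 2 * 41 * 5059 * 23911 * 499493 := by norm_num
  rw [hfac] at hd
  have hcases : q = 2 ∨ q = 41 ∨ q = 5059 ∨ q = 23911 ∨ q = 499493 := by
    rcases (Nat.Prime.dvd_mul hq).1 hd with hd | hd
    swap
    · have := (Nat.prime_dvd_prime_iff_eq hq prime_499493).1 hd
      simp [this]
    rcases (Nat.Prime.dvd_mul hq).1 hd with hd | hd
    swap
    · have := (Nat.prime_dvd_prime_iff_eq hq prime_23911).1 hd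
      simp [this]
    rcases (Nat.Prime.dvd_mul hq).1 hd with hd | hd
    swap
    · have := (Nat.prime_dvd_prime_iff_eq hq prime_5059).1 hd
      simp [this]
    rcases (Nat.Prime.dvd_mul hq).1 hd with hd | hd
    swap
    · have := (Nat.prime_dvd_prime_iff_eq hq prime_41).1 hd
      simp [this]
    rcases (Nat.Prime.dvd_mul hq).1 hd with hd | hd
    swap
    · have := (Nat.prime_dvd_prime_iff_eq hq prime_2).1 hd
      simp [this]
    rcases (Nat.Prime.dvd_mul hq).1 hd with hd | hd
    swap
    · have := (Nat.prime_dvd_prime_iff_eq hq prime_2).1 hd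
      simp [this]
    rcases (Nat.Prime.dvd_mul hq).1 hd with hd | hd
    swap
    · have := (Nat.prime_dvd_prime_iff_eq hq prime_2).1 hd
      simp [this]
    · have := (Nat.prime_dvd_prime_iff_eq hq prime_2).1 hd
      simp [this]
  rcases hcases with rfl | rfl | rfl | rfl | rfl
  · rw [← powModF_eq 120 3 ((39636533431608593 - 1) / 2) 39636533431608593 (by norm_num)]
    decide +kernel
  · rw [← powModF_eq 120 3 ((39636533431608593 - 1) / 41) 39636533431608593 (by norm_num)]
    decide +kernel
  · rw [← powModF_eq 120 3 ((39636533431608593 - 1) / 5059) 39636533431608593 (by norm_num)]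
    decide +kernel
  · rw [← powModF_eq 120 3 ((39636533431608593 - 1) / 23911) 39636533431608593 (by norm_num)]
    decide +kernel
  · rw [← powModF_eq 120 3 ((39636533431608593 - 1) / 499493) 39636533431608593 (by norm_num)]
    decide +kernel

theorem prime_16747228105523262714361 : Nat.Prime 16747228105523262714361 := by
  refine lucas_nat 16747228105523262714361 34 (by norm_num) ?_ ?_
  · rw [← powModF_eq 120 34 (16747228105523262714361 - 1) 16747228105523262714361 (by norm_num)]
    decide +kernel
  intro q hq hd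
  have hfac : 16747228105523262714361 - 1 = 2 * 2 * 2 * 3 * 5 * 7 * 503 * 39636533431608593 := by norm_num
  rw [hfac] at hd
  have hcases : q = 2 ∨ q = 3 ∨ q = 5 ∨ q = 7 ∨ q = 503 ∨ q = 39636533431608593 := by
    rcases (Nat.Prime.dvd_mul hq).1 hd with hd | hd
    swap
    · have := (Nat.prime_dvd_prime_iff_eq hq prime_39636533431608593).1 hd
      simp [this]
    rcases (Nat.Prime.dvd_mul hq).1 hd with hd | hd
    swap
    · have := (Nat.prime_dvd_prime_iff_eq hq prime_503).1 hd
      simp [this]
    rcases (Nat.Prime.dvd_mul hq).1 hd with hd | hd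
    swap
    · have := (Nat.prime_dvd_prime_iff_eq hq prime_7).1 hd
      simp [this]
    rcases (Nat.Prime.dvd_mul hq).1 hd with hd | hd
    swap
    · have := (Nat.prime_dvd_prime_iff_eq hq prime_5).1 hd
      simp [this]
    rcases (Nat.Prime.dvd_mul hq).1 hd with hd | hd
    swap
    · have := (Nat.prime_dvd_prime_iff_eq hq prime_3).1 hd
      simp [this]
    rcases (Nat.Prime.dvd_mul hq).1 hd with hd | hd
    swap
    · have := (Nat.prime_dvd_prime_iff_eq hq prime_2).1 hd
      simp [this]
    rcases (Nat.Prime.dvd_mul hq).1 hd with hd | hd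
    swap
    · have := (Nat.prime_dvd_prime_iff_eq hq prime_2).1 hd
      simp [this]
    · have := (Nat.prime_dvd_prime_iff_eq hq prime_2).1 hd
      simp [this]
  rcases hcases with rfl | rfl | rfl | rfl | rfl | rfl
  · rw [← powModF_eq 120 34 ((16747228105523262714361 - 1) / 2) 16747228105523262714361 (by norm_num)]
    decide +kernel
  · rw [← powModF_eq 120 34 ((16747228105523262714361 - 1) / 3) 16747228105523262714361 (by norm_num)]
    decide +kernel
  · rw [← powModF_eq 120 34 ((16747228105523262714361 - 1) / 5) 16747228105523262714361 (by norm_num)]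
    decide +kernel
  · rw [← powModF_eq 120 34 ((16747228105523262714361 - 1) / 7) 16747228105523262714361 (by norm_num)]
    decide +kernel
  · rw [← powModF_eq 120 34 ((16747228105523262714361 - 1) / 503) 16747228105523262714361 (by norm_num)]
    decide +kernel
  · rw [← powModF_eq 120 34 ((16747228105523262714361 - 1) / 39636533431608593) 16747228105523262714361 (by norm_num)]
    decide +kernel

theorem prime_54276895434139407247582854229 : Nat.Prime 54276895434139407247582854229 := by
  refine lucas_nat 54276895434139407247582854229 2 (by norm_num) ?_ ?_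
  · rw [← powModF_eq 120 2 (54276895434139407247582854229 - 1) 54276895434139407247582854229 (by norm_num)]
    decide +kernel
  intro q hq hd
  have hfac : 54276895434139407247582854229 - 1 = 2 * 2 * 3 * 17 * 15887 * 16747228105523262714361 := by norm_num
  rw [hfac] at hd
  have hcases : q = 2 ∨ q = 3 ∨ q = 17 ∨ q = 15887 ∨ q = 16747228105523262714361 := by
    rcases (Nat.Prime.dvd_mul hq).1 hd with hd | hd
    swap
    · have := (Nat.prime_dvd_prime_iff_eq hq prime_16747228105523262714361).1 hd
      simp [this]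
    rcases (Nat.Prime.dvd_mul hq).1 hd with hd | hd
    swap
    · have := (Nat.prime_dvd_prime_iff_eq hq prime_15887).1 hd
      simp [this]
    rcases (Nat.Prime.dvd_mul hq).1 hd with hd | hd
    swap
    · have := (Nat.prime_dvd_prime_iff_eq hq prime_17).1 hd
      simp [this]
    rcases (Nat.Prime.dvd_mul hq).1 hd with hd | hd
    swap
    · have := (Nat.prime_dvd_prime_iff_eq hq prime_3).1 hd
      simp [this]
    rcases (Nat.Prime.dvd_mul hq).1 hd with hd | hd
    swap
    · have := (Nat.prime_dvd_prime_iff_eq hq prime_2).1 hd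
      simp [this]
    · have := (Nat.prime_dvd_prime_iff_eq hq prime_2).1 hd
      simp [this]
  rcases hcases with rfl | rfl | rfl | rfl | rfl
  · rw [← powModF_eq 120 2 ((54276895434139407247582854229 - 1) / 2) 54276895434139407247582854229 (by norm_num)]
    decide +kernel
  · rw [← powModF_eq 120 2 ((54276895434139407247582854229 - 1) / 3) 54276895434139407247582854229 (by norm_num)]
    decide +kernel
  · rw [← powModF_eq 120 2 ((54276895434139407247582854229 - 1) / 17) 54276895434139407247582854229 (by norm_num)]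
    decide +kernel
  · rw [← powModF_eq 120 2 ((54276895434139407247582854229 - 1) / 15887) 54276895434139407247582854229 (by norm_num)]
    decide +kernel
  · rw [← powModF_eq 120 2 ((54276895434139407247582854229 - 1) / 16747228105523262714361) 54276895434139407247582854229 (by norm_num)]
    decide +kernel

theorem prime_11 : Nat.Prime 11 := by norm_num

theorem prime_101 : Nat.Prime 101 := by norm_num

theorem prime_157 : Nat.Prime 157 := by norm_num

theorem prime_1979 : Nat.Prime 1979 := by norm_num

theorem prime_10093 : Nat.Prime 10093 := by norm_num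

theorem prime_16879 : Nat.Prime 16879 := by norm_num

theorem prime_5998279018951962403 : Nat.Prime 5998279018951962403 := by
  refine lucas_nat 5998279018951962403 3 (by norm_num) ?_ ?_
  · rw [← powModF_eq 120 3 (5998279018951962403 - 1) 5998279018951962403 (by norm_num)]
    decide +kernel
  intro q hq hd
  have hfac : 5998279018951962403 - 1 = 2 * 3 * 11 * 17 * 101 * 157 * 1979 * 10093 * 16879 := by norm_num
  rw [hfac] at hd
  have hcases : q = 2 ∨ q = 3 ∨ q = 11 ∨ q = 17 ∨ q = 101 ∨ q = 157 ∨ q = 1979 ∨ q = 10093 ∨ q = 16879 := by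
    rcases (Nat.Prime.dvd_mul hq).1 hd with hd | hd
    swap
    · have := (Nat.prime_dvd_prime_iff_eq hq prime_16879).1 hd
      simp [this]
    rcases (Nat.Prime.dvd_mul hq).1 hd with hd | hd
    swap
    · have := (Nat.prime_dvd_prime_iff_eq hq prime_10093).1 hd
      simp [this]
    rcases (Nat.Prime.dvd_mul hq).1 hd with hd | hd
    swap
    · have := (Nat.prime_dvd_prime_iff_eq hq prime_1979).1 hd
      simp [this]
    rcases (Nat.Prime.dvd_mul hq).1 hd with hd | hd
    swap
    · have := (Nat.prime_dvd_prime_iff_eq hq prime_157).1 hd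
      simp [this]
    rcases (Nat.Prime.dvd_mul hq).1 hd with hd | hd
    swap
    · have := (Nat.prime_dvd_prime_iff_eq hq prime_101).1 hd
      simp [this]
    rcases (Nat.Prime.dvd_mul hq).1 hd with hd | hd
    swap
    · have := (Nat.prime_dvd_prime_iff_eq hq prime_17).1 hd
      simp [this]
    rcases (Nat.Prime.dvd_mul hq).1 hd with hd | hd
    swap
    · have := (Nat.prime_dvd_prime_iff_eq hq prime_11).1 hd
      simp [this]
    rcases (Nat.Prime.dvd_mul hq).1 hd with hd | hd
    swap
    · have := (Nat.prime_dvd_prime_iff_eq hq prime_3).1 hd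
      simp [this]
    · have := (Nat.prime_dvd_prime_iff_eq hq prime_2).1 hd
      simp [this]
  rcases hcases with rfl | rfl | rfl | rfl | rfl | rfl | rfl | rfl | rfl
  · rw [← powModF_eq 120 3 ((5998279018951962403 - 1) / 2) 5998279018951962403 (by norm_num)]
    decide +kernel
  · rw [← powModF_eq 120 3 ((5998279018951962403 - 1) / 3) 5998279018951962403 (by norm_num)]
    decide +kernel
  · rw [← powModF_eq 120 3 ((5998279018951962403 - 1) / 11) 5998279018951962403 (by norm_num)]
    decide +kernel
  · rw [← powModF_eq 120 3 ((5998279018951962403 - 1) / 17) 5998279018951962403 (by norm_num)]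
    decide +kernel
  · rw [← powModF_eq 120 3 ((5998279018951962403 - 1) / 101) 5998279018951962403 (by norm_num)]
    decide +kernel
  · rw [← powModF_eq 120 3 ((5998279018951962403 - 1) / 157) 5998279018951962403 (by norm_num)]
    decide +kernel
  · rw [← powModF_eq 120 3 ((5998279018951962403 - 1) / 1979) 5998279018951962403 (by norm_num)]
    decide +kernel
  · rw [← powModF_eq 120 3 ((5998279018951962403 - 1) / 10093) 5998279018951962403 (by norm_num)]
    decide +kernel
  · rw [← powModF_eq 120 3 ((5998279018951962403 - 1) / 16879) 5998279018951962403 (by norm_num)]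
    decide +kernel

theorem prime_211 : Nat.Prime 211 := by norm_num

theorem prime_183571 : Nat.Prime 183571 := by
  refine lucas_nat 183571 2 (by norm_num) ?_ ?_
  · rw [← powModF_eq 120 2 (183571 - 1) 183571 (by norm_num)]
    decide +kernel
  intro q hq hd
  have hfac : 183571 - 1 = 2 * 3 * 5 * 29 * 211 := by norm_num
  rw [hfac] at hd
  have hcases : q = 2 ∨ q = 3 ∨ q = 5 ∨ q = 29 ∨ q = 211 := by
    rcases (Nat.Prime.dvd_mul hq).1 hd with hd | hd
    swap
    · have := (Nat.prime_dvd_prime_iff_eq hq prime_211).1 hd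
      simp [this]
    rcases (Nat.Prime.dvd_mul hq).1 hd with hd | hd
    swap
    · have := (Nat.prime_dvd_prime_iff_eq hq prime_29).1 hd
      simp [this]
    rcases (Nat.Prime.dvd_mul hq).1 hd with hd | hd
    swap
    · have := (Nat.prime_dvd_prime_iff_eq hq prime_5).1 hd
      simp [this]
    rcases (Nat.Prime.dvd_mul hq).1 hd with hd | hd
    swap
    · have := (Nat.prime_dvd_prime_iff_eq hq prime_3).1 hd
      simp [this]
    · have := (Nat.prime_dvd_prime_iff_eq hq prime_2).1 hd
      simp [this]
  rcases hcases with rfl | rfl | rfl | rfl | rfl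
  · rw [← powModF_eq 120 2 ((183571 - 1) / 2) 183571 (by norm_num)]
    decide +kernel
  · rw [← powModF_eq 120 2 ((183571 - 1) / 3) 183571 (by norm_num)]
    decide +kernel
  · rw [← powModF_eq 120 2 ((183571 - 1) / 5) 183571 (by norm_num)]
    decide +kernel
  · rw [← powModF_eq 120 2 ((183571 - 1) / 29) 183571 (by norm_num)]
    decide +kernel
  · rw [← powModF_eq 120 2 ((183571 - 1) / 211) 183571 (by norm_num)]
    decide +kernel

theorem prime_61 : Nat.Prime 61 := by norm_num

theorem prime_167 : Nat.Prime 167 := by norm_num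

theorem prime_733 : Nat.Prime 733 := by norm_num

theorem prime_17137 : Nat.Prime 17137 := by norm_num

/-- First prime solution of the equation with ten terms. -/
def solA : Fin 10 → ℕ := ![2, 3, 7, 61, 167, 733, 17137, 183571, 43296350362823, 54276895434139407247582854229]

/-- Second prime solution of the equation with ten terms. -/
def solB : Fin 10 → ℕ := ![2, 3, 11, 17, 101, 157, 1979, 10093, 16879, 5998279018951962403]

theorem monoA : StrictMono solA := by
  rw [Fin.strictMono_iff_lt_succ]
  intro i
  fin_cases i <;> simp [solA]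

theorem one_ltA : ∀ i, 1 < solA i := by
  intro i
  fin_cases i <;> simp [solA]

theorem primeA : ∀ i, Nat.Prime (solA i) := by
  intro i
  fin_cases i
  · exact prime_2
  · exact prime_3
  · exact prime_7
  · exact prime_61
  · exact prime_167
  · exact prime_733
  · exact prime_17137
  · exact prime_183571
  · exact prime_43296350362823
  · exact prime_54276895434139407247582854229

theorem eqA : (∑ i, (1 : ℚ) / (solA i : ℚ)) + 1 / (∏ i, (solA i : ℚ)) = 1 := by
  have h1 : (∑ i, (1 : ℚ) / (solA i : ℚ)) = (1 : ℚ) / ((2 : ℕ) : ℚ) + ((1 : ℚ) / ((3 : ℕ) : ℚ) + ((1 : ℚ) / ((7 : ℕ) : ℚ) + ((1 : ℚ) / ((61 : ℕ) : ℚ) + ((1 : ℚ) / ((167 : ℕ) : ℚ) + ((1 : ℚ) / ((733 : ℕ) : ℚ) + ((1 : ℚ) / ((17137 : ℕ) : ℚ) + ((1 : ℚ) / ((183571 : ℕ) : ℚ) + ((1 : ℚ) / ((43296350362823 : ℕ) : ℚ) + ((1 : ℚ) / ((54276895434139407247582854229 : ℕ) : ℚ)))))))))) := by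
    rw [Fin.sum_univ_succ, Fin.sum_univ_succ, Fin.sum_univ_succ, Fin.sum_univ_succ, Fin.sum_univ_succ, Fin.sum_univ_succ, Fin.sum_univ_succ, Fin.sum_univ_succ, Fin.sum_univ_succ, Fin.sum_univ_one]
    rfl
  have h2 : (∏ i, (solA i : ℚ)) = ((2 : ℕ) : ℚ) * (((3 : ℕ) : ℚ) * (((7 : ℕ) : ℚ) * (((61 : ℕ) : ℚ) * (((167 : ℕ) : ℚ) * (((733 : ℕ) : ℚ) * (((17137 : ℕ) : ℚ) * (((183571 : ℕ) : ℚ) * (((43296350362823 : ℕ) : ℚ) * (((54276895434139407247582854229 : ℕ) : ℚ)))))))))) := by
    rw [Fin.prod_univ_succ, Fin.prod_univ_succ, Fin.prod_univ_succ, Fin.prod_univ_succ, Fin.prod_univ_succ, Fin.prod_univ_succ, Fin.prod_univ_succ, Fin.prod_univ_succ, Fin.prod_univ_succ, Fin.prod_univ_one]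
    rfl
  rw [h1, h2]
  norm_num

theorem monoB : StrictMono solB := by
  rw [Fin.strictMono_iff_lt_succ]
  intro i
  fin_cases i <;> simp [solB]

theorem one_ltB : ∀ i, 1 < solB i := by
  intro i
  fin_cases i <;> simp [solB]

theorem primeB : ∀ i, Nat.Prime (solB i) := by
  intro i
  fin_cases i
  · exact prime_2
  · exact prime_3
  · exact prime_11
  · exact prime_17
  · exact prime_101
  · exact prime_157
  · exact prime_1979
  · exact prime_10093
  · exact prime_16879
  · exact prime_5998279018951962403

theorem eqB : (∑ i, (1 : ℚ) / (solB i : ℚ)) + 1 / (∏ i, (solB i : ℚ)) = 1 := by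
  have h1 : (∑ i, (1 : ℚ) / (solB i : ℚ)) = (1 : ℚ) / ((2 : ℕ) : ℚ) + ((1 : ℚ) / ((3 : ℕ) : ℚ) + ((1 : ℚ) / ((11 : ℕ) : ℚ) + ((1 : ℚ) / ((17 : ℕ) : ℚ) + ((1 : ℚ) / ((101 : ℕ) : ℚ) + ((1 : ℚ) / ((157 : ℕ) : ℚ) + ((1 : ℚ) / ((1979 : ℕ) : ℚ) + ((1 : ℚ) / ((10093 : ℕ) : ℚ) + ((1 : ℚ) / ((16879 : ℕ) : ℚ) + ((1 : ℚ) / ((5998279018951962403 : ℕ) : ℚ)))))))))) := by
    rw [Fin.sum_univ_succ, Fin.sum_univ_succ, Fin.sum_univ_succ, Fin.sum_univ_succ, Fin.sum_univ_succ, Fin.sum_univ_succ, Fin.sum_univ_succ, Fin.sum_univ_succ, Fin.sum_univ_succ, Fin.sum_univ_one]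
    rfl
  have h2 : (∏ i, (solB i : ℚ)) = ((2 : ℕ) : ℚ) * (((3 : ℕ) : ℚ) * (((11 : ℕ) : ℚ) * (((17 : ℕ) : ℚ) * (((101 : ℕ) : ℚ) * (((157 : ℕ) : ℚ) * (((1979 : ℕ) : ℚ) * (((10093 : ℕ) : ℚ) * (((16879 : ℕ) : ℚ) * (((5998279018951962403 : ℕ) : ℚ)))))))))) := by
    rw [Fin.prod_univ_succ, Fin.prod_univ_succ, Fin.prod_univ_succ, Fin.prod_univ_succ, Fin.prod_univ_succ, Fin.prod_univ_succ, Fin.prod_univ_succ, Fin.prod_univ_succ, Fin.prod_univ_succ, Fin.prod_univ_one]
    rfl
  rw [h1, h2]
  norm_num

/-- The negation of the preceding statement: For every s, any two strictly increasing s-tuples of primes (each above 1) satisfying sum of reciprocals plus reciprocal of their product equals 1 are identical, i.e. there is at most one prime solution. -/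
theorem result :
    ¬ (∀ s : ℕ, ∀ x y : Fin s → ℕ,
      StrictMono x → (∀ i, 1 < x i) → (∀ i, Nat.Prime (x i)) →
      (∑ i, (1 : ℚ) / (x i : ℚ)) + 1 / (∏ i, (x i : ℚ)) = 1 →
      StrictMono y → (∀ i, 1 < y i) → (∀ i, Nat.Prime (y i)) →
      (∑ i, (1 : ℚ) / (y i : ℚ)) + 1 / (∏ i, (y i : ℚ)) = 1 →
      x = y) := by
  intro h
  have h1 := h 10 solA solB monoA one_ltA primeA eqA monoB one_ltB primeB eqB
  have h2 := congrFun h1 2
  simp [solA, solB] at h2

end Pool.Agent.S17002
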