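import Pool.Statements.S17709
import Pool.Agent.Lib.MP_8ce656_nt.Main

set_option autoImplicit false
open Pool Pool.MP_8ce656_nt

namespace Pool.Agent.S17709

/-- A transcendental real ζ is Liouville iff for every n ≥ 1 the uniform exponent ŵ_n^*(ζ) equals 1. Here ŵ_n^*(ζ) is the supremum of w such that for all large H some real algebraic α of degree ≤ n, height ≤ H, has 0<∣ζ−α∣ ≤ H(α)^{-1}H^{-w}. -/
theorem result :
    ∀ ζ : ℝ, Transcendental ℤ ζ →
      (Liouville ζ ↔
        ∀ n : ℕ, 1 ≤ n →
          IsLUB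
            {w : ℝ | ∃ H₀ : ℝ, ∀ H : ℝ, H₀ ≤ H →
              ∃ α : ℝ, ∃ P : Polynomial ℤ,
                Irreducible P ∧ P.natDegree ≤ n ∧ Polynomial.aeval α P = 0 ∧
                (((Finset.range (P.natDegree + 1)).sup (fun i => (P.coeff i).natAbs) : ℕ) : ℝ) ≤ H ∧
                0 < |ζ - α| ∧
                |ζ - α| ≤
                  ((((Finset.range (P.natDegree + 1)).sup (fun i => (P.coeff i).natAbs) : ℕ) : ℝ))⁻¹
                    * H ^ (-w)}
            1) := by
  exact fun ζ hζ => Pool.Agent.Lib.MP_8ce656_nt.main ζ hζ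

end Pool.Agent.S17709
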