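-- The conjectured bound fails already for k = 2, s = 1: unions of small boxes at rational points
-- with prime denominators up to X^(4/5) carry too much of the mean square.
import Pool.Statements.S18512
import Pool.Agent.Lib.MP_ccba9a_nt.Weyl

set_option autoImplicit false
open Pool Pool.MP_ccba9a_nt

namespace Pool.Agent.S18512

open Finset MeasureTheory Pool.Agent.Lib.MP_ccba9a_nt

/-- the filler set, of measure `w` -/
def B0 (w : ℝ) : Set (Fin 2 → ℝ) :=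
  Set.pi Set.univ (fun j => Set.Ico (0:ℝ) ((![w, 1] : Fin 2 → ℝ) j))

lemma B0_vol (w : ℝ) (hw : 0 ≤ w) : (volume (B0 w)).toReal = w := by
  unfold B0
  rw [Real.volume_pi_Ico_toReal]
  · rw [Fin.prod_univ_two]
    simp
  · intro j
    fin_cases j
    · simpa using hw
    · simp

lemma B0_sub (w : ℝ) (hw : w ≤ 1) : B0 w ⊆ Set.pi Set.univ (fun _ => Set.Ico (0:ℝ) 1) := by
  intro α hα
  rw [B0, Set.mem_univ_pi] at hα
  rw [Set.mem_univ_pi]
  intro j
  have hj := hα j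
  fin_cases j
  · simp only [Set.mem_Ico, Fin.zero_eta, Matrix.cons_val_zero] at hj ⊢
    exact ⟨hj.1, lt_of_lt_of_le hj.2 hw⟩
  · simp only [Set.mem_Ico, Fin.mk_one, Matrix.cons_val_one, Matrix.cons_val_fin_one] at hj ⊢
    exact hj

lemma final_ineq (C : ℝ) (m : ℕ) (hm : 2 ≤ m) (hmC : 14155776 * |C| < m)
    (h : ∀ B : Set (Fin 2 → ℝ), MeasurableSet B →
        B ⊆ Set.pi Set.univ (fun _ => Set.Ico (0:ℝ) 1) →
        ((m:ℝ)^20)⁻¹ ≤ (volume B).toReal →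
        ∫ α in B, ‖F (m^40) α‖ ^ 2 ≤ C * m * ((m:ℝ)^40 * (volume B).toReal + ((m:ℝ)^40)⁻¹)) : False := by
  have hmR : (2:ℝ) ≤ m := by exact_mod_cast hm
  have hm0 : (0:ℝ) < m := by linarith
  have hX : 0 < m^40 := by positivity
  have hQX : m^32 ≤ m^40 := Nat.pow_le_pow_right (by omega) (by norm_num)
  have hS : ∀ s ∈ S (m^32), s.1.Prime ∧ s.1 ≤ m^32 ∧ 1 ≤ s.2 ∧ s.2 < s.1 := by
    intro s hs
    rw [S, Finset.mem_filter, Finset.mem_product, Nat.mem_primesLE, Nat.mem_primesLE] at hs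
    exact ⟨hs.1.1.2, hs.1.1.1, hs.1.2.2.one_le, hs.2⟩
  have hS' : ∀ s ∈ S (m^32), s.1.Prime ∧ s.1 ≤ m^40 ∧ 1 ≤ s.2 ∧ s.2 < s.1 := by
    intro s hs
    obtain ⟨h1, h2, h3⟩ := hS s hs
    exact ⟨h1, h2.trans hQX, h3⟩
  set w : ℝ := ((m:ℝ)^20)⁻¹ with hw
  have hw0 : 0 ≤ w := by positivity
  have hw1 : w ≤ 1 := by
    rw [hw]
    apply inv_le_one_of_one_le₀
    exact one_le_pow₀ (by linarith)
  set Tm := T (m^40) (S (m^32)) with hTm
  have hTsub : Tm ⊆ Set.pi Set.univ (fun _ => Set.Ico (0:ℝ) 1) := T_sub (m^40) hX _ hS'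
  have hTmeas : MeasurableSet Tm := T_meas _ _
  have hB0meas : MeasurableSet (B0 w) := MeasurableSet.univ_pi (fun _ => measurableSet_Ico)
  have hBsub : B0 w ∪ Tm ⊆ Set.pi Set.univ (fun _ => Set.Ico (0:ℝ) 1) :=
    Set.union_subset (B0_sub w hw1) hTsub
  have hBmeas : MeasurableSet (B0 w ∪ Tm) := hB0meas.union hTmeas
  have hunit : volume (Set.pi Set.univ (fun _ : Fin 2 => Set.Ico (0:ℝ) 1)) ≠ ⊤ := by
    rw [Real.volume_pi_Ico]
    exact ENNReal.prod_ne_top (fun _ _ => ENNReal.ofReal_ne_top)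
  have hBfin : volume (B0 w ∪ Tm) ≠ ⊤ := ne_top_of_le_ne_top hunit (measure_mono hBsub)
  have hTfin : volume Tm ≠ ⊤ := ne_top_of_le_ne_top hunit (measure_mono hTsub)
  have hB0fin : volume (B0 w) ≠ ⊤ := ne_top_of_le_ne_top hunit (measure_mono (B0_sub w hw1))
  have hvol1 : w ≤ (volume (B0 w ∪ Tm)).toReal := by
    refine le_trans (le_of_eq (B0_vol w hw0).symm) ?_
    exact ENNReal.toReal_mono hBfin (measure_mono Set.subset_union_left)
  have hTvol : (volume Tm).toReal ≤ w := by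
    refine (T_vol (m^40) (m^32) (S (m^32)) (fun s hs => (hS s hs).2.1)).trans ?_
    have hc : ((S (m^32)).card : ℝ) ≤ (2 * (m:ℝ)^32)^2 := by
      have h1 : ((S (m^32)).card : ℝ) ≤ (((m^32 + 1)^2 : ℕ) : ℝ) := by exact_mod_cast S_card_le (m^32)
      refine h1.trans ?_
      push_cast
      have : (1:ℝ) ≤ (m:ℝ)^32 := one_le_pow₀ (by linarith)
      gcongr
      linarith
    push_cast
    calc ((S (m^32)).card : ℝ) * (m:ℝ)^32 / (144 * ((m:ℝ)^40)^3)
        ≤ (2 * (m:ℝ)^32)^2 * (m:ℝ)^32 / (144 * ((m:ℝ)^40)^3) := by gcongr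
      _ = (1/36) * ((m:ℝ)^24)⁻¹ := by field_simp; norm_num
      _ ≤ 1 * ((m:ℝ)^20)⁻¹ := by
          gcongr
          · norm_num
          · linarith
          · norm_num
      _ = w := by rw [hw, one_mul]
  have hvol2 : (volume (B0 w ∪ Tm)).toReal ≤ 2 * w := by
    have h1 : (volume (B0 w ∪ Tm)).toReal ≤ (volume (B0 w)).toReal + (volume Tm).toReal := by
      rw [← ENNReal.toReal_add hB0fin hTfin]
      exact ENNReal.toReal_mono (ENNReal.add_ne_top.mpr ⟨hB0fin, hTfin⟩) (measure_union_le _ _)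
    rw [B0_vol w hw0] at h1
    linarith
  have hcont : Continuous (fun α => ‖F (m^40) α‖^2) := by
    have := F_cont (m^40)
    fun_prop
  have hint : IntegrableOn (fun α => ‖F (m^40) α‖^2) (B0 w ∪ Tm) := by
    have h1 : IntegrableOn (fun α => ‖F (m^40) α‖^2) (Set.Icc (0 : Fin 2 → ℝ) 1) :=
      hcont.continuousOn.integrableOn_compact isCompact_Icc
    refine h1.mono_set ?_
    intro α hα
    have := hBsub hα
    rw [Set.mem_univ_pi] at this
    exact ⟨fun j => (this j).1, fun j => (this j).2.le⟩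
  have hlow : ∫ α in Tm, ‖F (m^40) α‖^2 ≤ ∫ α in (B0 w ∪ Tm), ‖F (m^40) α‖^2 := by
    refine setIntegral_mono_set hint ?_ ?_
    · exact Filter.Eventually.of_forall (fun α => by positivity)
    · exact (Set.subset_union_right).eventuallyLE
  have hT := T_int (m^40) hX (S (m^32)) hS'
  have hupp := h (B0 w ∪ Tm) hBmeas hBsub hvol1
  -- lower bound for the number of pairs
  have hcard : (m:ℝ)^62 / 16384 ≤ ((S (m^32)).card : ℝ) := by
    have h1 : ((Nat.primeCounting (m^32) : ℝ))^2 ≤ 2 * ((S (m^32)).card : ℝ) + Nat.primeCounting (m^32) := by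
      exact_mod_cast S_card_ge (m^32)
    have h2 := pi_lower m hm
    set t : ℝ := (Nat.primeCounting (m^32) : ℝ) with ht
    have h31 : (2:ℝ)^31 ≤ (m:ℝ)^31 := by gcongr
    have h3 : (m:ℝ)^62 = ((m:ℝ)^31)^2 := by ring
    rw [h3]
    have h4 : (2:ℝ) ≤ (m:ℝ)^31/64 := by
      have : (2:ℝ) ≤ (2:ℝ)^31/64 := by norm_num
      linarith
    have h5 : (0:ℝ) ≤ (m:ℝ)^31/64 := by linarith
    have h6 : ((m:ℝ)^31/64)^2 ≤ t^2 := by gcongr
    nlinarith
  have hLHS : (m:ℝ)^22 / 4718592 ≤ ∫ α in (B0 w ∪ Tm), ‖F (m^40) α‖^2 := by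
    refine le_trans ?_ (hT.trans hlow)
    push_cast
    calc (m:ℝ)^22 / 4718592 = ((m:ℝ)^62 / 16384) / (288 * (m:ℝ)^40) := by field_simp; norm_num
      _ ≤ _ := by gcongr
  have hRHS : ∫ α in (B0 w ∪ Tm), ‖F (m^40) α‖^2 ≤ |C| * (3 * (m:ℝ)^21) := by
    refine hupp.trans ?_
    calc C * m * ((m:ℝ)^40 * (volume (B0 w ∪ Tm)).toReal + ((m:ℝ)^40)⁻¹)
        ≤ |C| * m * ((m:ℝ)^40 * (2 * w) + (m:ℝ)^20) := by
          have hnn : 0 ≤ (m:ℝ)^40 * (volume (B0 w ∪ Tm)).toReal + ((m:ℝ)^40)⁻¹ := by positivity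
          have h1 : ((m:ℝ)^40)⁻¹ ≤ (m:ℝ)^20 := by
            have e1 : ((m:ℝ)^40)⁻¹ ≤ 1 := inv_le_one_of_one_le₀ (one_le_pow₀ (by linarith))
            have e2 : (1:ℝ) ≤ (m:ℝ)^20 := one_le_pow₀ (by linarith)
            linarith
          have h2 : C * m ≤ |C| * m := by
            gcongr
            exact le_abs_self C
          calc _ ≤ |C| * m * ((m:ℝ)^40 * (volume (B0 w ∪ Tm)).toReal + ((m:ℝ)^40)⁻¹) :=
                mul_le_mul_of_nonneg_right h2 hnn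
            _ ≤ _ := by gcongr
      _ = |C| * (3 * (m:ℝ)^21) := by
          rw [hw]
          field_simp
          norm_num
  have hfin := hLHS.trans hRHS
  have h22 : (m:ℝ)^22 = (m:ℝ)^21 * m := by ring
  rw [h22] at hfin
  have hm21 : (0:ℝ) < (m:ℝ)^21 := by positivity
  have : (m:ℝ) ≤ 14155776 * |C| := by
    have h1 : (m:ℝ)^21 * m ≤ (m:ℝ)^21 * (14155776 * |C|) := by
      have : (m:ℝ)^21 * m = 4718592 * ((m:ℝ)^21 * m / 4718592) := by ring
      rw [this]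
      calc 4718592 * ((m:ℝ)^21 * m / 4718592) ≤ 4718592 * (|C| * (3 * (m:ℝ)^21)) := by gcongr
        _ = _ := by ring
    exact le_of_mul_le_mul_left h1 hm21
  linarith

/-- The negation of the preceding statement: For k≥1, s>0, c>0, ε>0 there is C such that for all X≥1 and measurable B in [0,1)^k with measure at least c·X^(1−k(k+1)/4), the integral over B of ∣Σ_{x≤X} e(α₁x+…+α_kx^k)∣^(2s) is at most C·X^ε·(X^s·mes B + X^(2s−k(k+1)/2)). -/
theorem result :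
    ¬ (∀ k : ℕ, 1 ≤ k → ∀ s : ℝ, 0 < s → ∀ c : ℝ, 0 < c → ∀ ε : ℝ, 0 < ε →
      ∃ C : ℝ, ∀ X : ℕ, 1 ≤ X → ∀ B : Set (Fin k → ℝ), MeasurableSet B →
        B ⊆ Set.pi Set.univ (fun _ => Set.Ico (0:ℝ) 1) →
        c * (X:ℝ) ^ (1 - (k:ℝ) * ((k:ℝ) + 1) / 4) ≤ (MeasureTheory.volume B).toReal →
        ∫ α in B, ‖∑ x ∈ Finset.Icc 1 X,
            Complex.exp (2 * (Real.pi:ℂ) * Complex.I *
              ∑ j : Fin k, (α j : ℂ) * (x:ℂ) ^ ((j:ℕ) + 1))‖ ^ (2 * s)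
          ≤ C * (X:ℝ) ^ ε * ((X:ℝ) ^ s * (MeasureTheory.volume B).toReal
              + (X:ℝ) ^ (2 * s - (k:ℝ) * ((k:ℝ) + 1) / 2))) := by
  intro H
  obtain ⟨C, hC⟩ := H 2 (by norm_num) 1 one_pos 1 one_pos (1/40) (by norm_num)
  obtain ⟨m0, hm0⟩ := exists_nat_gt (14155776 * |C|)
  set m := m0 + 2 with hm
  have hm2 : 2 ≤ m := by omega
  have hmR : (2:ℝ) ≤ m := by exact_mod_cast hm2
  have hmpos : (0:ℝ) < m := by linarith
  refine final_ineq C m hm2 ?_ ?_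
  · have : (m0:ℝ) ≤ m := by exact_mod_cast (by omega : m0 ≤ m)
    linarith
  · intro B hB hBs hvol
    have h1 := hC (m^40) (Nat.one_le_pow _ _ (by omega)) B hB hBs ?_
    · have e1 : ((m^40 : ℕ):ℝ) = (m:ℝ)^40 := by push_cast; rfl
      have e2 : ((m^40 : ℕ):ℝ) ^ ((1:ℝ)/40) = m := by
        rw [e1, ← Real.rpow_natCast, ← Real.rpow_mul hmpos.le]
        norm_num
      have e3 : ((m^40 : ℕ):ℝ) ^ (2 * (1:ℝ) - ((2:ℕ):ℝ) * (((2:ℕ):ℝ) + 1) / 2) = ((m:ℝ)^40)⁻¹ := by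
        rw [e1]
        rw [show (2 * (1:ℝ) - ((2:ℕ):ℝ) * (((2:ℕ):ℝ) + 1) / 2) = -1 by push_cast; norm_num]
        rw [Real.rpow_neg_one]
      have e4 : ∀ z : ℂ, ‖z‖ ^ (2 * (1:ℝ)) = ‖z‖^2 := by
        intro z
        rw [mul_one]
        exact_mod_cast Real.rpow_natCast ‖z‖ 2
      rw [e2, e3, Real.rpow_one, e1] at h1
      simp_rw [e4] at h1
      exact h1
    · refine le_trans (le_of_eq ?_) hvol
      rw [one_mul]
      rw [show (1 - ((2:ℕ):ℝ) * (((2:ℕ):ℝ) + 1) / 4) = -(1/2:ℝ) by push_cast; norm_num]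
      push_cast
      rw [← Real.rpow_natCast, ← Real.rpow_mul hmpos.le, ← Real.rpow_natCast, ← Real.rpow_neg hmpos.le]
      norm_num

end Pool.Agent.S18512
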