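import Pool.Statements.S18883
import Pool.Agent.Lib.MP_ed6e5c_nt.Main

set_option autoImplicit false
open Pool Pool.MP_ed6e5c_nt

namespace Pool.Agent.S18883

open Pool.Agent.Lib.MP_ed6e5c_nt

/-- `(1,0,0)` gives the whole plane. -/
theorem good_one {d : ℕ → ℕ} (hd : ∀ n, 2 ≤ d n) (j k x y : ℝ) : Good d 1 j k x y := by
  refine ⟨1 / 2, by norm_num, ?_⟩
  intro q hq
  by_contra hcon
  push Not at hcon
  obtain ⟨h1, -, -⟩ := hcon
  rw [if_neg one_ne_zero] at h1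
  obtain ⟨n, hn1, hn2⟩ := dvd_of_not hd (i := 1) (c := 1 / 2) one_pos (by norm_num) hq
    (not_lt.mpr h1)
  have h2 := Nat.le_of_dvd hq hn1
  rw [Real.rpow_one] at hn2
  have h3 : (Dn d n : ℝ) ≤ q := by exact_mod_cast h2
  have h4 : (0 : ℝ) < q := by exact_mod_cast hq
  have h5 : (q : ℝ) / (1 / 2) = 2 * q := by ring
  rw [h5] at hn2
  linarith

/-- swapping the two coordinates -/
theorem good_swap {d : ℕ → ℕ} {i j k x y : ℝ} (h : Good d i j k x y) : Good d i k j y x := by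
  obtain ⟨c, hc, h⟩ := h
  refine ⟨c, hc, ?_⟩
  intro q hq
  rcases h q hq with h1 | h1 | h1
  · left; exact h1
  · right; right; exact h1
  · right; left; exact h1

/-- when `k = 0` the second coordinate does not matter -/
theorem good_indep {d : ℕ → ℕ} {i j x y : ℝ} (y' : ℝ) (h : Good d i j 0 x y) :
    Good d i j 0 x y' := by
  obtain ⟨c, hc, h⟩ := h
  refine ⟨c, hc, ?_⟩
  intro q hq
  rcases h q hq with h1 | h1 | h1
  · left; exact h1
  · right; left; exact h1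
  · rw [if_pos rfl, mul_zero] at h1
    exact absurd h1 (not_lt.mpr hc.le)

/-- a single set is nonempty -/
theorem single {d : ℕ → ℕ} (hd : ∀ n, 2 ≤ d n) (hM : ∃ M : ℕ, ∀ n, d n ≤ M) {i j k : ℝ}
    (hi : 0 ≤ i) (hj : 0 ≤ j) (hk : 0 ≤ k) (hs : i + j + k = 1) : ∃ x y, Good d i j k x y := by
  rcases hk.eq_or_lt with hk0 | hk0
  · rcases hj.eq_or_lt with hj0 | hj0
    · have hi1 : i = 1 := by linarith
      refine ⟨0, 0, ?_⟩
      rw [hi1]
      exact good_one hd _ _ _ _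
    · obtain ⟨x, y, h⟩ := main_pos hd hM (fun _ => i) (fun _ => k) (fun _ => j)
        (fun _ => ⟨hi, hk, hj0, by linarith⟩)
      exact ⟨y, x, good_swap (h 0)⟩
  · obtain ⟨x, y, h⟩ := main_pos hd hM (fun _ => i) (fun _ => j) (fun _ => k)
      (fun _ => ⟨hi, hj, hk0, hs⟩)
    exact ⟨x, y, h 0⟩

/-- The theorem in terms of `Good`. -/
theorem all {d : ℕ → ℕ} (hd : ∀ n, 2 ≤ d n) (hM : ∃ M : ℕ, ∀ n, d n ≤ M) (i j k : Fin 2 → ℝ)
    (h : ∀ t, 0 ≤ i t ∧ 0 ≤ j t ∧ 0 ≤ k t ∧ i t + j t + k t = 1) :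
    ∃ x y : ℝ, ∀ t, Good d (i t) (j t) (k t) x y := by
  by_cases hk : ∀ t, 0 < k t
  · exact main_pos hd hM i j k (fun t => ⟨(h t).1, (h t).2.1, hk t, (h t).2.2.2⟩)
  by_cases hj : ∀ t, 0 < j t
  · obtain ⟨x, y, h'⟩ := main_pos hd hM i k j
      (fun t => ⟨(h t).1, (h t).2.2.1, hj t, by linarith [(h t).2.2.2]⟩)
    exact ⟨y, x, fun t => good_swap (h' t)⟩
  push Not at hk hj
  obtain ⟨t1, ht1⟩ := hk
  obtain ⟨t2, ht2⟩ := hj
  have hk1 : k t1 = 0 := le_antisymm ht1 (h t1).2.2.1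
  have hj2 : j t2 = 0 := le_antisymm ht2 (h t2).2.1
  by_cases hne : t1 = t2
  · subst hne
    have hi1 : i t1 = 1 := by have := (h t1).2.2.2; linarith
    -- the other index
    obtain ⟨t', ht'⟩ : ∃ t' : Fin 2, ∀ t, t = t1 ∨ t = t' := by
      refine ⟨if t1 = 0 then 1 else 0, ?_⟩
      intro t
      fin_cases t <;> fin_cases t1 <;> simp
    obtain ⟨x, y, hxy⟩ := single hd hM (h t').1 (h t').2.1 (h t').2.2.1 (h t').2.2.2
    refine ⟨x, y, ?_⟩
    intro t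
    rcases ht' t with rfl | rfl
    · rw [hi1]; exact good_one hd _ _ _ _
    · exact hxy
  · have hall : ∀ t, t = t1 ∨ t = t2 := by
      intro t
      fin_cases t <;> fin_cases t1 <;> fin_cases t2 <;> simp_all
    obtain ⟨x1, y1, h1⟩ := single hd hM (h t1).1 (h t1).2.1 (h t1).2.2.1 (h t1).2.2.2
    obtain ⟨x2, y2, h2⟩ := single hd hM (h t2).1 (h t2).2.1 (h t2).2.2.1 (h t2).2.2.2
    refine ⟨x1, y2, ?_⟩
    intro t
    rcases hall t with rfl | rfl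
    · rw [hk1] at h1 ⊢
      exact good_indep y2 h1
    · rw [hj2] at h2 ⊢
      exact good_swap (good_indep x1 (good_swap h2))

/-- For every bounded integer sequence with terms at least 2 and any two admissible weight triples, some point (x,y) lies in both mixed sets Bad_D(i,j,k), with the convention u^(1/0)=0. -/
theorem result :
  ∀ d : ℕ → ℕ, (∀ n, 2 ≤ d n) → (∃ M : ℕ, ∀ n, d n ≤ M) →
  ∀ i j k : Fin 2 → ℝ,
    (∀ t, 0 ≤ i t ∧ i t ≤ 1 ∧ 0 ≤ j t ∧ j t ≤ 1 ∧ 0 ≤ k t ∧ k t ≤ 1 ∧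
      i t + j t + k t = 1) →
    ∃ x y : ℝ, ∀ t : Fin 2, ∃ c : ℝ, 0 < c ∧ ∀ q : ℕ, 0 < q →
      ((q : ℝ) * (if i t = 0 then 0 else
          (sInf ((fun n : ℕ => (1 : ℝ) / ((∏ m ∈ Finset.range n, d m : ℕ) : ℝ)) ''
            {n : ℕ | (∏ m ∈ Finset.range n, d m) ∣ q})) ^ (1 / i t)) > c ∨
       (q : ℝ) * (if j t = 0 then 0 else
          |(q : ℝ) * x - (round ((q : ℝ) * x) : ℝ)| ^ (1 / j t)) > c ∨
       (q : ℝ) * (if k t = 0 then 0 else
          |(q : ℝ) * y - (round ((q : ℝ) * y) : ℝ)| ^ (1 / k t)) > c) := by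
  intro d hd hM i j k h
  exact all hd hM i j k (fun t => ⟨(h t).1, (h t).2.2.1, (h t).2.2.2.2.1, (h t).2.2.2.2.2.2⟩)

end Pool.Agent.S18883
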